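import Mathlib
import Pool.Agent.Lib.MP_49c83e_al.Three.Stm

/-!
MP_49c83e_al, Theorem III, piece A1: finite polynomial expansions.
-/

namespace Pool.Agent.Sp49.Three

variable (k : Type) [Field k] [IsAlgClosed k]

omit [IsAlgClosed k] in
private theorem a1_one (X : Ob k) [Infinite k] (v : X.V) :
    ∃ N : ℕ, ∀ i, N ≤ i → cof (fun t => X.ρ (xx t) v) i = 0 ∧ cof (fun t => X.ρ (yy t) v) i = 0 := by
  obtain ⟨N, hN⟩ := exists_bound (cof (fun t => X.ρ (xx t) v))
  obtain ⟨M, hM⟩ := exists_bound (cof (fun t => X.ρ (yy t) v))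
  exact ⟨max N M, fun i hi => ⟨hN i (le_trans (le_max_left _ _) hi), hM i (le_trans (le_max_right _ _) hi)⟩⟩

theorem p_A1 : S_A1 k := by
  intro X
  have h1 : ∀ v : X.V, ∃ N : ℕ, ∀ i, N ≤ i → ee X i v = 0 ∧ ff X i v = 0 := fun v => a1_one k X v
  choose f hf using h1
  obtain ⟨s, hs⟩ := Module.Finite.fg_top (R := k) (M := X.V)
  have h2 : ∀ v : X.V, ∀ i, s.sup f ≤ i → ee X i v = 0 ∧ ff X i v = 0 := by
    intro v i hi
    have hv : v ∈ Submodule.span k (s : Set X.V) := by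
      rw [hs]
      trivial
    induction hv using Submodule.span_induction with
    | mem v hv => exact hf v i (le_trans (Finset.le_sup (Finset.mem_coe.mp hv)) hi)
    | zero => exact ⟨map_zero _, map_zero _⟩
    | add u v _ _ hu hv => rw [map_add, map_add, hu.1, hu.2, hv.1, hv.2, add_zero]; exact ⟨rfl, rfl⟩
    | smul c v _ hv => rw [map_smul, map_smul, hv.1, hv.2, smul_zero]; exact ⟨rfl, rfl⟩
  refine ⟨s.sup f, fun v => ⟨fun t => ?_, fun t => ?_, fun i hi => h2 v i hi⟩⟩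
  · rw [xx_pev, pev_eq_sum _ (s.sup f) (fun i hi => (h2 v i hi).1)]
    rfl
  · rw [yy_pev, pev_eq_sum _ (s.sup f) (fun i hi => (h2 v i hi).2)]
    rfl

end Pool.Agent.Sp49.Three
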