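import Mathlib
import Pool.Agent.Lib.MP_49c83e_al.Three.Stm

/-!
MP_49c83e_al, Theorem III, piece A10.
-/

namespace Pool.Agent.Sp49.Three

open Matrix TensorProduct

variable (k : Type) [Field k] [IsAlgClosed k]

/-- the Weyl element -/
def a10_w (k : Type) [Field k] : SL2 k := ⟨!![0, -1; 1, 0], by simp [Matrix.det_fin_two]⟩

omit [IsAlgClosed k] in
theorem a10_mat (s : kˣ) :
    (yy (s : k) : SL2 k) = xx ((s⁻¹ : kˣ) : k) * a10_w k * hh s * xx ((s⁻¹ : kˣ) : k) := by
  apply Subtype.ext
  rw [Matrix.SpecialLinearGroup.coe_mul, Matrix.SpecialLinearGroup.coe_mul,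
    Matrix.SpecialLinearGroup.coe_mul]
  simp only [yy, xx, hh, a10_w]
  ext i j
  fin_cases i <;> fin_cases j <;> simp [Matrix.mul_apply, Fin.sum_univ_two]

omit [IsAlgClosed k] in
theorem a10_pev_sum {V : Type} [AddCommGroup V] [Module k V] (s : Finset ℕ) (e : ℕ → ℕ)
    (φ : ℕ → V) (t : k) :
    pev (∑ i ∈ s, Finsupp.single (e i) (φ i)) t = ∑ i ∈ s, t ^ (e i) • φ i := by
  classical
  induction s using Finset.induction_on with
  | empty => simp [pev_zero]
  | insert a s ha ih =>
    rw [Finset.sum_insert ha, Finset.sum_insert ha, pev_add, pev_single, ih]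

theorem p_A10 (hA5 : S_A5 k) : S_A10 k := by
  intro X a v hv
  obtain ⟨F, hF⟩ : ∃ F : ℕ →₀ X.V, ∀ t, X.ρ (yy t) v = pev F t := (X.rat v).2
  obtain ⟨G, hG⟩ : ∃ G : ℕ →₀ X.V, ∀ t, X.ρ (xx t) (X.ρ (a10_w k) v) = pev G t :=
    (X.rat _).1
  have hF0 : F 0 = v := by
    rw [← pev_at_zero (k := k) F, ← hF 0]
    have : (yy (0 : k) : SL2 k) = 1 := by
      ext i j
      fin_cases i <;> fin_cases j <;> simp [yy]
    rw [this, map_one]
    rfl
  obtain ⟨N1, hN1⟩ := exists_bound F
  obtain ⟨N2, hN2⟩ := exists_bound G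
  obtain ⟨N, hN⟩ : ∃ N, N = max N1 N2 := ⟨_, rfl⟩
  have hFN : ∀ i, N ≤ i → F i = 0 := fun i hi => hN1 i (by omega)
  have hGN : ∀ i, N ≤ i → G i = 0 := fun i hi => hN2 i (by omega)
  have key : ∀ s : kˣ, X.ρ (yy (s : k)) v =
      ((s ^ a : kˣ) : k) • X.ρ (xx ((s⁻¹ : kˣ) : k)) (X.ρ (a10_w k) v) := by
    intro s
    rw [a10_mat, map_mul, map_mul, map_mul, Module.End.mul_apply, Module.End.mul_apply,
      Module.End.mul_apply, hv.2, hv.1 s, map_smul, map_smul]
  have main : ∀ b : ℕ, a = -(b : ℤ) → ∀ j, 0 < b + j → F j = 0 := by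
    intro b hb j hj
    have e : ∀ s : k, pev (∑ i ∈ Finset.range N, Finsupp.single (N + b + i) (F i)) s =
        pev (∑ i ∈ Finset.range N, Finsupp.single (N - i) (G i)) s := by
      intro s
      rw [a10_pev_sum, a10_pev_sum]
      by_cases hs : s = 0
      · subst hs
        rw [Finset.sum_eq_zero, Finset.sum_eq_zero]
        · intro i hi
          rw [Finset.mem_range] at hi
          rw [zero_pow (by omega), zero_smul]
        · intro i hi
          rw [Finset.mem_range] at hi
          rw [zero_pow (by omega), zero_smul]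
      · obtain ⟨u, rfl⟩ : ∃ u : kˣ, s = u := ⟨Units.mk0 s hs, rfl⟩
        have h1 := key u
        rw [hF, hG, pev_eq_sum F N hFN, pev_eq_sum G N hGN] at h1
        have h2 := congrArg (fun x => ((u : k) ^ (N + b)) • x) h1
        simp only [Finset.smul_sum, smul_smul] at h2
        refine Eq.trans ?_ (h2.trans ?_)
        · refine Finset.sum_congr rfl fun i _ => ?_
          rw [← pow_add]
        · refine Finset.sum_congr rfl fun i hi => ?_
          rw [Finset.mem_range] at hi
          congr 1
          have h3 : u ^ (N + b) * u ^ a * (u⁻¹) ^ i = u ^ (N - i) := by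
            rw [hb, inv_pow, ← zpow_natCast, ← zpow_natCast, ← zpow_natCast, ← _root_.zpow_neg,
              ← _root_.zpow_add, ← _root_.zpow_add]
            congr 1
            push_cast [Nat.cast_sub hi.le]
            ring
          have h4 := congrArg (fun x : kˣ => (x : k)) h3
          simp only [Units.val_mul, Units.val_pow_eq_pow_val] at h4
          rw [← h4]
          ring
    have e2 := DFunLike.congr_fun (pev_inj (k := k) _ _ e) (N + b + j)
    rw [Finsupp.finsetSum_apply, Finsupp.finsetSum_apply] at e2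
    rw [Finset.sum_eq_zero (s := Finset.range N) (f := fun i => (Finsupp.single (N - i) (G i) : ℕ →₀ X.V) (N + b + j))] at e2
    · by_cases hjN : j < N
      · rw [Finset.sum_eq_single j] at e2
        · simpa using e2
        · intro i _ hij
          rw [Finsupp.single_apply, if_neg (by omega)]
        · intro h
          exact absurd (Finset.mem_range.2 hjN) h
      · exact hFN j (by omega)
    · intro i _
      rw [Finsupp.single_apply, if_neg (by omega)]
  refine ⟨fun ha => ?_, fun ha => ?_⟩
  · rw [← hF0]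
    exact main (-a).toNat (by omega) 0 (by omega)
  · refine hA5.2.2 X v hv.2 ?_
    intro t
    have hj := main 0 (by simpa using ha)
    rw [hF, pev_eq_sum F (N + 1) (fun i hi => hFN i (by omega)), Finset.sum_eq_single 0]
    · rw [hF0, pow_zero, one_smul]
    · intro i _ hi
      rw [hj i (by omega), smul_zero]
    · intro h
      exact absurd (Finset.mem_range.2 (Nat.succ_pos N)) h

end Pool.Agent.Sp49.Three
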