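import Mathlib
import Pool.Agent.Lib.MP_49c83e_al.Three.Stm

/-!
MP_49c83e_al, Theorem III, piece A2: naturality of the divided powers, weights, and the Casimir
operator.
-/

namespace Pool.Agent.Sp49.Three

open Matrix TensorProduct

variable (k : Type) [Field k] [IsAlgClosed k]

theorem p_A2 : S_A2 k := by
  have hx0 : xx (0 : k) = 1 := by
    apply Subtype.ext
    ext i j
    fin_cases i <;> fin_cases j <;> simp [xx]
  have hy0 : yy (0 : k) = 1 := by
    apply Subtype.ext
    ext i j
    fin_cases i <;> fin_cases j <;> simp [yy]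
  refine ⟨fun X v => ⟨?_, ?_⟩, fun X Y f hf => ?_⟩
  · show cof (fun t => X.ρ (xx t) v) 0 = v
    rw [cof_zero_eq (X.rat v).1, hx0, map_one, Module.End.one_apply]
  · show cof (fun t => X.ρ (yy t) v) 0 = v
    rw [cof_zero_eq (X.rat v).2, hy0, map_one, Module.End.one_apply]
  · have he : ∀ i v, f (ee X i v) = ee Y i (f v) := by
      intro i v
      show f (cof (fun t => X.ρ (xx t) v) i) = cof (fun t => Y.ρ (xx t) (f v)) i
      rw [← cof_map f (X.rat v).1 i]
      simp only [hf _ v]
    have hff : ∀ i v, f (ff X i v) = ff Y i (f v) := by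
      intro i v
      show f (cof (fun t => X.ρ (yy t) v) i) = cof (fun t => Y.ρ (yy t) (f v)) i
      rw [← cof_map f (X.rat v).2 i]
      simp only [hf _ v]
    have hwt : ∀ a, ∀ v ∈ wt X a, f v ∈ wt Y a := by
      intro a v hv s
      rw [← hf, hv s, map_smul]
    have hhop : ∀ v, f (hop X v) = hop Y (f v) := by
      intro v
      show f (ee X 1 (ff X 1 v) - ff X 1 (ee X 1 v)) =
        ee Y 1 (ff Y 1 (f v)) - ff Y 1 (ee Y 1 (f v))
      rw [map_sub, he, hff, hff, he]
    refine ⟨fun i v => ⟨he i v, hff i v⟩, hwt, fun a v hv => ⟨hwt a v hv.1, fun t => ?_⟩, ?_,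
      hhop, fun v => ?_⟩
    · rw [← hf, hv.2 t]
    · intro v hv
      refine Submodule.span_induction ?_ ?_ ?_ ?_ hv
      · rintro _ ⟨t, w, rfl⟩
        refine Submodule.subset_span ⟨t, f w, ?_⟩
        rw [map_sub, hf]
      · rw [map_zero]
        exact zero_mem _
      · intro u w _ _ hu hw
        rw [map_add]
        exact add_mem hu hw
      · intro c u _ hu
        rw [map_smul]
        exact Submodule.smul_mem _ _ hu
    · show f ((4 : k) • ff X 1 (ee X 1 v) + (hop X (hop X v + v) + (hop X v + v))) =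
        (4 : k) • ff Y 1 (ee Y 1 (f v)) + (hop Y (hop Y (f v) + f v) + (hop Y (f v) + f v))
      rw [map_add, map_smul, hff, he, map_add, hhop, map_add, hhop]

end Pool.Agent.Sp49.Three
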