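import Mathlib
import Pool.Agent.Lib.MP_49c83e_al.Three.Stm

/-!
MP_49c83e_al, Theorem III, piece A3: products of divided powers.
-/

namespace Pool.Agent.Sp49.Three

section
variable {k : Type} [Field k] {V : Type} [AddCommGroup V] [Module k V]

/-- uniqueness of coefficients, one variable -/
theorem a3_one [Infinite k] (N : ℕ) (a : ℕ → V)
    (h : ∀ t : k, ∑ i ∈ Finset.range N, t ^ i • a i = 0) : ∀ i < N, a i = 0 := by
  classical
  intro i hi
  let c : ℕ →₀ V := Finsupp.onFinset (Finset.range N) (fun i => if i < N then a i else 0)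
    (fun i hi => by
      rw [Finset.mem_range]
      by_contra hN
      exact hi (if_neg hN))
  have hc : c = 0 := by
    apply pev_inj (k := k)
    intro t
    rw [pev_zero, pev_eq_sum c N, ← h t]
    · apply Finset.sum_congr rfl
      intro j hj
      have : c j = a j := if_pos (Finset.mem_range.mp hj)
      rw [this]
    · intro j hj
      exact if_neg (by omega)
  have : c i = a i := if_pos hi
  rw [← this, hc]
  rfl

/-- uniqueness of coefficients, two variables -/
theorem a3_two [Infinite k] (N : ℕ) (a b : ℕ → ℕ → V)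
    (h : ∀ s t : k, ∑ i ∈ Finset.range N, ∑ j ∈ Finset.range N, (s ^ i * t ^ j) • a i j =
      ∑ i ∈ Finset.range N, ∑ j ∈ Finset.range N, (s ^ i * t ^ j) • b i j) :
    ∀ i < N, ∀ j < N, a i j = b i j := by
  intro i hi j hj
  have h1 : ∀ t : k, ∀ i < N, ∑ j ∈ Finset.range N, t ^ j • (a i j - b i j) = 0 := by
    intro t
    apply a3_one (k := k) N
    intro s
    rw [← sub_eq_zero.mpr (h s t), ← Finset.sum_sub_distrib]
    apply Finset.sum_congr rfl
    intro i _
    rw [← Finset.sum_sub_distrib, Finset.smul_sum]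
    apply Finset.sum_congr rfl
    intro j _
    rw [smul_smul, smul_sub]
  exact sub_eq_zero.mp (a3_one (k := k) N (fun j => a i j - b i j) (fun t => h1 t i hi) j hj)

/-- the abstract form of A3 -/
theorem a3_main [Infinite k] (g : k → V →ₗ[k] V) (e : ℕ → V →ₗ[k] V) (N : ℕ)
    (hg : ∀ s t v, g s (g t v) = g (s + t) v)
    (he : ∀ t v, g t v = ∑ i ∈ Finset.range N, t ^ i • e i v)
    (h0 : ∀ i, N ≤ i → ∀ v, e i v = 0) (i j : ℕ) (v : V) :
    e i (e j v) = ((i + j).choose i : k) • e (i + j) v := by
  by_cases hi : i < N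
  swap
  · rw [h0 i (by omega), h0 (i + j) (by omega), smul_zero]
  by_cases hj : j < N
  swap
  · rw [h0 j (by omega), h0 (i + j) (by omega), smul_zero, map_zero]
  refine a3_two (k := k) N (fun i j => e i (e j v))
    (fun i j => ((i + j).choose i : k) • e (i + j) v) ?_ i hi j hj
  intro s t
  have h1 : g s (g t v) = ∑ i ∈ Finset.range N, ∑ j ∈ Finset.range N, (s ^ i * t ^ j) • e i (e j v) := by
    rw [he s]
    apply Finset.sum_congr rfl
    intro i _
    rw [he t, map_sum, Finset.smul_sum]
    apply Finset.sum_congr rfl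
    intro j _
    rw [map_smul, smul_smul]
  rw [← h1, hg, he]
  have h2 : ∀ n ∈ Finset.range N, (s + t) ^ n • e n v = ∑ m ∈ Finset.range (n + 1),
      (fun m l => (s ^ m * t ^ l) • (((m + l).choose m : k) • e (m + l) v)) m (n - m) := by
    intro n _
    rw [add_pow, Finset.sum_smul]
    apply Finset.sum_congr rfl
    intro m hm
    have hm' : m + (n - m) = n := by
      have := Finset.mem_range.mp hm
      omega
    show (s ^ m * t ^ (n - m) * (n.choose m : k)) • e n v = (s ^ m * t ^ (n - m)) •
      (((m + (n - m)).choose m : k) • e (m + (n - m)) v)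
    rw [hm', smul_smul]
  rw [Finset.sum_congr rfl h2, Finset.sum_range_diag_flip N
    (fun m l => (s ^ m * t ^ l) • (((m + l).choose m : k) • e (m + l) v))]
  apply Finset.sum_congr rfl
  intro m _
  apply Finset.sum_subset
  · intro x hx
    rw [Finset.mem_range] at hx ⊢
    omega
  · intro l _ hl
    rw [Finset.mem_range] at hl
    show (s ^ m * t ^ l) • (((m + l).choose m : k) • e (m + l) v) = 0
    rw [h0 (m + l) (by omega), smul_zero, smul_zero]

theorem a3_pow (e : ℕ → V →ₗ[k] V) (h : ∀ i j v, e i (e j v) = ((i + j).choose i : k) • e (i + j) v)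
    (he : ∀ v, e 0 v = v) (i : ℕ) (v : V) :
    ((e 1) ^ i : Module.End k V) v = (i.factorial : k) • e i v := by
  induction i with
  | zero => simp [he]
  | succ i ih =>
    rw [pow_succ', Module.End.mul_apply, ih, map_smul, h, smul_smul, add_comm 1 i,
      Nat.choose_one_right, Nat.factorial_succ]
    congr 1
    push_cast
    ring

end

section
variable (k : Type) [Field k] [IsAlgClosed k]

omit [IsAlgClosed k] in
theorem a3_xx (s t : k) : xx s * xx t = xx (s + t) := by
  ext i j
  rw [Matrix.SpecialLinearGroup.coe_mul, Matrix.mul_apply, Fin.sum_univ_two]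
  fin_cases i <;> fin_cases j <;> simp [xx, add_comm]

omit [IsAlgClosed k] in
theorem a3_yy (s t : k) : yy s * yy t = yy (s + t) := by
  ext i j
  rw [Matrix.SpecialLinearGroup.coe_mul, Matrix.mul_apply, Fin.sum_univ_two]
  fin_cases i <;> fin_cases j <;> simp [yy]

omit [IsAlgClosed k] in
theorem a3_xx0 : xx (0 : k) = 1 := by
  ext i j
  fin_cases i <;> fin_cases j <;> simp [xx]

omit [IsAlgClosed k] in
theorem a3_yy0 : yy (0 : k) = 1 := by
  ext i j
  fin_cases i <;> fin_cases j <;> simp [yy]

theorem p_A3 (hA1 : S_A1 k) : S_A3 k := by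
  have hinf : Infinite k := IsAlgClosed.instInfinite
  intro X i j v
  obtain ⟨N, hN⟩ := hA1 X
  have hE : ∀ i j v, ee X i (ee X j v) = ((i + j).choose i : k) • ee X (i + j) v := by
    refine a3_main (fun t => X.ρ (xx t)) (ee X) N ?_ (fun t v => (hN v).1 t)
      (fun i hi v => ((hN v).2.2 i hi).1)
    intro s t v
    show X.ρ (xx s) (X.ρ (xx t) v) = X.ρ (xx (s + t)) v
    rw [← a3_xx, map_mul]
    rfl
  have hF : ∀ i j v, ff X i (ff X j v) = ((i + j).choose i : k) • ff X (i + j) v := by
    refine a3_main (fun t => X.ρ (yy t)) (ff X) N ?_ (fun t v => (hN v).2.1 t)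
      (fun i hi v => ((hN v).2.2 i hi).2)
    intro s t v
    show X.ρ (yy s) (X.ρ (yy t) v) = X.ρ (yy (s + t)) v
    rw [← a3_yy, map_mul]
    rfl
  have hE0 : ∀ v, ee X 0 v = v := by
    intro v
    show cof (fun t => X.ρ (xx t) v) 0 = v
    rw [cof_zero_eq (X.rat v).1, a3_xx0, map_one]
    rfl
  have hF0 : ∀ v, ff X 0 v = v := by
    intro v
    show cof (fun t => X.ρ (yy t) v) 0 = v
    rw [cof_zero_eq (X.rat v).2, a3_yy0, map_one]
    rfl
  exact ⟨hE i j v, hF i j v, a3_pow (ee X) hE hE0 i v, a3_pow (ff X) hF hF0 i v⟩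

end

end Pool.Agent.Sp49.Three
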