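import Mathlib
import Pool.Agent.Lib.MP_49c83e_al.Three.Stm

/-!
MP_49c83e_al, Theorem III, piece A4: weights of divided powers.
-/

set_option autoImplicit false

namespace Pool.Agent.Sp49.Three

open Matrix TensorProduct

section

variable {k : Type} [Field k]

/-- coefficients after the substitution t ↦ r t -/
theorem a4_cof [Infinite k] {V : Type} [AddCommGroup V] [Module k V] {φ : k → V}
    (h : IsPoly φ) (r : k) (i : ℕ) : cof (fun t => φ (r * t)) i = r ^ i • cof φ i := by
  set c := cof φ with hc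
  let d : ℕ →₀ V := Finsupp.onFinset c.support (fun i => r ^ i • c i) (by
    intro i hi
    rw [Finsupp.mem_support_iff]
    intro h0
    apply hi
    rw [h0, smul_zero])
  have hd : ∀ i, d i = r ^ i • c i := fun i => rfl
  have h1 : ∀ t, φ (r * t) = pev d t := by
    intro t
    obtain ⟨N, hN⟩ := exists_bound c
    rw [cof_spec h (r * t), ← hc, pev_eq_sum c N hN,
      pev_eq_sum d N (fun i hi => by rw [hd, hN i hi, smul_zero])]
    refine Finset.sum_congr rfl fun i _ => ?_
    rw [hd, smul_smul, mul_pow, mul_comm]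
  rw [cof_eq d h1, hd]

theorem a4_xx (s : kˣ) (t : k) :
    hh s * xx t = xx (((s ^ (2 : ℤ) : kˣ) : k) * t) * hh s := by
  apply Subtype.ext
  rw [Matrix.SpecialLinearGroup.coe_mul, Matrix.SpecialLinearGroup.coe_mul]
  have hs : (s : k) ≠ 0 := s.ne_zero
  ext i j
  fin_cases i <;> fin_cases j <;>
    simp [hh, xx, Matrix.mul_apply, Fin.sum_univ_two]
  field_simp

theorem a4_yy (s : kˣ) (t : k) :
    hh s * yy t = yy (((s ^ (-2 : ℤ) : kˣ) : k) * t) * hh s := by
  apply Subtype.ext
  rw [Matrix.SpecialLinearGroup.coe_mul, Matrix.SpecialLinearGroup.coe_mul]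
  have hs : (s : k) ≠ 0 := s.ne_zero
  ext i j
  fin_cases i <;> fin_cases j <;>
    simp [hh, yy, Matrix.mul_apply, Fin.sum_univ_two]
  field_simp

end

theorem p_A4 (k : Type) [Field k] [IsAlgClosed k] : S_A4 k := by
  intro X a i v hv
  have hinf : Infinite k := inferInstance
  have key : ∀ (z : k → SL2 k) (hz : IsPoly (fun t => X.ρ (z t) v)) (s : kˣ) (m : ℤ)
      (_ : ∀ t, hh s * z t = z (((s ^ m : kˣ) : k) * t) * hh s),
      X.ρ (hh s) (cof (fun t => X.ρ (z t) v) i) =
        ((s ^ (a + m * i) : kˣ) : k) • cof (fun t => X.ρ (z t) v) i := by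
    intro z hz s m hzs
    have h1 := cof_map (X.ρ (hh s)) hz i
    have h2 : (fun t => X.ρ (hh s) (X.ρ (z t) v)) =
        fun t => ((s ^ a : kˣ) : k) • X.ρ (z (((s ^ m : kˣ) : k) * t)) v := by
      funext t
      rw [← Module.End.mul_apply, ← map_mul, hzs, map_mul, Module.End.mul_apply, hv s, map_smul]
    have h3 : IsPoly (fun t => X.ρ (z (((s ^ m : kˣ) : k) * t)) v) := by
      have h4 := hz.comp_pow ((s ^ m : kˣ) : k) 1
      simpa only [pow_one] using h4
    rw [← h1, h2, cof_smul _ h3 i, a4_cof hz, smul_smul]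
    congr 1
    rw [_root_.zpow_add, Units.val_mul, _root_.zpow_mul, zpow_natCast, Units.val_pow_eq_pow_val]
  constructor
  · intro s
    have h1 := key xx (X.rat v).1 s 2 (a4_xx s)
    exact h1
  · intro s
    have h1 := key yy (X.rat v).2 s (-2) (a4_yy s)
    have h2 : a - 2 * (i : ℤ) = a + -2 * (i : ℤ) := by ring
    rw [h2]
    exact h1

end Pool.Agent.Sp49.Three
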