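import Mathlib
import Pool.Agent.Lib.MP_49c83e_al.Three.Stm

/-!
MP_49c83e_al, Theorem III, piece A5: SL_2(k) is generated by the elementary matrices.
-/

namespace Pool.Agent.Sp49.Three

variable (k : Type) [Field k] [IsAlgClosed k]

omit [IsAlgClosed k] in
private theorem a5_ne (S : Submonoid (SL2 k)) (hx : ∀ t, xx t ∈ S) (hy : ∀ t, yy t ∈ S) (g : SL2 k)
    (hc : g.1 1 0 ≠ 0) : g ∈ S := by
  have hdet : g.1 0 0 * g.1 1 1 - g.1 0 1 * g.1 1 0 = 1 := by
    have := g.2
    rwa [Matrix.det_fin_two] at this
  have e : g = xx ((g.1 0 0 - 1) / g.1 1 0) * yy (g.1 1 0) * xx ((g.1 1 1 - 1) / g.1 1 0) := by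
    apply Subtype.ext
    rw [Matrix.SpecialLinearGroup.coe_mul, Matrix.SpecialLinearGroup.coe_mul]
    ext i j
    have hb : g.1 0 1 = (g.1 0 0 * g.1 1 1 - 1) / g.1 1 0 := by
      rw [eq_div_iff hc]
      linear_combination -hdet
    fin_cases i <;> fin_cases j
    · simp [xx, yy, Matrix.mul_apply, Fin.sum_univ_two]
      field_simp
      ring
    · simp [xx, yy, Matrix.mul_apply, Fin.sum_univ_two]
      rw [hb]
      field_simp
      ring
    · simp [xx, yy, Matrix.mul_apply, Fin.sum_univ_two]
    · simp [xx, yy, Matrix.mul_apply, Fin.sum_univ_two]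
      field_simp
      ring
  rw [e]
  exact S.mul_mem (S.mul_mem (hx _) (hy _)) (hx _)

omit [IsAlgClosed k] in
private theorem a5_gen (S : Submonoid (SL2 k)) (hx : ∀ t, xx t ∈ S) (hy : ∀ t, yy t ∈ S) (g : SL2 k) :
    g ∈ S := by
  by_cases hc : g.1 1 0 = 0
  · have hdet : g.1 0 0 * g.1 1 1 - g.1 0 1 * g.1 1 0 = 1 := by
      have := g.2
      rwa [Matrix.det_fin_two] at this
    have ha : g.1 0 0 ≠ 0 := by
      intro h
      rw [h, hc] at hdet
      simp at hdet
    have h1 : yy 1 * g ∈ S := by
      apply a5_ne k S hx hy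
      rw [Matrix.SpecialLinearGroup.coe_mul, Matrix.mul_apply, Fin.sum_univ_two]
      simp [yy, hc, ha]
    have h2 : g = yy (-1) * (yy 1 * g) := by
      rw [← mul_assoc]
      have : (yy (-1) * yy 1 : SL2 k) = 1 := by
        apply Subtype.ext
        rw [Matrix.SpecialLinearGroup.coe_mul]
        ext i j
        fin_cases i <;> fin_cases j <;> simp [yy, Matrix.mul_apply, Fin.sum_univ_two]
      rw [this, one_mul]
    rw [h2]
    exact S.mul_mem (hy _) h1
  · exact a5_ne k S hx hy g hc

theorem p_A5 : S_A5 k := by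
  refine ⟨fun S hx hy g => a5_gen k S hx hy g, ?_, ?_⟩
  · intro X Y f hx hy g
    let S : Submonoid (SL2 k) :=
      { carrier := {g | ∀ v, f (X.ρ g v) = Y.ρ g (f v)}
        one_mem' := by
          intro v
          rw [map_one, map_one]
          rfl
        mul_mem' := by
          intro a b ha hb v
          rw [map_mul, map_mul, Module.End.mul_apply, Module.End.mul_apply, ha, hb] }
    exact a5_gen k S hx hy g
  · intro X v hx hy g
    let S : Submonoid (SL2 k) :=
      { carrier := {g | X.ρ g v = v}
        one_mem' := by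
          show X.ρ 1 v = v
          rw [map_one]
          rfl
        mul_mem' := by
          intro a b ha hb
          show X.ρ (a * b) v = v
          rw [map_mul, Module.End.mul_apply, show X.ρ b v = v from hb]
          exact ha }
    exact a5_gen k S hx hy g

end Pool.Agent.Sp49.Three
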