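import Mathlib
import Pool.Agent.Lib.MP_49c83e_al.Three.Stm

namespace Pool.Agent.Sp49.Three

variable (k : Type) [Field k] [IsAlgClosed k]

theorem p_A6 : S_A6 k := by
  intro V _ _ S c hc a
  classical
  have : Infinite k := IsAlgClosed.instInfinite
  set B : ℕ := c.support.sup Int.natAbs with hB
  have hB1 : ∀ a : ℤ, B < a.natAbs → c a = 0 := by
    intro a ha
    by_contra h
    have : a.natAbs ≤ B := Finset.le_sup (f := Int.natAbs) (Finsupp.mem_support_iff.mpr h)
    omega
  have hinj : Function.Injective fun i : ℕ => (i : ℤ) - B := by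
    intro i j hij
    have : (i : ℤ) - B = (j : ℤ) - B := hij
    omega
  let d : ℕ →₀ V := Finsupp.comapDomain (fun i : ℕ => (i : ℤ) - B) c hinj.injOn
  have hd : ∀ i : ℕ, d i = c ((i : ℤ) - B) := fun i => rfl
  have hd0 : ∀ i, 2 * B + 1 ≤ i → d i = 0 := by
    intro i hi
    rw [hd]
    exact hB1 _ (by omega)
  have key : ∀ s : kˣ, pev d (s : k) = ((s ^ B : kˣ) : k) •
      (c.sum fun a w => ((s ^ a : kˣ) : k) • w) := by
    intro s
    rw [pev_eq_sum d (2 * B + 1) hd0]
    rw [Finsupp.sum_of_support_subset c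
      (s := (Finset.range (2 * B + 1)).map ⟨fun i : ℕ => (i : ℤ) - B, hinj⟩)]
    · rw [Finset.sum_map, Finset.smul_sum]
      refine Finset.sum_congr rfl fun i _ => ?_
      rw [hd, smul_smul]
      show _ = (((s ^ B : kˣ) : k) * ((s ^ ((i : ℤ) - B) : kˣ) : k)) • c ((i : ℤ) - B)
      congr 1
      rw [← Units.val_mul, ← Units.val_pow_eq_pow_val]
      congr 1
      rw [← zpow_natCast s B, ← zpow_add, add_sub_cancel, zpow_natCast]
    · intro a ha
      rw [Finset.mem_map]
      have h1 : a.natAbs ≤ B := Finset.le_sup (f := Int.natAbs) ha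
      refine ⟨(a + B).toNat, Finset.mem_range.2 (by omega), ?_⟩
      show ((a + B).toNat : ℤ) - B = a
      omega
    · intro i _
      simp
  have hinf : Set.Infinite {t : k | pev d t ∈ S} := by
    refine (Set.Finite.infinite_compl (Set.finite_singleton (0 : k))).mono ?_
    intro t ht
    have ht0 : t ≠ 0 := ht
    have h1 := key (Units.mk0 t ht0)
    rw [Units.val_mk0] at h1
    show pev d t ∈ S
    rw [h1]
    exact S.smul_mem _ (hc _)
  by_cases ha : B < a.natAbs
  · rw [hB1 a ha]
    exact S.zero_mem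
  · have h1 := coeff_mem_of_infinite d S hinf (a + B).toNat
    rw [hd] at h1
    have h2 : ((a + B).toNat : ℤ) - B = a := by omega
    rwa [h2] at h1

end Pool.Agent.Sp49.Three
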