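import Mathlib
import Pool.Agent.Lib.MP_49c83e_al.Three.Stm

/-! MP_49c83e_al, Theorem III, piece A7: weight decomposition. -/

namespace Pool.Agent.Sp49.Three


section

variable {k : Type} [Field k] {V : Type} [AddCommGroup V] [Module k V]

/-- Laurent polynomial functions on the units -/
private def a7_L (k : Type) [Field k] (V : Type) [AddCommGroup V] [Module k V] :
    Submodule k (kˣ → V) :=
  Submodule.span k {φ | ∃ (a : ℤ) (w : V), φ = fun s => ((s ^ a : kˣ) : k) • w}

private theorem a7_mono (a : ℤ) (w : V) :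
    (fun s : kˣ => ((s ^ a : kˣ) : k) • w) ∈ a7_L k V :=
  Submodule.subset_span ⟨a, w, rfl⟩

private theorem a7_coef {φ : kˣ → V} (h : φ ∈ a7_L k V) :
    ∃ c : ℤ →₀ V, ∀ s : kˣ, φ s = c.sum fun a w => ((s ^ a : kˣ) : k) • w := by
  refine Submodule.span_induction ?_ ?_ ?_ ?_ h
  · rintro _ ⟨a, w, rfl⟩
    exact ⟨Finsupp.single a w, fun s => by
      rw [Finsupp.sum_single_index]
      rw [smul_zero]⟩
  · exact ⟨0, fun s => by simp⟩
  · rintro φ ψ _ _ ⟨c, hc⟩ ⟨d, hd⟩
    refine ⟨c + d, fun s => ?_⟩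
    rw [Finsupp.sum_add_index' (by simp) (by simp [smul_add]), ← hc s, ← hd s, Pi.add_apply]
  · rintro r φ _ ⟨c, hc⟩
    refine ⟨r • c, fun s => ?_⟩
    rw [Finsupp.sum_smul_index' (by simp), Pi.smul_apply, hc s, Finsupp.smul_sum]
    refine Finsupp.sum_congr fun a _ => ?_
    rw [smul_comm]

/-- acting by a Laurent family of polynomial one-parameter maps -/
private theorem a7_act (f : k → V →ₗ[k] V) (hf : ∀ v, IsPoly fun t => f t v) (b : k) (m : ℤ)
    {φ : kˣ → V} (h : φ ∈ a7_L k V) :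
    (fun s : kˣ => f (b * ((s ^ m : kˣ) : k)) (φ s)) ∈ a7_L k V := by
  refine Submodule.span_induction (p := fun φ _ =>
    (fun s : kˣ => f (b * ((s ^ m : kˣ) : k)) (φ s)) ∈ a7_L k V) ?_ ?_ ?_ ?_ h
  · rintro _ ⟨a, w, rfl⟩
    obtain ⟨c, hc⟩ := hf w
    obtain ⟨N, hN⟩ := exists_bound c
    have e : (fun s : kˣ => f (b * ((s ^ m : kˣ) : k)) (((s ^ a : kˣ) : k) • w)) =
        ∑ i ∈ Finset.range N, fun s : kˣ =>
          ((s ^ (a + m * i) : kˣ) : k) • (b ^ i • c i) := by
      funext s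
      have hc' : f (b * ((s ^ m : kˣ) : k)) w = pev c (b * ((s ^ m : kˣ) : k)) := hc _
      rw [map_smul, hc', pev_eq_sum c N hN, Finset.sum_apply, Finset.smul_sum]
      refine Finset.sum_congr rfl fun i _ => ?_
      rw [smul_smul, smul_smul, mul_pow]
      congr 1
      have : (s ^ (a + m * i) : kˣ) = s ^ a * (s ^ m) ^ i := by
        rw [zpow_add, zpow_mul, zpow_natCast]
      rw [this]
      push_cast
      ring
    rw [e]
    exact Submodule.sum_mem _ fun i _ => a7_mono _ _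
  · simp only [Pi.zero_apply, map_zero]
    exact Submodule.zero_mem _
  · intro φ ψ _ _ hφ hψ
    simp only [Pi.add_apply, map_add]
    exact Submodule.add_mem _ hφ hψ
  · intro r φ _ hφ
    simp only [Pi.smul_apply, map_smul]
    exact Submodule.smul_mem _ r hφ

private theorem a7_hh (s : kˣ) : hh s = xx (1 * ((s ^ (1 : ℤ) : kˣ) : k)) *
    (yy (-1 * ((s ^ (-1 : ℤ) : kˣ) : k)) * (xx (1 * ((s ^ (1 : ℤ) : kˣ) : k)) *
      (xx (-1) * (yy 1 * xx (-1))))) := by
  have hs : (s : k) * ((s⁻¹ : kˣ) : k) = 1 := by simp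
  have hs' : ((s⁻¹ : kˣ) : k) * (s : k) = 1 := by simp
  apply Subtype.ext
  simp only [Matrix.SpecialLinearGroup.coe_mul, zpow_one, zpow_neg]
  show !![(s : k), 0; 0, ((s⁻¹ : kˣ) : k)] = !![1, 1 * (s : k); 0, 1] *
    (!![1, 0; -1 * ((s⁻¹ : kˣ) : k), 1] * (!![1, 1 * (s : k); 0, 1] *
      (!![1, -1; 0, 1] * (!![1, 0; 1, 1] * !![1, -1; 0, 1]))))
  simp only [Matrix.mul_fin_two]
  congr 1
  simp only [Matrix.vecCons_inj]
  refine ⟨⟨?_, ?_, trivial⟩, ⟨?_, ?_, trivial⟩, trivial⟩
  · linear_combination (s : k) * hs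
  · linear_combination -hs
  · linear_combination hs
  · ring

end

private theorem a7_hhmul {k : Type} [Field k] (u s : kˣ) : (hh u : SL2 k) * hh s = hh (u * s) := by
  apply Subtype.ext
  rw [Matrix.SpecialLinearGroup.coe_mul]
  show !![(u : k), 0; 0, ((u⁻¹ : kˣ) : k)] * !![(s : k), 0; 0, ((s⁻¹ : kˣ) : k)] =
    !![((u * s : kˣ) : k), 0; 0, (((u * s)⁻¹ : kˣ) : k)]
  rw [Matrix.mul_fin_two, mul_inv]
  simp

private theorem a7_hhone {k : Type} [Field k] : (hh 1 : SL2 k) = 1 := by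
  apply Subtype.ext
  rw [Matrix.SpecialLinearGroup.coe_one]
  show !![((1 : kˣ) : k), 0; 0, (((1 : kˣ)⁻¹ : kˣ) : k)] = 1
  rw [inv_one, Units.val_one]
  exact Matrix.one_fin_two.symm

section

variable (k : Type) [Field k]

private theorem a7_sum (X : Ob k) (c : ℤ →₀ X.V) (hc : ∀ a, c a ∈ wt X a) (s : kˣ) :
    (c.sum fun a w => ((s ^ a : kˣ) : k) • w) = X.ρ (hh s) (c.sum fun _ w => w) := by
  rw [map_finsuppSum]
  refine Finsupp.sum_congr fun a _ => ?_
  exact (hc a s).symm

private theorem a7_exists (X : Ob k) (v : X.V) :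
    ∃ c : ℤ →₀ X.V, ∀ s : kˣ, X.ρ (hh s) v = c.sum fun a w => ((s ^ a : kˣ) : k) • w := by
  apply a7_coef
  have h0 : (fun _ : kˣ => X.ρ (xx (-1) * (yy 1 * xx (-1))) v) ∈ a7_L k X.V := by
    have := a7_mono (k := k) 0 (X.ρ (xx (-1) * (yy 1 * xx (-1))) v)
    simpa using this
  have h1 := a7_act (fun t => X.ρ (xx t)) (fun v => (X.rat v).1) 1 1 h0
  have h2 := a7_act (fun t => X.ρ (yy t)) (fun v => (X.rat v).2) (-1) (-1) h1
  have h3 := a7_act (fun t => X.ρ (xx t)) (fun v => (X.rat v).1) 1 1 h2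
  refine (congrArg (· ∈ a7_L k X.V) ?_).mp h3
  funext s
  rw [a7_hh s]
  simp only [map_mul, Module.End.mul_apply]

theorem p_A7 [IsAlgClosed k] (hA6 : S_A6 k) : S_A7 k := by
  intro X
  refine ⟨?_, ?_, ?_⟩
  · intro v
    obtain ⟨c, hc⟩ := a7_exists k X v
    refine ⟨c, fun a u => ?_, ?_⟩
    · let d : ℤ →₀ X.V := Finsupp.onFinset c.support
        (fun a => X.ρ (hh u) (c a) - ((u ^ a : kˣ) : k) • c a) (by
          intro a ha
          rw [Finsupp.mem_support_iff]
          intro h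
          apply ha
          rw [h, map_zero, smul_zero, sub_zero])
      have hd : ∀ a, d a = X.ρ (hh u) (c a) - ((u ^ a : kˣ) : k) • c a := fun a => rfl
      have hs : ∀ s : kˣ, (d.sum fun a w => ((s ^ a : kˣ) : k) • w) ∈ (⊥ : Submodule k X.V) := by
        intro s
        rw [Submodule.mem_bot]
        have e1 : (d.sum fun a w => ((s ^ a : kˣ) : k) • w) =
            ∑ a ∈ c.support, ((s ^ a : kˣ) : k) • (X.ρ (hh u) (c a) - ((u ^ a : kˣ) : k) • c a) :=
          Finsupp.onFinset_sum _ fun a => smul_zero _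
        have hhmul : (hh u : SL2 k) * hh s = hh (u * s) := a7_hhmul u s
        have e2 : X.ρ (hh u) (X.ρ (hh s) v) = X.ρ (hh (u * s)) v := by
          rw [← hhmul, map_mul, Module.End.mul_apply]
        rw [hc s, hc (u * s), map_finsuppSum] at e2
        rw [e1]
        simp only [smul_sub, Finset.sum_sub_distrib]
        rw [sub_eq_zero]
        refine Eq.trans (Finset.sum_congr rfl fun a _ => (map_smul _ _ _).symm) ?_
        refine e2.trans (Finset.sum_congr rfl fun a _ => ?_)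
        show (((u * s) ^ a : kˣ) : k) • c a = _
        rw [smul_smul, mul_zpow, Units.val_mul, mul_comm]
      have := hA6 X.V ⊥ d hs a
      rw [Submodule.mem_bot, hd, sub_eq_zero] at this
      exact this
    · have h1 := hc 1
      have e : (hh 1 : SL2 k) = 1 := a7_hhone
      rw [e, map_one] at h1
      simp only [one_zpow, Units.val_one, one_smul] at h1
      exact h1.symm
  · intro c hc h0
    ext a
    have := hA6 X.V ⊥ c (fun s => by rw [a7_sum k X c hc s, h0, map_zero]; exact zero_mem _) a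
    simpa using this
  · intro S hS c hc h0 a
    exact hA6 X.V S c (fun s => by rw [a7_sum k X c hc s]; exact hS s _ h0) a

end

end Pool.Agent.Sp49.Three
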