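import Mathlib
import Pool.Agent.Lib.MP_49c83e_al.Three.Stm

namespace Pool.Agent.Sp49.Three

section Jets
variable {k : Type} [Field k] [Infinite k] {V : Type} [AddCommGroup V] [Module k V]

omit [Infinite k] in
private theorem a8_shift (c : ℕ →₀ V) (s : k) :
    pev (Finsupp.mapDomain Nat.succ c) s = s • pev c s := by
  unfold pev
  rw [Finsupp.sum_mapDomain_index (by simp) (by intros; simp [smul_add]), Finsupp.smul_sum]
  congr 1
  funext i v
  rw [smul_smul, pow_succ, mul_comm]

private theorem a8_mulX {φ : k → V} (h : IsPoly φ) : IsPoly (fun s : k => s • φ s) ∧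
    cof (fun s : k => s • φ s) 0 = 0 ∧ cof (fun s : k => s • φ s) 1 = cof φ 0 := by
  have h1 : ∀ s : k, s • φ s = pev (Finsupp.mapDomain Nat.succ (cof φ)) s := by
    intro s
    rw [a8_shift, ← cof_spec h]
  refine ⟨⟨_, h1⟩, ?_, ?_⟩
  · rw [cof_eq _ h1]
    rw [Finsupp.mapDomain_of_notMem_range]
    simp
  · rw [cof_eq _ h1]
    exact Finsupp.mapDomain_apply Nat.succ_injective _ 0

private theorem a8_mul1 {φ : k → V} (t : k) (h : IsPoly φ) :
    IsPoly (fun s : k => (1 + t * s) • φ s) ∧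
    cof (fun s : k => (1 + t * s) • φ s) 0 = cof φ 0 ∧
    cof (fun s : k => (1 + t * s) • φ s) 1 = cof φ 1 + t • cof φ 0 := by
  have e : (fun s : k => (1 + t * s) • φ s) = fun s => φ s + t • (s • φ s) := by
    funext s
    module
  obtain ⟨h1, h2, h3⟩ := a8_mulX h
  rw [e]
  refine ⟨h.add (h1.smul t), ?_, ?_⟩
  · rw [cof_add h (h1.smul t), cof_smul t h1, h2, smul_zero, add_zero]
  · rw [cof_add h (h1.smul t), cof_smul t h1, h3]

private theorem a8_pow1 {φ : k → V} (t : k) (m : ℕ) (h : IsPoly φ) :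
    IsPoly (fun s : k => (1 + t * s) ^ m • φ s) ∧
    cof (fun s : k => (1 + t * s) ^ m • φ s) 0 = cof φ 0 ∧
    cof (fun s : k => (1 + t * s) ^ m • φ s) 1 = cof φ 1 + ((m : k) * t) • cof φ 0 := by
  induction m with
  | zero => simpa using h
  | succ m ih =>
    obtain ⟨h1, h2, h3⟩ := ih
    obtain ⟨g1, g2, g3⟩ := a8_mul1 t h1
    have e : (fun s : k => (1 + t * s) ^ (m + 1) • φ s) =
        fun s => (1 + t * s) • ((1 + t * s) ^ m • φ s) := by
      funext s
      rw [smul_smul, pow_succ, mul_comm]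
    rw [e]
    refine ⟨g1, by rw [g2, h2], ?_⟩
    rw [g3, h2, h3]
    push_cast
    module

private theorem a8_const (w : V) : cof (fun _ : k => w) 0 = w ∧ cof (fun _ : k => w) 1 = 0 := by
  have h1 : ∀ s : k, w = pev (Finsupp.single 0 w) s := by
    intro s
    rw [pev_single]
    simp
  rw [cof_eq (Finsupp.single 0 w) h1]
  simp

/-- the 1-jet of s^j (1+ts)^m w -/
private theorem a8_term (t : k) (j m : ℕ) (w : V) :
    IsPoly (fun s : k => (s ^ j * (1 + t * s) ^ m) • w) ∧
    cof (fun s : k => (s ^ j * (1 + t * s) ^ m) • w) 0 = (if j = 0 then w else 0) ∧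
    cof (fun s : k => (s ^ j * (1 + t * s) ^ m) • w) 1 =
      (if j = 0 then ((m : k) * t) • w else if j = 1 then w else 0) := by
  obtain ⟨h1, h2, h3⟩ := a8_pow1 t m (IsPoly.const (k := k) w)
  rw [(a8_const w).1] at h2 h3
  rw [(a8_const w).2, zero_add] at h3
  induction j with
  | zero =>
    simp only [pow_zero, one_mul, if_true]
    exact ⟨h1, h2, h3⟩
  | succ j ih =>
    obtain ⟨i1, i2, i3⟩ := ih
    obtain ⟨g1, g2, g3⟩ := a8_mulX i1
    have e : (fun s : k => (s ^ (j + 1) * (1 + t * s) ^ m) • w) =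
        fun s => s • ((s ^ j * (1 + t * s) ^ m) • w) := by
      funext s
      rw [smul_smul]
      congr 1
      ring
    rw [e]
    refine ⟨g1, by rw [g2]; simp, ?_⟩
    rw [g3, i2]
    by_cases hj : j = 0
    · subst hj; simp
    · simp [hj]

private theorem a8_sum_cof {ι : Type} (S : Finset ι) (φ : ι → k → V) (h : ∀ i ∈ S, IsPoly (φ i))
    (n : ℕ) : cof (fun s => ∑ i ∈ S, φ i s) n = ∑ i ∈ S, cof (φ i) n := by
  classical
  induction S using Finset.induction_on with
  | empty =>
    simp only [Finset.sum_empty]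
    have h1 : ∀ s : k, (0 : V) = pev 0 s := fun s => (pev_zero s).symm
    rw [cof_eq 0 h1]
    simp
  | insert a S ha ih =>
    simp only [Finset.sum_insert ha]
    rw [cof_add (h a (Finset.mem_insert_self a S))
      (IsPoly.sum S φ fun i hi => h i (Finset.mem_insert_of_mem hi)),
      ih fun i hi => h i (Finset.mem_insert_of_mem hi)]

/-- comparison of the linear terms -/
private theorem a8_key {ι : Type} (S : Finset ι) (t : k) (φ : k → V) (hφ : IsPoly φ) (j : ι → ℕ)
    (e : ι → ℤ) (w : ι → V)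
    (h : ∀ s : k, (hs : 1 + t * s ≠ 0) → φ s = ∑ a ∈ S, (s ^ (j a) * (1 + t * s) ^ (e a)) • w a) :
    cof φ 1 = ∑ a ∈ S, ((if j a = 0 then ((e a : k) * t) • w a else if j a = 1 then w a else 0)) := by
  classical
  obtain ⟨M, hM⟩ : ∃ M : ℕ, ∀ a ∈ S, 0 ≤ (M : ℤ) + e a := by
    refine ⟨∑ a ∈ S, (e a).natAbs, fun a ha => ?_⟩
    have h1 : (e a).natAbs ≤ ∑ a ∈ S, (e a).natAbs :=
      Finset.single_le_sum (f := fun a => (e a).natAbs) (fun _ _ => Nat.zero_le _) ha
    omega
  -- two polynomial functions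
  obtain ⟨h1, h2, h3⟩ := a8_pow1 t M hφ
  have hR : ∀ a ∈ S, IsPoly (fun s : k => (s ^ (j a) * (1 + t * s) ^ ((M : ℤ) + e a).toNat) • w a) :=
    fun a _ => (a8_term t (j a) _ (w a)).1
  have hagree : ∀ s : k, 1 + t * s ≠ 0 → (1 + t * s) ^ M • φ s =
      ∑ a ∈ S, (s ^ (j a) * (1 + t * s) ^ ((M : ℤ) + e a).toNat) • w a := by
    intro s hs
    rw [h s hs, Finset.smul_sum]
    apply Finset.sum_congr rfl
    intro a ha
    rw [smul_smul]
    congr 1
    have : (1 + t * s) ^ ((M : ℤ) + e a).toNat = (1 + t * s) ^ M * (1 + t * s) ^ (e a) := by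
      rw [← zpow_natCast, Int.toNat_of_nonneg (hM a ha), zpow_add₀ hs, zpow_natCast]
    rw [this]
    ring
  have hinf : Set.Infinite {s : k | 1 + t * s ≠ 0} := by
    have : {s : k | 1 + t * s ≠ 0} = {s : k | 1 + t * s = 0}ᶜ := rfl
    rw [this]
    apply Set.Finite.infinite_compl
    by_cases ht : t = 0
    · have : {s : k | 1 + t * s = 0} = ∅ := by
        ext s
        simp [ht]
      rw [this]
      exact Set.finite_empty
    · apply Set.Finite.subset (Set.finite_singleton (-1 / t))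
      intro s hs
      simp only [Set.mem_ofPred_eq] at hs
      rw [Set.mem_singleton_iff, eq_div_iff ht]
      linear_combination hs
  have hsum : IsPoly (fun s : k => ∑ a ∈ S, (s ^ (j a) * (1 + t * s) ^ ((M : ℤ) + e a).toNat) • w a) :=
    IsPoly.sum S _ hR
  have heq : cof (fun s : k => (1 + t * s) ^ M • φ s) =
      cof (fun s : k => ∑ a ∈ S, (s ^ (j a) * (1 + t * s) ^ ((M : ℤ) + e a).toNat) • w a) := by
    rw [← sub_eq_zero]
    apply coeff_zero_of_infinite (k := k)
    refine hinf.mono ?_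
    intro s hs
    simp only [Set.mem_ofPred_eq] at hs ⊢
    rw [pev_sub, ← cof_spec h1, ← cof_spec hsum, hagree s hs, sub_self]
  have c0 := DFunLike.congr_fun heq 0
  have c1 := DFunLike.congr_fun heq 1
  rw [h2, a8_sum_cof S _ hR] at c0
  rw [h3, a8_sum_cof S _ hR] at c1
  simp only [(a8_term t _ _ _).2.1] at c0
  simp only [(a8_term t _ _ _).2.2] at c1
  rw [c0, Finset.smul_sum] at c1
  rw [← eq_sub_iff_add_eq, ← Finset.sum_sub_distrib] at c1
  rw [c1]
  apply Finset.sum_congr rfl
  intro a ha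
  have hcast : ((((M : ℤ) + e a).toNat : ℕ) : k) = (M : k) + (e a : k) := by
    have : (((((M : ℤ) + e a).toNat : ℕ) : ℤ) : k) = (((M : ℤ) + e a : ℤ) : k) := by
      rw [Int.toNat_of_nonneg (hM a ha)]
    push_cast at this
    exact this
  split_ifs with h0 h1'
  · rw [hcast]
    module
  · simp
  · simp

private theorem a8_abs (t : k) (N : ℕ) (hN : 2 ≤ N) (Fj : ℕ → V →ₗ[k] V) (hF : ∀ v, Fj 0 v = v)
    (b : ℕ → V) (U : Finset ℤ) (c : ℕ → ℤ → V) (hb : ∀ i, b i = ∑ μ ∈ U, c i μ) (ε : ℤ)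
    (φ : k → V) (hφ : IsPoly φ)
    (h : ∀ s : k, 1 + t * s ≠ 0 → φ s = ∑ i ∈ Finset.range N, ∑ μ ∈ U, ∑ j ∈ Finset.range N,
      (s ^ j * (1 + t * s) ^ (ε * μ - i - j)) • (t ^ i • Fj j (c i μ))) :
    cof φ 1 = Fj 1 (∑ i ∈ Finset.range N, t ^ i • b i) +
      t • (∑ i ∈ Finset.range N, t ^ i • ∑ μ ∈ U, ((ε * μ : ℤ) : k) • c i μ) -
      t • ∑ i ∈ Finset.range N, ((i : k) * t ^ i) • b i := by
  have key := a8_key (Finset.range N ×ˢ U ×ˢ Finset.range N) t φ hφ (fun a => a.2.2)
    (fun a => ε * a.2.1 - a.1 - a.2.2) (fun a => t ^ a.1 • Fj a.2.2 (c a.1 a.2.1)) (by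
      intro s hs
      rw [h s hs, Finset.sum_product]
      apply Finset.sum_congr rfl
      intro i _
      rw [Finset.sum_product])
  rw [key, Finset.sum_product]
  have hin : ∀ i ∈ Finset.range N, ∑ x ∈ U ×ˢ Finset.range N,
      (if x.2 = 0 then (((ε * x.1 - (i : ℤ) - (x.2 : ℤ) : ℤ) : k) * t) • t ^ i • Fj x.2 (c i x.1)
        else if x.2 = 1 then t ^ i • Fj x.2 (c i x.1) else 0) =
      t ^ i • Fj 1 (b i) + (t * t ^ i) • (∑ μ ∈ U, ((ε * μ : ℤ) : k) • c i μ) -
        (t * ((i : k) * t ^ i)) • b i := by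
    intro i _
    rw [Finset.sum_product]
    have hj : ∀ μ ∈ U, ∑ j ∈ Finset.range N,
        (if j = 0 then (((ε * μ - (i : ℤ) - (j : ℤ) : ℤ) : k) * t) • t ^ i • Fj j (c i μ)
        else if j = 1 then t ^ i • Fj j (c i μ) else 0) =
        t ^ i • Fj 1 (c i μ) + (t * t ^ i) • (((ε * μ : ℤ) : k) • c i μ) -
          (t * ((i : k) * t ^ i)) • c i μ := by
      intro μ _
      obtain ⟨M, rfl⟩ : ∃ M, N = M + 2 := ⟨N - 2, by omega⟩
      rw [Finset.sum_range_succ', Finset.sum_range_succ']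
      have hz : ∑ x ∈ Finset.range M, (if x + 1 + 1 = 0 then
          (((ε * μ - (i : ℤ) - ((x + 1 + 1 : ℕ) : ℤ) : ℤ) : k) * t) • t ^ i • Fj (x + 1 + 1) (c i μ)
          else if x + 1 + 1 = 1 then t ^ i • Fj (x + 1 + 1) (c i μ) else 0) = 0 := by
        apply Finset.sum_eq_zero
        intro x _
        rw [if_neg (by omega), if_neg (by omega)]
      rw [hz]
      simp only [zero_add, one_ne_zero, if_false, if_true, hF]
      push_cast
      module
    rw [Finset.sum_congr rfl hj]
    rw [hb i, map_sum]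
    simp only [Finset.sum_sub_distrib, Finset.sum_add_distrib, Finset.smul_sum]
  rw [Finset.sum_congr rfl hin, map_sum]
  simp only [Finset.sum_sub_distrib, Finset.sum_add_distrib, Finset.smul_sum, map_smul, smul_smul,
    mul_assoc]

end Jets

section Main
variable (k : Type) [Field k] [IsAlgClosed k]

omit [IsAlgClosed k] in
private theorem a8_id1 (t s d : k) (hd : d ≠ 0) (hds : d = 1 + t * s) :
    xx t * yy s = yy (s / d) * hh (Units.mk0 _ hd) * xx (t / d) := by
  apply Subtype.ext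
  show !![1, t; 0, 1] * !![1, 0; s, 1] = !![1, 0; s / d, 1] *
    !![((Units.mk0 d hd : kˣ) : k), 0; 0, (((Units.mk0 d hd)⁻¹ : kˣ) : k)] * !![1, t / d; 0, 1]
  rw [Units.val_inv_eq_inv_val, Units.val_mk0, Matrix.mul_fin_two, Matrix.mul_fin_two,
    Matrix.mul_fin_two]
  have e1 : s / d * d = s := by field_simp
  have e2 : d * (t / d) = t := by field_simp
  have e3 : s / d * d * (t / d) + d⁻¹ = 1 := by
    field_simp
    rw [hds]
    ring
  congr 1
  funext i
  fin_cases i
  · funext j
    fin_cases j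
    · simp [hds]
    · simp [e2]
  · funext j
    fin_cases j
    · simp [e1]
    · simp only [mul_zero, zero_add, add_zero, one_mul, mul_one, zero_mul]
      exact e3.symm

omit [IsAlgClosed k] in
private theorem a8_id2 (t s d : k) (hd : d ≠ 0) (hds : d = 1 + t * s) :
    yy t * xx s = xx (s / d) * hh (Units.mk0 _ hd)⁻¹ * yy (t / d) := by
  apply Subtype.ext
  show !![1, 0; t, 1] * !![1, s; 0, 1] = !![1, s / d; 0, 1] *
    !![(((Units.mk0 d hd)⁻¹ : kˣ) : k), 0; 0, ((((Units.mk0 d hd)⁻¹)⁻¹ : kˣ) : k)] *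
      !![1, 0; t / d, 1]
  rw [inv_inv, Units.val_inv_eq_inv_val, Units.val_mk0, Matrix.mul_fin_two, Matrix.mul_fin_two,
    Matrix.mul_fin_two]
  have e1 : s / d * d = s := by field_simp
  have e2 : d * (t / d) = t := by field_simp
  have e3 : d⁻¹ + s / d * d * (t / d) = 1 := by
    field_simp
    rw [hds]
    ring
  congr 1
  funext i
  fin_cases i
  · funext j
    fin_cases j
    · simp only [mul_zero, zero_add, add_zero, one_mul, mul_one, zero_mul]
      exact e3.symm
    · simp [e1]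
  · funext j
    fin_cases j
    · simp [e2]
    · simp [hds]
      ring

omit [IsAlgClosed k] in
private theorem a8_hh (X : Ob k) (u : kˣ) (a : ℤ) (v : X.V) (hv : v ∈ wt X a) :
    X.ρ (hh u) v = ((u : k) ^ a) • v := by
  rw [hv u, Units.val_zpow_eq_zpow_val]

private theorem a8_bound (hA1 : S_A1 k) (X : Ob k) : ∃ N : ℕ, 2 ≤ N ∧ ∀ v : X.V,
    ((∀ t, X.ρ (xx t) v = ∑ i ∈ Finset.range N, t ^ i • ee X i v) ∧
    (∀ t, X.ρ (yy t) v = ∑ i ∈ Finset.range N, t ^ i • ff X i v)) ∧
    ee X N v = 0 ∧ ff X N v = 0 := by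
  obtain ⟨N, hN⟩ := hA1 X
  refine ⟨N + 2, by omega, fun v => ⟨⟨fun t => ?_, fun t => ?_⟩, (hN v).2.2 (N + 2) (by omega)⟩⟩
  · rw [(hN v).1 t, Finset.sum_range_succ, Finset.sum_range_succ, ((hN v).2.2 N le_rfl).1,
      ((hN v).2.2 (N + 1) (by omega)).1]
    simp
  · rw [(hN v).2.1 t, Finset.sum_range_succ, Finset.sum_range_succ, ((hN v).2.2 N le_rfl).2,
      ((hN v).2.2 (N + 1) (by omega)).2]
    simp

/-- the rule for x(t), F, with explicit weight decompositions -/
private theorem a8_rule_x (X : Ob k) (N : ℕ) (hN2 : 2 ≤ N)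
    (hN : ∀ v : X.V, (∀ t, X.ρ (xx t) v = ∑ i ∈ Finset.range N, t ^ i • ee X i v) ∧
      (∀ t, X.ρ (yy t) v = ∑ i ∈ Finset.range N, t ^ i • ff X i v))
    (v : X.V) (c : ℕ → ℤ →₀ X.V) (hc : ∀ i a, c i a ∈ wt X a)
    (hs : ∀ i, ((c i).sum fun _ w => w) = ee X i v) (hf0 : ∀ v, ff X 0 v = v) (t : k) :
    X.ρ (xx t) (ff X 1 v) = ff X 1 (X.ρ (xx t) v) +
      t • (∑ i ∈ Finset.range N, t ^ i • ((c i).sum fun a w => (a : k) • w)) -
      t • ∑ i ∈ Finset.range N, ((i : k) * t ^ i) • ee X i v := by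
  classical
  let U : Finset ℤ := (Finset.range N).biUnion fun i => (c i).support
  -- truncated versions
  let c' : ℕ → ℤ → X.V := fun i μ => if i < N then c i μ else 0
  let b' : ℕ → X.V := fun i => if i < N then ee X i v else 0
  have hsub : ∀ i, i < N → (c i).support ⊆ U := fun i hi =>
    Finset.subset_biUnion_of_mem (fun i => (c i).support) (Finset.mem_range.mpr hi)
  have hb : ∀ i, b' i = ∑ μ ∈ U, c' i μ := by
    intro i
    by_cases hi : i < N
    · simp only [b', c', if_pos hi]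
      rw [← hs i, Finsupp.sum_of_support_subset _ (hsub i hi) _ (by simp)]
    · simp only [b', c', if_neg hi, Finset.sum_const_zero]
  have hφ : IsPoly (fun s : k => X.ρ (xx t) (X.ρ (yy s) v)) := (X.rat v).2.map _
  have key := a8_abs t N hN2 (ff X) hf0 b' U c' hb 1
    (fun s : k => X.ρ (xx t) (X.ρ (yy s) v)) hφ (by
      intro s hs1
      have e1 : X.ρ (xx t) (X.ρ (yy s) v) = X.ρ (yy (s / (1 + t * s)))
          (X.ρ (hh (Units.mk0 _ hs1)) (X.ρ (xx (t / (1 + t * s))) v)) := by
        rw [← Module.End.mul_apply, ← map_mul, a8_id1 k t s (1 + t * s) hs1 rfl, map_mul, map_mul]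
        rfl
      rw [e1, (hN v).1, map_sum, map_sum]
      apply Finset.sum_congr rfl
      intro i hi
      rw [map_smul, map_smul]
      have hi' : i < N := Finset.mem_range.mp hi
      have e2 : ee X i v = ∑ μ ∈ U, c i μ := by
        rw [← hs i, Finsupp.sum_of_support_subset _ (hsub i hi') _ (by simp)]
      rw [e2, map_sum, map_sum, Finset.smul_sum]
      apply Finset.sum_congr rfl
      intro μ _
      rw [a8_hh k X _ μ (c i μ) (hc i μ), map_smul, (hN (c i μ)).2, Finset.smul_sum,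
        Finset.smul_sum]
      apply Finset.sum_congr rfl
      intro j _
      simp only [c', if_pos hi', Units.val_mk0, smul_smul]
      congr 1
      rw [div_pow, div_pow, one_mul, zpow_sub₀ hs1, zpow_sub₀ hs1, zpow_natCast, zpow_natCast]
      field_simp)
  rw [cof_map (X.ρ (xx t)) (X.rat v).2 1] at key
  have e3 : ∑ i ∈ Finset.range N, t ^ i • b' i = X.ρ (xx t) v := by
    rw [(hN v).1 t]
    apply Finset.sum_congr rfl
    intro i hi
    simp only [b', if_pos (Finset.mem_range.mp hi)]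
  have e4 : ∑ i ∈ Finset.range N, ((i : k) * t ^ i) • b' i =
      ∑ i ∈ Finset.range N, ((i : k) * t ^ i) • ee X i v := by
    apply Finset.sum_congr rfl
    intro i hi
    simp only [b', if_pos (Finset.mem_range.mp hi)]
  have e5 : ∑ i ∈ Finset.range N, t ^ i • ∑ μ ∈ U, (((1 : ℤ) * μ : ℤ) : k) • c' i μ =
      ∑ i ∈ Finset.range N, t ^ i • ((c i).sum fun a w => (a : k) • w) := by
    apply Finset.sum_congr rfl
    intro i hi
    have hi' : i < N := Finset.mem_range.mp hi
    rw [Finsupp.sum_of_support_subset _ (hsub i hi') _ (by simp)]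
    simp only [c', if_pos hi', one_mul]
  rw [e3, e4, e5] at key
  exact key

/-- the rule for y(t), E, with explicit weight decompositions -/
private theorem a8_rule_y (X : Ob k) (N : ℕ) (hN2 : 2 ≤ N)
    (hN : ∀ v : X.V, (∀ t, X.ρ (xx t) v = ∑ i ∈ Finset.range N, t ^ i • ee X i v) ∧
      (∀ t, X.ρ (yy t) v = ∑ i ∈ Finset.range N, t ^ i • ff X i v))
    (v : X.V) (c : ℕ → ℤ →₀ X.V) (hc : ∀ i a, c i a ∈ wt X a)
    (hs : ∀ i, ((c i).sum fun _ w => w) = ff X i v) (hf0 : ∀ v, ee X 0 v = v) (t : k) :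
    X.ρ (yy t) (ee X 1 v) = ee X 1 (X.ρ (yy t) v) +
      t • (∑ i ∈ Finset.range N, t ^ i • ((c i).sum fun a w => (-(a : k)) • w)) -
      t • ∑ i ∈ Finset.range N, ((i : k) * t ^ i) • ff X i v := by
  classical
  let U : Finset ℤ := (Finset.range N).biUnion fun i => (c i).support
  -- truncated versions
  let c' : ℕ → ℤ → X.V := fun i μ => if i < N then c i μ else 0
  let b' : ℕ → X.V := fun i => if i < N then ff X i v else 0
  have hsub : ∀ i, i < N → (c i).support ⊆ U := fun i hi =>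
    Finset.subset_biUnion_of_mem (fun i => (c i).support) (Finset.mem_range.mpr hi)
  have hb : ∀ i, b' i = ∑ μ ∈ U, c' i μ := by
    intro i
    by_cases hi : i < N
    · simp only [b', c', if_pos hi]
      rw [← hs i, Finsupp.sum_of_support_subset _ (hsub i hi) _ (by simp)]
    · simp only [b', c', if_neg hi, Finset.sum_const_zero]
  have hφ : IsPoly (fun s : k => X.ρ (yy t) (X.ρ (xx s) v)) := (X.rat v).1.map _
  have key := a8_abs t N hN2 (ee X) hf0 b' U c' hb (-1)
    (fun s : k => X.ρ (yy t) (X.ρ (xx s) v)) hφ (by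
      intro s hs1
      have e1 : X.ρ (yy t) (X.ρ (xx s) v) = X.ρ (xx (s / (1 + t * s)))
          (X.ρ (hh (Units.mk0 _ hs1)⁻¹) (X.ρ (yy (t / (1 + t * s))) v)) := by
        rw [← Module.End.mul_apply, ← map_mul, a8_id2 k t s (1 + t * s) hs1 rfl, map_mul, map_mul]
        rfl
      rw [e1, (hN v).2, map_sum, map_sum]
      apply Finset.sum_congr rfl
      intro i hi
      rw [map_smul, map_smul]
      have hi' : i < N := Finset.mem_range.mp hi
      have e2 : ff X i v = ∑ μ ∈ U, c i μ := by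
        rw [← hs i, Finsupp.sum_of_support_subset _ (hsub i hi') _ (by simp)]
      rw [e2, map_sum, map_sum, Finset.smul_sum]
      apply Finset.sum_congr rfl
      intro μ _
      rw [a8_hh k X _ μ (c i μ) (hc i μ), map_smul, (hN (c i μ)).1, Finset.smul_sum,
        Finset.smul_sum]
      apply Finset.sum_congr rfl
      intro j _
      simp only [c', if_pos hi', Units.val_inv_eq_inv_val, Units.val_mk0, smul_smul]
      congr 1
      rw [div_pow, div_pow, inv_zpow, ← zpow_neg, neg_one_mul, zpow_sub₀ hs1, zpow_sub₀ hs1,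
        zpow_natCast, zpow_natCast]
      field_simp)
  rw [cof_map (X.ρ (yy t)) (X.rat v).1 1] at key
  have e3 : ∑ i ∈ Finset.range N, t ^ i • b' i = X.ρ (yy t) v := by
    rw [(hN v).2 t]
    apply Finset.sum_congr rfl
    intro i hi
    simp only [b', if_pos (Finset.mem_range.mp hi)]
  have e4 : ∑ i ∈ Finset.range N, ((i : k) * t ^ i) • b' i =
      ∑ i ∈ Finset.range N, ((i : k) * t ^ i) • ff X i v := by
    apply Finset.sum_congr rfl
    intro i hi
    simp only [b', if_pos (Finset.mem_range.mp hi)]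
  have e5 : ∑ i ∈ Finset.range N, t ^ i • ∑ μ ∈ U, (((-1 : ℤ) * μ : ℤ) : k) • c' i μ =
      ∑ i ∈ Finset.range N, t ^ i • ((c i).sum fun a w => (-(a : k)) • w) := by
    apply Finset.sum_congr rfl
    intro i hi
    have hi' : i < N := Finset.mem_range.mp hi
    rw [Finsupp.sum_of_support_subset _ (hsub i hi') _ (by simp)]
    simp only [c', if_pos hi']
    push_cast
    simp only [neg_mul, one_mul]
  rw [e3, e4, e5] at key
  exact key

private theorem a8_coef (X : Ob k) (f g : X.V) (N : ℕ) (hN2 : 2 ≤ N) (u w : ℕ → X.V) (P : k → X.V)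
    (hP : IsPoly P) (L : k → X.V) (hL : IsPoly L)
    (h : ∀ t : k, L t = P t + t • (∑ i ∈ Finset.range N, t ^ i • u i) -
      t • ∑ i ∈ Finset.range N, ((i : k) * t ^ i) • w i) : cof L 1 = cof P 1 + u 0 := by
  have hu : IsPoly (fun t : k => ∑ i ∈ Finset.range N, t ^ i • u i) :=
    IsPoly.sum _ _ fun i _ => IsPoly.monomial _ _
  have hw : IsPoly (fun t : k => ∑ i ∈ Finset.range N, ((i : k) * t ^ i) • w i) := by
    have : (fun t : k => ∑ i ∈ Finset.range N, ((i : k) * t ^ i) • w i) =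
        fun t : k => ∑ i ∈ Finset.range N, t ^ i • ((i : k) • w i) := by
      funext t
      apply Finset.sum_congr rfl
      intro i _
      rw [smul_smul, mul_comm]
    rw [this]
    exact IsPoly.sum _ _ fun i _ => IsPoly.monomial _ _
  obtain ⟨hu1, _, hu3⟩ := a8_mulX hu
  obtain ⟨hw1, _, hw3⟩ := a8_mulX hw
  have e : L = fun t => (P t + t • (∑ i ∈ Finset.range N, t ^ i • u i)) +
      (-1 : k) • (t • ∑ i ∈ Finset.range N, ((i : k) * t ^ i) • w i) := by
    funext t
    rw [h t, neg_one_smul, sub_eq_add_neg]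
  rw [e, cof_add (hP.add hu1) (hw1.smul (-1)), cof_add hP hu1, cof_smul (-1) hw1, hu3, hw3,
    cof_zero_eq hu, cof_zero_eq hw]
  obtain ⟨M, rfl⟩ : ∃ M, N = M + 1 := ⟨N - 1, by omega⟩
  rw [Finset.sum_range_succ', Finset.sum_range_succ']
  simp

theorem p_A8 (hA1 : S_A1 k) (hA3 : S_A3 k) (hA4 : S_A4 k) (hA7 : S_A7 k) : S_A8 k := by
  intro X
  obtain ⟨N, hN2, hNN⟩ := a8_bound k hA1 X
  have hN := fun v => (hNN v).1
  have he0 : ∀ v, ee X 0 v = v := by
    intro v
    have := cof_zero_eq (X.rat v).1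
    have h0 : (xx (0 : k)) = 1 := by
      apply Subtype.ext
      ext i j
      fin_cases i <;> fin_cases j <;> simp [xx]
    rw [h0, map_one] at this
    exact this
  have hf0 : ∀ v, ff X 0 v = v := by
    intro v
    have := cof_zero_eq (X.rat v).2
    have h0 : (yy (0 : k)) = 1 := by
      apply Subtype.ext
      ext i j
      fin_cases i <;> fin_cases j <;> simp [yy]
    rw [h0, map_one] at this
    exact this
  -- decompositions
  choose dec hdec1 hdec2 using (hA7 X).1
  have hop1 : ∀ (a : ℤ), ∀ v ∈ wt X a, hop X v = (a : k) • v := by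
    intro a v hv
    let c : ℕ → ℤ →₀ X.V := fun i => if i = 0 then Finsupp.single a v else dec (ee X i v)
    have hc : ∀ i b, c i b ∈ wt X b := by
      intro i b
      by_cases hi : i = 0
      · simp only [c, if_pos hi, Finsupp.single_apply]
        split_ifs with hab
        · exact hab ▸ hv
        · exact zero_mem _
      · simp only [c, if_neg hi]
        exact hdec1 _ b
    have hs : ∀ i, ((c i).sum fun _ w => w) = ee X i v := by
      intro i
      by_cases hi : i = 0
      · subst hi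
        simp only [c, if_true]
        rw [Finsupp.sum_single_index rfl, he0]
      · simp only [c, if_neg hi]
        exact hdec2 _
    have h1 := a8_coef k X 0 0 N hN2 (fun i => (c i).sum fun a w => (a : k) • w)
      (fun i => ee X i v) (fun t => ff X 1 (X.ρ (xx t) v)) ((X.rat v).1.map (ff X 1))
      (fun t => X.ρ (xx t) (ff X 1 v)) (X.rat (ff X 1 v)).1
      (fun t => a8_rule_x k X N hN2 hN v c hc hs hf0 t)
    rw [cof_map (ff X 1) (X.rat v).1 1] at h1
    simp only [c, if_true] at h1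
    rw [Finsupp.sum_single_index (by simp)] at h1
    have h2 : ee X 1 (ff X 1 v) = ff X 1 (ee X 1 v) + (a : k) • v := h1
    show ee X 1 (ff X 1 v) - ff X 1 (ee X 1 v) = (a : k) • v
    rw [h2]
    abel
  refine ⟨hop1, ?_, ?_⟩
  · intro t v
    have h1 := a8_rule_x k X N hN2 hN v (fun i => dec (ee X i v)) (fun i a => hdec1 _ a)
      (fun i => hdec2 _) hf0 t
    have h2 : ∑ i ∈ Finset.range N, t ^ i • ((dec (ee X i v)).sum fun a w => (a : k) • w) =
        hop X (X.ρ (xx t) v) := by
      rw [(hN v).1 t, map_sum]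
      apply Finset.sum_congr rfl
      intro i _
      rw [map_smul]
      congr 1
      conv_rhs => rw [← hdec2 (ee X i v)]
      rw [map_finsuppSum]
      apply Finsupp.sum_congr
      intro a _
      exact (hop1 a _ (hdec1 _ a)).symm
    have h3 : t • ∑ i ∈ Finset.range N, ((i : k) * t ^ i) • ee X i v =
        t ^ 2 • ee X 1 (X.ρ (xx t) v) := by
      have e1 : ∑ i ∈ Finset.range N, ((i : k) * t ^ i) • ee X i v =
          ∑ i ∈ Finset.range (N + 1), ((i : k) * t ^ i) • ee X i v := by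
        rw [Finset.sum_range_succ, (hNN v).2.1, smul_zero, add_zero]
      rw [e1, Finset.sum_range_succ', (hN v).1 t, map_sum, Finset.smul_sum, smul_add,
        Finset.smul_sum]
      simp only [Nat.cast_zero, zero_mul, zero_smul, smul_zero, add_zero]
      apply Finset.sum_congr rfl
      intro i _
      rw [map_smul, (hA3 X 1 i v).1]
      rw [Nat.choose_one_right, smul_smul, smul_smul, smul_smul, add_comm 1 i]
      congr 1
      push_cast
      ring
    rw [h1, h2, h3]
  · intro t v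
    have h1 := a8_rule_y k X N hN2 hN v (fun i => dec (ff X i v)) (fun i a => hdec1 _ a)
      (fun i => hdec2 _) he0 t
    have h2 : ∑ i ∈ Finset.range N, t ^ i • ((dec (ff X i v)).sum fun a w => (-(a : k)) • w) =
        - hop X (X.ρ (yy t) v) := by
      rw [(hN v).2 t, map_sum, ← Finset.sum_neg_distrib]
      apply Finset.sum_congr rfl
      intro i _
      rw [map_smul, ← smul_neg]
      congr 1
      conv_rhs => rw [← hdec2 (ff X i v)]
      rw [map_finsuppSum, ← Finsupp.sum_neg]
      apply Finsupp.sum_congr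
      intro a _
      rw [hop1 a _ (hdec1 _ a), neg_smul]
    have h3 : t • ∑ i ∈ Finset.range N, ((i : k) * t ^ i) • ff X i v =
        t ^ 2 • ff X 1 (X.ρ (yy t) v) := by
      have e1 : ∑ i ∈ Finset.range N, ((i : k) * t ^ i) • ff X i v =
          ∑ i ∈ Finset.range (N + 1), ((i : k) * t ^ i) • ff X i v := by
        rw [Finset.sum_range_succ, (hNN v).2.2, smul_zero, add_zero]
      rw [e1, Finset.sum_range_succ', (hN v).2 t, map_sum, Finset.smul_sum, smul_add,
        Finset.smul_sum]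
      simp only [Nat.cast_zero, zero_mul, zero_smul, smul_zero, add_zero]
      apply Finset.sum_congr rfl
      intro i _
      rw [map_smul, (hA3 X 1 i v).2.1]
      rw [Nat.choose_one_right, smul_smul, smul_smul, smul_smul, add_comm 1 i]
      congr 1
      push_cast
      ring
    rw [h1, h2, h3]
    module

end Main

end Pool.Agent.Sp49.Three
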