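import Mathlib
import Pool.Agent.Lib.MP_49c83e_al.Three.Stm

/-!
MP_49c83e_al, Theorem III, piece B1: the monomial basis of the module of binary forms and its
weights.
-/

namespace Pool.Agent.Sp49.Three

variable (k : Type) [Field k] [IsAlgClosed k]

/-- the monomials are linearly independent functions -/
private theorem b1_li (a : ℕ) : LinearIndependent k (fun i : Fin (a + 1) => mon k a i) := by
  rw [Fintype.linearIndependent_iff]
  intro c hc
  have : Infinite k := IsAlgClosed.instInfinite
  have h1 : (∑ i : Fin (a + 1), Polynomial.monomial (i : ℕ) (c i)) = 0 := by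
    apply Polynomial.funext
    intro t
    have h2 := congrFun (congrFun hc 1) t
    simp only [Finset.sum_apply, Pi.smul_apply, mon, one_pow, one_mul, smul_eq_mul,
      Pi.zero_apply] at h2
    simp only [Polynomial.eval_finsetSum, Polynomial.eval_monomial, Polynomial.eval_zero]
    exact h2
  intro i
  have h3 := congrArg (fun Q => Polynomial.coeff Q (i : ℕ)) h1
  simp only [Polynomial.finsetSum_coeff, Polynomial.coeff_monomial, Polynomial.coeff_zero] at h3
  rw [Finset.sum_eq_single i] at h3
  · simpa using h3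
  · intro j _ hj
    have : (j : ℕ) ≠ i := fun h => hj (Fin.ext h)
    simp [this]
  · intro h
    exact absurd (Finset.mem_univ i) h

private theorem b1_basis (a : ℕ) : ∃ b : Module.Basis (Fin (a + 1)) k (nab k a).V,
    ∀ i : Fin (a + 1), b i = mm k a i := by
  refine ⟨Module.Basis.span (b1_li k a), ?_⟩
  intro i
  have hi : (i : ℕ) ≤ a := by omega
  rw [mm, dif_pos hi]
  exact Module.Basis.span_apply (b1_li k a) i

private theorem b1_wt (a i : ℕ) (hi : i ≤ a) (s : kˣ) :
    (nab k a).ρ (hh s) (mm k a i) = ((s ^ ((a : ℤ) - 2 * i) : kˣ) : k) • mm k a i := by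
  apply Subtype.ext
  funext σ τ
  rw [nab_ρ]
  rw [mm, dif_pos hi]
  have e1 : (hh s).1 0 0 = (s : k) := by simp [hh]
  have e2 : (hh s).1 1 0 = (0 : k) := by simp [hh]
  have e3 : (hh s).1 0 1 = (0 : k) := by simp [hh]
  have e4 : (hh s).1 1 1 = ((s⁻¹ : kˣ) : k) := by simp [hh]
  rw [e1, e2, e3, e4]
  show mon k a i ((s : k) * σ + 0 * τ) (0 * σ + ((s⁻¹ : kˣ) : k) * τ) =
    ((s ^ ((a : ℤ) - 2 * i) : kˣ) : k) * mon k a i σ τ
  have e5 : ((s ^ ((a : ℤ) - 2 * i) : kˣ) : k) = (s : k) ^ (a - i) * (((s⁻¹ : kˣ) : k)) ^ i := by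
    have : s ^ ((a : ℤ) - 2 * i) = s ^ (a - i) * (s⁻¹) ^ i := by
      rw [inv_pow, ← zpow_natCast, ← zpow_natCast s i, ← zpow_neg, ← zpow_add]
      congr 1
      omega
    rw [this]
    push_cast
    rfl
  rw [e5]
  simp only [mon]
  ring

private theorem b1_zpow (n : ℤ) (h : ∀ s : kˣ, s ^ n = 1) : n = 0 := by
  by_contra hn
  have : Infinite k := IsAlgClosed.instInfinite
  classical
  obtain ⟨c, hc⟩ := Infinite.exists_notMem_finset ({0, 1} : Finset k)
  simp only [Finset.mem_insert, Finset.mem_singleton, not_or] at hc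
  have hpos : 0 < n.natAbs := Int.natAbs_pos.mpr hn
  obtain ⟨z, hz⟩ := IsAlgClosed.exists_pow_nat_eq c hpos
  have hz0 : z ≠ 0 := by
    rintro rfl
    rw [zero_pow hpos.ne'] at hz
    exact hc.1 hz.symm
  have h1 : (Units.mk0 z hz0) ^ n.natAbs = 1 := by
    have h2 := h (Units.mk0 z hz0)
    rcases Int.natAbs_eq n with h3 | h3
    · rw [h3, zpow_natCast] at h2
      exact h2
    · rw [h3, zpow_neg, zpow_natCast, inv_eq_one] at h2
      exact h2
  have h4 := congrArg (fun u : kˣ => (u : k)) h1
  simp only [Units.val_pow_eq_pow_val, Units.val_mk0, Units.val_one] at h4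
  rw [hz] at h4
  exact hc.2 h4

theorem p_B1 : S_B1 k := by
  intro a
  obtain ⟨b, hb⟩ := b1_basis k a
  refine ⟨⟨b, hb⟩, ?_, ?_, ?_⟩
  · rw [Module.finrank_eq_card_basis b, Fintype.card_fin]
  · intro i hi
    refine ⟨fun s => b1_wt k a i hi s, ?_⟩
    have h1 := hb ⟨i, by omega⟩
    intro h0
    exact b.ne_zero ⟨i, by omega⟩ (h1.trans h0)
  · intro w v hv
    by_cases hv0 : v = 0
    · exact Or.inl hv0
    right
    have hex : ∃ i, b.repr v i ≠ 0 := by
      by_contra hcon
      push Not at hcon
      apply hv0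
      rw [← b.sum_repr v]
      apply Finset.sum_eq_zero
      intro i _
      rw [hcon i, zero_smul]
    have key : ∀ i, b.repr v i ≠ 0 → (a : ℤ) - 2 * (i : ℕ) = w := by
      intro i hi
      have h2 : ∀ s : kˣ, s ^ ((a : ℤ) - 2 * (i : ℕ) - w) = 1 := by
        intro s
        have h3 := hv s
        have h4 : (nab k a).ρ (hh s) v = ∑ j, (b.repr v j * ((s ^ ((a : ℤ) - 2 * (j : ℕ)) : kˣ) : k)) • b j := by
          conv_lhs => rw [← b.sum_repr v]
          rw [map_sum]
          apply Finset.sum_congr rfl
          intro j _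
          rw [map_smul, hb j, b1_wt k a j (by omega) s, smul_smul]
        have h5 := congrArg (fun u => b.repr u i) (h4.symm.trans h3)
        simp only [map_sum, map_smul, Module.Basis.repr_self, Finsupp.coe_finsetSum,
          Finset.sum_apply, Finsupp.smul_apply, smul_eq_mul] at h5
        rw [Finset.sum_eq_single i] at h5
        · rw [Finsupp.single_eq_same, mul_one, mul_comm] at h5
          have h6 := mul_right_cancel₀ hi h5
          have h7 := Units.ext h6
          rw [zpow_sub, h7, mul_inv_cancel]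
        · intro j _ hj
          rw [Finsupp.single_eq_of_ne (Ne.symm hj), mul_zero]
        · intro h
          exact absurd (Finset.mem_univ i) h
      have h8 := b1_zpow k _ h2
      omega
    obtain ⟨i, hi⟩ := hex
    refine ⟨i, by omega, key i hi, b.repr v i, ?_⟩
    conv_lhs => rw [← b.sum_repr v]
    rw [Finset.sum_eq_single i, hb i]
    · intro j _ hj
      by_cases h0 : b.repr v j = 0
      · rw [h0, zero_smul]
      · exfalso
        have h1 := key j h0
        have h2 := key i hi
        apply hj
        apply Fin.ext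
        omega
    · intro h
      exact absurd (Finset.mem_univ i) h

end Pool.Agent.Sp49.Three
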