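import Mathlib
import Pool.Agent.Lib.MP_49c83e_al.Three.Stm

namespace Pool.Agent.Sp49.Three

open Matrix TensorProduct

variable (k : Type) [Field k] [IsAlgClosed k]

/-- evaluation at a point -/
def b2_ev (a : ℕ) (σ τ : k) : (nab k a).V →ₗ[k] k where
  toFun f := f.1 σ τ
  map_add' _ _ := rfl
  map_smul' _ _ := rfl

theorem b2_ext (a : ℕ) (f g : (nab k a).V) (h : ∀ σ τ, b2_ev k a σ τ f = b2_ev k a σ τ g) : f = g :=
  Subtype.ext (funext fun σ => funext fun τ => h σ τ)

theorem b2_ev_mm (a i : ℕ) (h : i ≤ a) (σ τ : k) :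
    b2_ev k a σ τ (mm k a i) = σ ^ (a - i) * τ ^ i := by
  show (mm k a i).1 σ τ = _
  unfold mm
  rw [dif_pos h]
  rfl

theorem p_B2 : S_B2 k := by
  intro a j i hj
  constructor
  · set c : ℕ →₀ (nab k a).V := Finsupp.onFinset (Finset.range (j + 1))
      (fun i => (j.choose i : k) • mm k a (j - i)) (fun i hi => by
        rw [Finset.mem_range]
        by_contra h
        apply hi
        rw [Nat.choose_eq_zero_of_lt (by omega), Nat.cast_zero, zero_smul]) with hc
    have hcv : ∀ i, c i = (j.choose i : k) • mm k a (j - i) := fun i => rfl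
    rw [ee_eq (nab k a) (mm k a j) c ?_ i, hcv]
    intro t
    rw [pev_eq_sum c (j + 1) (fun i hi => by
      rw [hcv, Nat.choose_eq_zero_of_lt (by omega), Nat.cast_zero, zero_smul])]
    refine b2_ext k a _ _ fun σ τ => ?_
    rw [map_sum]
    have e : b2_ev k a σ τ ((nab k a).ρ (xx t) (mm k a j)) = σ ^ (a - j) * (t * σ + τ) ^ j := by
      have h1 : b2_ev k a σ τ ((nab k a).ρ (xx t) (mm k a j)) =
          b2_ev k a (1 * σ + 0 * τ) (t * σ + 1 * τ) (mm k a j) := rfl
      rw [h1, b2_ev_mm k a j hj]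
      ring
    rw [e, add_pow, Finset.mul_sum]
    refine Finset.sum_congr rfl fun l hl => ?_
    rw [Finset.mem_range] at hl
    rw [map_smul, hcv, map_smul, b2_ev_mm k a (j - l) (by omega), smul_eq_mul, smul_eq_mul,
      show a - (j - l) = (a - j) + l by omega, pow_add, mul_pow]
    ring
  · set c : ℕ →₀ (nab k a).V := Finsupp.onFinset (Finset.range (a - j + 1))
      (fun i => ((a - j).choose i : k) • mm k a (j + i)) (fun i hi => by
        rw [Finset.mem_range]
        by_contra h
        apply hi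
        rw [Nat.choose_eq_zero_of_lt (by omega), Nat.cast_zero, zero_smul]) with hc
    have hcv : ∀ i, c i = ((a - j).choose i : k) • mm k a (j + i) := fun i => rfl
    rw [ff_eq (nab k a) (mm k a j) c ?_ i, hcv]
    intro t
    rw [pev_eq_sum c (a - j + 1) (fun i hi => by
      rw [hcv, Nat.choose_eq_zero_of_lt (by omega), Nat.cast_zero, zero_smul])]
    refine b2_ext k a _ _ fun σ τ => ?_
    rw [map_sum]
    have e : b2_ev k a σ τ ((nab k a).ρ (yy t) (mm k a j)) = (t * τ + σ) ^ (a - j) * τ ^ j := by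
      have h1 : b2_ev k a σ τ ((nab k a).ρ (yy t) (mm k a j)) =
          b2_ev k a (1 * σ + t * τ) (0 * σ + 1 * τ) (mm k a j) := rfl
      rw [h1, b2_ev_mm k a j hj]
      ring
    rw [e, add_pow, Finset.sum_mul]
    refine Finset.sum_congr rfl fun l hl => ?_
    rw [Finset.mem_range] at hl
    rw [map_smul, hcv, map_smul, b2_ev_mm k a (j + l) (by omega), smul_eq_mul, smul_eq_mul,
      show a - j - l = a - (j + l) by omega, pow_add, mul_pow]
    ring

end Pool.Agent.Sp49.Three
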