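import Mathlib
import Pool.Agent.Lib.MP_49c83e_al.Three.Stm

/-!
MP_49c83e_al, Theorem III, piece B3: the Casimir operator on ∇(a), and its U^+-fixed weight vectors.
-/

namespace Pool.Agent.Sp49.Three

variable (k : Type) [Field k] [IsAlgClosed k]

/-- F E on monomials -/
private theorem b3_fe (hB2 : S_B2 k) (a j : ℕ) (hj : j ≤ a) :
    ff (nab k a) 1 (ee (nab k a) 1 (mm k a j)) =
      ((j : k) * ((a : k) - (j : k) + 1)) • mm k a j := by
  rcases j with _ | j
  · rw [(hB2 a 0 1 (Nat.zero_le a)).1]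
    simp
  · have hj' : j ≤ a := le_trans (Nat.le_succ j) hj
    rw [(hB2 a (j + 1) 1 hj).1, Nat.add_sub_cancel, map_smul, (hB2 a j 1 hj').2, smul_smul,
      Nat.choose_one_right, Nat.choose_one_right, Nat.cast_sub hj']
    congr 1
    push_cast
    ring

/-- the Casimir operator on monomials -/
private theorem b3_cas (hA8 : S_A8 k) (hB1 : S_B1 k) (hB2 : S_B2 k) (a j : ℕ) (hj : j ≤ a) :
    Cas (nab k a) (mm k a j) = (((a : k) + 1) ^ 2) • mm k a j := by
  have hw : hop (nab k a) (mm k a j) = ((a : k) - 2 * (j : k)) • mm k a j := by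
    have h := (hA8 (nab k a)).1 ((a : ℤ) - 2 * j) (mm k a j) (((hB1 a).2.2.1 j hj).1)
    rw [h]
    congr 1
    push_cast
    ring
  have h1 : Cas (nab k a) (mm k a j) =
      (4 : k) • ff (nab k a) 1 (ee (nab k a) 1 (mm k a j)) +
        (hop (nab k a) (hop (nab k a) (mm k a j) + mm k a j) +
          (hop (nab k a) (mm k a j) + mm k a j)) := rfl
  rw [h1, b3_fe k hB2 a j hj, hw, map_add, map_smul, hw]
  module

/-- U^+-fixed vectors are killed by E^{(i)}, i > 0 -/
private theorem b3_fix (X : Ob k) (v : X.V) (hv : ∀ t, X.ρ (xx t) v = v) (i : ℕ) (hi : i ≠ 0) :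
    ee X i v = 0 := by
  have h := ee_eq X v (Finsupp.single 0 v) (fun t => by rw [hv t, pev_single, pow_zero, one_smul]) i
  rw [h, Finsupp.single_eq_of_ne]
  exact hi

theorem p_B3 (hA8 : S_A8 k) (hB1 : S_B1 k) (hB2 : S_B2 k) : S_B3 k := by
  intro a
  refine ⟨?_, ?_⟩
  · obtain ⟨b, hb⟩ := (hB1 a).1
    have hlin : Cas (nab k a) = (((a : k) + 1) ^ 2) • (LinearMap.id : Module.End k (nab k a).V) := by
      refine b.ext fun i => ?_
      rw [hb i, b3_cas k hA8 hB1 hB2 a i (Nat.lt_succ_iff.mp i.2)]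
      rfl
    intro v
    rw [hlin]
    rfl
  · intro w v hv
    obtain ⟨hw, hfix⟩ := hv
    rcases (hB1 a).2.2.2 w v hw with h0 | ⟨i, hi, hiw, c, hc⟩
    · exact Or.inl h0
    · rcases Nat.eq_zero_or_pos i with h0 | hpos
      · subst h0
        refine Or.inr ⟨by simpa using hiw.symm, c, hc⟩
      · left
        have h1 := b3_fix k (nab k a) v hfix i hpos.ne'
        rw [hc, map_smul, (hB2 a i i hi).1, Nat.choose_self, Nat.cast_one, one_smul,
          Nat.sub_self] at h1
        have hne := ((hB1 a).2.2.1 0 (Nat.zero_le a)).2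
        rcases smul_eq_zero.mp h1 with h2 | h2
        · rw [hc, h2, zero_smul]
        · exact absurd h2 hne

end Pool.Agent.Sp49.Three
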