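import Mathlib
import Pool.Agent.Lib.MP_49c83e_al.Three.Stm

/-!
MP_49c83e_al, Theorem III, piece B4: the sequence 0 → ∇(a) → ∇(a+1) ⊗ W → ∇(a+2) → 0.
-/

namespace Pool.Agent.Sp49.Three

variable (k : Type) [Field k] [IsAlgClosed k]

private theorem b4_xm (a : ℕ) (f : (nab k a).V) (s t : k) : (xm a f).1 s t = f.1 s t * s := by
  show f.1 s t * (mm k 1 0).1 s t = _
  have : (mm k 1 0).1 s t = s := by
    show (mon k 1 0) s t = s
    simp [mon]
  rw [this]

private theorem b4_ym (a : ℕ) (f : (nab k a).V) (s t : k) : (ym a f).1 s t = f.1 s t * t := by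
  show f.1 s t * (mm k 1 1).1 s t = _
  have : (mm k 1 1).1 s t = t := by
    show (mon k 1 1) s t = t
    simp [mon]
  rw [this]

private theorem b4_ext {a : ℕ} {f g : (nab k a).V} (h : ∀ s t, f.1 s t = g.1 s t) : f = g :=
  Subtype.ext (funext fun s => funext fun t => h s t)

private theorem b4_mm (a i : ℕ) (h : i ≤ a) (s t : k) : (mm k a i).1 s t = s ^ (a - i) * t ^ i := by
  unfold mm
  rw [dif_pos h]
  rfl

private theorem b4_mW (a : ℕ) (u v : (nab k a).V) : mW k a (u, v) = xm a u + ym a v := rfl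

private theorem b4_jW (a : ℕ) (f : (nab k a).V) :
    jW k a f = (-(ym a f), xm a f) := rfl

private theorem b4_homW (a : ℕ) : IsHom (tW (nab k a)) (nab k (a + 1)) (mW k a) := by
  rintro g ⟨u, v⟩
  rw [tW_ρ, b4_mW, b4_mW]
  apply b4_ext
  intro s t
  rw [nab_ρ]
  show (xm a _).1 s t + (ym a _).1 s t = (xm a u).1 _ _ + (ym a v).1 _ _
  rw [b4_xm, b4_ym, b4_xm, b4_ym]
  show (g.1 0 0 * ((nab k a).ρ g u).1 s t + g.1 0 1 * ((nab k a).ρ g v).1 s t) * s +
    (g.1 1 0 * ((nab k a).ρ g u).1 s t + g.1 1 1 * ((nab k a).ρ g v).1 s t) * t = _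
  rw [nab_ρ, nab_ρ]
  ring

private theorem b4_homJ (a : ℕ) : IsHom (nab k a) (tW (nab k (a + 1))) (jW k a) := by
  intro g f
  rw [b4_jW, b4_jW, tW_ρ]
  have hd := Matrix.det_fin_two g.1
  rw [g.2] at hd
  refine Prod.ext ?_ ?_
  · apply b4_ext
    intro s t
    show -((ym a ((nab k a).ρ g f)).1 s t) = g.1 0 0 * ((nab k (a + 1)).ρ g (-(ym a f))).1 s t +
      g.1 0 1 * ((nab k (a + 1)).ρ g (xm a f)).1 s t
    rw [nab_ρ, nab_ρ, b4_ym, nab_ρ]
    show _ = g.1 0 0 * -((ym a f).1 _ _) + _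
    rw [b4_ym, b4_xm]
    linear_combination (-(f.1 (g.1 0 0 * s + g.1 1 0 * t) (g.1 0 1 * s + g.1 1 1 * t)) * t) * hd
  · apply b4_ext
    intro s t
    show (xm a ((nab k a).ρ g f)).1 s t = g.1 1 0 * ((nab k (a + 1)).ρ g (-(ym a f))).1 s t +
      g.1 1 1 * ((nab k (a + 1)).ρ g (xm a f)).1 s t
    rw [nab_ρ, nab_ρ, b4_xm, nab_ρ]
    show _ = g.1 1 0 * -((ym a f).1 _ _) + _
    rw [b4_ym, b4_xm]
    linear_combination ((f.1 (g.1 0 0 * s + g.1 1 0 * t) (g.1 0 1 * s + g.1 1 1 * t)) * s) * hd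

private theorem b4_xmm (a i : ℕ) (h : i ≤ a) : xm a (mm k a i) = mm k (a + 1) i := by
  apply b4_ext
  intro s t
  rw [b4_xm, b4_mm k a i h, b4_mm k (a + 1) i (by omega)]
  have : a + 1 - i = (a - i) + 1 := by omega
  rw [this, pow_succ]
  ring

private theorem b4_ymm (a i : ℕ) (h : i ≤ a) : ym a (mm k a i) = mm k (a + 1) (i + 1) := by
  apply b4_ext
  intro s t
  rw [b4_ym, b4_mm k a i h, b4_mm k (a + 1) (i + 1) (by omega)]
  have : a + 1 - (i + 1) = a - i := by omega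
  rw [this, pow_succ]
  ring

variable {k}

private theorem b4_surj (h1 : S_B1 k) (a : ℕ) : Function.Surjective (mW k a) := by
  obtain ⟨⟨b, hb⟩, -⟩ := h1 (a + 1)
  rw [← LinearMap.range_eq_top, eq_top_iff, ← b.span_eq, Submodule.span_le]
  rintro _ ⟨i, rfl⟩
  rw [hb]
  by_cases hi : (i : ℕ) ≤ a
  · refine ⟨(mm k a i, 0), ?_⟩
    rw [b4_mW, map_zero, add_zero, b4_xmm k a i hi]
  · refine ⟨(0, mm k a a), ?_⟩
    have : (i : ℕ) = a + 1 := by have := i.2; omega
    rw [b4_mW, map_zero, zero_add, b4_ymm k a a le_rfl, this]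

private theorem b4_xinj (h1 : S_B1 k) (a : ℕ) (f : (nab k a).V) (hf : xm a f = 0) : f = 0 := by
  obtain ⟨⟨b, hb⟩, -⟩ := h1 a
  obtain ⟨⟨b', hb'⟩, -⟩ := h1 (a + 1)
  have h2 : ∑ i, b.repr f i • b' (Fin.castSucc i) = 0 := by
    rw [← hf]
    conv_rhs => rw [← b.sum_repr f]
    rw [map_sum]
    refine Finset.sum_congr rfl fun i _ => ?_
    rw [map_smul, hb, hb', b4_xmm k a i (by have := i.2; omega)]
    rfl
  have h3 := b'.linearIndependent.comp _ (Fin.castSucc_injective (a + 1))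
  have h4 := Fintype.linearIndependent_iff.1 h3 _ h2
  rw [← b.sum_repr f]
  exact Finset.sum_eq_zero fun i _ => by rw [h4 i, zero_smul]

variable (k)

theorem p_B4 (h1 : S_B1 k) : S_B4 k := by
  have hinj : ∀ a, Function.Injective (jW k a) := by
    intro a
    rw [injective_iff_map_eq_zero]
    intro f hf
    rw [b4_jW] at hf
    exact b4_xinj h1 a f (Prod.mk_eq_zero.1 hf).2
  refine ⟨fun a => ⟨b4_homW k a, b4_surj h1 a⟩, fun a => ⟨b4_homJ k a, hinj a, ?_⟩, ?_⟩
  · rw [LinearMap.exact_iff]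
    symm
    apply Submodule.eq_of_le_of_finrank_eq
    · rintro _ ⟨f, rfl⟩
      rw [LinearMap.mem_ker, b4_jW, b4_mW]
      apply b4_ext
      intro s t
      show (xm (a + 1) (-(ym a f))).1 s t + (ym (a + 1) (xm a f)).1 s t = 0
      rw [b4_xm, b4_ym, b4_xm]
      show -((ym a f).1 s t) * s + _ = 0
      rw [b4_ym]
      ring
    · have e1 := LinearMap.finrank_range_of_inj (hinj a)
      have e2 := (mW k (a + 1)).finrank_range_add_finrank_ker
      rw [LinearMap.range_eq_top.2 (b4_surj h1 (a + 1)), finrank_top] at e2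
      have d1 := (h1 a).2.1
      have d2 := (h1 (a + 1)).2.1
      have d3 := (h1 (a + 1 + 1)).2.1
      have d4 : Module.finrank k (tW (nab k (a + 1))).V = (a + 1 + 1) + (a + 1 + 1) := by
        show Module.finrank k ((nab k (a + 1)).V × (nab k (a + 1)).V) = _
        rw [Module.finrank_prod, d2]
      omega
  · have d2 : Module.finrank k (tW (nab k 0)).V = Module.finrank k (nab k (0 + 1)).V := by
      show Module.finrank k ((nab k 0).V × (nab k 0).V) = _
      rw [Module.finrank_prod, (h1 0).2.1, (h1 (0 + 1)).2.1]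
    exact (LinearMap.injective_iff_surjective_of_finrank_eq_finrank d2).2 (b4_surj h1 0)

end Pool.Agent.Sp49.Three
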