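import Mathlib
import Pool.Agent.Lib.MP_49c83e_al.Three.Stm

namespace Pool.Agent.Sp49.Three

open Matrix TensorProduct

section B5

variable {k : Type} [Field k] [IsAlgClosed k]

private theorem b5_mm (a i : ℕ) (h : i ≤ a) : (mm k a i).1 = mon k a i := by
  unfold mm
  rw [dif_pos h]

private theorem b5_xv (a : ℕ) (u : (nab k a).V) (s t : k) : (xm a u).1 s t = u.1 s t * s := by
  show u.1 s t * (mm k 1 0).1 s t = u.1 s t * s
  rw [b5_mm 1 0 (by norm_num)]
  simp [mon]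

private theorem b5_yv (a : ℕ) (u : (nab k a).V) (s t : k) : (ym a u).1 s t = u.1 s t * t := by
  show u.1 s t * (mm k 1 1).1 s t = u.1 s t * t
  rw [b5_mm 1 1 le_rfl]
  simp [mon]

private theorem b5_xmm (a i : ℕ) (h : i ≤ a) : xm a (mm k a i) = mm k (a + 1) i := by
  apply Subtype.ext
  funext s t
  rw [b5_xv, b5_mm a i h, b5_mm (a + 1) i (by omega)]
  simp only [mon]
  have e : a + 1 - i = (a - i) + 1 := by omega
  rw [e, pow_succ]
  ring

private theorem b5_ymm (a i : ℕ) (h : i ≤ a) : ym a (mm k a i) = mm k (a + 1) (i + 1) := by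
  apply Subtype.ext
  funext s t
  rw [b5_yv, b5_mm a i h, b5_mm (a + 1) (i + 1) (by omega)]
  simp only [mon]
  have e : a + 1 - (i + 1) = a - i := by omega
  rw [e, pow_succ]
  ring

private theorem b5_xρ (a : ℕ) (g : SL2 k) (u : (nab k a).V) :
    (nab k (a + 1)).ρ g (xm a u) =
      g.1 0 0 • xm a ((nab k a).ρ g u) + g.1 1 0 • ym a ((nab k a).ρ g u) := by
  apply Subtype.ext
  funext s t
  rw [nab_ρ, b5_xv]
  show _ = g.1 0 0 * (xm a ((nab k a).ρ g u)).1 s t + g.1 1 0 * (ym a ((nab k a).ρ g u)).1 s t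
  rw [b5_xv, b5_yv, nab_ρ]
  ring

private theorem b5_yρ (a : ℕ) (g : SL2 k) (u : (nab k a).V) :
    (nab k (a + 1)).ρ g (ym a u) =
      g.1 0 1 • xm a ((nab k a).ρ g u) + g.1 1 1 • ym a ((nab k a).ρ g u) := by
  apply Subtype.ext
  funext s t
  rw [nab_ρ, b5_yv]
  show _ = g.1 0 1 * (xm a ((nab k a).ρ g u)).1 s t + g.1 1 1 * (ym a ((nab k a).ρ g u)).1 s t
  rw [b5_xv, b5_yv, nab_ρ]
  ring

/-- the first map -/
private noncomputable def b5_f (a b : ℕ) :
    ((nab k a).V ⊗[k] (nab k b).V) →ₗ[k] ((nab k (a + 1)).V ⊗[k] (nab k (b + 1)).V) :=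
  TensorProduct.map (xm a) (ym b) - TensorProduct.map (ym a) (xm b)

private theorem b5_f_tmul (a b : ℕ) (u : (nab k a).V) (v : (nab k b).V) :
    b5_f a b (u ⊗ₜ[k] v) = (xm a u) ⊗ₜ[k] (ym b v) - (ym a u) ⊗ₜ[k] (xm b v) := by
  unfold b5_f
  rw [LinearMap.sub_apply, TensorProduct.map_tmul, TensorProduct.map_tmul]

/-- multiplication -/
private noncomputable def b5_mu (a b : ℕ) :
    (nab k (a + 1)).V →ₗ[k] (nab k (b + 1)).V →ₗ[k] (nab k (a + b + 2)).V :=
  LinearMap.mk₂ k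
    (fun u v => (⟨u.1 * v.1, by
      have h := homF_mul u.2 v.2
      have e : a + 1 + (b + 1) = a + b + 2 := by omega
      rw [e] at h
      exact h⟩ : (nab k (a + b + 2)).V))
    (fun u u' v => Subtype.ext (add_mul u.1 u'.1 v.1))
    (fun c u v => Subtype.ext (smul_mul_assoc c u.1 v.1))
    (fun u v v' => Subtype.ext (mul_add u.1 v.1 v'.1))
    (fun c u v => Subtype.ext (mul_smul_comm c u.1 v.1))

private theorem b5_mu_val (a b : ℕ) (u : (nab k (a + 1)).V) (v : (nab k (b + 1)).V) (s t : k) :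
    (b5_mu a b u v).1 s t = u.1 s t * v.1 s t := rfl

private noncomputable def b5_g (a b : ℕ) :
    ((nab k (a + 1)).V ⊗[k] (nab k (b + 1)).V) →ₗ[k] (nab k (a + b + 2)).V :=
  TensorProduct.lift (b5_mu a b)

private theorem b5_g_tmul (a b : ℕ) (u : (nab k (a + 1)).V) (v : (nab k (b + 1)).V) :
    b5_g a b (u ⊗ₜ[k] v) = b5_mu a b u v := TensorProduct.lift.tmul u v

private theorem b5_g_mm (a b i j : ℕ) (hi : i ≤ a + 1) (hj : j ≤ b + 1) :
    b5_g a b ((mm k (a + 1) i) ⊗ₜ[k] (mm k (b + 1) j)) = mm k (a + b + 2) (i + j) := by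
  rw [b5_g_tmul]
  apply Subtype.ext
  funext s t
  rw [b5_mu_val, b5_mm _ _ hi, b5_mm _ _ hj, b5_mm _ _ (by omega)]
  simp only [mon]
  have e : a + b + 2 - (i + j) = (a + 1 - i) + (b + 1 - j) := by omega
  rw [e, pow_add, pow_add]
  ring

private theorem b5_f_hom (a b : ℕ) :
    IsHom (tens (nab k a) (nab k b)) (tens (nab k (a + 1)) (nab k (b + 1))) (b5_f a b) := by
  intro g v
  have : (b5_f a b) ∘ₗ (tens (nab k a) (nab k b)).ρ g =
      (tens (nab k (a + 1)) (nab k (b + 1))).ρ g ∘ₗ (b5_f a b) := by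
    apply TensorProduct.ext'
    intro u w
    show b5_f a b (((nab k a).ρ g u) ⊗ₜ[k] ((nab k b).ρ g w)) =
      TensorProduct.map ((nab k (a + 1)).ρ g) ((nab k (b + 1)).ρ g) (b5_f a b (u ⊗ₜ[k] w))
    rw [b5_f_tmul, b5_f_tmul, map_sub, TensorProduct.map_tmul, TensorProduct.map_tmul,
      b5_xρ, b5_yρ, b5_xρ, b5_yρ]
    generalize (nab k a).ρ g u = U
    generalize (nab k b).ρ g w = W
    have hd := Matrix.det_fin_two g.1
    rw [g.2] at hd
    simp only [TensorProduct.add_tmul, TensorProduct.tmul_add, ← TensorProduct.smul_tmul',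
      TensorProduct.tmul_smul]
    have h1 : (xm a U) ⊗ₜ[k] (ym b W) =
        (g.1 0 0 * g.1 1 1 - g.1 0 1 * g.1 1 0) • ((xm a U) ⊗ₜ[k] (ym b W)) := by
      rw [← hd, one_smul]
    have h2 : (ym a U) ⊗ₜ[k] (xm b W) =
        (g.1 0 0 * g.1 1 1 - g.1 0 1 * g.1 1 0) • ((ym a U) ⊗ₜ[k] (xm b W)) := by
      rw [← hd, one_smul]
    nth_rewrite 1 [h1, h2]
    module
  exact LinearMap.congr_fun this v

private theorem b5_g_hom (a b : ℕ) :
    IsHom (tens (nab k (a + 1)) (nab k (b + 1))) (nab k (a + b + 2)) (b5_g a b) := by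
  intro g v
  have : (b5_g a b) ∘ₗ (tens (nab k (a + 1)) (nab k (b + 1))).ρ g =
      (nab k (a + b + 2)).ρ g ∘ₗ (b5_g a b) := by
    apply TensorProduct.ext'
    intro u w
    show b5_g a b (((nab k (a + 1)).ρ g u) ⊗ₜ[k] ((nab k (b + 1)).ρ g w)) =
      (nab k (a + b + 2)).ρ g (b5_g a b (u ⊗ₜ[k] w))
    rw [b5_g_tmul, b5_g_tmul]
    apply Subtype.ext
    funext s t
    rw [b5_mu_val, nab_ρ, nab_ρ, nab_ρ, b5_mu_val]
  exact LinearMap.congr_fun this v

private theorem b5_gf (a b : ℕ) (z : (nab k a).V ⊗[k] (nab k b).V) :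
    b5_g a b (b5_f a b z) = 0 := by
  have : (b5_g (k := k) a b) ∘ₗ (b5_f (k := k) a b) = 0 := by
    apply TensorProduct.ext'
    intro u w
    show b5_g (k := k) a b (b5_f (k := k) a b (u ⊗ₜ[k] w)) = 0
    rw [b5_f_tmul, map_sub, b5_g_tmul, b5_g_tmul]
    apply Subtype.ext
    funext s t
    show (b5_mu a b (xm a u) (ym b w)).1 s t - (b5_mu a b (ym a u) (xm b w)).1 s t = 0
    rw [b5_mu_val, b5_mu_val, b5_xv, b5_xv, b5_yv, b5_yv]
    ring
  exact LinearMap.congr_fun this z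

/-- modulo the image of the first map -/
private theorem b5_red (a b : ℕ) : ∀ (j i : ℕ), i ≤ a + 1 → j ≤ b + 1 →
    (mm k (a + 1) i) ⊗ₜ[k] (mm k (b + 1) j) -
      (mm k (a + 1) (min (i + j) (a + 1))) ⊗ₜ[k] (mm k (b + 1) (i + j - min (i + j) (a + 1))) ∈
      LinearMap.range (b5_f (k := k) a b) := by
  intro j
  induction j with
  | zero =>
    intro i hi _
    have e1 : min (i + 0) (a + 1) = i := by omega
    have e2 : i + 0 - i = 0 := by omega
    rw [e1, e2, sub_self]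
    exact zero_mem _
  | succ j ih =>
    intro i hi hj
    by_cases h : i = a + 1
    · have e1 : min (i + (j + 1)) (a + 1) = i := by omega
      have e2 : i + (j + 1) - i = j + 1 := by omega
      rw [e1, e2, sub_self]
      exact zero_mem _
    · have h1 := ih (i + 1) (by omega) (by omega)
      have e1 : i + 1 + j = i + (j + 1) := by omega
      rw [e1] at h1
      have h2 : (mm k (a + 1) i) ⊗ₜ[k] (mm k (b + 1) (j + 1)) -
          (mm k (a + 1) (i + 1)) ⊗ₜ[k] (mm k (b + 1) j) ∈ LinearMap.range (b5_f (k := k) a b) := by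
        refine ⟨(mm k a i) ⊗ₜ[k] (mm k b j), ?_⟩
        rw [b5_f_tmul, b5_xmm a i (by omega), b5_ymm b j (by omega), b5_ymm a i (by omega),
          b5_xmm b j (by omega)]
      have h3 := Submodule.add_mem _ h2 h1
      rw [sub_add_sub_cancel] at h3
      exact h3

end B5

theorem p_B5 (k : Type) [Field k] [IsAlgClosed k] (hB1 : S_B1 k) : S_B5 k := by
  intro a b
  obtain ⟨⟨ba, hba⟩, fa, -⟩ := hB1 a
  obtain ⟨⟨bb, hbb⟩, fb, -⟩ := hB1 b
  obtain ⟨⟨ba1, hba1⟩, fa1, -⟩ := hB1 (a + 1)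
  obtain ⟨⟨bb1, hbb1⟩, fb1, -⟩ := hB1 (b + 1)
  obtain ⟨⟨bc, hbc⟩, fc, -⟩ := hB1 (a + b + 2)
  have hex : ∀ w, b5_g (k := k) a b w = 0 → w ∈ LinearMap.range (b5_f (k := k) a b) := by
    -- the section
    let σ : (nab k (a + b + 2)).V →ₗ[k] ((nab k (a + 1)).V ⊗[k] (nab k (b + 1)).V) :=
      bc.constr k fun i : Fin (a + b + 2 + 1) =>
        (mm k (a + 1) (min (i : ℕ) (a + 1))) ⊗ₜ[k] (mm k (b + 1) ((i : ℕ) - min (i : ℕ) (a + 1)))
    have hσ : ∀ i, i ≤ a + b + 2 → σ (mm k (a + b + 2) i) =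
        (mm k (a + 1) (min i (a + 1))) ⊗ₜ[k] (mm k (b + 1) (i - min i (a + 1))) := by
      intro i hi
      have h1 := bc.constr_basis k (fun i : Fin (a + b + 2 + 1) =>
        (mm k (a + 1) (min (i : ℕ) (a + 1))) ⊗ₜ[k] (mm k (b + 1) ((i : ℕ) - min (i : ℕ) (a + 1))))
        (⟨i, by omega⟩ : Fin (a + b + 2 + 1))
      rw [hbc] at h1
      exact h1
    have hmod : ∀ w, w - σ (b5_g a b w) ∈ LinearMap.range (b5_f (k := k) a b) := by
      intro w
      have hq : (LinearMap.range (b5_f (k := k) a b)).mkQ ∘ₗ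
          (LinearMap.id - σ ∘ₗ b5_g (k := k) a b) = 0 := by
        apply (ba1.tensorProduct bb1).ext
        rintro ⟨i, j⟩
        rw [Module.Basis.tensorProduct_apply, hba1, hbb1]
        show (LinearMap.range (b5_f (k := k) a b)).mkQ
          ((mm k (a + 1) i) ⊗ₜ[k] (mm k (b + 1) j) -
            σ (b5_g a b ((mm k (a + 1) i) ⊗ₜ[k] (mm k (b + 1) j)))) = 0
        have hi := i.2
        have hj := j.2
        rw [b5_g_mm a b i j (by omega) (by omega), hσ _ (by omega), Submodule.mkQ_apply,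
          Submodule.Quotient.mk_eq_zero]
        exact b5_red a b j i (by omega) (by omega)
      have h2 := LinearMap.congr_fun hq w
      have h3 : (LinearMap.range (b5_f (k := k) a b)).mkQ (w - σ (b5_g a b w)) = 0 := h2
      rwa [Submodule.mkQ_apply, Submodule.Quotient.mk_eq_zero] at h3
    intro w hw
    have h4 := hmod w
    rwa [hw, map_zero, sub_zero] at h4
  have hsurj : Function.Surjective (b5_g (k := k) a b) := by
    rw [← LinearMap.range_eq_top, eq_top_iff, ← bc.span_eq, Submodule.span_le]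
    rintro _ ⟨i, rfl⟩
    rw [hbc]
    have hi := i.2
    refine ⟨(mm k (a + 1) (min (i : ℕ) (a + 1))) ⊗ₜ[k]
      (mm k (b + 1) ((i : ℕ) - min (i : ℕ) (a + 1))), ?_⟩
    rw [b5_g_mm a b _ _ (by omega) (by omega)]
    congr 1
    omega
  have hker : LinearMap.ker (b5_g (k := k) a b) = LinearMap.range (b5_f (k := k) a b) := by
    apply le_antisymm
    · intro w hw
      exact hex w hw
    · rintro _ ⟨z, rfl⟩
      exact b5_gf a b z
  have hinj : Function.Injective (b5_f (k := k) a b) := by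
    rw [← LinearMap.ker_eq_bot]
    have d1 := LinearMap.finrank_range_add_finrank_ker (b5_f (k := k) a b)
    have d2 := LinearMap.finrank_range_add_finrank_ker (b5_g (k := k) a b)
    rw [LinearMap.range_eq_top.mpr hsurj, finrank_top, hker, fc,
      Module.finrank_tensorProduct, fa1, fb1] at d2
    rw [Module.finrank_tensorProduct, fa, fb] at d1
    apply Submodule.finrank_eq_zero.mp
    have e : (a + 1 + 1) * (b + 1 + 1) = (a + 1) * (b + 1) + (a + b + 2 + 1) := by ring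
    omega
  exact ⟨b5_f a b, b5_g a b, b5_f_hom a b, b5_g_hom a b, hinj,
    fun w => ⟨fun hw => hex w hw, fun hw => by
      obtain ⟨z, rfl⟩ := hw
      exact b5_gf a b z⟩, hsurj⟩

end Pool.Agent.Sp49.Three
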