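import Mathlib
import Pool.Agent.Lib.MP_49c83e_al.Three.Stm

/-!
MP_49c83e_al, Theorem III, piece B6: ∇(m+n) is a retract of ∇(m) ⊗ W^{⊗ n} if the binomial
coefficients binom(m+n, i) are nonzero.
-/

namespace Pool.Agent.Sp49.Three

open Matrix

variable (k : Type) [Field k] [IsAlgClosed k]

private theorem b6_mm (a j : ℕ) (s t : k) :
    (a.choose j : k) * (mm k a j).1 s t = (a.choose j : k) * (s ^ (a - j) * t ^ j) := by
  by_cases h : j ≤ a
  · unfold mm
    rw [dif_pos h]
    rfl
  · rw [Nat.choose_eq_zero_of_lt (not_le.mp h)]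
    simp

private theorem b6_x (s t : k) : (mm k 1 0).1 s t = s := by
  unfold mm
  rw [dif_pos (by norm_num)]
  simp [mon]

private theorem b6_y (s t : k) : (mm k 1 1).1 s t = t := by
  unfold mm
  rw [dif_pos le_rfl]
  simp [mon]

private theorem b6_mW (a : ℕ) (u v : (nab k a).V) (s t : k) :
    (mW k a (u, v)).1 s t = u.1 s t * s + v.1 s t * t := by
  have h : (mW k a (u, v)).1 s t =
      u.1 s t * (mm k 1 0).1 s t + v.1 s t * (mm k 1 1).1 s t := rfl
  rw [h, b6_x, b6_y]

private theorem b6_mW_succ (a j : ℕ) :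
    mW k a ((a.choose (j + 1) : k) • mm k a (j + 1), (a.choose j : k) • mm k a j) =
      ((a + 1).choose (j + 1) : k) • mm k (a + 1) (j + 1) := by
  apply Subtype.ext
  funext s t
  rw [b6_mW]
  show ((a.choose (j + 1) : k) * (mm k a (j + 1)).1 s t) * s +
    ((a.choose j : k) * (mm k a j).1 s t) * t =
    ((a + 1).choose (j + 1) : k) * (mm k (a + 1) (j + 1)).1 s t
  rw [b6_mm, b6_mm, b6_mm, Nat.choose_succ_succ]
  have e1 : (a.choose (j + 1) : k) * (s ^ (a - (j + 1)) * t ^ (j + 1)) * s =
      (a.choose (j + 1) : k) * (s ^ (a - j) * t ^ (j + 1)) := by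
    by_cases h : j + 1 ≤ a
    · have : a - j = a - (j + 1) + 1 := by omega
      rw [this, pow_succ]
      ring
    · rw [Nat.choose_eq_zero_of_lt (not_le.mp h)]
      simp
  rw [e1, show a + 1 - (j + 1) = a - j by omega]
  push_cast
  ring

private theorem b6_mW_zero (a : ℕ) :
    mW k a ((a.choose 0 : k) • mm k a 0, 0) = ((a + 1).choose 0 : k) • mm k (a + 1) 0 := by
  apply Subtype.ext
  funext s t
  rw [b6_mW]
  show ((a.choose 0 : k) * (mm k a 0).1 s t) * s + (0 : k) * t =
    ((a + 1).choose 0 : k) * (mm k (a + 1) 0).1 s t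
  rw [b6_mm, b6_mm]
  simp
  ring

/-- values of the power of a linear form -/
private theorem b6_L (a : ℕ) (α β s t : k) :
    (∑ j ∈ Finset.range (a + 1), (α ^ (a - j) * β ^ j) • ((a.choose j : k) • mm k a j)
      : (nab k a).V).1 s t = (α * s + β * t) ^ a := by
  have h1 : ∀ (S : Finset ℕ) (f : ℕ → (nab k a).V), (∑ j ∈ S, f j : (nab k a).V).1 s t =
      ∑ j ∈ S, (f j).1 s t := by
    intro S f
    classical
    induction S using Finset.induction_on with
    | empty => rfl
    | insert b S hb ih =>
      rw [Finset.sum_insert hb, Finset.sum_insert hb, ← ih]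
      rfl
  rw [h1, add_comm (α * s), add_pow]
  refine Finset.sum_congr rfl fun j hj => ?_
  show (α ^ (a - j) * β ^ j) * ((a.choose j : k) * (mm k a j).1 s t) = _
  rw [b6_mm, mul_pow, mul_pow]
  ring

private theorem b6_gL (a : ℕ) (g : SL2 k) (α β : k) :
    (nab k a).ρ g (∑ j ∈ Finset.range (a + 1),
      (α ^ (a - j) * β ^ j) • ((a.choose j : k) • mm k a j)) =
    ∑ j ∈ Finset.range (a + 1), ((g.1 0 0 * α + g.1 0 1 * β) ^ (a - j) *
      (g.1 1 0 * α + g.1 1 1 * β) ^ j) • ((a.choose j : k) • mm k a j) := by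
  apply Subtype.ext
  funext s t
  rw [nab_ρ, b6_L, b6_L]
  congr 1
  ring

/-- the coefficients of the next vector -/
private def b6_c {V : Type} [AddCommGroup V] (c : ℕ → V) : ℕ → V × V
  | 0 => (c 0, 0)
  | j + 1 => (c (j + 1), c j)

omit [IsAlgClosed k] in
private theorem b6_sum {V : Type} [AddCommGroup V] [Module k V] (a : ℕ) (c : ℕ → V)
    (hc : c (a + 1) = 0) (α β : k) :
    ∑ j ∈ Finset.range (a + 1 + 1), (α ^ (a + 1 - j) * β ^ j) • b6_c c j =
      (α • ∑ j ∈ Finset.range (a + 1), (α ^ (a - j) * β ^ j) • c j,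
        β • ∑ j ∈ Finset.range (a + 1), (α ^ (a - j) * β ^ j) • c j) := by
  refine Prod.ext ?_ ?_
  · rw [Prod.fst_sum, Finset.sum_range_succ]
    have h1 : ∀ j, (b6_c c j).1 = c j := fun j => by cases j <;> rfl
    simp only [Prod.smul_fst, h1]
    rw [hc, smul_zero, add_zero, Finset.smul_sum]
    refine Finset.sum_congr rfl fun j hj => ?_
    rw [Finset.mem_range] at hj
    rw [smul_smul, show a + 1 - j = a - j + 1 by omega, pow_succ]
    congr 1
    ring
  · rw [Prod.snd_sum, Finset.sum_range_succ']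
    simp only [Prod.smul_snd]
    have h0 : (b6_c c 0).2 = 0 := rfl
    rw [h0, smul_zero, add_zero, Finset.smul_sum]
    refine Finset.sum_congr rfl fun j hj => ?_
    show (α ^ (a + 1 - (j + 1)) * β ^ (j + 1)) • c j = _
    rw [smul_smul, show a + 1 - (j + 1) = a - j by omega, pow_succ]
    congr 1
    ring

private theorem b6_main (h4 : S_B4 k) (m : ℕ) (n : ℕ) :
    ∃ (μ : (tWn n (nab k m)).V →ₗ[k] (nab k (m + n)).V) (c : ℕ → (tWn n (nab k m)).V),
      IsHom (tWn n (nab k m)) (nab k (m + n)) μ ∧
      (∀ j, μ (c j) = ((m + n).choose j : k) • mm k (m + n) j) ∧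
      (∀ j, m + n < j → c j = 0) ∧
      (∀ (g : SL2 k) (α β : k), (tWn n (nab k m)).ρ g
        (∑ j ∈ Finset.range (m + n + 1), (α ^ (m + n - j) * β ^ j) • c j) =
        ∑ j ∈ Finset.range (m + n + 1), ((g.1 0 0 * α + g.1 0 1 * β) ^ (m + n - j) *
          (g.1 1 0 * α + g.1 1 1 * β) ^ j) • c j) := by
  induction n with
  | zero =>
    refine ⟨LinearMap.id, fun j => (m.choose j : k) • mm k m j, fun g v => rfl, fun j => rfl,
      fun j hj => ?_, fun g α β => b6_gL k m g α β⟩
    show (m.choose j : k) • mm k m j = 0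
    rw [Nat.choose_eq_zero_of_lt (by simpa using hj), Nat.cast_zero, zero_smul]
  | succ n ih =>
    obtain ⟨μ, c, hμ, hc, h0, hg⟩ := ih
    refine ⟨mW k (m + n) ∘ₗ tWmap (X := tWn n (nab k m)) (Y := nab k (m + n)) μ, b6_c c,
      ?_, ?_, ?_, ?_⟩
    · intro g v
      show mW k (m + n) (tWmap (X := tWn n (nab k m)) (Y := nab k (m + n)) μ
        ((tW (tWn n (nab k m))).ρ g v)) = _
      rw [tWmap_hom (X := tWn n (nab k m)) (Y := nab k (m + n)) μ hμ g v]
      exact (h4.1 (m + n)).1 g _
    · intro j
      cases j with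
      | zero =>
        show mW k (m + n) (μ (c 0), μ 0) = _
        rw [hc, map_zero]
        exact b6_mW_zero k (m + n)
      | succ j =>
        show mW k (m + n) (μ (c (j + 1)), μ (c j)) = _
        rw [hc, hc]
        exact b6_mW_succ k (m + n) j
    · intro j hj
      cases j with
      | zero => omega
      | succ j =>
        show (c (j + 1), c j) = 0
        rw [h0 (j + 1) (by omega), h0 j (by omega)]
        rfl
    · intro g α β
      have e1 := b6_sum k (m + n) c (h0 _ (by omega))
      refine (congrArg (fun w : (tWn n (nab k m)).V × (tWn n (nab k m)).V =>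
        (tW (tWn n (nab k m))).ρ g w) (e1 α β)).trans ?_
      refine Eq.trans ?_ (e1 (g.1 0 0 * α + g.1 0 1 * β) (g.1 1 0 * α + g.1 1 1 * β)).symm
      refine (tW_ρ (tWn n (nab k m)) g _ _).trans ?_
      rw [map_smul, map_smul, hg, smul_smul, smul_smul, smul_smul, smul_smul,
        ← add_smul, ← add_smul]

theorem p_B6 (h1 : S_B1 k) (h4 : S_B4 k) : S_B6 k := by
  intro m n hmn
  obtain ⟨μ, c, hμ, hc, h0, hg⟩ := b6_main k h4 m n
  obtain ⟨b, hb⟩ := (h1 (m + n)).1
  let i : (nab k (m + n)).V →ₗ[k] (tWn n (nab k m)).V :=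
    b.constr k fun j : Fin (m + n + 1) => ((m + n).choose j : k)⁻¹ • c j
  have hi : ∀ j, j < m + n + 1 → i (((m + n).choose j : k) • mm k (m + n) j) = c j := by
    intro j hj
    have e1 : i (mm k (m + n) j) = ((m + n).choose j : k)⁻¹ • c j := by
      have e2 := b.constr_basis k
        (fun j : Fin (m + n + 1) => ((m + n).choose j : k)⁻¹ • c j) ⟨j, hj⟩
      rw [hb] at e2
      exact e2
    rw [map_smul, e1, smul_smul, mul_inv_cancel₀ (hmn j (by omega)), one_smul]
  have hiL : ∀ α β : k, i (∑ j ∈ Finset.range (m + n + 1),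
      (α ^ (m + n - j) * β ^ j) • (((m + n).choose j : k) • mm k (m + n) j)) =
      ∑ j ∈ Finset.range (m + n + 1), (α ^ (m + n - j) * β ^ j) • c j := by
    intro α β
    rw [map_sum]
    refine Finset.sum_congr rfl fun j hj => ?_
    rw [map_smul, hi j (Finset.mem_range.mp hj)]
  refine ⟨i, μ, ?_, hμ, ?_⟩
  · intro g
    -- the submodule where the identity holds
    let S : Submodule k (nab k (m + n)).V :=
      LinearMap.eqLocus (i ∘ₗ (nab k (m + n)).ρ g) ((tWn n (nab k m)).ρ g ∘ₗ i)
    have hL : ∀ β : k, (∑ j ∈ Finset.range (m + n + 1),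
        (1 ^ (m + n - j) * β ^ j) • (((m + n).choose j : k) • mm k (m + n) j)) ∈ S := by
      intro β
      show i ((nab k (m + n)).ρ g _) = (tWn n (nab k m)).ρ g (i _)
      rw [b6_gL, hiL, hiL, hg]
    have hmem : ∀ j, j ≤ m + n → mm k (m + n) j ∈ S := by
      intro j hj
      let d : ℕ →₀ (nab k (m + n)).V := ∑ j ∈ Finset.range (m + n + 1),
        Finsupp.single j (((m + n).choose j : k) • mm k (m + n) j)
      have hd : ∀ j, j ≤ m + n → d j = ((m + n).choose j : k) • mm k (m + n) j := by
        intro j hj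
        show (∑ j ∈ Finset.range (m + n + 1),
          Finsupp.single j (((m + n).choose j : k) • mm k (m + n) j) :
            ℕ →₀ (nab k (m + n)).V) j = _
        rw [Finsupp.finsetSum_apply, Finset.sum_eq_single j]
        · rw [Finsupp.single_eq_same]
        · intro l _ hl
          rw [Finsupp.single_eq_of_ne (Ne.symm hl)]
        · intro h
          exact absurd (Finset.mem_range.mpr (by omega)) h
      have hpev : ∀ β : k, pev d β = ∑ j ∈ Finset.range (m + n + 1),
          (1 ^ (m + n - j) * β ^ j) • (((m + n).choose j : k) • mm k (m + n) j) := by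
        intro β
        rw [pev_eq_sum d (m + n + 1)]
        · refine Finset.sum_congr rfl fun l hl => ?_
          rw [hd l (by have := Finset.mem_range.mp hl; omega), one_pow, one_mul]
        · intro l hl
          show (∑ j ∈ Finset.range (m + n + 1),
            Finsupp.single j (((m + n).choose j : k) • mm k (m + n) j) :
              ℕ →₀ (nab k (m + n)).V) l = 0
          rw [Finsupp.finsetSum_apply]
          refine Finset.sum_eq_zero fun q hq => ?_
          have := Finset.mem_range.mp hq
          rw [Finsupp.single_eq_of_ne (by omega)]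
      have h2 := coeff_mem_of_infinite d S (by
        have : {t : k | pev d t ∈ S} = Set.univ := by
          ext t
          simp only [Set.mem_ofPred_eq, Set.mem_univ, iff_true]
          rw [hpev]
          exact hL t
        rw [this]
        exact Set.infinite_univ) j
      rw [hd j hj] at h2
      have h3 := S.smul_mem (((m + n).choose j : k)⁻¹) h2
      rwa [smul_smul, inv_mul_cancel₀ (hmn j hj), one_smul] at h3
    have htop : S = ⊤ := by
      rw [eq_top_iff, ← b.span_eq, Submodule.span_le]
      rintro _ ⟨j, rfl⟩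
      rw [hb]
      exact hmem j (by omega)
    intro v
    have hv : v ∈ S := by
      rw [htop]
      trivial
    exact hv
  · intro v
    have h2 : μ ∘ₗ i = LinearMap.id := by
      apply b.ext
      intro j
      rw [hb]
      show μ (i (mm k (m + n) j)) = mm k (m + n) j
      have e1 : i (mm k (m + n) j) = ((m + n).choose (j : ℕ) : k)⁻¹ • c j := by
        have e2 := b.constr_basis k
          (fun j : Fin (m + n + 1) => ((m + n).choose j : k)⁻¹ • c j) j
        rw [hb] at e2
        exact e2
      rw [e1, map_smul, hc, smul_smul, inv_mul_cancel₀ (hmn j (by omega)), one_smul]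
    exact LinearMap.congr_fun h2 v

end Pool.Agent.Sp49.Three
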