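import Mathlib
import Pool.Agent.Lib.MP_49c83e_al.Three.Stm

/-!
MP_49c83e_al, Theorem III, piece B7: the tensor product of the Steinberg module with a twist of
the module of binary forms of degree a is the module of binary forms of degree pa + p - 1.
-/

namespace Pool.Agent.Sp49.Three

open Matrix TensorProduct

section B7

variable (k : Type) [Field k] [IsAlgClosed k] (p : ℕ)

/-- composition with the p-th powers of the variables -/
private def b7_fr : (k → k → k) →ₗ[k] (k → k → k) where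
  toFun g := fun s t => g (s ^ p) (t ^ p)
  map_add' _ _ := rfl
  map_smul' _ _ := rfl

omit [IsAlgClosed k] in
private theorem b7_mon (a i : ℕ) : b7_fr k p (mon k a i) = mon k (p * a) (p * i) := by
  funext s t
  show (s ^ p) ^ (a - i) * (t ^ p) ^ i = s ^ (p * a - p * i) * t ^ (p * i)
  rw [← Nat.mul_sub, pow_mul, pow_mul]

omit [IsAlgClosed k] in
private theorem b7_mem (a : ℕ) {f : k → k → k} (hf : f ∈ homF k a) :
    b7_fr k p f ∈ homF k (p * a) := by
  refine Submodule.span_induction ?_ ?_ ?_ ?_ hf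
  · rintro _ ⟨i, rfl⟩
    show b7_fr k p (mon k a i) ∈ homF k (p * a)
    rw [b7_mon]
    have hi := i.2
    exact mon_mem _ _ (Nat.mul_le_mul_left p (by omega))
  · rw [map_zero]
    exact zero_mem _
  · intro u v _ _ hu hv
    rw [map_add]
    exact add_mem hu hv
  · intro c u _ hu
    rw [map_smul]
    exact Submodule.smul_mem _ _ hu

omit [IsAlgClosed k] in
private theorem b7_mem2 (a : ℕ) {f g : k → k → k} (hf : f ∈ homF k (p - 1))
    (hg : g ∈ homF k a) : f * b7_fr k p g ∈ homF k (p * a + (p - 1)) := by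
  have h := homF_mul hf (b7_mem k p a hg)
  rwa [add_comm] at h

/-- f, g ↦ f (g with p-th powers) -/
private def b7_B (a : ℕ) : (nab k (p - 1)).V →ₗ[k] (nab k a).V →ₗ[k]
    (nab k (p * a + (p - 1))).V :=
  LinearMap.mk₂ k (fun f g => ⟨f.1 * b7_fr k p g.1, b7_mem2 k p a f.2 g.2⟩)
    (fun f f' g => Subtype.ext (by
      show (f.1 + f'.1) * b7_fr k p g.1 = f.1 * b7_fr k p g.1 + f'.1 * b7_fr k p g.1
      rw [add_mul]))
    (fun c f g => Subtype.ext (by
      show (c • f.1) * b7_fr k p g.1 = c • (f.1 * b7_fr k p g.1)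
      rw [smul_mul_assoc]))
    (fun f g g' => Subtype.ext (by
      show f.1 * b7_fr k p (g.1 + g'.1) = f.1 * b7_fr k p g.1 + f.1 * b7_fr k p g'.1
      rw [map_add, mul_add]))
    (fun c f g => Subtype.ext (by
      show f.1 * b7_fr k p (c • g.1) = c • (f.1 * b7_fr k p g.1)
      rw [map_smul, mul_smul_comm]))

variable [Fact p.Prime] [CharP k p]

theorem p_B7 (h1 : S_B1 k) : S_B7 k p := by
  intro a
  have hp : 0 < p := (Fact.out : p.Prime).pos
  let Φ : (nab k (p - 1)).V ⊗[k] (nab k a).V →ₗ[k] (nab k (p * a + (p - 1))).V :=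
    TensorProduct.lift (b7_B k p a)
  have hΦ : ∀ f g, Φ (f ⊗ₜ[k] g) = ⟨f.1 * b7_fr k p g.1, b7_mem2 k p a f.2 g.2⟩ := by
    intro f g
    show TensorProduct.lift (b7_B k p a) (f ⊗ₜ[k] g) = _
    rw [TensorProduct.lift.tmul]
    rfl
  -- equivariance
  have hhom : ∀ g : SL2 k, Φ ∘ₗ TensorProduct.map ((nab k (p - 1)).ρ g)
      ((nab k a).ρ (Matrix.SpecialLinearGroup.map (frobenius k p) g)) =
        ((nab k (p * a + (p - 1))).ρ g) ∘ₗ Φ := by
    intro g
    apply TensorProduct.ext'
    intro f h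
    rw [LinearMap.comp_apply, LinearMap.comp_apply, TensorProduct.map_tmul, hΦ, hΦ]
    apply Subtype.ext
    funext s t
    show ((nab k (p - 1)).ρ g f).1 s t * ((nab k a).ρ
          (Matrix.SpecialLinearGroup.map (frobenius k p) g) h).1 (s ^ p) (t ^ p) =
      f.1 (g.1 0 0 * s + g.1 1 0 * t) (g.1 0 1 * s + g.1 1 1 * t) *
        h.1 ((g.1 0 0 * s + g.1 1 0 * t) ^ p) ((g.1 0 1 * s + g.1 1 1 * t) ^ p)
    rw [nab_ρ, nab_ρ]
    have e2 : ∀ i j, (Matrix.SpecialLinearGroup.map (frobenius k p) g).1 i j =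
        g.1 i j ^ p := by
      intro i j
      rw [Matrix.SpecialLinearGroup.map_apply_coe]
      rfl
    rw [e2, e2, e2, e2, add_pow_char, add_pow_char, mul_pow, mul_pow, mul_pow, mul_pow]
  -- surjectivity
  have hsurj : Function.Surjective Φ := by
    rw [← LinearMap.range_eq_top, eq_top_iff]
    obtain ⟨⟨b, hb⟩, -⟩ := h1 (p * a + (p - 1))
    rw [← b.span_eq, Submodule.span_le]
    rintro _ ⟨m, rfl⟩
    rw [hb]
    have hm := m.2
    obtain ⟨m, hm'⟩ := m
    simp only at hm ⊢
    have hi : m % p ≤ p - 1 := by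
      have := Nat.mod_lt m hp
      omega
    have hj : m / p ≤ a := by
      have h2 : m / p < a + 1 := by
        rw [Nat.div_lt_iff_lt_mul hp]
        have : (a + 1) * p = p * a + p := by ring
        omega
      omega
    have hdm : p * (m / p) + m % p = m := Nat.div_add_mod m p
    refine ⟨(mm k (p - 1) (m % p)) ⊗ₜ[k] (mm k a (m / p)), ?_⟩
    rw [hΦ]
    apply Subtype.ext
    have e1 : (mm k (p - 1) (m % p)).1 = mon k (p - 1) (m % p) := by
      rw [mm, dif_pos hi]
    have e2 : (mm k a (m / p)).1 = mon k a (m / p) := by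
      rw [mm, dif_pos hj]
    have e3 : (mm k (p * a + (p - 1)) m).1 = mon k (p * a + (p - 1)) m := by
      rw [mm, dif_pos (by omega)]
    show (mm k (p - 1) (m % p)).1 * b7_fr k p (mm k a (m / p)).1 =
      (mm k (p * a + (p - 1)) m).1
    rw [e1, e2, e3, b7_mon]
    funext s t
    show s ^ (p - 1 - m % p) * t ^ (m % p) * (s ^ (p * a - p * (m / p)) * t ^ (p * (m / p))) =
      s ^ (p * a + (p - 1) - m) * t ^ m
    have hle : p * (m / p) ≤ p * a := Nat.mul_le_mul_left p hj
    have e4 : p * a + (p - 1) - m = (p - 1 - m % p) + (p * a - p * (m / p)) := by omega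
    have e5 : t ^ m = t ^ (m % p) * t ^ (p * (m / p)) := by
      rw [← pow_add, add_comm, hdm]
    rw [e4, e5, pow_add]
    ring
  -- dimensions
  have hdim : Module.finrank k ((nab k (p - 1)).V ⊗[k] (nab k a).V) =
      Module.finrank k (nab k (p * a + (p - 1))).V := by
    rw [Module.finrank_tensorProduct, (h1 (p - 1)).2.1, (h1 a).2.1, (h1 (p * a + (p - 1))).2.1]
    have e : p - 1 + 1 = p := by omega
    rw [e]
    have : p * (a + 1) = p * a + p := by ring
    omega
  have hinj : Function.Injective Φ :=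
    (LinearMap.injective_iff_surjective_of_finrank_eq_finrank hdim).mpr hsurj
  exact ⟨LinearEquiv.ofBijective Φ ⟨hinj, hsurj⟩, fun g v => LinearMap.congr_fun (hhom g) v⟩

end B7

end Pool.Agent.Sp49.Three
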