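import Mathlib
import Pool.Agent.Lib.MP_49c83e_al.Three.Stm

/-!
MP_49c83e_al, Theorem III, piece C1: formal properties of NF.
-/

namespace Pool.Agent.Sp49.Three

open Matrix TensorProduct

variable (k : Type) [Field k] [IsAlgClosed k]

private theorem c1_zer : NF (zer k) := NF.zero (zer k) (fun _ => rfl)

private theorem c1_iso (X Y : Ob k) (h : Iso X Y) (hX : NF X) : NF Y := by
  obtain ⟨f, hf⟩ := h
  refine NF.ext X Y (zer k) f.toLinearMap 0 hf (fun _ _ => rfl) f.injective ?_ ?_ hX (c1_zer k)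
  · intro y
    constructor
    · intro _
      exact f.surjective y
    · intro _
      rfl
  · intro z
    exact ⟨0, rfl⟩

private theorem c1_homF0 (f : k → k → k) (hf : f ∈ homF k 0) : ∃ c : k, f = fun _ _ => c := by
  refine Submodule.span_induction ?_ ?_ ?_ ?_ hf
  · rintro _ ⟨i, rfl⟩
    refine ⟨1, ?_⟩
    funext s t
    have : (i : ℕ) = 0 := by omega
    simp [mon, this]
  · exact ⟨0, rfl⟩
  · rintro u v _ _ ⟨a, rfl⟩ ⟨b, rfl⟩
    exact ⟨a + b, rfl⟩
  · rintro c u _ ⟨a, rfl⟩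
    exact ⟨c * a, rfl⟩

private theorem c1_one : NF (one k) := by
  let L : (nab k 0).V →ₗ[k] (one k).V :=
    { toFun := fun f => f.1 0 0
      map_add' := fun _ _ => rfl
      map_smul' := fun _ _ => rfl }
  have hinj : Function.Injective L := by
    rw [← LinearMap.ker_eq_bot, LinearMap.ker_eq_bot']
    intro f hf
    obtain ⟨c, hc⟩ := c1_homF0 k f.1 f.2
    have h0 : f.1 0 0 = 0 := hf
    rw [hc] at h0
    apply Subtype.ext
    rw [hc]
    funext s t
    exact h0
  have hsurj : Function.Surjective L := by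
    intro c
    refine ⟨(show k from c) • ⟨fun _ _ => 1, homF_one⟩, ?_⟩
    exact mul_one (M := k) c
  refine c1_iso k (nab k 0) (one k) ⟨LinearEquiv.ofBijective L ⟨hinj, hsurj⟩, ?_⟩ (NF.nab 0)
  intro g f
  show ((nab k 0).ρ g f).1 0 0 = f.1 0 0
  rw [nab_ρ]
  simp

private theorem c1_tW (hB4 : S_B4 k) (X : Ob k) (hX : NF X) : NF (tW X) := by
  induction hX with
  | zero X h =>
    refine NF.zero _ ?_
    rintro ⟨u, v⟩
    show (u, v) = (0, 0)
    rw [h u, h v]
  | nab a =>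
    cases a with
    | zero =>
      obtain ⟨hhom, hsurj⟩ := hB4.1 0
      let e := LinearEquiv.ofBijective (mW k 0) ⟨hB4.2.2, hsurj⟩
      refine c1_iso k (nab k 1) (tW (nab k 0)) ⟨e.symm, ?_⟩ (NF.nab 1)
      intro g w
      show e.symm ((nab k 1).ρ g w) = (tW (nab k 0)).ρ g (e.symm w)
      rw [LinearEquiv.symm_apply_eq]
      show (nab k 1).ρ g w = mW k 0 ((tW (nab k 0)).ρ g (e.symm w))
      rw [hhom g (e.symm w)]
      have h2 : mW k 0 (e.symm w) = w := e.apply_symm_apply w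
      rw [h2]
    | succ a =>
      obtain ⟨j1, j2, j3⟩ := hB4.2.1 a
      obtain ⟨m1, m2⟩ := hB4.1 (a + 1)
      exact NF.ext (nab k a) (tW (nab k (a + 1))) (nab k (a + 1 + 1)) (jW k a) (mW k (a + 1)) j1 m1 j2 j3 m2
        (NF.nab a) (NF.nab (a + 1 + 1))
  | ext X Y Z f g hf hg inj exact surj hX hZ ihX ihZ =>
    refine NF.ext (tW X) (tW Y) (tW Z) (tWmap f) (tWmap g) (tWmap_hom f hf) (tWmap_hom g hg) ?_ ?_ ?_ ihX ihZ
    · rintro ⟨u, v⟩ ⟨u', v'⟩ h
      have h1 : f u = f u' := congrArg Prod.fst h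
      have h2 : f v = f v' := congrArg Prod.snd h
      exact Prod.ext (inj h1) (inj h2)
    · rintro ⟨u, v⟩
      constructor
      · intro h
        have h1 : g u = 0 := congrArg Prod.fst h
        have h2 : g v = 0 := congrArg Prod.snd h
        obtain ⟨a, ha⟩ := (exact u).mp h1
        obtain ⟨b, hb⟩ := (exact v).mp h2
        exact ⟨(a, b), Prod.ext ha hb⟩
      · rintro ⟨⟨a, b⟩, h⟩
        have h1 : f a = u := congrArg Prod.fst h
        have h2 : f b = v := congrArg Prod.snd h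
        show (g u, g v) = (0, 0)
        rw [(exact u).mpr ⟨a, h1⟩, (exact v).mpr ⟨b, h2⟩]
    · rintro ⟨u, v⟩
      obtain ⟨a, ha⟩ := surj u
      obtain ⟨b, hb⟩ := surj v
      exact ⟨(a, b), Prod.ext ha hb⟩

theorem p_C1 (hB4 : S_B4 k) : S_C1 k :=
  ⟨c1_iso k, c1_one k, c1_zer k, c1_tW k hB4⟩

end Pool.Agent.Sp49.Three
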