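import Mathlib
import Pool.Agent.Lib.MP_49c83e_al.Three.Stm

/-!
MP_49c83e_al, Theorem III, piece C3: H1 vanishes on NF.
-/

namespace Pool.Agent.Sp49.Three

open Matrix TensorProduct

variable (k : Type) [Field k] [IsAlgClosed k]

private theorem c3_ext (X Y Z : Ob k) (f : X.V →ₗ[k] Y.V) (g : Y.V →ₗ[k] Z.V) (hf : IsHom X Y f)
    (hg : IsHom Y Z g) (inj : Function.Injective f) (exact : Function.Exact f g)
    (surj : Function.Surjective g) (hX : H1 X) (hZ : H1 Z) : H1 Y := by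
  intro M i hi iinj v hv
  have hS : ∀ h, ∀ w ∈ LinearMap.range (i ∘ₗ f), M.ρ h w ∈ LinearMap.range (i ∘ₗ f) := by
    rintro h _ ⟨x, rfl⟩
    refine ⟨X.ρ h x, ?_⟩
    show i (f (X.ρ h x)) = M.ρ h (i (f x))
    rw [hf, hi]
  let M' : Ob k := quo M (LinearMap.range (i ∘ₗ f)) hS
  let q : M.V →ₗ[k] M'.V := (LinearMap.range (i ∘ₗ f)).mkQ
  have hqρ : ∀ h w, M'.ρ h (q w) = q (M.ρ h w) := fun h w => rfl
  have hq0 : ∀ w, q w = 0 ↔ w ∈ LinearMap.range (i ∘ₗ f) := fun w =>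
    Submodule.Quotient.mk_eq_zero _
  -- the induced map
  have hker : LinearMap.ker g ≤ LinearMap.ker (q ∘ₗ i) := by
    intro y hy
    obtain ⟨x, hx⟩ := (exact y).mp hy
    rw [LinearMap.mem_ker]
    show q (i y) = 0
    rw [hq0]
    exact ⟨x, by show i (f x) = i y; rw [hx]⟩
  let i' : Z.V →ₗ[k] M'.V :=
    ((LinearMap.ker g).liftQ (q ∘ₗ i) hker) ∘ₗ (g.quotKerEquivOfSurjective surj).symm.toLinearMap
  have hi' : ∀ y, i' (g y) = q (i y) := by
    intro y
    have h1 : (g.quotKerEquivOfSurjective surj).symm (g y) = (LinearMap.ker g).mkQ y := by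
      rw [LinearEquiv.symm_apply_eq]
      rfl
    show (LinearMap.ker g).liftQ (q ∘ₗ i) hker ((g.quotKerEquivOfSurjective surj).symm (g y)) = q (i y)
    rw [h1]
    rfl
  have hi'hom : IsHom Z M' i' := by
    intro h z
    obtain ⟨y, rfl⟩ := surj z
    rw [← hg h y, hi', hi', hi h y, hqρ]
  have hi'inj : Function.Injective i' := by
    rw [← LinearMap.ker_eq_bot, LinearMap.ker_eq_bot']
    intro z hz
    obtain ⟨y, rfl⟩ := surj z
    rw [hi', hq0] at hz
    obtain ⟨x, hx⟩ := hz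
    have h1 : f x = y := iinj hx
    exact (exact y).mpr ⟨x, h1⟩
  obtain ⟨z, hz⟩ := hZ M' i' hi'hom hi'inj (q v) (by
    intro h
    obtain ⟨y, hy⟩ := hv h
    refine ⟨g y, ?_⟩
    rw [hi', hy, map_sub, hqρ])
  obtain ⟨y, rfl⟩ := surj z
  obtain ⟨n, hn⟩ := hX M (i ∘ₗ f) (by
    intro h x
    show i (f (X.ρ h x)) = M.ρ h (i (f x))
    rw [hf, hi]) (iinj.comp inj) (v - i y) (by
    intro h
    have h1 := hz h
    rw [hi', ← map_sub, hqρ] at h1
    rw [← hq0, map_sub, h1, sub_self])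
  refine ⟨y + f n, fun h => ?_⟩
  have h2 : v - i (y + f n) = v - i y - (i ∘ₗ f) n := by
    rw [map_add]
    show v - (i y + i (f n)) = v - i y - i (f n)
    abel
  rw [h2]
  exact hn h

theorem p_C3 (hC2 : S_C2 k) : S_C3 k := by
  intro N hN
  induction hN with
  | zero X h =>
    intro M i _ _ v hv
    refine ⟨0, fun g => ?_⟩
    obtain ⟨x, hx⟩ := hv g
    rw [h x, map_zero] at hx
    rw [map_zero, sub_zero]
    exact (sub_eq_zero.mp hx.symm)
  | nab a => exact hC2 a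
  | ext X Y Z f g hf hg inj exact surj _ _ ihX ihZ =>
    exact c3_ext k X Y Z f g hf hg inj exact surj ihX ihZ

end Pool.Agent.Sp49.Three
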