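import Mathlib
import Pool.Agent.Lib.MP_49c83e_al.Three.Stm

/-!
MP_49c83e_al, Theorem III, piece C4: lifting for tilting modules.
-/

namespace Pool.Agent.Sp49.Three

open Matrix TensorProduct

variable (k : Type) [Field k] [IsAlgClosed k]

private theorem c4_one (hC3 : S_C3 k) : Lift (one k) := by
  intro N' N N'' i π hi hπ iinj exact surj hN' φ hφ
  obtain ⟨v, hv⟩ := surj (φ (1 : k))
  have hinv : ∀ g, N''.ρ g (φ (1 : k)) = φ (1 : k) := fun g => (hφ g (1 : k)).symm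
  obtain ⟨n, hn⟩ := hC3 N' hN' N i hi iinj v (by
    intro g
    have h1 : π (N.ρ g v - v) = 0 := by
      rw [map_sub, hπ g v, hv, hinv, sub_self]
    exact (exact _).mp h1)
  refine ⟨LinearMap.toSpanSingleton k N.V (v - i n), ?_, ?_⟩
  · intro g c
    show c • (v - i n) = N.ρ g (c • (v - i n))
    rw [map_smul, hn g]
  · intro c
    show π (c • (v - i n)) = φ c
    have h2 : π (i n) = 0 := (exact _).mpr ⟨n, rfl⟩
    have h3 : φ c = c • φ (1 : k) := by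
      rw [← map_smul]
      congr 1
      exact (mul_one (M := k) c).symm
    rw [map_smul, map_sub, h2, sub_zero, hv, h3]

private theorem c4_tW (hC1 : S_C1 k) (T : Ob k) (hT : Lift T) : Lift (tW T) := by
  intro N' N N'' i π hi hπ iinj exact surj hN' φ hφ
  let φh : T.V →ₗ[k] (tW N'').V :=
    (-(φ ∘ₗ LinearMap.inr k T.V T.V)).prod (φ ∘ₗ LinearMap.inl k T.V T.V)
  have hφh : IsHom T (tW N'') φh := fun g w => phiT_aux T N'' φ hφ g w
  obtain ⟨ψh, hψh, hlift⟩ := hT (tW N') (tW N) (tW N'') (tWmap i) (tWmap π) (tWmap_hom i hi)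
    (tWmap_hom π hπ) (by
      rintro ⟨u, v⟩ ⟨u', v'⟩ h
      have h1 : i u = i u' := congrArg Prod.fst h
      have h2 : i v = i v' := congrArg Prod.snd h
      exact Prod.ext (iinj h1) (iinj h2)) (by
      rintro ⟨u, v⟩
      constructor
      · intro h
        have h1 : π u = 0 := congrArg Prod.fst h
        have h2 : π v = 0 := congrArg Prod.snd h
        obtain ⟨a, ha⟩ := (exact u).mp h1
        obtain ⟨b, hb⟩ := (exact v).mp h2
        exact ⟨(a, b), Prod.ext ha hb⟩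
      · rintro ⟨⟨a, b⟩, h⟩
        have h1 : i a = u := congrArg Prod.fst h
        have h2 : i b = v := congrArg Prod.snd h
        show (π u, π v) = (0, 0)
        rw [(exact u).mpr ⟨a, h1⟩, (exact v).mpr ⟨b, h2⟩]) (by
      rintro ⟨u, v⟩
      obtain ⟨a, ha⟩ := surj u
      obtain ⟨b, hb⟩ := surj v
      exact ⟨(a, b), Prod.ext ha hb⟩) (hC1.2.2.2 N' hN') φh hφh
  let s : (tW N).V →ₗ[k] N.V := LinearMap.snd k N.V N.V
  let r : (tW N).V →ₗ[k] N.V := LinearMap.fst k N.V N.V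
  refine ⟨(s ∘ₗ ψh).coprod (-(r ∘ₗ ψh)), ?_, ?_⟩
  · rintro g ⟨u, v⟩
    have hu : ψh (T.ρ g u) = (g.1 0 0 • N.ρ g (ψh u).1 + g.1 0 1 • N.ρ g (ψh u).2,
        g.1 1 0 • N.ρ g (ψh u).1 + g.1 1 1 • N.ρ g (ψh u).2) := hψh g u
    have hv : ψh (T.ρ g v) = (g.1 0 0 • N.ρ g (ψh v).1 + g.1 0 1 • N.ρ g (ψh v).2,
        g.1 1 0 • N.ρ g (ψh v).1 + g.1 1 1 • N.ρ g (ψh v).2) := hψh g v
    show (ψh (g.1 0 0 • T.ρ g u + g.1 0 1 • T.ρ g v)).2 +
      -(ψh (g.1 1 0 • T.ρ g u + g.1 1 1 • T.ρ g v)).1 = N.ρ g ((ψh u).2 + -(ψh v).1)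
    rw [map_add, map_add, map_smul, map_smul, map_smul, map_smul, hu, hv]
    have hd := Matrix.det_fin_two g.1
    rw [g.2] at hd
    rw [map_add, map_neg]
    show (g.1 0 0 • (g.1 1 0 • N.ρ g (ψh u).1 + g.1 1 1 • N.ρ g (ψh u).2) +
        g.1 0 1 • (g.1 1 0 • N.ρ g (ψh v).1 + g.1 1 1 • N.ρ g (ψh v).2)) +
      -(g.1 1 0 • (g.1 0 0 • N.ρ g (ψh u).1 + g.1 0 1 • N.ρ g (ψh u).2) +
        g.1 1 1 • (g.1 0 0 • N.ρ g (ψh v).1 + g.1 0 1 • N.ρ g (ψh v).2)) =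
      N.ρ g (ψh u).2 + -N.ρ g (ψh v).1
    generalize N.ρ g (ψh u).1 = A
    generalize N.ρ g (ψh u).2 = B
    generalize N.ρ g (ψh v).1 = C
    generalize N.ρ g (ψh v).2 = D
    have h1 : B = (g.1 0 0 * g.1 1 1 - g.1 0 1 * g.1 1 0) • B := by rw [← hd, one_smul]
    have h2 : C = (g.1 0 0 * g.1 1 1 - g.1 0 1 * g.1 1 0) • C := by rw [← hd, one_smul]
    have h3 : B + -C = (g.1 0 0 * g.1 1 1 - g.1 0 1 * g.1 1 0) • B +
        -((g.1 0 0 * g.1 1 1 - g.1 0 1 * g.1 1 0) • C) := by rw [← h1, ← h2]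
    rw [h3]
    module
  · rintro ⟨u, v⟩
    show π ((ψh u).2 + -(ψh v).1) = φ (u, v)
    have h1 : π (ψh u).2 = φ (u, 0) := congrArg Prod.snd (hlift u)
    have h2 : π (ψh v).1 = -φ (0, v) := congrArg Prod.fst (hlift v)
    rw [map_add, map_neg, h1, h2, neg_neg]
    have h4 : φ (u, v) = φ ((u, 0) + (0, v)) := by
      congr 1
      exact Prod.ext (add_zero u).symm (zero_add v).symm
    rw [h4]
    exact (φ.map_add (u, 0) (0, v)).symm

theorem p_C4 (hC1 : S_C1 k) (hC3 : S_C3 k) : S_C4 k := by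
  intro T hT
  induction hT with
  | pow m =>
    have key : ∀ m, Lift (tWn m (one k)) := by
      intro m
      induction m with
      | zero => exact c4_one k hC3
      | succ m ih => exact c4_tW k hC1 _ ih
    exact key m
  | prod X Y _ _ ihX ihY =>
    intro N' N N'' i π hi hπ iinj exact surj hN' φ hφ
    obtain ⟨ψ1, h1, l1⟩ := ihX N' N N'' i π hi hπ iinj exact surj hN' (φ ∘ₗ LinearMap.inl k X.V Y.V) (by
      intro g v
      show φ (X.ρ g v, 0) = N''.ρ g (φ (v, 0))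
      rw [← hφ g (v, 0)]
      show φ (X.ρ g v, 0) = φ (X.ρ g v, Y.ρ g 0)
      rw [map_zero])
    obtain ⟨ψ2, h2, l2⟩ := ihY N' N N'' i π hi hπ iinj exact surj hN' (φ ∘ₗ LinearMap.inr k X.V Y.V) (by
      intro g v
      show φ (0, Y.ρ g v) = N''.ρ g (φ (0, v))
      rw [← hφ g (0, v)]
      show φ (0, Y.ρ g v) = φ (X.ρ g 0, Y.ρ g v)
      rw [map_zero])
    refine ⟨ψ1.coprod ψ2, ?_, ?_⟩
    · rintro g ⟨u, v⟩
      show ψ1 (X.ρ g u) + ψ2 (Y.ρ g v) = N.ρ g (ψ1 u + ψ2 v)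
      rw [h1, h2, map_add]
    · rintro ⟨u, v⟩
      show π (ψ1 u + ψ2 v) = φ (u, v)
      have e1 : π (ψ1 u) = φ (u, 0) := l1 u
      have e2 : π (ψ2 v) = φ (0, v) := l2 v
      rw [map_add, e1, e2, ← map_add]
      congr 1
      exact Prod.ext (add_zero u) (zero_add v)
  | retr X Y h _ ihY =>
    intro N' N N'' i π hi hπ iinj exact surj hN' φ hφ
    obtain ⟨j, r, hj, hr, hrj⟩ := h
    obtain ⟨ψ, h1, l1⟩ := ihY N' N N'' i π hi hπ iinj exact surj hN' (φ ∘ₗ r) (by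
      intro g v
      show φ (r (Y.ρ g v)) = N''.ρ g (φ (r v))
      rw [hr, hφ])
    refine ⟨ψ ∘ₗ j, ?_, ?_⟩
    · intro g v
      show ψ (j (X.ρ g v)) = N.ρ g (ψ (j v))
      rw [hj, h1]
    · intro v
      show π (ψ (j v)) = φ v
      rw [l1 (j v)]
      show φ (r (j v)) = φ v
      rw [hrj]

end Pool.Agent.Sp49.Three
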