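import Mathlib
import Pool.Agent.Lib.MP_49c83e_al.Three.Stm

/-! Piece C5: the usable form of lifting. -/

namespace Pool.Agent.Sp49.Three

variable (k : Type) [Field k] [IsAlgClosed k]

theorem p_C5 (hC4 : S_C4 k) : S_C5 k := by
  intro T X Y Z f g hf _ hT hex hNF φ hφ hgφ
  have hstab : ∀ γ, ∀ v ∈ LinearMap.range f, Y.ρ γ v ∈ LinearMap.range f := by
    rintro γ v ⟨w, rfl⟩
    exact ⟨X.ρ γ w, hf γ w⟩
  have hin : ∀ v, φ v ∈ LinearMap.range f := fun v => (hex (φ v)).1 (hgφ v)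
  let N'' : Ob k := sub Y (LinearMap.range f) hstab
  let π : X.V →ₗ[k] N''.V := f.rangeRestrict
  let i : (kerO X Y f hf).V →ₗ[k] X.V := (LinearMap.ker f).subtype
  let φ' : T.V →ₗ[k] N''.V := φ.codRestrict (LinearMap.range f) hin
  have hi : IsHom (kerO X Y f hf) X i := fun γ v => rfl
  have hπ : IsHom X N'' π := fun γ v => Subtype.ext (hf γ v)
  have hφ' : IsHom T N'' φ' := fun γ v => Subtype.ext (hφ γ v)
  have hexact : Function.Exact i π := by
    intro v
    constructor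
    · intro h
      have h1 : f v = 0 := congrArg Subtype.val h
      exact ⟨⟨v, h1⟩, rfl⟩
    · rintro ⟨w, rfl⟩
      have h1 : f (i w) = 0 := (show ↥(LinearMap.ker f) from w).2
      exact Subtype.ext h1
  have hsurj : Function.Surjective π := by
    rintro ⟨_, w, rfl⟩
    exact ⟨w, rfl⟩
  obtain ⟨ψ, hψ, hψ2⟩ := hC4 T hT (kerO X Y f hf) X N'' i π hi hπ Subtype.val_injective hexact hsurj hNF φ' hφ'
  refine ⟨ψ, hψ, fun v => ?_⟩
  exact congrArg Subtype.val (hψ2 v)

end Pool.Agent.Sp49.Three
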