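import Mathlib
import Pool.Agent.Lib.MP_49c83e_al.Three.Stm

/-!
MP_49c83e_al, Theorem III, piece D1: formal properties of Iso and Rt.
-/

namespace Pool.Agent.Sp49.Three

open Matrix TensorProduct

variable (k : Type) [Field k] [IsAlgClosed k]

omit [IsAlgClosed k] in
private theorem d1_mapl {X Y Z : Ob k} (f : X.V →ₗ[k] Y.V) (hf : IsHom X Y f) :
    IsHom (tens X Z) (tens Y Z) (TensorProduct.map f (LinearMap.id : Z.V →ₗ[k] Z.V)) := by
  intro g v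
  have : (TensorProduct.map f (LinearMap.id : Z.V →ₗ[k] Z.V)) ∘ₗ (tens X Z).ρ g =
      (tens Y Z).ρ g ∘ₗ (TensorProduct.map f (LinearMap.id : Z.V →ₗ[k] Z.V)) := by
    apply TensorProduct.ext'
    intro a b
    show (f (X.ρ g a)) ⊗ₜ[k] (Z.ρ g b) = (Y.ρ g (f a)) ⊗ₜ[k] (Z.ρ g b)
    rw [hf]
  exact LinearMap.congr_fun this v

omit [IsAlgClosed k] in
private theorem d1_mapr {X Y Z : Ob k} (f : X.V →ₗ[k] Y.V) (hf : IsHom X Y f) :
    IsHom (tens Z X) (tens Z Y) (TensorProduct.map (LinearMap.id : Z.V →ₗ[k] Z.V) f) := by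
  intro g v
  have : (TensorProduct.map (LinearMap.id : Z.V →ₗ[k] Z.V) f) ∘ₗ (tens Z X).ρ g =
      (tens Z Y).ρ g ∘ₗ (TensorProduct.map (LinearMap.id : Z.V →ₗ[k] Z.V) f) := by
    apply TensorProduct.ext'
    intro a b
    show (Z.ρ g a) ⊗ₜ[k] (f (X.ρ g b)) = (Z.ρ g a) ⊗ₜ[k] (Y.ρ g (f b))
    rw [hf]
  exact LinearMap.congr_fun this v

omit [IsAlgClosed k] in
private theorem d1_symm {X Y : Ob k} (e : X.V ≃ₗ[k] Y.V) (he : IsHom X Y e.toLinearMap) :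
    IsHom Y X e.symm.toLinearMap := by
  intro g v
  apply e.injective
  have h := he g (e.symm v)
  simp only [LinearEquiv.coe_coe, LinearEquiv.apply_symm_apply] at h ⊢
  exact h.symm

theorem p_D1 : S_D1 k := by
  refine ⟨?_, ?_, ?_, ?_, ?_, ?_, ?_, ?_, ?_, ?_, ?_⟩
  · exact fun X => ⟨LinearEquiv.refl k X.V, fun g v => rfl⟩
  · rintro X Y ⟨e, he⟩
    exact ⟨e.symm, d1_symm k e he⟩
  · rintro X Y Z ⟨e, he⟩ ⟨f, hf⟩
    refine ⟨e.trans f, fun g v => ?_⟩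
    have h1 := he g v
    have h2 := hf g (e v)
    simp only [LinearEquiv.coe_coe, LinearEquiv.trans_apply] at h1 h2 ⊢
    rw [h1, h2]
  · rintro X Y ⟨e, he⟩
    exact ⟨e.toLinearMap, e.symm.toLinearMap, he, d1_symm k e he, fun v => e.symm_apply_apply v⟩
  · rintro X Y Z ⟨i, r, hi, hr, h⟩ ⟨j, s, hj, hs, h'⟩
    refine ⟨j ∘ₗ i, r ∘ₗ s, fun g v => ?_, fun g v => ?_, fun v => ?_⟩
    · show j (i (X.ρ g v)) = Z.ρ g (j (i v))
      rw [hi, hj]
    · show r (s (Z.ρ g v)) = X.ρ g (r (s v))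
      rw [hs, hr]
    · show r (s (j (i v))) = v
      rw [h', h]
  · rintro X Y Z ⟨e, he⟩
    exact ⟨TensorProduct.congr e (LinearEquiv.refl k Z.V), d1_mapl k e.toLinearMap he⟩
  · rintro X Y Z ⟨e, he⟩
    exact ⟨TensorProduct.congr (LinearEquiv.refl k Z.V) e, d1_mapr k e.toLinearMap he⟩
  · rintro X Y Z ⟨i, r, hi, hr, h⟩
    refine ⟨TensorProduct.map i (LinearMap.id : Z.V →ₗ[k] Z.V),
      TensorProduct.map r (LinearMap.id : Z.V →ₗ[k] Z.V), d1_mapl k i hi, d1_mapl k r hr,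
      fun v => ?_⟩
    have : (TensorProduct.map r (LinearMap.id : Z.V →ₗ[k] Z.V)) ∘ₗ
        (TensorProduct.map i (LinearMap.id : Z.V →ₗ[k] Z.V)) = LinearMap.id := by
      apply TensorProduct.ext'
      intro a b
      show (r (i a)) ⊗ₜ[k] b = a ⊗ₜ[k] b
      rw [h]
    exact LinearMap.congr_fun this v
  · rintro X Y Z ⟨i, r, hi, hr, h⟩
    refine ⟨TensorProduct.map (LinearMap.id : Z.V →ₗ[k] Z.V) i,
      TensorProduct.map (LinearMap.id : Z.V →ₗ[k] Z.V) r, d1_mapr k i hi, d1_mapr k r hr,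
      fun v => ?_⟩
    have : (TensorProduct.map (LinearMap.id : Z.V →ₗ[k] Z.V) r) ∘ₗ
        (TensorProduct.map (LinearMap.id : Z.V →ₗ[k] Z.V) i) = LinearMap.id := by
      apply TensorProduct.ext'
      intro a b
      show a ⊗ₜ[k] (r (i b)) = a ⊗ₜ[k] b
      rw [h]
    exact LinearMap.congr_fun this v
  · rintro X Y ⟨e, he⟩
    exact ⟨e.prodCongr e, tWmap_hom e.toLinearMap he⟩
  · rintro X Y ⟨i, r, hi, hr, h⟩
    refine ⟨tWmap i, tWmap r, tWmap_hom i hi, tWmap_hom r hr, ?_⟩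
    rintro ⟨u, v⟩
    show (r (i u), r (i v)) = (u, v)
    rw [h, h]

end Pool.Agent.Sp49.Three
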