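import Mathlib
import Pool.Agent.Lib.MP_49c83e_al.Three.Stm

/-! [D2] Tensor identities. -/

namespace Pool.Agent.Sp49.Three

open Matrix TensorProduct

variable (k : Type) [Field k] [IsAlgClosed k]

omit [IsAlgClosed k] in
private theorem d2_hom (X Y Z : Ob k) (f : X.V ⊗[k] Y.V →ₗ[k] Z.V)
    (h : ∀ g a b, f ((X.ρ g a) ⊗ₜ[k] (Y.ρ g b)) = Z.ρ g (f (a ⊗ₜ[k] b))) :
    ∀ g (v : X.V ⊗[k] Y.V), f ((tens X Y).ρ g v) = Z.ρ g (f v) := by
  intro g v
  have key : f ∘ₗ TensorProduct.map (X.ρ g) (Y.ρ g) = (Z.ρ g) ∘ₗ f := by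
    apply TensorProduct.ext'
    intro a b
    exact h g a b
  exact LinearMap.congr_fun key v

omit [IsAlgClosed k] in
private theorem d2_assoc (X Y Z : Ob k) : Iso (tens (tens X Y) Z) (tens X (tens Y Z)) := by
  refine ⟨TensorProduct.assoc k X.V Y.V Z.V, ?_⟩
  intro g v
  have key : (TensorProduct.assoc k X.V Y.V Z.V).toLinearMap ∘ₗ
      TensorProduct.map (TensorProduct.map (X.ρ g) (Y.ρ g)) (Z.ρ g) =
      TensorProduct.map (X.ρ g) (TensorProduct.map (Y.ρ g) (Z.ρ g)) ∘ₗ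
      (TensorProduct.assoc k X.V Y.V Z.V).toLinearMap := by
    apply TensorProduct.ext_threefold
    intro a b c
    rfl
  exact LinearMap.congr_fun key v

omit [IsAlgClosed k] in
private theorem d2_comm (X Y : Ob k) : Iso (tens X Y) (tens Y X) := by
  refine ⟨TensorProduct.comm k X.V Y.V, ?_⟩
  refine d2_hom k X Y (tens Y X) _ ?_
  intro g a b
  rfl

omit [IsAlgClosed k] in
private theorem d2_rid (X : Ob k) : Iso (tens X (one k)) X := by
  refine ⟨TensorProduct.rid k X.V, ?_⟩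
  refine d2_hom k X (one k) X _ ?_
  intro g a b
  show (b : k) • X.ρ g a = X.ρ g ((b : k) • a)
  rw [map_smul]

omit [IsAlgClosed k] in
private theorem d2_prod (X Y Z : Ob k) :
    Iso (tens X (prodO Y Z)) (prodO (tens X Y) (tens X Z)) := by
  refine ⟨TensorProduct.prodRight k k X.V Y.V Z.V, ?_⟩
  refine d2_hom k X (prodO Y Z) (prodO (tens X Y) (tens X Z)) _ ?_
  intro g a b
  rfl

omit [IsAlgClosed k] in
private theorem d2_tW (X Y : Ob k) : Iso (tens X (tW Y)) (tW (tens X Y)) := by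
  refine ⟨TensorProduct.prodRight k k X.V Y.V Y.V, ?_⟩
  refine d2_hom k X (tW Y) (tW (tens X Y)) _ ?_
  rintro g a ⟨u, v⟩
  show (X.ρ g a ⊗ₜ[k] (g.1 0 0 • Y.ρ g u + g.1 0 1 • Y.ρ g v),
      X.ρ g a ⊗ₜ[k] (g.1 1 0 • Y.ρ g u + g.1 1 1 • Y.ρ g v)) =
    (g.1 0 0 • (X.ρ g a ⊗ₜ[k] Y.ρ g u) + g.1 0 1 • (X.ρ g a ⊗ₜ[k] Y.ρ g v),
      g.1 1 0 • (X.ρ g a ⊗ₜ[k] Y.ρ g u) + g.1 1 1 • (X.ρ g a ⊗ₜ[k] Y.ρ g v))
  rw [tmul_add, tmul_add, tmul_smul, tmul_smul, tmul_smul, tmul_smul]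

omit [IsAlgClosed k] in
private theorem d2_tWprod (X Y : Ob k) : Iso (tW (prodO X Y)) (prodO (tW X) (tW Y)) := by
  refine ⟨LinearEquiv.prodProdProdComm k X.V Y.V X.V Y.V, ?_⟩
  rintro g ⟨⟨u, u'⟩, ⟨v, v'⟩⟩
  rfl

private theorem d2_one (h1 : S_B1 k) : Iso (one k) (nab k 0) := by
  obtain ⟨-, h2, h3, -⟩ := h1 0
  have hne : mm k 0 0 ≠ 0 := (h3 0 le_rfl).2
  have hfin : Module.finrank k (nab k 0).V = 1 := h2
  let f : k →ₗ[k] (nab k 0).V := LinearMap.toSpanSingleton k _ (mm k 0 0)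
  have hinj : Function.Injective f := by
    rw [injective_iff_map_eq_zero]
    intro c hc
    have : c • mm k 0 0 = 0 := hc
    exact (smul_eq_zero.1 this).resolve_right hne
  have hsurj : Function.Surjective f := by
    refine (LinearMap.injective_iff_surjective_of_finrank_eq_finrank ?_).1 hinj
    rw [hfin, Module.finrank_self]
  refine ⟨LinearEquiv.ofBijective f ⟨hinj, hsurj⟩, ?_⟩
  intro g c
  show (c : k) • mm k 0 0 = (nab k 0).ρ g ((c : k) • mm k 0 0)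
  rw [map_smul]
  congr 1
  apply Subtype.ext
  have e : (mm k 0 0).1 = fun _ _ => 1 := by
    unfold mm
    rw [dif_pos le_rfl]
    funext s t
    simp [mon]
  show (mm k 0 0).1 = subst g.1 (mm k 0 0).1
  rw [e]
  rfl

private theorem d2_x_coe : (mm k 1 0).1 = fun s _ => s := by
  unfold mm
  rw [dif_pos (by norm_num)]
  funext s t
  simp [mon]

private theorem d2_y_coe : (mm k 1 1).1 = fun _ t => t := by
  unfold mm
  rw [dif_pos (by norm_num)]
  funext s t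
  simp [mon]

private theorem d2_gx (g : SL2 k) : (nab k 1).ρ g (mm k 1 0) = g.1 0 0 • mm k 1 0 + g.1 1 0 • mm k 1 1 := by
  apply Subtype.ext
  show subst g.1 (mm k 1 0).1 =
    g.1 0 0 • (mm k 1 0).1 + g.1 1 0 • (mm k 1 1).1
  rw [d2_x_coe, d2_y_coe]
  rfl

private theorem d2_gy (g : SL2 k) : (nab k 1).ρ g (mm k 1 1) = g.1 0 1 • mm k 1 0 + g.1 1 1 • mm k 1 1 := by
  apply Subtype.ext
  show subst g.1 (mm k 1 1).1 =
    g.1 0 1 • (mm k 1 0).1 + g.1 1 1 • (mm k 1 1).1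
  rw [d2_x_coe, d2_y_coe]
  rfl

private theorem d2_nab1 (h1 : S_B1 k) (X : Ob k) : Iso (tW X) (tens (nab k 1) X) := by
  obtain ⟨⟨b, hb⟩, -⟩ := h1 1
  have hb0 : b 0 = mm k 1 0 := hb 0
  have hb1 : b 1 = mm k 1 1 := hb 1
  let f : (X.V × X.V) →ₗ[k] ((nab k 1).V ⊗[k] X.V) :=
    (TensorProduct.mk k (nab k 1).V X.V (mm k 1 0)).coprod
      (TensorProduct.mk k (nab k 1).V X.V (mm k 1 1))
  let G : ((nab k 1).V ⊗[k] X.V) →ₗ[k] (X.V × X.V) :=
    (TensorProduct.lift ((LinearMap.lsmul k X.V).comp (b.coord 0))).prod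
      (TensorProduct.lift ((LinearMap.lsmul k X.V).comp (b.coord 1)))
  have hf : ∀ u v : X.V, f (u, v) = (mm k 1 0) ⊗ₜ[k] u + (mm k 1 1) ⊗ₜ[k] v := fun u v => rfl
  have hG : ∀ (n : (nab k 1).V) (w : X.V), G (n ⊗ₜ[k] w) = (b.coord 0 n • w, b.coord 1 n • w) :=
    fun n w => rfl
  have c00 : b.coord 0 (mm k 1 0) = 1 := by
    rw [← hb0]
    simp [Module.Basis.coord_apply]
  have c01 : b.coord 0 (mm k 1 1) = 0 := by
    rw [← hb1]
    simp [Module.Basis.coord_apply]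
  have c10 : b.coord 1 (mm k 1 0) = 0 := by
    rw [← hb0]
    simp [Module.Basis.coord_apply]
  have c11 : b.coord 1 (mm k 1 1) = 1 := by
    rw [← hb1]
    simp [Module.Basis.coord_apply]
  have hGf : ∀ w, G (f w) = w := by
    rintro ⟨u, v⟩
    rw [hf, map_add, hG, hG, c00, c01, c10, c11]
    simp
  have hfG : ∀ w, f (G w) = w := by
    intro w
    induction w using TensorProduct.induction_on with
    | zero => rw [map_zero, map_zero]
    | tmul n w =>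
      rw [hG, hf, tmul_smul, tmul_smul, smul_tmul', smul_tmul', ← add_tmul]
      congr 1
      have := b.sum_repr n
      rw [Fin.sum_univ_two, hb0, hb1] at this
      exact this
    | add a c ha hc => rw [map_add, map_add, ha, hc]
  refine ⟨LinearEquiv.ofLinearMap f G (LinearMap.ext hfG) (LinearMap.ext hGf), ?_⟩
  rintro g ⟨u, v⟩
  show (mm k 1 0) ⊗ₜ[k] (g.1 0 0 • X.ρ g u + g.1 0 1 • X.ρ g v) +
      (mm k 1 1) ⊗ₜ[k] (g.1 1 0 • X.ρ g u + g.1 1 1 • X.ρ g v) =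
    (tens (nab k 1) X).ρ g ((mm k 1 0) ⊗ₜ[k] u + (mm k 1 1) ⊗ₜ[k] v)
  have e : (tens (nab k 1) X).ρ g ((mm k 1 0) ⊗ₜ[k] u + (mm k 1 1) ⊗ₜ[k] v) =
      ((nab k 1).ρ g (mm k 1 0)) ⊗ₜ[k] (X.ρ g u) + ((nab k 1).ρ g (mm k 1 1)) ⊗ₜ[k] (X.ρ g v) :=
    map_add _ _ _
  rw [e, d2_gx, d2_gy, add_tmul, add_tmul, tmul_add, tmul_add]
  simp only [tmul_smul, smul_tmul']
  abel

theorem p_D2 (h1 : S_B1 k) (h2 : S_D1 k) : S_D2 k := by
  obtain ⟨hrefl, hsymm, htrans, -, -, -, -, -, -, htW, -⟩ := h2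
  refine ⟨d2_assoc k, d2_comm k, d2_rid k, d2_one k h1, d2_tW k, d2_prod k, d2_tWprod k,
    d2_nab1 k h1, ?_, ?_⟩
  · intro X n
    induction n with
    | zero => exact d2_rid k X
    | succ n ih =>
      show Iso (tens X (tW (tWn n (one k)))) (tW (tWn n X))
      exact htrans _ _ _ (d2_tW k X (tWn n (one k))) (htW _ _ ih)
  · intro X Y n
    induction n with
    | zero => exact hrefl _
    | succ n ih =>
      show Iso (tens (tW (tWn n X)) Y) (tW (tWn n (tens X Y)))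
      refine htrans _ _ _ (d2_comm k _ _) ?_
      refine htrans _ _ _ (d2_tW k Y (tWn n X)) ?_
      exact htW _ _ (htrans _ _ _ (d2_comm k _ _) ih)

end Pool.Agent.Sp49.Three
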