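import Mathlib
import Pool.Agent.Lib.MP_49c83e_al.Three.Stm

/-! [S3 D3] formal properties of TT. -/

namespace Pool.Agent.Sp49.Three

variable (k : Type) [Field k] [IsAlgClosed k]

theorem p_D3 (h1 : S_D1 k) (h2 : S_D2 k) : S_D3 k := by
  obtain ⟨-, hsymm, -, hisoRt, -, -, -, -, -, -, hRttW⟩ := h1
  obtain ⟨-, -, -, hone, -, -, hprod, -, -, -⟩ := h2
  have hiso : ∀ X Y : Ob k, Iso X Y → TT X → TT Y := fun X Y h hX =>
    TT.retr Y X (hisoRt Y X (hsymm X Y h)) hX
  have htW : ∀ X : Ob k, TT X → TT (tW X) := by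
    intro X hX
    induction hX with
    | pow m => exact TT.pow (m + 1)
    | prod X Y _ _ ihX ihY =>
      exact hiso _ _ (hsymm _ _ (hprod X Y)) (TT.prod _ _ ihX ihY)
    | retr X Y h _ ih => exact TT.retr _ _ (hRttW X Y h) ih
  refine ⟨hiso, htW, ?_, ?_, ?_⟩
  · intro X n hX
    induction n with
    | zero => exact hX
    | succ n ih => exact htW _ ih
  · exact hiso _ _ hone (TT.pow 0)
  · refine TT.retr (zer k) (Wp k 0) ⟨0, 0, ?_, ?_, ?_⟩ (TT.pow 0)
    · intro g v
      rw [LinearMap.zero_apply, LinearMap.zero_apply, map_zero]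
    · intro g v
      rw [LinearMap.zero_apply, LinearMap.zero_apply, map_zero]
    · intro v
      rfl

end Pool.Agent.Sp49.Three
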