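import Mathlib
import Pool.Agent.Lib.MP_49c83e_al.Three.Stm

/-! [S3 D4] twists. -/

namespace Pool.Agent.Sp49.Three

variable (k : Type) [Field k] [IsAlgClosed k] (p : ℕ) [Fact p.Prime] [CharP k p]

theorem p_D4 : S_D4 k p := by
  refine ⟨?_, ?_, ?_, ?_, ?_⟩
  · intro X Y
    exact ⟨LinearEquiv.refl k (fr p (tens X Y)).V, fun g v => rfl⟩
  · intro X Y
    exact ⟨LinearEquiv.refl k (fr p (prodO X Y)).V, fun g v => rfl⟩
  · rintro X Y ⟨f, hf⟩
    exact ⟨f, fun g v => hf _ v⟩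
  · rintro X Y ⟨i, r, hi, hr, h⟩
    exact ⟨i, r, fun g v => hi _ v, fun g v => hr _ v, h⟩
  · exact ⟨LinearEquiv.refl k (fr p (one k)).V, fun g v => rfl⟩

end Pool.Agent.Sp49.Three
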