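import Mathlib
import Pool.Agent.Lib.MP_49c83e_al.Three.Stm

/-! [D5] small ∇(m) are tilting, and so is T ⊗ ∇(r). -/

namespace Pool.Agent.Sp49.Three

variable (k : Type) [Field k] [IsAlgClosed k] (p : ℕ) [Fact p.Prime] [CharP k p]

omit [IsAlgClosed k] in
theorem d5_choose (m i : ℕ) (hm : m < p) (hi : i ≤ m) : ((m.choose i : ℕ) : k) ≠ 0 := by
  intro h
  rw [CharP.cast_eq_zero_iff k p] at h
  have hp : p.Prime := Fact.out
  have h1 : p ∣ m.factorial := by
    rw [← Nat.choose_mul_factorial_mul_factorial hi, mul_assoc]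
    exact h.mul_right _
  exact absurd ((hp.dvd_factorial).mp h1) (by omega)

theorem p_D5 (hB6 : S_B6 k) (hD1 : S_D1 k) (hD2 : S_D2 k) (hD3 : S_D3 k) : S_D5 k p := by
  obtain ⟨irefl, isymm, itrans, iRt, rtrans, -, -, -, rtens, itW, -⟩ := hD1
  obtain ⟨-, -, -, ione, -, -, -, -, itn, -⟩ := hD2
  obtain ⟨tiso, -, ttWn, tnab0, -⟩ := hD3
  have hB : ∀ m, m < p → Rt (nab k m) (tWn m (nab k 0)) := by
    intro m hm
    have h := hB6 0 m (fun i hi => by
      rw [Nat.zero_add] at hi ⊢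
      exact d5_choose k p m i hm hi)
    rw [Nat.zero_add] at h
    exact h
  refine ⟨fun m hm => TT.retr _ _ (hB m hm) (ttWn _ m tnab0), fun T r hT hr => ?_⟩
  have hI : ∀ n, Iso (tWn n (nab k 0)) (tWn n (one k)) := by
    intro n
    induction n with
    | zero => exact isymm _ _ ione
    | succ n ih => exact itW _ _ ih
  have h1 : Rt (nab k r) (tWn r (one k)) := rtrans _ _ _ (hB r hr) (iRt _ _ (hI r))
  have h2 : Rt (tens T (nab k r)) (tens T (tWn r (one k))) := rtens _ _ T h1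
  exact TT.retr _ _ h2 (tiso _ _ (isymm _ _ (itn T r)) (ttWn T r hT))

end Pool.Agent.Sp49.Three
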