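import Mathlib
import Pool.Agent.Lib.MP_49c83e_al.Three.Stm

namespace Pool.Agent.Sp49.Three

open Matrix TensorProduct

variable (k : Type) [Field k] [IsAlgClosed k] (p : ℕ) [Fact p.Prime] [CharP k p]

omit [IsAlgClosed k] in
private theorem d6_choose (i : ℕ) (hi : i ≤ (p - 1) + p) : ((((p - 1) + p).choose i : ℕ) : k) ≠ 0 := by
  have hp : p.Prime := Fact.out
  have hp1 := hp.one_lt
  rw [Ne, CharP.cast_eq_zero_iff k p]
  intro hdvd
  have hL := Choose.choose_modEq_choose_mod_mul_choose_div_nat (n := (p - 1) + p) (k := i) (p := p)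
  have h1 : ((p - 1) + p) % p = p - 1 := by
    rw [Nat.add_mod_right]
    exact Nat.mod_eq_of_lt (by omega)
  have h2 : ((p - 1) + p) / p = 1 := by
    rw [Nat.add_div_right _ (by omega), Nat.div_eq_of_lt (by omega)]
  rw [h1, h2] at hL
  have h3 : i / p ≤ 1 := by
    rw [Nat.div_le_iff_le_mul_add_pred (by omega)]
    omega
  have h4 : Nat.choose 1 (i / p) = 1 := by
    rcases Nat.le_one_iff_eq_zero_or_eq_one.mp h3 with h | h <;> rw [h] <;> rfl
  rw [h4, mul_one] at hL
  have h5 : p ∣ (p - 1).choose (i % p) := by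
    have := (Nat.modEq_zero_iff_dvd.mpr hdvd).symm.trans hL
    exact Nat.modEq_zero_iff_dvd.mp this.symm
  have h6 : i % p ≤ p - 1 := by
    have := Nat.mod_lt i (show 0 < p by omega)
    omega
  have h7 : (p - 1).choose (i % p) ∣ (p - 1).factorial := by
    rw [← Nat.choose_mul_factorial_mul_factorial h6, mul_assoc]
    exact Dvd.intro _ rfl
  have h8 := (hp.dvd_factorial).mp (h5.trans h7)
  omega

theorem p_D6 (hB6 : S_B6 k) (hB7 : S_B7 k p) (hD1 : S_D1 k) (hD2 : S_D2 k) (hD3 : S_D3 k)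
    (hD4 : S_D4 k p) (hD5 : S_D5 k p) : S_D6 k p := by
  have hp : p.Prime := Fact.out
  have hp1 := hp.one_lt
  obtain ⟨irefl, isymm, itrans, irt, rtrans, itensl, itensr, rtensl, rtensr, itW, rtW⟩ := hD1
  obtain ⟨assoc, comm, rone, onenab, tenstW, tensprod, tWprod, tWtens, tenstWn, tWntens⟩ := hD2
  obtain ⟨ttiso, tttW, tttWn, ttn0, ttz⟩ := hD3
  obtain ⟨frtens, frprod, friso, frrt, frone⟩ := hD4
  intro T hT
  induction hT with
  | pow m =>
    induction m with
    | zero =>
      have h1 : Iso (nab k (p - 1)) (tens (nab k (p - 1)) (fr p (Wp k 0))) := by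
        refine isymm _ _ (itrans _ (tens (nab k (p - 1)) (one k)) _ ?_ (rone _))
        exact itensr _ _ _ frone
      exact ttiso _ _ h1 (hD5.1 (p - 1) (by omega))
    | succ m ih =>
      have e1 : Iso (tens (nab k (p - 1)) (fr p (Wp k (m + 1))))
          (tens (nab k (p - 1)) (tens (fr p (nab k 1)) (fr p (Wp k m)))) := by
        apply itensr
        exact itrans _ _ _ (friso _ _ (tWtens (Wp k m))) (frtens _ _)
      have e2 : Iso (tens (nab k (p - 1)) (tens (fr p (nab k 1)) (fr p (Wp k m))))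
          (tens (tens (nab k (p - 1)) (fr p (nab k 1))) (fr p (Wp k m))) :=
        isymm _ _ (assoc _ _ _)
      have e3 : Iso (tens (tens (nab k (p - 1)) (fr p (nab k 1))) (fr p (Wp k m)))
          (tens (nab k ((p - 1) + p)) (fr p (Wp k m))) := by
        apply itensl
        have := hB7 1
        rwa [show p * 1 + (p - 1) = (p - 1) + p by omega] at this
      have e4 : Iso (tens (nab k (p - 1)) (fr p (Wp k (m + 1))))
          (tens (nab k ((p - 1) + p)) (fr p (Wp k m))) :=
        itrans _ _ _ e1 (itrans _ _ _ e2 e3)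
      have r1 : Rt (tens (nab k ((p - 1) + p)) (fr p (Wp k m)))
          (tens (tWn p (nab k (p - 1))) (fr p (Wp k m))) := by
        apply rtensl
        exact hB6 (p - 1) p (fun i hi => d6_choose k p i hi)
      have r2 : Rt (tens (nab k ((p - 1) + p)) (fr p (Wp k m)))
          (tWn p (tens (nab k (p - 1)) (fr p (Wp k m)))) :=
        rtrans _ _ _ r1 (irt _ _ (tWntens _ _ _))
      exact TT.retr _ _ (rtrans _ _ _ (irt _ _ e4) r2) (tttWn _ p ih)
  | prod X Y hX hY ihX ihY =>
    have e1 : Iso (tens (nab k (p - 1)) (fr p (prodO X Y)))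
        (prodO (tens (nab k (p - 1)) (fr p X)) (tens (nab k (p - 1)) (fr p Y))) :=
      itrans _ _ _ (itensr _ _ _ (frprod X Y)) (tensprod _ _ _)
    exact ttiso _ _ (isymm _ _ e1) (TT.prod _ _ ihX ihY)
  | retr X Y h hY ihY =>
    exact TT.retr _ _ (rtensr _ _ _ (frrt _ _ h)) ihY

end Pool.Agent.Sp49.Three
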