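import Mathlib
import Pool.Agent.Lib.MP_49c83e_al.Three.Stm

/-!
MP_49c83e_al, Theorem III, piece E1: the Casimir blocks are stable and split off.
-/

namespace Pool.Agent.Sp49.Three

open Matrix TensorProduct

variable (k : Type) [Field k] [IsAlgClosed k]

theorem e1_comm (hA9 : S_A9 k) (X : Ob k) (g : SL2 k) : Commute (Cas X) (X.ρ g) :=
  LinearMap.ext fun v => (hA9 X).1 g v

theorem e1_mem (hA9 : S_A9 k) (X : Ob k) (c : k) : blkS X c = (Cas X).maxGenEigenspace c := by
  apply le_antisymm
  · intro v hv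
    have h := hv 1
    rwa [map_one] at h
  · intro v hv g
    exact Module.End.mapsTo_maxGenEigenspace_of_comm (e1_comm k hA9 X g) c hv

theorem e1_fit (X : Ob k) (c : k) : IsCompl ((Cas X).maxGenEigenspace c)
    (⨅ n : ℕ, LinearMap.range ((Cas X - c • (1 : Module.End k X.V)) ^ n)) := by
  have h := LinearMap.isCompl_iSup_ker_pow_iInf_range_pow (Cas X - c • (1 : Module.End k X.V))
  have e : (⨆ n : ℕ, LinearMap.ker ((Cas X - c • (1 : Module.End k X.V)) ^ n)) =
      (Cas X).maxGenEigenspace c := by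
    rw [← Module.End.iSup_genEigenspace_eq]
    exact iSup_congr fun n => Module.End.genEigenspace_nat.symm
  rwa [e] at h

theorem e1_range (hA9 : S_A9 k) (X : Ob k) (c : k) (g : SL2 k) (v : X.V)
    (hv : v ∈ ⨅ n : ℕ, LinearMap.range ((Cas X - c • (1 : Module.End k X.V)) ^ n)) :
    X.ρ g v ∈ ⨅ n : ℕ, LinearMap.range ((Cas X - c • (1 : Module.End k X.V)) ^ n) := by
  rw [Submodule.mem_iInf] at hv ⊢
  intro n
  obtain ⟨w, hw⟩ := hv n
  refine ⟨X.ρ g w, ?_⟩
  have h1 : Commute (Cas X - c • (1 : Module.End k X.V)) (X.ρ g) :=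
    (e1_comm k hA9 X g).sub_left ((Commute.one_left (X.ρ g)).smul_left c)
  have h2 := LinearMap.congr_fun (h1.pow_left n).eq w
  rw [Module.End.mul_apply, Module.End.mul_apply, hw] at h2
  exact h2

theorem p_E1 (_hA2 : S_A2 k) (hA9 : S_A9 k) : S_E1 k := by
  intro X c
  have hS := e1_mem k hA9 X c
  have hC : IsCompl (blkS X c)
      (⨅ n : ℕ, LinearMap.range ((Cas X - c • (1 : Module.End k X.V)) ^ n)) := by
    rw [hS]
    exact e1_fit k X c
  have key : ∃ π : X.V →ₗ[k] (blk X c).V, IsHom X (blk X c) π ∧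
      ∀ v : blkS X c, π (v : X.V) = v := by
    refine ⟨(blkS X c).projectionOnto _ hC, ?_, fun v => Submodule.projectionOnto_apply_left hC v⟩
    intro g v
    have h1 : v = (blkS X c).subtype ((blkS X c).projectionOnto _ hC v) +
        (v - (blkS X c).projection _ hC v) := by
      rw [Submodule.subtype_apply, Submodule.coe_projectionOnto_apply hC v]
      abel
    have h2 := e1_range k hA9 X c g _ (Submodule.sub_projection_mem hC v)
    have h3 : X.ρ g ((blkS X c).subtype ((blkS X c).projectionOnto _ hC v)) =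
        (blkS X c).subtype ((blk X c).ρ g ((blkS X c).projectionOnto _ hC v)) := rfl
    have h4 : (blkS X c).projectionOnto _ hC (X.ρ g (v - (blkS X c).projection _ hC v)) = 0 :=
      (Submodule.projectionOnto_apply_eq_zero_iff hC).2 h2
    have h5 : X.ρ g v = (blkS X c).subtype ((blk X c).ρ g ((blkS X c).projectionOnto _ hC v)) +
        X.ρ g (v - (blkS X c).projection _ hC v) := by
      rw [← h3, ← map_add, ← h1]
    have h6 := Submodule.projectionOnto_apply_left hC
      ((blk X c).ρ g ((blkS X c).projectionOnto _ hC v))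
    rw [h5]
    refine (map_add ((blkS X c).projectionOnto _ hC) _ _).trans ?_
    exact (congrArg₂ (· + ·) h6 h4).trans (add_zero _)
  refine ⟨fun v => by rw [hS], key, ?_⟩
  obtain ⟨π, hπ, hπ'⟩ := key
  exact ⟨(blkS X c).subtype, π, fun _ _ => rfl, hπ, hπ'⟩

end Pool.Agent.Sp49.Three
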