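import Mathlib
import Pool.Agent.Lib.MP_49c83e_al.Three.Stm

/-!
MP_49c83e_al, Theorem III, piece E2: functoriality of blocks.
-/

namespace Pool.Agent.Sp49.Three

variable (k : Type) [Field k] [IsAlgClosed k]

omit [IsAlgClosed k] in
private theorem e2_pow {V W : Type} [AddCommGroup V] [Module k V] [AddCommGroup W] [Module k W]
    (f : V →ₗ[k] W) (A : Module.End k V) (B : Module.End k W) (h : ∀ v, f (A v) = B (f v))
    (c : k) (n : ℕ) (v : V) :
    f (((A - c • (1 : Module.End k V)) ^ n) v) = ((B - c • (1 : Module.End k W)) ^ n) (f v) := by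
  induction n generalizing v with
  | zero => simp
  | succ n ih =>
    rw [pow_succ, pow_succ, Module.End.mul_apply, Module.End.mul_apply, ih]
    congr 1
    simp [h]

theorem p_E2 (hA2 : S_A2 k) (hE1 : S_E1 k) : S_E2 k := by
  intro X Y c
  have key : ∀ (X Y : Ob k) (f : X.V →ₗ[k] Y.V), IsHom X Y f → ∀ v ∈ blkS X c, f v ∈ blkS Y c := by
    intro X Y f hf v hv
    have h1 := ((hE1 X c).1 v).1 hv
    rw [Module.End.mem_maxGenEigenspace] at h1
    obtain ⟨n, hn⟩ := h1
    rw [(hE1 Y c).1, Module.End.mem_maxGenEigenspace]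
    refine ⟨n, ?_⟩
    rw [← e2_pow k f (Cas X) (Cas Y) (hA2.2 X Y f hf).2.2.2.2.2, hn, map_zero]
  refine ⟨key X Y, ?_, ?_⟩
  · rintro ⟨e, he⟩
    have he' : IsHom Y X e.symm.toLinearMap := by
      intro g v
      have h1 := he g (e.symm v)
      have h2 : e (X.ρ g (e.symm v)) = Y.ρ g (e (e.symm v)) := h1
      rw [e.apply_symm_apply] at h2
      show e.symm (Y.ρ g v) = X.ρ g (e.symm v)
      rw [← h2, e.symm_apply_apply]
    have hmap : (blkS X c).map (e : X.V →ₗ[k] Y.V) = blkS Y c := by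
      apply le_antisymm
      · rintro _ ⟨v, hv, rfl⟩
        exact key X Y e.toLinearMap he v hv
      · intro w hw
        exact ⟨e.symm w, key Y X e.symm.toLinearMap he' w hw, e.apply_symm_apply w⟩
    refine ⟨e.ofSubmodules (blkS X c) (blkS Y c) hmap, fun g v => ?_⟩
    exact Subtype.ext (he g ((show ↥(blkS X c) from v) : X.V))
  · intro f hf hinj v hv
    have h1 := ((hE1 Y c).1 (f v)).1 hv
    rw [Module.End.mem_maxGenEigenspace] at h1
    obtain ⟨n, hn⟩ := h1
    rw [(hE1 X c).1, Module.End.mem_maxGenEigenspace]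
    refine ⟨n, hinj ?_⟩
    rw [e2_pow k f (Cas X) (Cas Y) (hA2.2 X Y f hf).2.2.2.2.2, hn, map_zero]

end Pool.Agent.Sp49.Three
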