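import Mathlib
import Pool.Agent.Lib.MP_49c83e_al.Three.Stm

/-!
MP_49c83e_al, Theorem III, piece E3: the Casimir operator on X ⊗ Y^F.
-/

namespace Pool.Agent.Sp49.Three

open TensorProduct

section Aux
variable {k : Type} [Field k] {V W U : Type} [AddCommGroup V] [Module k V]
  [AddCommGroup W] [Module k W] [AddCommGroup U] [Module k U]

private theorem e3_pev_sum {ι : Type} (s : Finset ι) (c : ι → (ℕ →₀ V)) (t : k) :
    pev (∑ i ∈ s, c i) t = ∑ i ∈ s, pev (c i) t := by
  classical
  induction s using Finset.induction_on with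
  | empty => rw [Finset.sum_empty, Finset.sum_empty, pev_zero]
  | insert a s ha ih => rw [Finset.sum_insert ha, Finset.sum_insert ha, pev_add, ih]

/-- the coefficient of t in B(φ(t), ψ(t^p)) -/
private theorem e3_cof [Infinite k] (p : ℕ) (hp : 2 ≤ p) (B : V →ₗ[k] W →ₗ[k] U) {φ : k → V}
    {ψ : k → W} (h1 : IsPoly φ) (h2 : IsPoly ψ) :
    cof (fun t => B (φ t) (ψ (t ^ p))) 1 = B (cof φ 1) (cof ψ 0) := by
  obtain ⟨N, hN⟩ := exists_bound (cof φ)
  obtain ⟨M, hM⟩ := exists_bound (cof ψ)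
  have hφ : ∀ t, φ t = ∑ i ∈ Finset.range (N + 2), t ^ i • cof φ i := fun t => by
    rw [cof_spec h1 t, pev_eq_sum _ (N + 2) (fun i hi => hN i (by omega))]
  have hψ : ∀ t, ψ t = ∑ i ∈ Finset.range (M + 1), t ^ i • cof ψ i := fun t => by
    rw [cof_spec h2 t, pev_eq_sum _ (M + 1) (fun i hi => hM i (by omega))]
  rw [cof_eq (∑ i ∈ Finset.range (N + 2), ∑ j ∈ Finset.range (M + 1),
    Finsupp.single (i + p * j) (B (cof φ i) (cof ψ j)))]
  · rw [Finsupp.finsetSum_apply, Finset.sum_eq_single 1]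
    · rw [Finsupp.finsetSum_apply, Finset.sum_eq_single 0]
      · simp
      · intro j _ hj
        rw [Finsupp.single_apply, if_neg]
        intro h
        have : 1 ≤ j := Nat.one_le_iff_ne_zero.mpr hj
        nlinarith
      · intro h
        exact absurd (Finset.mem_range.mpr (by omega)) h
    · intro i _ hi
      rw [Finsupp.finsetSum_apply]
      apply Finset.sum_eq_zero
      intro j _
      rw [Finsupp.single_apply, if_neg]
      intro h
      rcases Nat.eq_zero_or_pos j with h0 | h0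
      · subst h0
        exact hi (by simpa using h)
      · nlinarith
    · intro h
      exact absurd (Finset.mem_range.mpr (by omega)) h
  · intro t
    rw [e3_pev_sum, hφ, hψ, LinearMap.map_sum₂]
    apply Finset.sum_congr rfl
    intro i _
    rw [e3_pev_sum, map_sum]
    apply Finset.sum_congr rfl
    intro j _
    rw [pev_single, map_smul, LinearMap.map_smul₂, smul_smul, pow_add, pow_mul, mul_comm]

end Aux

variable (k : Type) [Field k] [IsAlgClosed k] (p : ℕ) [Fact p.Prime] [CharP k p]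

omit [IsAlgClosed k] in
private theorem e3_fxx (t : k) :
    Matrix.SpecialLinearGroup.map (frobenius k p) (xx t) = xx (t ^ p) := by
  ext i j
  rw [Matrix.SpecialLinearGroup.map_apply_coe]
  have hp : p ≠ 0 := (Fact.out : p.Prime).ne_zero
  fin_cases i <;> fin_cases j <;> simp [xx, frobenius_def, hp]

omit [IsAlgClosed k] in
private theorem e3_fyy (t : k) :
    Matrix.SpecialLinearGroup.map (frobenius k p) (yy t) = yy (t ^ p) := by
  ext i j
  rw [Matrix.SpecialLinearGroup.map_apply_coe]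
  have hp : p ≠ 0 := (Fact.out : p.Prime).ne_zero
  fin_cases i <;> fin_cases j <;> simp [yy, frobenius_def, hp]

/-- the bilinear map a, b ↦ a ⊗ b with values in the object -/
private noncomputable def e3_m (X Y : Ob k) : X.V →ₗ[k] Y.V →ₗ[k] (tens X (fr p Y)).V :=
  TensorProduct.mk k X.V Y.V

theorem p_E3 (_ : S_A1 k) (hA2 : S_A2 k) : S_E3 k p := by
  intro X Y a b
  have hp : 2 ≤ p := (Fact.out : p.Prime).two_le
  have hE : ∀ (a : X.V) (b : Y.V),
      ee (tens X (fr p Y)) 1 (e3_m k p X Y a b) = e3_m k p X Y (ee X 1 a) b := by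
    intro a b
    have h := e3_cof p hp (e3_m k p X Y) (X.rat a).1 (Y.rat b).1
    have h0 : cof (fun t => Y.ρ (xx t) b) 0 = b := (hA2.1 Y b).1
    rw [h0] at h
    have h1 : (fun t => (tens X (fr p Y)).ρ (xx t) (e3_m k p X Y a b)) =
        fun t => e3_m k p X Y (X.ρ (xx t) a) (Y.ρ (xx (t ^ p)) b) := by
      funext t
      rw [← e3_fxx k p t]
      rfl
    show cof (fun t => (tens X (fr p Y)).ρ (xx t) (e3_m k p X Y a b)) 1 = _
    rw [h1]
    exact h
  have hF : ∀ (a : X.V) (b : Y.V),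
      ff (tens X (fr p Y)) 1 (e3_m k p X Y a b) = e3_m k p X Y (ff X 1 a) b := by
    intro a b
    have h := e3_cof p hp (e3_m k p X Y) (X.rat a).2 (Y.rat b).2
    have h0 : cof (fun t => Y.ρ (yy t) b) 0 = b := (hA2.1 Y b).2
    rw [h0] at h
    have h1 : (fun t => (tens X (fr p Y)).ρ (yy t) (e3_m k p X Y a b)) =
        fun t => e3_m k p X Y (X.ρ (yy t) a) (Y.ρ (yy (t ^ p)) b) := by
      funext t
      rw [← e3_fyy k p t]
      rfl
    show cof (fun t => (tens X (fr p Y)).ρ (yy t) (e3_m k p X Y a b)) 1 = _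
    rw [h1]
    exact h
  have hH : ∀ (a : X.V) (b : Y.V),
      hop (tens X (fr p Y)) (e3_m k p X Y a b) = e3_m k p X Y (hop X a) b := by
    intro a b
    show ee (tens X (fr p Y)) 1 (ff (tens X (fr p Y)) 1 (e3_m k p X Y a b)) -
      ff (tens X (fr p Y)) 1 (ee (tens X (fr p Y)) 1 (e3_m k p X Y a b)) =
      e3_m k p X Y (ee X 1 (ff X 1 a) - ff X 1 (ee X 1 a)) b
    rw [hE, hF, hE, hF, map_sub]
    rfl
  refine ⟨hE a b, hF a b, ?_⟩
  show (4 : k) • ff (tens X (fr p Y)) 1 (ee (tens X (fr p Y)) 1 (e3_m k p X Y a b)) +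
      (hop (tens X (fr p Y)) (hop (tens X (fr p Y)) (e3_m k p X Y a b) + e3_m k p X Y a b) +
        (hop (tens X (fr p Y)) (e3_m k p X Y a b) + e3_m k p X Y a b)) =
      e3_m k p X Y ((4 : k) • ff X 1 (ee X 1 a) + (hop X (hop X a + a) + (hop X a + a))) b
  simp only [map_add, map_smul, hE, hF, hH, LinearMap.add_apply, LinearMap.smul_apply]

end Pool.Agent.Sp49.Three
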