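import Mathlib
import Pool.Agent.Lib.MP_49c83e_al.Three.Stm

/-!
MP_49c83e_al, Theorem III, piece E4: blocks of X ⊗ Y^F.
-/

set_option autoImplicit false

namespace Pool.Agent.Sp49.Three

open Matrix TensorProduct

theorem e4_pow {k : Type} [Field k] {X Y : Type} [AddCommGroup X] [Module k X]
    [AddCommGroup Y] [Module k Y] (A : Module.End k X) (B : Module.End k (X ⊗[k] Y))
    (hB : ∀ a b, B (a ⊗ₜ[k] b) = (A a) ⊗ₜ[k] b) (c : k) (n : ℕ) :
    (B - c • (1 : Module.End k (X ⊗[k] Y))) ^ n =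
      ((A - c • (1 : Module.End k X)) ^ n).rTensor Y := by
  have h1 : B - c • (1 : Module.End k (X ⊗[k] Y)) =
      (A - c • (1 : Module.End k X)).rTensor Y := by
    apply TensorProduct.ext'
    intro a b
    rw [LinearMap.rTensor_tmul, LinearMap.sub_apply, LinearMap.sub_apply, hB,
      LinearMap.smul_apply, LinearMap.smul_apply, Module.End.one_apply, Module.End.one_apply,
      TensorProduct.sub_tmul, TensorProduct.smul_tmul']
  rw [h1, LinearMap.rTensor_pow]

theorem e4_lin {k : Type} [Field k] {X Y : Type} [AddCommGroup X] [Module k X]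
    [AddCommGroup Y] [Module k Y] (A : Module.End k X) (B : Module.End k (X ⊗[k] Y))
    (hB : ∀ a b, B (a ⊗ₜ[k] b) = (A a) ⊗ₜ[k] b) (c : k) (S : Submodule k X)
    (hS : ∀ v, v ∈ S ↔ v ∈ A.maxGenEigenspace c) (S' : Submodule k (X ⊗[k] Y))
    (hS' : ∀ v, v ∈ S' ↔ v ∈ B.maxGenEigenspace c) :
    (∀ w : S ⊗[k] Y, (S.subtype.rTensor Y) w ∈ S') ∧
    (∀ z ∈ S', ∃ w : S ⊗[k] Y, (S.subtype.rTensor Y) w = z) ∧
    Function.Injective (S.subtype.rTensor Y) := by
  refine ⟨?_, ?_, ?_⟩
  · intro w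
    induction w using TensorProduct.induction_on with
    | zero =>
      rw [map_zero]
      exact zero_mem _
    | tmul a b =>
      rw [LinearMap.rTensor_tmul, hS', Module.End.mem_maxGenEigenspace]
      obtain ⟨n, hn⟩ := (Module.End.mem_maxGenEigenspace _ _ _).mp ((hS (a : X)).mp a.2)
      refine ⟨n, ?_⟩
      rw [e4_pow A B hB c n, LinearMap.rTensor_tmul, Submodule.subtype_apply, hn,
        TensorProduct.zero_tmul]
    | add u v hu hv =>
      rw [map_add]
      exact add_mem hu hv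
  · intro z hz
    rw [hS', Module.End.mem_maxGenEigenspace] at hz
    obtain ⟨n, hn⟩ := hz
    rw [e4_pow A B hB c n] at hn
    set g : X →ₗ[k] X := (A - c • (1 : Module.End k X)) ^ n with hg
    have hle : LinearMap.ker g ≤ S := by
      intro v hv
      rw [hS, Module.End.mem_maxGenEigenspace]
      exact ⟨n, hv⟩
    have hex : Function.Exact (LinearMap.ker g).subtype g := LinearMap.exact_subtype_ker_map g
    have hex2 := Module.Flat.rTensor_exact Y hex
    obtain ⟨w, hw⟩ := (hex2 z).mp hn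
    refine ⟨(Submodule.inclusion hle).rTensor Y w, ?_⟩
    rw [← LinearMap.rTensor_comp_apply, Submodule.subtype_comp_inclusion]
    exact hw
  · exact Module.Flat.rTensor_preserves_injective_linearMap _ S.injective_subtype

theorem p_E4 (k : Type) [Field k] [IsAlgClosed k] (p : ℕ) [Fact p.Prime] [CharP k p]
    (hE1 : S_E1 k) (hE3 : S_E3 k p) : S_E4 k p := by
  intro X Y c
  obtain ⟨h1, h2, h3⟩ := e4_lin (k := k) (X := X.V) (Y := Y.V) (Cas X)
    (Cas (tens X (fr p Y))) (fun a b => (hE3 X Y a b).2.2) c (blkS X c) (hE1 X c).1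
    (blkS (tens X (fr p Y)) c) (hE1 (tens X (fr p Y)) c).1
  let F : (blkS X c ⊗[k] Y.V) →ₗ[k] blkS (tens X (fr p Y)) c :=
    ((blkS X c).subtype.rTensor Y.V).codRestrict (blkS (tens X (fr p Y)) c) h1
  have hinj : Function.Injective F := by
    intro u v huv
    exact h3 (congrArg Subtype.val huv)
  have hsurj : Function.Surjective F := by
    rintro ⟨z, hz⟩
    obtain ⟨w, hw⟩ := h2 z hz
    exact ⟨w, Subtype.ext hw⟩
  refine ⟨LinearEquiv.ofBijective F ⟨hinj, hsurj⟩, ?_⟩
  intro g z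
  apply Subtype.ext
  have h4 : ((blkS X c).subtype.rTensor Y.V) ∘ₗ (tens (blk X c) (fr p Y)).ρ g =
      (tens X (fr p Y)).ρ g ∘ₗ ((blkS X c).subtype.rTensor Y.V) := by
    apply TensorProduct.ext'
    intro a b
    rfl
  exact LinearMap.congr_fun h4 z

end Pool.Agent.Sp49.Three
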