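import Mathlib
import Pool.Agent.Lib.MP_49c83e_al.Three.Stm
import Pool.Agent.Lib.MP_49c83e_al.Three.P.A2

/-! Piece E6: 0 → ∇(a-r) → block of ∇(a) ⊗ ∇(r) → ∇(a+r) → 0. -/

namespace Pool.Agent.Sp49.Three

open Matrix TensorProduct

variable (k : Type) [Field k] [IsAlgClosed k] (p : ℕ) [Fact p.Prime] [CharP k p]

omit p in
/-- an equivariant surjection onto a module on which the Casimir operator is the scalar c stays
surjective on the block of c -/
private theorem e6_surj (hE1 : S_E1 k) (Y Z : Ob k) (c : k) (g : Y.V →ₗ[k] Z.V) (hg : IsHom Y Z g)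
    (hs : Function.Surjective g) (hc : ∀ z : Z.V, Cas Z z = c • z) (z : Z.V) :
    ∃ v ∈ blkS Y c, g v = z := by
  obtain ⟨v, rfl⟩ := hs z
  have hcas : ∀ v, g (Cas Y v) = Cas Z (g v) := ((p_A2 k).2 Y Z g hg).2.2.2.2.2
  set f : Module.End k Y.V := Cas Y - c • (1 : Module.End k Y.V) with hf
  have hgf : ∀ v, g (f v) = 0 := by
    intro v
    rw [hf, LinearMap.sub_apply, LinearMap.smul_apply, Module.End.one_apply, map_sub, map_smul, hcas,
      hc, sub_self]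
  have hev := (LinearMap.eventually_isCompl_ker_pow_range_pow f).and (Filter.eventually_ge_atTop 1)
  obtain ⟨n, hn, hn1⟩ := hev.exists
  obtain ⟨m, rfl⟩ : ∃ m, n = m + 1 := ⟨n - 1, by omega⟩
  have htop : v ∈ LinearMap.ker (f ^ (m + 1)) ⊔ LinearMap.range (f ^ (m + 1)) := by
    rw [hn.sup_eq_top]
    exact Submodule.mem_top
  obtain ⟨v0, hv0, v1, ⟨u, rfl⟩, hv⟩ := Submodule.mem_sup.1 htop
  refine ⟨v0, ?_, ?_⟩
  · rw [(hE1 Y c).1 v0, Module.End.mem_maxGenEigenspace]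
    exact ⟨m + 1, hv0⟩
  · rw [← hv, map_add, pow_succ', Module.End.mul_apply, hgf, add_zero]

theorem p_E6 (hB3 : S_B3 k) (hB5 : S_B5 k) (hE1 : S_E1 k) (hE2 : S_E2 k) (hE5 : S_E5 k p) :
    S_E6 k p := by
  intro a r ha hr hrp hra
  obtain ⟨a, rfl⟩ : ∃ b, a = b + 1 := ⟨a - 1, by omega⟩
  obtain ⟨r, rfl⟩ : ∃ b, r = b + 1 := ⟨r - 1, by omega⟩
  obtain ⟨f, g, hf, hg, hfi, hex, hgs⟩ := hB5 a r
  have e1 : a + 1 + (r + 1) = a + r + 2 := by ring
  rw [e1]
  have h5 := hE5 (a + 1) (r + 1) r ha hr hrp hra (Nat.lt_succ_self r)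
  have e2 : a + 1 - (r + 1) + r = a := by omega
  rw [e2] at h5
  obtain ⟨i, hi, hii, hir⟩ := h5
  set c : k := ((r + 1 : ℕ) : k) ^ 2 with hc
  have hcZ : ∀ z : (nab k (a + r + 2)).V, Cas (nab k (a + r + 2)) z = c • z := by
    intro z
    rw [(hB3 (a + r + 2)).1 z, hc]
    congr 1
    have ha' : (a : k) + 1 + 1 = 0 := by
      have := ha
      push_cast at this
      exact this
    push_cast
    have : (a : k) + r + 2 + 1 = ((r : k) + 1) + ((a : k) + 1 + 1) := by ring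
    rw [this, ha', add_zero]
  have hin : ∀ v, f (i v) ∈ blkS (tens (nab k (a + 1)) (nab k (r + 1))) c := fun v =>
    (hE2 _ _ c).1 f hf (i v) ((hir (i v)).2 ⟨v, rfl⟩)
  refine ⟨(f ∘ₗ i).codRestrict (blkS (tens (nab k (a + 1)) (nab k (r + 1))) c) hin,
    g ∘ₗ (blkS (tens (nab k (a + 1)) (nab k (r + 1))) c).subtype, ?_, ?_, ?_, ?_, ?_⟩
  · intro γ v
    apply Subtype.ext
    show f (i ((nab k (a + 1 - (r + 1))).ρ γ v)) = (tens (nab k (a + 1)) (nab k (r + 1))).ρ γ (f (i v))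
    rw [hi, hf]
  · intro γ v
    show g ((tens (nab k (a + 1)) (nab k (r + 1))).ρ γ (Subtype.val v)) = (nab k (a + r + 2)).ρ γ (g (Subtype.val v))
    rw [hg]
  · intro u v huv
    have h1 : f (i u) = f (i v) := congrArg Subtype.val huv
    exact hii (hfi h1)
  · intro v
    constructor
    · intro h
      have h1 : g v.1 = 0 := h
      obtain ⟨x, hx⟩ := (hex v.1).1 h1
      have h2 : x ∈ blkS (tens (nab k a) (nab k r)) c := (hE2 _ _ c).2.2 f hf hfi x (by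
        rw [hx]
        exact v.2)
      obtain ⟨w, hw⟩ := (hir x).1 h2
      refine ⟨w, Subtype.ext ?_⟩
      show f (i w) = v.1
      rw [hw, hx]
    · rintro ⟨w, rfl⟩
      show g (f (i w)) = 0
      exact (hex _).2 ⟨i w, rfl⟩
  · intro z
    obtain ⟨v, hv, hvz⟩ := e6_surj k hE1 _ _ c g hg hgs hcZ z
    exact ⟨⟨v, hv⟩, hvz⟩

end Pool.Agent.Sp49.Three
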