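import Mathlib
import Pool.Agent.Lib.MP_49c83e_al.Three.Stm

/-!
MP_49c83e_al, Theorem III, piece [E7].
-/

namespace Pool.Agent.Sp49.Three

section
variable (k : Type) [Field k] [IsAlgClosed k] (p : ℕ) [Fact p.Prime] [CharP k p]

omit [IsAlgClosed k] in
private theorem e7_transport (X Y Z Y' : Ob k) (h : ShortEx X Y Z) (hY : Iso Y Y') :
    ShortEx X Y' Z := by
  obtain ⟨f, g, hf, hg, inj, ex, surj⟩ := h
  obtain ⟨φ, hφ⟩ := hY
  have hs : ∀ (g' : SL2 k) (v : Y'.V), φ.symm (Y'.ρ g' v) = Y.ρ g' (φ.symm v) := by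
    intro g' v
    rw [LinearEquiv.symm_apply_eq]
    have h1 := hφ g' (φ.symm v)
    simp only [LinearEquiv.coe_coe, LinearEquiv.apply_symm_apply] at h1
    exact h1.symm
  refine ⟨φ.toLinearMap ∘ₗ f, g ∘ₗ φ.symm.toLinearMap, ?_, ?_, ?_, ?_, ?_⟩
  · intro g' v
    show φ (f (X.ρ g' v)) = Y'.ρ g' (φ (f v))
    rw [hf]
    exact hφ g' (f v)
  · intro g' v
    show g (φ.symm (Y'.ρ g' v)) = Z.ρ g' (g (φ.symm v))
    rw [hs, hg]
  · exact φ.injective.comp inj
  · intro v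
    show g (φ.symm v) = 0 ↔ _
    rw [ex (φ.symm v)]
    constructor
    · rintro ⟨w, hw⟩
      exact ⟨w, by
        show φ (f w) = v
        rw [hw, LinearEquiv.apply_symm_apply]⟩
    · rintro ⟨w, hw⟩
      refine ⟨w, ?_⟩
      rw [LinearEquiv.eq_symm_apply]
      exact hw
  · exact surj.comp φ.symm.surjective

theorem p_E7 (hB7 : S_B7 k p) (hD1 : S_D1 k) (hD2 : S_D2 k) (hE2 : S_E2 k) (hE4 : S_E4 k p)
    (hE6 : S_E6 k p) : S_E7 k p := by
  obtain ⟨_, hsymm, htrans, _, _, htl, htr, _⟩ := hD1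
  obtain ⟨hassoc, hcomm, _⟩ := hD2
  intro m r hm hr hrp
  have hpm : p ≤ p * m := Nat.le_mul_of_pos_right p hm
  have hp1 : 1 ≤ p := (Fact.out : p.Prime).one_lt.le
  have ha : ((p * m - 1 : ℕ) : k) + 1 = 0 := by
    have h1 : ((p * m - 1 + 1 : ℕ) : k) = 0 := by
      rw [Nat.sub_add_cancel (hp1.trans hpm), Nat.cast_mul, CharP.cast_eq_zero, zero_mul]
    rw [← h1]
    push_cast
    rfl
  have hE := hE6 (p * m - 1) r ha hr hrp (by omega)
  have e1 : p * m - 1 - r = p * m - r - 1 := by omega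
  have e2 : p * m - 1 + r = p * m + r - 1 := by omega
  rw [e1, e2] at hE
  refine e7_transport k _ _ _ _ hE ?_
  have e3 : p * (m - 1) + (p - 1) = p * m - 1 := by
    have h2 : p * (m - 1) = p * m - p := by
      rw [Nat.mul_sub, mul_one]
    omega
  have hB := hB7 (m - 1)
  rw [e3] at hB
  have i1 : Iso (tens (nab k (p * m - 1)) (nab k r))
      (tens (tens (nab k (p - 1)) (fr p (nab k (m - 1)))) (nab k r)) :=
    htl _ _ _ (hsymm _ _ hB)
  have i2 := htrans _ _ _ i1 (hassoc (nab k (p - 1)) (fr p (nab k (m - 1))) (nab k r))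
  have i3 := htrans _ _ _ i2 (htr _ _ (nab k (p - 1)) (hcomm (fr p (nab k (m - 1))) (nab k r)))
  have i4 := htrans _ _ _ i3
    (hsymm _ _ (hassoc (nab k (p - 1)) (nab k r) (fr p (nab k (m - 1)))))
  have i5 := (hE2 _ _ ((r : k) ^ 2)).2.1 i4
  exact htrans _ _ _ i5
    (hsymm _ _ (hE4 (tens (nab k (p - 1)) (nab k r)) (nab k (m - 1)) ((r : k) ^ 2)))

end

end Pool.Agent.Sp49.Three
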