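import Mathlib
import Pool.Agent.Lib.MP_49c83e_al.Three.Stm

/-! MP_49c83e_al, Theorem III, piece [E8]. -/

namespace Pool.Agent.Sp49.Three

open Matrix TensorProduct

variable (k : Type) [Field k] [IsAlgClosed k] (p : ℕ) [Fact p.Prime] [CharP k p]

/-- tensoring with Q and twisting preserves NF as soon as it does on the modules nab a -/
theorem e8_NF (Q : Ob k) (hQ : ∀ a : ℕ, NF (tens Q (fr p (nab k a)))) (N : Ob k) (hN : NF N) :
    NF (tens Q (fr p N)) := by
  induction hN with
  | zero X h =>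
    apply NF.zero
    intro v
    have hv : ∀ v : Q.V ⊗[k] X.V, v = 0 := by
      intro v
      induction v using TensorProduct.induction_on with
      | zero => rfl
      | tmul a b => rw [h b, TensorProduct.tmul_zero]
      | add a b ha hb => rw [ha, hb, add_zero]
    exact hv v
  | nab a => exact hQ a
  | ext X Y Z f g hf hg inj exact surj hX hZ ihX ihZ =>
    refine NF.ext (tens Q (fr p X)) (tens Q (fr p Y)) (tens Q (fr p Z))
      (thMap p Q (X := X) (Y := Y) f) (thMap p Q (X := Y) (Y := Z) g)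
      (thMap_hom p Q f hf) (thMap_hom p Q g hg) ?_ ?_ ?_ ihX ihZ
    · have h := Module.Flat.lTensor_preserves_injective_linearMap (M := Q.V) f inj
      exact h
    · have h := lTensor_exact Q.V exact surj
      exact h
    · have h := LinearMap.lTensor_surjective Q.V surj
      exact h

theorem p_E8 (hB7 : S_B7 k p) (hC1 : S_C1 k) (hD1 : S_D1 k) (hD2 : S_D2 k) (hD5 : S_D5 k p)
    (hD6 : S_D6 k p) (hE1 : S_E1 k) (hE7 : S_E7 k p) : S_E8 k p := by
  obtain ⟨irefl, isymm, itrans, irt, rtrans, itl, itr, rtl, rtr, iW, rW⟩ := hD1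
  obtain ⟨assoc, comm, rest⟩ := hD2
  refine ⟨?_, ?_, ?_⟩
  · intro r hr1 hrp T hT
    have h1 : TT (tens (tens (nab k (p - 1)) (fr p T)) (nab k r)) := hD5.2 _ r (hD6 T hT) hrp
    have h2 : Iso (tens (tens (nab k (p - 1)) (nab k r)) (fr p T))
        (tens (tens (nab k (p - 1)) (fr p T)) (nab k r)) :=
      itrans _ _ _ (assoc _ _ _) (itrans _ _ _ (itr _ _ _ (comm _ _)) (isymm _ _ (assoc _ _ _)))
    have h3 : Rt (tens (Qr k p r) (fr p T))
        (tens (tens (nab k (p - 1)) (nab k r)) (fr p T)) :=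
      rtl _ _ _ (hE1 _ _).2.2
    exact TT.retr _ _ (rtrans _ _ _ h3 (irt _ _ h2)) h1
  · intro r hr1 hrp N hN
    refine e8_NF k p (Qr k p r) ?_ N hN
    intro a
    obtain ⟨f, g, hf, hg, inj, ex, surj⟩ := hE7 (a + 1) r (by omega) hr1 hrp
    exact NF.ext _ _ _ f g hf hg inj ex surj (NF.nab _) (NF.nab _)
  · intro N hN
    refine e8_NF k p (nab k (p - 1)) ?_ N hN
    intro a
    exact hC1.1 _ _ (isymm _ _ (hB7 a)) (NF.nab _)

end Pool.Agent.Sp49.Three
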