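import Mathlib
import Pool.Agent.Lib.MP_49c83e_al.Three.Stm

open Matrix TensorProduct

namespace Pool.Agent.Sp49.Three

variable (k : Type) [Field k] [IsAlgClosed k]

private theorem f1_iso (hA2 : S_A2 k) (X Y : Ob k) (a : ℤ) (f : X.V ≃ₗ[k] Y.V)
    (hf : IsHom X Y f.toLinearMap) : fd Y a ≤ fd X a := by
  have hg : IsHom Y X f.symm.toLinearMap := by
    intro g v
    have h1 := hf g (f.symm v)
    have h2 : f (X.ρ g (f.symm v)) = Y.ρ g v := by
      simpa using h1
    show f.symm (Y.ρ g v) = X.ρ g (f.symm v)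
    rw [← h2, LinearEquiv.symm_apply_apply]
  have h1 := (hA2.2 X Y _ hf).2.2.2.1
  have h2 := (hA2.2 Y X _ hg).2.2.1
  have hle : FF Y a ≤ (FF X a).map ((NN X).mapQ (NN Y) f.toLinearMap (fun v hv => h1 v hv)) := by
    rintro _ ⟨v, hv, rfl⟩
    refine ⟨(NN X).mkQ (f.symm v), ⟨f.symm v, h2 a v hv, rfl⟩, ?_⟩
    simp
  unfold fd
  exact (Submodule.finrank_mono hle).trans (Submodule.finrank_map_le _ _)

theorem p_F1 (hA2 : S_A2 k) (hA10 : S_A10 k) (hB1 : S_B1 k) (hB3 : S_B3 k) : S_F1 k := by
  refine ⟨?_, ?_, ?_, ?_, ?_⟩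
  · intro X Y a
    have hl : IsHom X (prodO X Y) (LinearMap.inl k X.V Y.V) := by
      intro g v
      show (X.ρ g v, (0 : Y.V)) = (X.ρ g v, Y.ρ g 0)
      rw [map_zero]
    have hr : IsHom Y (prodO X Y) (LinearMap.inr k X.V Y.V) := by
      intro g v
      show ((0 : X.V), Y.ρ g v) = (X.ρ g 0, Y.ρ g v)
      rw [map_zero]
    have hp : IsHom (prodO X Y) X (LinearMap.fst k X.V Y.V) := by
      intro g v
      rfl
    have hq : IsHom (prodO X Y) Y (LinearMap.snd k X.V Y.V) := by
      intro g v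
      rfl
    have h1 := (hA2.2 X (prodO X Y) _ hl).2.2.2.1
    have h2 := (hA2.2 Y (prodO X Y) _ hr).2.2.2.1
    have h3 := (hA2.2 (prodO X Y) X _ hp).2.2.1
    have h4 := (hA2.2 (prodO X Y) Y _ hq).2.2.1
    have hle : FF (prodO X Y) a ≤
        (FF X a).map ((NN X).mapQ (NN (prodO X Y)) (LinearMap.inl k X.V Y.V) (fun v hv => h1 v hv)) ⊔
        (FF Y a).map ((NN Y).mapQ (NN (prodO X Y)) (LinearMap.inr k X.V Y.V)
          (fun v hv => h2 v hv)) := by
      rintro _ ⟨v, hv, rfl⟩
      rw [Submodule.mem_sup]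
      refine ⟨_, ⟨(NN X).mkQ v.1, ⟨v.1, h3 a v hv, rfl⟩, rfl⟩, _,
        ⟨(NN Y).mkQ v.2, ⟨v.2, h4 a v hv, rfl⟩, rfl⟩, ?_⟩
      have hv : v = LinearMap.inl k X.V Y.V v.1 + LinearMap.inr k X.V Y.V v.2 := by
        rcases v with ⟨x, y⟩
        show (x, y) = (x, (0 : Y.V)) + ((0 : X.V), y)
        rw [Prod.mk_add_mk, add_zero, zero_add]
      conv_rhs => rw [hv]
      rfl
    unfold fd
    refine (Submodule.finrank_mono hle).trans ?_
    refine (Submodule.finrank_add_le_finrank_add_finrank _ _).trans ?_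
    exact Nat.add_le_add (Submodule.finrank_map_le _ _) (Submodule.finrank_map_le _ _)
  · intro a
    unfold fd
    have : FF (zer k) a = ⊥ := by
      rw [eq_bot_iff]
      rintro _ ⟨v, hv, rfl⟩
      have : v = 0 := by
        cases v
        rfl
      rw [this, map_zero]
      exact zero_mem _
    rw [this]
    exact finrank_bot k _
  · rintro X Y a ⟨f, hf⟩
    refine le_antisymm ?_ (f1_iso k hA2 X Y a f hf)
    have hg : IsHom Y X f.symm.toLinearMap := by
      intro g v
      have h1 := hf g (f.symm v)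
      have h2 : f (X.ρ g (f.symm v)) = Y.ρ g v := by
        simpa using h1
      show f.symm (Y.ρ g v) = X.ρ g (f.symm v)
      rw [← h2, LinearEquiv.symm_apply_apply]
    exact f1_iso k hA2 Y X a f.symm hg
  · intro b a
    have hB := (hB3 b).2 a
    by_cases hab : a = b
    · rw [if_pos hab]
      unfold fd
      have hle : FF (nab k b) a ≤ Submodule.span k {(NN (nab k b)).mkQ (mm k b 0)} := by
        rintro _ ⟨v, hv, rfl⟩
        rcases hB v hv with h | ⟨_, c, hc⟩
        · rw [h, map_zero]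
          exact zero_mem _
        · rw [hc, map_smul]
          exact Submodule.smul_mem _ _ (Submodule.mem_span_singleton_self _)
      refine (Submodule.finrank_mono hle).trans ?_
      refine (finrank_span_le_card (R := k) ({(NN (nab k b)).mkQ (mm k b 0)} : Set _)).trans ?_
      rw [Set.toFinset_singleton, Finset.card_singleton]
    · rw [if_neg hab]
      unfold fd
      have : FF (nab k b) a = ⊥ := by
        rw [eq_bot_iff]
        rintro _ ⟨v, hv, rfl⟩
        rcases hB v hv with h | ⟨h, _⟩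
        · rw [h, map_zero]
          exact zero_mem _
        · exact absurd h hab
      rw [this]
      exact le_of_eq (finrank_bot k _)
  · intro X a ha
    unfold fd
    have : FF X a = ⊥ := by
      rw [eq_bot_iff]
      rintro _ ⟨v, hv, rfl⟩
      rw [(hA10 X a v hv).1 ha, map_zero]
      exact zero_mem _
    rw [this]
    exact finrank_bot k _

end Pool.Agent.Sp49.Three
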