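import Mathlib
import Pool.Agent.Lib.MP_49c83e_al.Three.Stm

/-!
MP_49c83e_al, Theorem III, piece F2: F_lambda(Q ⊗ Y^F).
-/

namespace Pool.Agent.Sp49.Three

open Matrix TensorProduct

section
variable {k : Type} [Field k]

/-- ff X i w is in NN X for i ≥ 1 -/
theorem f2_ff_mem [IsAlgClosed k] (X : Ob k) (i : ℕ) (hi : 1 ≤ i) (w : X.V) :
    ff X i w ∈ NN X := by
  have hinf : Infinite k := IsAlgClosed.instInfinite
  let c : ℕ →₀ X.V := cof (fun t => X.ρ (yy t) w) - Finsupp.single 0 w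
  have h1 : c i ∈ NN X := by
    apply coeff_mem_of_infinite (k := k)
    have : {t : k | pev c t ∈ NN X} = Set.univ := by
      ext t
      simp only [Set.mem_ofPred_eq, Set.mem_univ, iff_true]
      show pev (cof (fun t => X.ρ (yy t) w) - Finsupp.single 0 w) t ∈ NN X
      rw [pev_sub, pev_single, pow_zero, one_smul, ← yy_pev]
      exact Submodule.subset_span ⟨t, w, rfl⟩
    rw [this]
    exact Set.infinite_univ
  have h2 : c i = ff X i w := by
    show (cof (fun t => X.ρ (yy t) w) - Finsupp.single 0 w : ℕ →₀ X.V) i = ff X i w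
    rw [Finsupp.sub_apply, Finsupp.single_eq_of_ne (by omega), sub_zero]
    rfl
  rw [← h2]
  exact h1

/-- powers in an infinite field -/
theorem f2_zpow [Infinite k] (n : ℤ) (h : ∀ s : kˣ, s ^ n = 1) : n = 0 := by
  by_contra hn
  have h2 : ∀ s : kˣ, s ^ n.natAbs = 1 := by
    intro s
    rcases Int.natAbs_eq n with h3 | h3
    · rw [← zpow_natCast, ← h3]
      exact h s
    · have := h s
      rw [h3, _root_.zpow_neg, inv_eq_one, zpow_natCast] at this
      exact this
  have hN : 0 < n.natAbs := Int.natAbs_pos.mpr hn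
  have hP : (Polynomial.X ^ (n.natAbs + 1) - Polynomial.X : Polynomial k) = 0 := by
    apply Polynomial.eq_zero_of_infinite_isRoot
    have : {x : k | Polynomial.IsRoot (Polynomial.X ^ (n.natAbs + 1) - Polynomial.X : Polynomial k) x}
        = Set.univ := by
      ext x
      simp only [Set.mem_ofPred_eq, Set.mem_univ, iff_true, Polynomial.IsRoot, Polynomial.eval_sub,
        Polynomial.eval_pow, Polynomial.eval_X]
      by_cases hx : x = 0
      · rw [hx]
        simp
      · have h4 := congrArg (fun u : kˣ => (u : k)) (h2 (Units.mk0 x hx))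
        simp only [Units.val_pow_eq_pow_val, Units.val_mk0, Units.val_one] at h4
        rw [pow_succ, h4, one_mul, sub_self]
    rw [this]
    exact Set.infinite_univ
  have h5 := congrArg (fun P => Polynomial.coeff P 1) hP
  simp only [Polynomial.coeff_sub, Polynomial.coeff_X_pow, Polynomial.coeff_X_one,
    Polynomial.coeff_zero] at h5
  rw [if_neg (by omega)] at h5
  simp at h5

/-- a functional with value 1 on q and 0 on q' -/
theorem f2_dual {V : Type} [AddCommGroup V] [Module k V] (q q' : V) (hq : q ≠ 0)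
    (h : q' = 0 ∨ LinearIndependent k ![q, q']) : ∃ f : V →ₗ[k] k, f q = 1 ∧ f q' = 0 := by
  have h1 : q ∉ Submodule.span k {q'} := by
    rcases h with h | h
    · rw [h]
      simpa using hq
    · intro hm
      obtain ⟨c, hc⟩ := Submodule.mem_span_singleton.mp hm
      have h2 := LinearIndependent.pair_iff.mp h 1 (-c) (by rw [one_smul, neg_smul, hc]; simp)
      exact one_ne_zero h2.1
  obtain ⟨f, hf, hf'⟩ := Submodule.exists_dual_map_eq_bot_of_notMem h1 inferInstance
  refine ⟨(f q)⁻¹ • f, ?_, ?_⟩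
  · show (f q)⁻¹ * f q = 1
    exact inv_mul_cancel₀ hf
  · have : f q' = 0 := by
      have h3 : f q' ∈ Submodule.map f (Submodule.span k {q'}) :=
        Submodule.mem_map_of_mem (Submodule.mem_span_singleton_self q')
      rw [hf'] at h3
      simpa using h3
    show (f q)⁻¹ * f q' = 0
    rw [this, mul_zero]

/-- the kernel of E ⊗ 1 -/
theorem f2_ker {V W : Type} [AddCommGroup V] [Module k V] [AddCommGroup W] [Module k W]
    (E : V →ₗ[k] V) (q q' : V) (h : ∀ z, E z = 0 → ∃ a b : k, z = a • q + b • q')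
    (z : V ⊗[k] W) (hz : LinearMap.rTensor W E z = 0) :
    ∃ y1 y2 : W, z = q ⊗ₜ[k] y1 + q' ⊗ₜ[k] y2 := by
  have hex := Module.Flat.rTensor_exact (R := k) W (LinearMap.exact_subtype_ker_map E)
  obtain ⟨w, hw⟩ := (hex z).mp hz
  rw [← hw]
  clear hw hz
  induction w using TensorProduct.induction_on with
  | zero => exact ⟨0, 0, by simp⟩
  | tmul a b =>
    obtain ⟨α, β, hab⟩ := h a.1 a.2
    refine ⟨α • b, β • b, ?_⟩
    rw [LinearMap.rTensor_tmul]
    show (a : V) ⊗ₜ[k] b = _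
    rw [hab, TensorProduct.add_tmul, TensorProduct.smul_tmul, TensorProduct.smul_tmul]
  | add u v hu hv =>
    obtain ⟨y1, y2, h1⟩ := hu
    obtain ⟨x1, x2, h2⟩ := hv
    refine ⟨y1 + x1, y2 + x2, ?_⟩
    rw [map_add, h1, h2, TensorProduct.tmul_add, TensorProduct.tmul_add]
    abel

end

section
variable (k : Type) [Field k] [IsAlgClosed k] (p : ℕ) [Fact p.Prime] [CharP k p]

omit [IsAlgClosed k] in
theorem f2_frx (t : k) : Matrix.SpecialLinearGroup.map (frobenius k p) (xx t) = xx (t ^ p) := by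
  ext i j
  rw [Matrix.SpecialLinearGroup.map_apply_coe]
  have hp : p ≠ 0 := (Fact.out : p.Prime).ne_zero
  fin_cases i <;> fin_cases j <;> simp [xx, frobenius_def, hp]

omit [IsAlgClosed k] in
theorem f2_fry (t : k) : Matrix.SpecialLinearGroup.map (frobenius k p) (yy t) = yy (t ^ p) := by
  ext i j
  rw [Matrix.SpecialLinearGroup.map_apply_coe]
  have hp : p ≠ 0 := (Fact.out : p.Prime).ne_zero
  fin_cases i <;> fin_cases j <;> simp [yy, frobenius_def, hp]

omit [IsAlgClosed k] in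
theorem f2_frh (s : kˣ) : Matrix.SpecialLinearGroup.map (frobenius k p) (hh s) = hh (s ^ p) := by
  ext i j
  rw [Matrix.SpecialLinearGroup.map_apply_coe]
  have hp : p ≠ 0 := (Fact.out : p.Prime).ne_zero
  fin_cases i <;> fin_cases j <;> simp [hh, frobenius_def, hp]

/-- pure tensors in Q ⊗ Y^F -/
noncomputable def f2_t (Q Y : Ob k) : Q.V →ₗ[k] Y.V →ₗ[k] (tens Q (fr p Y)).V :=
  TensorProduct.mk k Q.V Y.V

omit [IsAlgClosed k] in
theorem f2_tx (Q Y : Ob k) (t : k) (a : Q.V) (b : Y.V) :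
    (tens Q (fr p Y)).ρ (xx t) (f2_t k p Q Y a b) =
      f2_t k p Q Y (Q.ρ (xx t) a) (Y.ρ (xx (t ^ p)) b) := by
  rw [← f2_frx k p]
  rfl

omit [IsAlgClosed k] in
theorem f2_ty (Q Y : Ob k) (t : k) (a : Q.V) (b : Y.V) :
    (tens Q (fr p Y)).ρ (yy t) (f2_t k p Q Y a b) =
      f2_t k p Q Y (Q.ρ (yy t) a) (Y.ρ (yy (t ^ p)) b) := by
  rw [← f2_fry k p]
  rfl

omit [IsAlgClosed k] in
theorem f2_th (Q Y : Ob k) (s : kˣ) (a : Q.V) (b : Y.V) :
    (tens Q (fr p Y)).ρ (hh s) (f2_t k p Q Y a b) =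
      f2_t k p Q Y (Q.ρ (hh s) a) (Y.ρ (hh (s ^ p)) b) := by
  rw [← f2_frh k p]
  rfl

theorem f2_F (hE3 : S_E3 k p) (Q Y : Ob k) (u : Q.V) (v : Y.V) :
    f2_t k p Q Y (ff Q 1 u) v ∈ NN (tens Q (fr p Y)) := by
  have h : ff (tens Q (fr p Y)) 1 (f2_t k p Q Y u v) = f2_t k p Q Y (ff Q 1 u) v :=
    (hE3 Q Y u v).2.1
  rw [← h]
  exact f2_ff_mem _ 1 le_rfl _

/-- q ⊗ NN(Y) in NN(Q ⊗ Y^F) -/
theorem f2_NN (hA1 : S_A1 k) (hA2 : S_A2 k) (hE3 : S_E3 k p) (Q Y : Ob k) (q : Q.V)
    (hq : ∀ i, 1 ≤ i → ff Q i q ∈ LinearMap.range (ff Q 1)) (y : Y.V) (hy : y ∈ NN Y) :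
    f2_t k p Q Y q y ∈ NN (tens Q (fr p Y)) := by
  have hF := f2_F k p hE3 Q Y
  have hsub : ∀ t : k, Q.ρ (yy t) q - q ∈ LinearMap.range (ff Q 1) := by
    intro t
    obtain ⟨N, hN⟩ := hA1 Q
    have h1 : Q.ρ (yy t) q = ∑ i ∈ Finset.range (N + 1), t ^ i • ff Q i q := by
      rw [Finset.sum_range_succ, ← (hN q).2.1 t, ((hN q).2.2 N le_rfl).2, smul_zero, add_zero]
    rw [h1, Finset.sum_range_succ', pow_zero, one_smul, (hA2.1 Q q).2, add_sub_cancel_right]
    exact Submodule.sum_mem _ fun i _ => Submodule.smul_mem _ _ (hq (i + 1) (by omega))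
  unfold NN at hy
  induction hy using Submodule.span_induction with
  | mem w hw =>
    obtain ⟨s, y', rfl⟩ := hw
    obtain ⟨t, rfl⟩ := IsAlgClosed.exists_pow_nat_eq s (Fact.out : p.Prime).pos
    obtain ⟨q'', hq''⟩ := hsub (-t)
    have h1 : Q.ρ (yy t) (Q.ρ (yy (-t)) q) = q := by
      rw [← Module.End.mul_apply, ← map_mul]
      have : yy t * yy (-t) = (1 : SL2 k) := by
        ext i j
        rw [Matrix.SpecialLinearGroup.coe_mul, Matrix.mul_apply, Fin.sum_univ_two]
        fin_cases i <;> fin_cases j <;> simp [yy]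
      rw [this, map_one]
      rfl
    have h2 : f2_t k p Q Y q (Y.ρ (yy (t ^ p)) y' - y') =
        ((tens Q (fr p Y)).ρ (yy t) (f2_t k p Q Y (Q.ρ (yy (-t)) q) y') -
          f2_t k p Q Y (Q.ρ (yy (-t)) q) y') + f2_t k p Q Y (ff Q 1 q'') y' := by
      rw [f2_ty, h1, hq'', map_sub, map_sub, LinearMap.sub_apply]
      abel
    rw [h2]
    exact add_mem (Submodule.subset_span ⟨t, _, rfl⟩) (hF q'' y')
  | zero =>
    rw [map_zero]
    exact zero_mem _
  | add u v _ _ hu hv =>
    rw [map_add]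
    exact add_mem hu hv
  | smul c u _ hu =>
    rw [map_smul]
    exact Submodule.smul_mem _ _ hu

/-- description of the highest weight vectors of Q ⊗ Y^F -/
theorem f2_invs (hA7 : S_A7 k) (hE3 : S_E3 k p) (Q Y : Ob k) (m l : ℤ) (q q' : Q.V) (m' : ℤ)
    (hq : q ∈ invs Q m) (hq' : q' ∈ invs Q m') (hq0 : q ≠ 0)
    (hind : q' = 0 ∨ LinearIndependent k ![q, q'])
    (hrange : q' ∈ LinearMap.range (ff Q 1))
    (hker : ∀ z, ee Q 1 z = 0 → ∃ a b : k, z = a • q + b • q')
    (z : (tens Q (fr p Y)).V) (hz : z ∈ invs (tens Q (fr p Y)) l) :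
    ∃ y1 : Y.V, z - f2_t k p Q Y q y1 ∈ NN (tens Q (fr p Y)) ∧
      (¬ (p : ℤ) ∣ l - m → y1 = 0) ∧ (∀ a, m + p * a = l → y1 ∈ invs Y a) := by
  have hinf : Infinite k := IsAlgClosed.instInfinite
  have hF := f2_F k p hE3 Q Y
  -- E z = 0
  have hEz : ee (tens Q (fr p Y)) 1 z = 0 := by
    rw [ee_eq (tens Q (fr p Y)) z (Finsupp.single 0 z) (fun t => by
      rw [pev_single, pow_zero, one_smul]
      exact hz.2 t) 1]
    exact Finsupp.single_eq_of_ne (by omega)
  have hEr : LinearMap.rTensor Y.V (ee Q 1) z = 0 := by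
    have h1 : LinearMap.rTensor Y.V (ee Q 1) = ee (tens Q (fr p Y)) 1 := by
      apply TensorProduct.ext'
      intro a b
      exact (hE3 Q Y a b).1.symm
    rw [h1]
    exact hEz
  have h12 : ∃ y1 y2 : Y.V, z = f2_t k p Q Y q y1 + f2_t k p Q Y q' y2 :=
    f2_ker (W := Y.V) (ee Q 1) q q' hker z hEr
  obtain ⟨y1, y2, hz12⟩ := h12
  obtain ⟨f, hf1, hf0⟩ := f2_dual q q' hq0 hind
  let Pr : (tens Q (fr p Y)).V →ₗ[k] Y.V :=
    (TensorProduct.lid k Y.V).toLinearMap ∘ₗ LinearMap.rTensor Y.V f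
  have hPr : ∀ (a : Q.V) (b : Y.V), Pr (f2_t k p Q Y a b) = f a • b := fun a b => rfl
  have hx : ∀ t : k, Y.ρ (xx t) y1 = y1 := by
    intro t
    obtain ⟨t, rfl⟩ := IsAlgClosed.exists_pow_nat_eq t (Fact.out : p.Prime).pos
    have h1 : (tens Q (fr p Y)).ρ (xx t) z = z := hz.2 t
    rw [hz12, map_add, f2_tx, f2_tx, hq.2 t, hq'.2 t] at h1
    have h4 := congrArg Pr h1
    rw [map_add, map_add, hPr, hPr, hPr, hPr, hf1, hf0, one_smul, one_smul, zero_smul, zero_smul,
      add_zero, add_zero] at h4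
    exact h4
  have hh' : ∀ s : kˣ, ((s ^ m : kˣ) : k) • Y.ρ (hh (s ^ p)) y1 = ((s ^ l : kˣ) : k) • y1 := by
    intro s
    have h1 : (tens Q (fr p Y)).ρ (hh s) z = ((s ^ l : kˣ) : k) • z := hz.1 s
    rw [hz12, map_add, f2_th, f2_th, hq.1 s, hq'.1 s] at h1
    have h4 := congrArg Pr h1
    rw [map_add, hPr, hPr, map_smul f, map_smul f, hf1, hf0, smul_zero, zero_smul, add_zero,
      smul_eq_mul, mul_one] at h4
    rw [h4, map_smul, map_add, hPr, hPr, hf1, hf0, one_smul, zero_smul, add_zero]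
  obtain ⟨c, hc, hcs⟩ := (hA7 Y).1 y1
  -- the weights of y1
  have hw : ∀ a, c a ≠ 0 → m + p * a = l := by
    intro a ha
    have h1 : ∀ s : kˣ, (((s ^ (m + p * a) : kˣ) : k) - ((s ^ l : kˣ) : k)) • c a = 0 := by
      intro s
      let d : ℤ →₀ Y.V := Finsupp.onFinset c.support
        (fun a => (((s ^ (m + p * a) : kˣ) : k) - ((s ^ l : kˣ) : k)) • c a) (by
          intro a ha
          rw [Finsupp.mem_support_iff]
          intro h
          apply ha
          rw [h, smul_zero])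
      have hd : d = 0 := by
        apply (hA7 Y).2.1 d
        · intro a
          exact Submodule.smul_mem _ _ (hc a)
        · rw [Finsupp.onFinset_sum _ (fun _ => rfl)]
          have h2 := hh' s
          rw [← hcs, Finsupp.sum, map_sum, Finset.smul_sum, Finset.smul_sum] at h2
          rw [← sub_eq_zero] at h2
          rw [← Finset.sum_sub_distrib] at h2
          rw [← h2]
          apply Finset.sum_congr rfl
          intro a _
          rw [hc a (s ^ p), smul_smul, sub_smul, ← Units.val_mul, ← zpow_natCast, ← _root_.zpow_mul,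
            ← _root_.zpow_add]
      exact DFunLike.congr_fun hd a
    have h2 : m + p * a - l = 0 := by
      apply f2_zpow (k := k)
      intro s
      rcases smul_eq_zero.mp (h1 s) with h3 | h3
      · rw [_root_.zpow_sub, mul_inv_eq_one]
        exact Units.ext (sub_eq_zero.mp h3)
      · exact absurd h3 ha
    omega
  refine ⟨y1, ?_, ?_, ?_⟩
  · obtain ⟨q'', hq''⟩ := hrange
    rw [hz12, ← hq'', add_sub_cancel_left]
    exact hF q'' y2
  · intro hnd
    have : c = 0 := by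
      ext a
      by_contra ha
      apply hnd
      exact ⟨a, by have := hw a ha; omega⟩
    rw [← hcs, this]
    simp
  · intro a ha
    refine ⟨?_, hx⟩
    rw [← hcs]
    refine Submodule.sum_mem _ fun b hb => ?_
    have h1 := hw b (Finsupp.mem_support_iff.mp hb)
    have h2 : b = a := by
      have hp : (p : ℤ) ≠ 0 := by
        exact_mod_cast (Fact.out : p.Prime).ne_zero
      apply mul_left_cancel₀ hp
      omega
    rw [← h2]
    exact hc b

theorem p_F2 (hA1 : S_A1 k) (hA2 : S_A2 k) (hA7 : S_A7 k) (hE3 : S_E3 k p) : S_F2 k p := by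
  intro Q m hQ Y l
  obtain ⟨q, q', m', hq, hq', hq0, hind, hrange, hker, hff⟩ := hQ
  have hmain := f2_invs k p hA7 hE3 Q Y m l q q' m' hq hq' hq0 hind hrange hker
  have hNN := f2_NN k p hA1 hA2 hE3 Q Y q hff
  split_ifs with hd
  · obtain ⟨a, ha⟩ := hd
    have hp : (p : ℤ) ≠ 0 := by
      exact_mod_cast (Fact.out : p.Prime).ne_zero
    have e : (l - m) / p = a := by
      rw [ha]
      exact Int.mul_ediv_cancel_left a hp
    rw [e]
    let L : (Y.V ⧸ NN Y) →ₗ[k] ((tens Q (fr p Y)).V ⧸ NN (tens Q (fr p Y))) :=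
      (NN Y).mapQ (NN (tens Q (fr p Y))) (f2_t k p Q Y q) (fun y hy => hNN y hy)
    have hle : FF (tens Q (fr p Y)) l ≤ (FF Y a).map L := by
      rintro _ ⟨z, hz, rfl⟩
      obtain ⟨y1, h1, _, h3⟩ := hmain z hz
      refine ⟨(NN Y).mkQ y1, ⟨y1, h3 a (by omega), rfl⟩, ?_⟩
      symm
      exact (Submodule.Quotient.eq _).mpr h1
    unfold fd
    exact (Submodule.finrank_mono hle).trans (Submodule.finrank_map_le _ _)
  · have hbot : FF (tens Q (fr p Y)) l = ⊥ := by
      rw [eq_bot_iff]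
      rintro _ ⟨z, hz, rfl⟩
      obtain ⟨y1, h1, h2, _⟩ := hmain z hz
      rw [h2 hd, map_zero, sub_zero] at h1
      rw [Submodule.mem_bot]
      exact (Submodule.Quotient.mk_eq_zero _).mpr h1
    unfold fd
    rw [hbot, finrank_bot]

end

end Pool.Agent.Sp49.Three
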