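import Mathlib
import Pool.Agent.Lib.MP_49c83e_al.Three.Stm

/-!
MP_49c83e_al, Theorem III, piece F3: the kernel of E on St ⊗ ∇(r).
-/

namespace Pool.Agent.Sp49.Three

open Matrix TensorProduct

section Bil

variable {k : Type} [Field k] {V W U : Type} [AddCommGroup V] [Module k V]
  [AddCommGroup W] [Module k W] [AddCommGroup U] [Module k U]

/-- coefficient of t in a product -/
private theorem f3_cof_bilin [Infinite k] (B : V →ₗ[k] W →ₗ[k] U) {φ : k → V} {ψ : k → W}
    (h1 : IsPoly φ) (h2 : IsPoly ψ) :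
    cof (fun t => B (φ t) (ψ t)) 1 = B (cof φ 1) (cof ψ 0) + B (cof φ 0) (cof ψ 1) := by
  obtain ⟨N, hN⟩ := exists_bound (cof φ)
  obtain ⟨M, hM⟩ := exists_bound (cof ψ)
  set e : ℕ →₀ U := ∑ i ∈ Finset.range (N + 2), ∑ j ∈ Finset.range (M + 2),
    Finsupp.single (i + j) (B (cof φ i) (cof ψ j)) with he
  have hpev : ∀ t : k, pev e t = ∑ i ∈ Finset.range (N + 2), ∑ j ∈ Finset.range (M + 2),
      t ^ (i + j) • B (cof φ i) (cof ψ j) := by
    intro t
    have hl : ∀ (s : Finset ℕ) (f : ℕ → ℕ →₀ U), pev (∑ i ∈ s, f i) t = ∑ i ∈ s, pev (f i) t := by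
      intro s f
      classical
      induction s using Finset.induction_on with
      | empty => simp [pev_zero]
      | insert a s ha ih => rw [Finset.sum_insert ha, Finset.sum_insert ha, pev_add, ih]
    rw [he, hl]
    refine Finset.sum_congr rfl fun i _ => ?_
    rw [hl]
    refine Finset.sum_congr rfl fun j _ => ?_
    rw [pev_single]
  have h3 : ∀ t, B (φ t) (ψ t) = pev e t := by
    intro t
    rw [hpev, cof_spec h1 t, cof_spec h2 t, pev_eq_sum (cof φ) (N + 2) (fun i hi => hN i (by omega)),
      pev_eq_sum (cof ψ) (M + 2) (fun i hi => hM i (by omega)), LinearMap.map_sum₂]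
    refine Finset.sum_congr rfl fun i _ => ?_
    rw [map_sum]
    refine Finset.sum_congr rfl fun j _ => ?_
    rw [map_smul, LinearMap.map_smul₂, smul_smul, pow_add]
    congr 1
    ring
  rw [cof_eq e h3, he, Finsupp.finsetSum_apply,
    Finset.sum_eq_add (0 : ℕ) (1 : ℕ) (by norm_num)]
  · rw [Finsupp.finsetSum_apply, Finsupp.finsetSum_apply, Finset.sum_eq_single (1 : ℕ),
      Finset.sum_eq_single (0 : ℕ)]
    · simp only [Nat.zero_add, Nat.add_zero, Finsupp.single_eq_same]
      rw [add_comm]
    · intro j _ hj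
      rw [Finsupp.single_apply, if_neg (by omega)]
    · intro h
      exact absurd (Finset.mem_range.2 (by omega)) h
    · intro j _ hj
      rw [Finsupp.single_apply, if_neg (by omega)]
    · intro h
      exact absurd (Finset.mem_range.2 (by omega)) h
  · intro c _ hc
    rw [Finsupp.finsetSum_apply]
    refine Finset.sum_eq_zero fun j _ => ?_
    rw [Finsupp.single_apply, if_neg (by omega)]
  · intro h
    exact absurd (Finset.mem_range.2 (by omega)) h
  · intro h
    exact absurd (Finset.mem_range.2 (by omega)) h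

end Bil

variable (k : Type) [Field k] [IsAlgClosed k]

private theorem f3_ee_tens (hA2 : S_A2 k) (X Y : Ob k) (a : X.V) (b : Y.V) :
    ee (tens X Y) 1 (a ⊗ₜ[k] b) = (ee X 1 a) ⊗ₜ[k] b + a ⊗ₜ[k] (ee Y 1 b) := by
  have h := f3_cof_bilin (TensorProduct.mk k X.V Y.V) (X.rat a).1 (Y.rat b).1
  have h0 : cof (fun t => X.ρ (xx t) a) 0 = a := (hA2.1 X a).1
  have h0' : cof (fun t => Y.ρ (xx t) b) 0 = b := (hA2.1 Y b).1
  rw [h0, h0'] at h
  exact h

omit [IsAlgClosed k] in
private theorem f3_wt_tens (X Y : Ob k) (a : X.V) (b : Y.V) (m n : ℤ) (ha : a ∈ wt X m)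
    (hb : b ∈ wt Y n) : (a ⊗ₜ[k] b : (tens X Y).V) ∈ wt (tens X Y) (m + n) := by
  intro s
  rw [tens_ρ, ha s, hb s, TensorProduct.smul_tmul_smul, _root_.zpow_add, Units.val_mul]
  rfl

variable (p : ℕ) [Fact p.Prime] [CharP k p]

theorem p_F3 (hA2 : S_A2 k) (hB1 : S_B1 k) (hB2 : S_B2 k) : S_F3 k p := by
  classical
  intro r hr
  have hp1 : 1 ≤ p := by omega
  set a := p - 1 with ha
  obtain ⟨⟨b, hb⟩, -, hwa, -⟩ := hB1 a
  obtain ⟨⟨b', hb'⟩, -, hwr, -⟩ := hB1 r
  -- notation for the elementary tensors
  set T : ℕ → ℕ → (MM k p r).V := fun m n => (mm k a m) ⊗ₜ[k] (mm k r n) with hT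
  have hET : ∀ m n, m ≤ a → n ≤ r → ee (MM k p r) 1 (T m n) = (m : k) • T (m - 1) n + (n : k) • T m (n - 1) := by
    intro m n hm hn
    have h := f3_ee_tens k hA2 (nab k a) (nab k r) (mm k a m) (mm k r n)
    rw [(hB2 a m 1 hm).1, (hB2 r n 1 hn).1, Nat.choose_one_right, Nat.choose_one_right,
      ← TensorProduct.smul_tmul', TensorProduct.tmul_smul] at h
    exact h
  -- coordinates
  set B : Module.Basis (Fin (a + 1) × Fin (r + 1)) k (MM k p r).V := Module.Basis.tensorProduct b b'
    with hB
  have hBT : ∀ (m n : ℕ) (hm : m < a + 1) (hn : n < r + 1), B (⟨m, hm⟩, ⟨n, hn⟩) = T m n := by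
    intro m n hm hn
    have h := Module.Basis.tensorProduct_apply b b' ⟨m, hm⟩ ⟨n, hn⟩
    rw [hb, hb'] at h
    exact h
  set cd : ℕ → ℕ → (MM k p r).V →ₗ[k] k := fun i j =>
    if h : i < a + 1 ∧ j < r + 1 then B.coord (⟨i, h.1⟩, ⟨j, h.2⟩) else 0 with hcd
  have hcdT : ∀ m n i j, m ≤ a → n ≤ r → cd i j (T m n) = if i = m ∧ j = n then 1 else 0 := by
    intro m n i j hm hn
    rw [← hBT m n (by omega) (by omega)]
    by_cases h : i < a + 1 ∧ j < r + 1
    · simp only [hcd, dif_pos h]
      rw [Module.Basis.coord_apply, Module.Basis.repr_self, Finsupp.single_apply]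
      by_cases h2 : i = m ∧ j = n
      · rw [if_pos h2, if_pos]
        obtain ⟨rfl, rfl⟩ := h2
        rfl
      · rw [if_neg h2, if_neg]
        intro h3
        apply h2
        have h4 := congrArg Prod.fst h3
        have h5 := congrArg Prod.snd h3
        exact ⟨(Fin.mk.inj h4).symm, (Fin.mk.inj h5).symm⟩
    · simp only [hcd, dif_neg h]
      rw [if_neg (by omega)]
      rfl
  have hout : ∀ z i j, ¬ (i < a + 1 ∧ j < r + 1) → cd i j z = 0 := by
    intro z i j h
    simp only [hcd, dif_neg h]
    rfl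
  have hext : ∀ z z' : (MM k p r).V, (∀ i j, i ≤ a → j ≤ r → cd i j z = cd i j z') → z = z' := by
    intro z z' h
    apply B.ext_elem
    rintro ⟨⟨i, hi⟩, ⟨j, hj⟩⟩
    have h1 := h i j (by omega) (by omega)
    simp only [hcd, dif_pos (And.intro hi hj)] at h1
    exact h1
  -- E in coordinates
  have hE : ∀ i j, i ≤ a → j ≤ r → ∀ z, cd i j (ee (MM k p r) 1 z) =
      ((i + 1 : ℕ) : k) * cd (i + 1) j z + ((j + 1 : ℕ) : k) * cd i (j + 1) z := by
    intro i j hi hj z
    have h : (cd i j) ∘ₗ (ee (MM k p r) 1) =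
        ((i + 1 : ℕ) : k) • cd (i + 1) j + ((j + 1 : ℕ) : k) • cd i (j + 1) := by
      apply B.ext
      rintro ⟨⟨m, hm⟩, ⟨n, hn⟩⟩
      rw [hBT, LinearMap.comp_apply, hET m n (by omega) (by omega), map_add, map_smul, map_smul,
        hcdT _ _ _ _ (by omega) (by omega), hcdT _ _ _ _ (by omega) (by omega),
        LinearMap.add_apply, LinearMap.smul_apply, LinearMap.smul_apply,
        hcdT _ _ _ _ (by omega) (by omega), hcdT _ _ _ _ (by omega) (by omega)]
      congr 1
      · by_cases h1 : i + 1 = m ∧ j = n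
        · rw [if_pos h1, if_pos (by omega), h1.1]
        · rw [if_neg h1]
          rcases Nat.eq_zero_or_pos m with h0 | h0
          · rw [h0]; simp
          · rw [if_neg (by omega), smul_zero, smul_zero]
      · by_cases h1 : i = m ∧ j + 1 = n
        · rw [if_pos h1, if_pos (by omega), h1.2]
        · rw [if_neg h1]
          rcases Nat.eq_zero_or_pos n with h0 | h0
          · rw [h0]; simp
          · rw [if_neg (by omega), smul_zero, smul_zero]
    have h2 := LinearMap.congr_fun h z
    exact h2
  -- the vectors κ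
  set κ : ℕ → (MM k p r).V := fun i => ∑ j ∈ Finset.range (r + 1),
    ((-1 : k) ^ j * (i.choose j : k)) • T (i - j) j with hκ
  have hcdκ : ∀ m i j, m ≤ r → cd i j (κ m) = if m = i + j then (-1 : k) ^ j * (m.choose j : k) else 0 := by
    intro m i j hm
    simp only [hκ, map_sum, map_smul]
    by_cases hj : j ≤ r
    · rw [Finset.sum_eq_single j]
      · rw [hcdT _ _ _ _ (by omega) hj]
        by_cases h1 : m = i + j
        · rw [if_pos h1, if_pos ⟨by omega, rfl⟩, smul_eq_mul, mul_one]
        · rw [if_neg h1]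
          by_cases h2 : j ≤ m
          · rw [if_neg (by omega), smul_zero]
          · rw [Nat.choose_eq_zero_of_lt (by omega)]
            simp
      · intro j' hj' hne
        have := Finset.mem_range.1 hj'
        rw [hcdT _ _ _ _ (by omega) (by omega), if_neg (by omega), smul_zero]
      · intro h
        exact absurd (Finset.mem_range.2 (by omega)) h
    · rw [if_neg (by omega)]
      refine Finset.sum_eq_zero fun j' hj' => ?_
      rw [hout _ _ _ (by omega), smul_zero]
  have hch : ∀ i j : ℕ, ((j + 1 : ℕ) : k) * ((i + j + 1).choose (j + 1) : k) =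
      ((i + 1 : ℕ) : k) * ((i + j + 1).choose j : k) := by
    intro i j
    have h := Nat.choose_succ_right_eq (i + j + 1) j
    have h2 : i + j + 1 - j = i + 1 := by omega
    rw [h2] at h
    rw [← Nat.cast_mul, ← Nat.cast_mul, mul_comm (j + 1), h, mul_comm]
  have hne : ∀ n : ℕ, 1 ≤ n → n < p → ((n : ℕ) : k) ≠ 0 := by
    intro n h1 h2 h3
    rw [CharP.cast_eq_zero_iff k p] at h3
    exact absurd (Nat.le_of_dvd (by omega) h3) (by omega)
  have hnch : ∀ m j : ℕ, m < p → j ≤ m → ((m.choose j : ℕ) : k) ≠ 0 := by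
    intro m j hm hj h3
    rw [CharP.cast_eq_zero_iff k p] at h3
    have h4 : p ∣ m.factorial := by
      rw [← Nat.choose_mul_factorial_mul_factorial hj, mul_assoc]
      exact Dvd.dvd.mul_right h3 _
    exact absurd ((Nat.Prime.dvd_factorial (Fact.out : p.Prime)).1 h4) (by omega)
  refine ⟨κ, ?_, ?_, ?_⟩
  · simp only [hκ]
    rw [Finset.sum_eq_single 0]
    · simp only [pow_zero, Nat.choose_self, Nat.cast_one, mul_one, one_smul, Nat.sub_self]
      rfl
    · intro j _ hj
      rw [Nat.choose_eq_zero_of_lt (by omega)]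
      simp
    · intro h
      exact absurd (Finset.mem_range.2 (by omega)) h
  · intro i hi
    refine ⟨?_, ?_⟩
    · simp only [hκ]
      refine Submodule.sum_mem _ fun j hj => ?_
      have hj' := Finset.mem_range.1 hj
      by_cases h : j ≤ i
      · refine Submodule.smul_mem _ _ ?_
        have h1 := f3_wt_tens k (nab k a) (nab k r) (mm k a (i - j)) (mm k r j) _ _
          (hwa (i - j) (by omega)).1 (hwr j (by omega)).1
        have h2 : (a : ℤ) - 2 * ((i - j : ℕ) : ℤ) + ((r : ℤ) - 2 * (j : ℤ)) =
            (p : ℤ) - 1 + r - 2 * i := by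
          push_cast [Nat.cast_sub h, ha, Nat.cast_sub hp1]
          ring
        rw [h2] at h1
        exact h1
      · rw [Nat.choose_eq_zero_of_lt (by omega)]
        simp
    · apply hext
      intro i' j' hi' hj'
      rw [hE i' j' hi' hj', hcdκ _ _ _ hi, hcdκ _ _ _ hi, map_zero]
      by_cases h : i = i' + j' + 1
      · rw [if_pos (by omega), if_pos (by omega), h]
        linear_combination (-(-1 : k) ^ j') * hch i' j'
      · rw [if_neg (by omega), if_neg (by omega)]
        ring
  · intro z hz
    have hrec : ∀ i j, i ≤ a → j ≤ r →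
        ((i + 1 : ℕ) : k) * cd (i + 1) j z + ((j + 1 : ℕ) : k) * cd i (j + 1) z = 0 := by
      intro i j hi hj
      rw [← hE i j hi hj z, hz, map_zero]
    have hz1 : ∀ j, j ≤ r → ∀ i, cd i j z = (-1 : k) ^ j * ((i + j).choose j : k) * cd (i + j) 0 z := by
      intro j
      induction j with
      | zero => intro _ i; simp
      | succ j ih =>
        intro hj i
        by_cases hi : i ≤ a
        · have h1 := hrec i j hi (by omega)
          rw [ih (by omega) (i + 1)] at h1
          have h2 := hch i j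
          have h3 : ((j + 1 : ℕ) : k) ≠ 0 := hne (j + 1) (by omega) (by omega)
          apply mul_left_cancel₀ h3
          have e1 : i + 1 + j = i + j + 1 := by omega
          have e2 : i + (j + 1) = i + j + 1 := by omega
          rw [e1] at h1
          rw [e2]
          linear_combination h1 + ((-1 : k) ^ j * cd (i + j + 1) 0 z) * h2
        · rw [hout z i (j + 1) (by omega), hout z (i + (j + 1)) 0 (by omega), mul_zero]
    have hz2 : ∀ m, r < m → cd m 0 z = 0 := by
      intro m hm
      by_cases hma : m ≤ a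
      · have h1 := hrec (m - r - 1) r (by omega) le_rfl
        rw [hout z (m - r - 1) (r + 1) (by omega), mul_zero, add_zero, hz1 r le_rfl] at h1
        have e1 : m - r - 1 + 1 + r = m := by omega
        rw [e1] at h1
        have h2 := hne (m - r - 1 + 1) (by omega) (by omega)
        have h3 := hnch m r (by omega) (by omega)
        rcases mul_eq_zero.1 h1 with h4 | h4
        · exact absurd h4 h2
        · rcases mul_eq_zero.1 h4 with h5 | h5
          · rcases mul_eq_zero.1 h5 with h6 | h6
            · exact absurd h6 (pow_ne_zero _ (neg_ne_zero.2 one_ne_zero))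
            · exact absurd h6 h3
          · exact h5
      · exact hout z m 0 (by omega)
    refine ⟨fun i => cd i 0 z, ?_⟩
    apply hext
    intro i j hi hj
    rw [hz1 j hj i]
    simp only [map_sum, map_smul]
    by_cases h : i + j ≤ r
    · rw [Finset.sum_eq_single (i + j)]
      · rw [hcdκ _ _ _ h, if_pos rfl, smul_eq_mul]
        ring
      · intro m hm hne'
        have := Finset.mem_range.1 hm
        rw [hcdκ _ _ _ (by omega), if_neg hne', smul_zero]
      · intro h'
        exact absurd (Finset.mem_range.2 (by omega)) h'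
    · rw [hz2 (i + j) (by omega), mul_zero]
      symm
      refine Finset.sum_eq_zero fun m hm => ?_
      have := Finset.mem_range.1 hm
      rw [hcdκ _ _ _ (by omega), if_neg (by omega), smul_zero]

end Pool.Agent.Sp49.Three
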