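import Mathlib
import Pool.Agent.Lib.MP_49c83e_al.Three.Stm

namespace Pool.Agent.Sp49.Three

open Matrix TensorProduct

variable (k : Type) [Field k] [IsAlgClosed k] (p : ℕ) [Fact p.Prime] [CharP k p]

/-- vectors of different weights with sum zero vanish -/
private theorem f4_uniq (hA7 : S_A7 k) (X : Ob k) (s : Finset ℕ) (w : ℕ → ℤ)
    (hw : Function.Injective w) (v : ℕ → X.V) (hv : ∀ i ∈ s, v i ∈ wt X (w i))
    (h : ∑ i ∈ s, v i = 0) : ∀ i ∈ s, v i = 0 := by
  obtain ⟨-, h2, -⟩ := hA7 X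
  set c : ℤ →₀ X.V := ∑ i ∈ s, Finsupp.single (w i) (v i) with hc
  have hc0 : c = 0 := by
    refine h2 c ?_ ?_
    · intro a
      rw [hc, Finsupp.finsetSum_apply]
      refine Submodule.sum_mem _ fun i hi => ?_
      rw [Finsupp.single_apply]
      split_ifs with h3
      · rw [← h3]
        exact hv i hi
      · exact zero_mem _
    · rw [hc, ← Finsupp.sum_finsetSum_index (fun _ => rfl) (fun _ _ _ => rfl)]
      rw [← h]
      refine Finset.sum_congr rfl fun i _ => ?_
      rw [Finsupp.sum_single_index rfl]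
  intro j hj
  have h4 : c (w j) = v j := by
    rw [hc, Finsupp.finsetSum_apply, Finset.sum_eq_single j]
    · rw [Finsupp.single_eq_same]
    · intro i _ hij
      rw [Finsupp.single_apply, if_neg]
      intro h5
      exact hij (hw h5)
    · intro h5
      exact absurd hj h5
  rw [← h4, hc0]
  rfl

/-- the Casimir operator on a weight vector killed by E -/
private theorem f4_cas (hA8 : S_A8 k) (X : Ob k) (a : ℤ) (v : X.V) (hv : v ∈ wt X a)
    (hE : ee X 1 v = 0) : Cas X v = (((a : k) + 1) ^ 2) • v := by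
  have h1 := (hA8 X).1 a v hv
  have h2 : (hop X + LinearMap.id : X.V →ₗ[k] X.V) v = ((a : k) + 1) • v := by
    rw [LinearMap.add_apply, h1, LinearMap.id_apply, add_smul, one_smul]
  unfold Cas
  rw [LinearMap.add_apply, LinearMap.smul_apply, LinearMap.comp_apply, hE, map_zero, smul_zero,
    zero_add, LinearMap.comp_apply, h2, map_smul, h2, smul_smul, sq]

private theorem f4_pow (X : Ob k) (c μ : k) (v : X.V) (h : Cas X v = μ • v) (n : ℕ) :
    ((Cas X - algebraMap k (Module.End k X.V) c) ^ n) v = ((μ - c) ^ n) • v := by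
  induction n with
  | zero => simp
  | succ n ih =>
    rw [pow_succ', Module.End.mul_apply, ih, map_smul, LinearMap.sub_apply, h,
      Module.algebraMap_end_apply, ← sub_smul, smul_smul, pow_succ]

theorem p_F4 (hA7 : S_A7 k) (hA8 : S_A8 k) (hE1 : S_E1 k) (hF3 : S_F3 k p) : S_F4 k p := by
  intro r hr1 hrp
  obtain ⟨κ, hκ0, hκ, hspan⟩ := hF3 r hrp
  refine ⟨κ r, ?_, ?_⟩
  · have h := (hκ r le_rfl).1
    have e : (p : ℤ) - 1 + r - 2 * r = (p : ℤ) - 1 - r := by ring
    rw [e] at h
    exact h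
  intro z hz hzb
  obtain ⟨c, hc⟩ := hspan z hz
  rw [(hE1 (MM k p r) ((r : k) ^ 2)).1 z, Module.End.mem_maxGenEigenspace] at hzb
  obtain ⟨n, hn⟩ := hzb
  have hpk : ((p : ℕ) : k) = 0 := CharP.cast_eq_zero k p
  have hcas : ∀ i, i ≤ r → Cas (MM k p r) (κ i) = (((r : k) - 2 * i) ^ 2) • κ i := by
    intro i hi
    rw [f4_cas k hA8 (MM k p r) _ (κ i) (hκ i hi).1 (hκ i hi).2]
    congr 2
    push_cast
    rw [hpk]
    ring
  have hn' : ((Cas (MM k p r) - algebraMap k (Module.End k (MM k p r).V) ((r : k) ^ 2)) ^ n) z = 0 := by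
    have : algebraMap k (Module.End k (MM k p r).V) ((r : k) ^ 2) =
        ((r : k) ^ 2) • (1 : Module.End k (MM k p r).V) := Algebra.algebraMap_eq_smul_one _
    rw [this]
    exact hn
  rw [hc, map_sum] at hn'
  have hn2 : ∑ i ∈ Finset.range (r + 1), (c i * ((((r : k) - 2 * i) ^ 2 - (r : k) ^ 2) ^ n)) • κ i = 0 := by
    rw [← hn']
    refine Finset.sum_congr rfl fun i hi => ?_
    have hi' : i ≤ r := Nat.lt_succ_iff.1 (Finset.mem_range.1 hi)
    rw [map_smul, f4_pow k (MM k p r) _ _ (κ i) (hcas i hi') n, smul_smul]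
  have huniq := f4_uniq k hA7 (MM k p r) (Finset.range (r + 1))
    (fun i => (p : ℤ) - 1 + r - 2 * i) (fun i j hij => by
      simp only at hij
      omega) (fun i => (c i * ((((r : k) - 2 * i) ^ 2 - (r : k) ^ 2) ^ n)) • κ i) (fun i hi =>
      Submodule.smul_mem _ _ (hκ i (Nat.lt_succ_iff.1 (Finset.mem_range.1 hi))).1) hn2
  have hzero : ∀ i ∈ Finset.range (r + 1), i ≠ 0 ∧ i ≠ r → c i • κ i = 0 := by
    intro i hi hi2
    have hir : i < r := by
      have := Finset.mem_range.1 hi
      omega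
    have h5 := huniq i hi
    rw [mul_comm, ← smul_smul] at h5
    have hne : (((r : k) - 2 * i) ^ 2 - (r : k) ^ 2) ≠ 0 := by
      have e : (((r : k) - 2 * i) ^ 2 - (r : k) ^ 2) = -(((4 * i * (r - i) : ℕ)) : k) := by
        push_cast [hir.le]
        ring
      rw [e, neg_ne_zero, Ne, CharP.cast_eq_zero_iff k p]
      intro hd
      have hp := Fact.out (p := p.Prime)
      rcases (Nat.Prime.dvd_mul hp).1 hd with h6 | h6
      · rcases (Nat.Prime.dvd_mul hp).1 h6 with h7 | h7
        · have h8 : p ∣ 2 := by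
            have : p ∣ 2 * 2 := h7
            rcases (Nat.Prime.dvd_mul hp).1 this with h | h <;> exact h
          have := Nat.le_of_dvd (by norm_num) h8
          omega
        · have := Nat.le_of_dvd (Nat.pos_of_ne_zero hi2.1) h7
          omega
      · have := Nat.le_of_dvd (by omega) h6
        omega
    rcases smul_eq_zero.1 h5 with h6 | h6
    · exact absurd h6 (pow_ne_zero n hne)
    · exact h6
  refine ⟨c 0, c r, ?_⟩
  rw [hc, Finset.sum_eq_add 0 r (by omega) hzero (fun h => absurd (Finset.mem_range.2 (by omega)) h)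
    (fun h => absurd (Finset.mem_range.2 (by omega)) h), hκ0]

end Pool.Agent.Sp49.Three
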