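import Mathlib
import Pool.Agent.Lib.MP_49c83e_al.Three.Stm

/-! MP_49c83e_al, piece F5 -/

namespace Pool.Agent.Sp49.Three

open Matrix TensorProduct

section
variable {k : Type} [Field k] [IsAlgClosed k]

omit [IsAlgClosed k] in
private theorem f5_pev_sum {V ι : Type} [AddCommGroup V] [Module k V] (s : Finset ι)
    (c : ι → ℕ →₀ V) (t : k) : pev (∑ i ∈ s, c i) t = ∑ i ∈ s, pev (c i) t := by
  classical
  induction s using Finset.induction_on with
  | empty => rw [Finset.sum_empty, Finset.sum_empty, pev_zero]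
  | insert a s ha ih => rw [Finset.sum_insert ha, Finset.sum_insert ha, pev_add, ih]

private theorem f5_bd (X : Ob k) (u : X.V) : ∃ N : ℕ, ∀ n, N ≤ n →
    ∀ t, X.ρ (yy t) u = ∑ i ∈ Finset.range n, t ^ i • ff X i u := by
  obtain ⟨N, hN⟩ := exists_bound (cof fun t => X.ρ (yy t) u)
  refine ⟨N, fun n hn t => ?_⟩
  rw [yy_pev X u t, pev_eq_sum _ n (fun i hi => hN i (hn.trans hi))]
  rfl

/-- pure tensors in the object X ⊗ Y -/
private noncomputable def f5t (X Y : Ob k) : X.V →ₗ[k] Y.V →ₗ[k] (tens X Y).V :=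
  TensorProduct.mk k X.V Y.V

omit [IsAlgClosed k] in
private theorem f5t_ρ (X Y : Ob k) (g : SL2 k) (u : X.V) (v : Y.V) :
    (tens X Y).ρ g (f5t X Y u v) = f5t X Y (X.ρ g u) (Y.ρ g v) := rfl

private theorem f5_tens (X Y : Ob k) (u : X.V) (v : Y.V) : ∃ N : ℕ, ∀ n, N ≤ n → ∀ i,
    ff (tens X Y) i (f5t X Y u v) = ∑ a ∈ Finset.range n, ∑ b ∈ Finset.range n,
      if a + b = i then f5t X Y (ff X a u) (ff Y b v) else 0 := by
  obtain ⟨N, hN⟩ := f5_bd X u
  obtain ⟨M, hM⟩ := f5_bd Y v
  refine ⟨max N M, fun n hn i => ?_⟩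
  have h1 := hN n ((le_max_left _ _).trans hn)
  have h2 := hM n ((le_max_right _ _).trans hn)
  have key := ff_eq (tens X Y) (f5t X Y u v)
    (∑ a ∈ Finset.range n, ∑ b ∈ Finset.range n,
      Finsupp.single (a + b) (f5t X Y (ff X a u) (ff Y b v))) (fun t => by
      rw [f5t_ρ, h1 t, h2 t, f5_pev_sum, LinearMap.map_sum₂]
      refine Finset.sum_congr rfl fun a _ => ?_
      rw [f5_pev_sum, map_sum]
      refine Finset.sum_congr rfl fun b _ => ?_
      rw [pev_single, LinearMap.map_smul₂, map_smul, smul_smul, pow_add]) i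
  rw [key, Finsupp.finsetSum_apply]
  refine Finset.sum_congr rfl fun a _ => ?_
  rw [Finsupp.finsetSum_apply]
  refine Finset.sum_congr rfl fun b _ => ?_
  by_cases h : a + b = i
  · rw [if_pos h, h, Finsupp.single_eq_same]
  · rw [if_neg h, Finsupp.single_eq_of_ne (Ne.symm h)]

private theorem f5_der (hA2 : S_A2 k) (X Y : Ob k) (u : X.V) (v : Y.V) :
    ff (tens X Y) 1 (f5t X Y u v) = f5t X Y (ff X 1 u) v + f5t X Y u (ff Y 1 v) := by
  obtain ⟨N, hN⟩ := f5_tens X Y u v
  rw [hN (N + 2) (by omega) 1, Finset.sum_range_succ', Finset.sum_range_succ']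
  have e0 : ∑ a ∈ Finset.range N, ∑ b ∈ Finset.range (N + 2),
      (if a + 1 + 1 + b = 1 then f5t X Y (ff X (a + 1 + 1) u) (ff Y b v) else 0) = 0 := by
    refine Finset.sum_eq_zero fun a _ => Finset.sum_eq_zero fun b _ => ?_
    rw [if_neg (by omega)]
  have e1 : ∑ b ∈ Finset.range (N + 2),
      (if 0 + 1 + b = 1 then f5t X Y (ff X (0 + 1) u) (ff Y b v) else 0) =
      f5t X Y (ff X 1 u) v := by
    rw [Finset.sum_eq_single 0]
    · rw [if_pos (by omega), (hA2.1 Y v).2]
    · intro b _ hb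
      rw [if_neg (by omega)]
    · intro h
      exact absurd (Finset.mem_range.2 (by omega)) h
  have e2 : ∑ b ∈ Finset.range (N + 2),
      (if 0 + b = 1 then f5t X Y (ff X 0 u) (ff Y b v) else 0) =
      f5t X Y u (ff Y 1 v) := by
    rw [Finset.sum_eq_single 1]
    · rw [if_pos (by omega), (hA2.1 X u).2]
    · intro b _ hb
      rw [if_neg (by omega)]
    · intro h
      exact absurd (Finset.mem_range.2 (by omega)) h
  rw [e0, e1, e2, zero_add]

private theorem f5_mm0 (a i : ℕ) (h : a < i) : mm k a i = 0 := by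
  unfold mm
  rw [dif_neg (by omega)]

end

section
variable (k : Type) [Field k] [IsAlgClosed k] (p : ℕ) [Fact p.Prime] [CharP k p]

omit [Fact p.Prime] in
private theorem f5_low (hA2 : S_A2 k) (hB2 : S_B2 k) (r : ℕ) (a : ℕ) :
    ∀ b, a ≤ p - 1 → r < a + b →
    f5t (nab k (p - 1)) (nab k r) (mm k (p - 1) a) (mm k r b) ∈
      LinearMap.range (ff (tens (nab k (p - 1)) (nab k r)) 1) := by
  induction a with
  | zero =>
    intro b _ hb
    rw [f5_mm0 r b (by omega), map_zero]
    exact zero_mem _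
  | succ a ih =>
    intro b ha hb
    by_cases hbr : b ≤ r
    · have h1 := f5_der hA2 (nab k (p - 1)) (nab k r) (mm k (p - 1) a) (mm k r b)
      rw [(hB2 (p - 1) a 1 (by omega)).2, (hB2 r b 1 hbr).2, Nat.choose_one_right,
        Nat.choose_one_right, LinearMap.map_smul₂, map_smul] at h1
      have hne : ((p - 1 - a : ℕ) : k) ≠ 0 := by
        intro h0
        rw [CharP.cast_eq_zero_iff k p] at h0
        exact absurd (Nat.le_of_dvd (by omega) h0) (by omega)
      have h2 := ih (b + 1) (by omega) (by omega)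
      have h4 : ((p - 1 - a : ℕ) : k) •
          f5t (nab k (p - 1)) (nab k r) (mm k (p - 1) (a + 1)) (mm k r b) ∈
          LinearMap.range (ff (tens (nab k (p - 1)) (nab k r)) 1) := by
        rw [eq_sub_of_add_eq h1.symm]
        exact sub_mem ⟨_, rfl⟩ (Submodule.smul_mem _ _ h2)
      exact (Submodule.smul_mem_iff _ hne).1 h4
    · rw [f5_mm0 r b (by omega), map_zero]
      exact zero_mem _

theorem p_F5 (hA2 : S_A2 k) (hA3 : S_A3 k) (_ : S_A4 k) (_ : S_A7 k) (_ : S_B1 k)
    (hB2 : S_B2 k) : S_F5 k p := by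
  intro r hr i hi
  by_cases hir : i < p
  · have h1 := (hA3 (MM k p r) i 0 (q0 k p r)).2.2.2
    have hf : ((i.factorial : ℕ) : k) ≠ 0 := by
      intro h0
      rw [CharP.cast_eq_zero_iff k p, (Fact.out : p.Prime).dvd_factorial] at h0
      omega
    have h2 : ((i.factorial : ℕ) : k) • ff (MM k p r) i (q0 k p r) ∈
        LinearMap.range (ff (MM k p r) 1) := by
      rw [← h1]
      obtain ⟨j, rfl⟩ : ∃ j, i = j + 1 := ⟨i - 1, by omega⟩
      rw [pow_succ', Module.End.mul_apply]
      exact ⟨_, rfl⟩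
    exact (Submodule.smul_mem_iff _ hf).1 h2
  · obtain ⟨N, hN⟩ := f5_tens (nab k (p - 1)) (nab k r) (mm k (p - 1) 0) (mm k r 0)
    show ff (tens (nab k (p - 1)) (nab k r)) i
      (f5t (nab k (p - 1)) (nab k r) (mm k (p - 1) 0) (mm k r 0)) ∈
      LinearMap.range (ff (tens (nab k (p - 1)) (nab k r)) 1)
    rw [hN N le_rfl i]
    refine Submodule.sum_mem _ fun a _ => Submodule.sum_mem _ fun b _ => ?_
    split_ifs with hab
    · rw [(hB2 (p - 1) 0 a (by omega)).2, (hB2 r 0 b (by omega)).2, zero_add, zero_add,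
        LinearMap.map_smul₂, map_smul]
      apply Submodule.smul_mem
      apply Submodule.smul_mem
      by_cases ha : a ≤ p - 1
      · exact f5_low k p hA2 hB2 r a b ha (by omega)
      · rw [f5_mm0 (p - 1) a (by omega), LinearMap.map_zero₂]
        exact zero_mem _
    · exact zero_mem _

end

end Pool.Agent.Sp49.Three
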