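import Mathlib
import Pool.Agent.Lib.MP_49c83e_al.Three.Stm

/-!
MP_49c83e_al, Theorem III, piece F6: the vector F^r q0.
-/

namespace Pool.Agent.Sp49.Three

open Matrix TensorProduct

section
variable {k : Type} [Field k] {V W U : Type} [AddCommGroup V] [Module k V]
  [AddCommGroup W] [Module k W] [AddCommGroup U] [Module k U]

theorem f6_pev_sum {ι : Type} (s : Finset ι) (c : ι → (ℕ →₀ V)) (t : k) :
    pev (∑ i ∈ s, c i) t = ∑ i ∈ s, pev (c i) t := by
  classical
  induction s using Finset.induction_on with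
  | empty => simp [pev_zero]
  | insert a s ha ih => rw [Finset.sum_insert ha, Finset.sum_insert ha, pev_add, ih]

/-- coefficients of a bilinear expression, degree one -/
theorem f6_cof_bilin [Infinite k] (B : V →ₗ[k] W →ₗ[k] U) {φ : k → V} {ψ : k → W}
    (h1 : IsPoly φ) (h2 : IsPoly ψ) :
    cof (fun t => B (φ t) (ψ t)) 1 = B (cof φ 1) (cof ψ 0) + B (cof φ 0) (cof ψ 1) := by
  obtain ⟨N, hN⟩ := exists_bound (cof φ)
  obtain ⟨M, hM⟩ := exists_bound (cof ψ)
  set K := max N M + 2 with hK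
  have e : ∀ t : k, B (φ t) (ψ t) = pev (∑ i ∈ Finset.range K, ∑ j ∈ Finset.range K,
      Finsupp.single (i + j) (B (cof φ i) (cof ψ j))) t := by
    intro t
    rw [f6_pev_sum, cof_spec h1 t, cof_spec h2 t, pev_eq_sum _ K (fun i hi => hN i (by omega)),
      pev_eq_sum _ K (fun i hi => hM i (by omega)), LinearMap.map_sum₂]
    apply Finset.sum_congr rfl
    intro i _
    rw [f6_pev_sum, map_sum]
    apply Finset.sum_congr rfl
    intro j _
    rw [pev_single, map_smul, LinearMap.map_smul₂, smul_smul, pow_add]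
    congr 1
    ring
  rw [cof_eq _ e, Finsupp.finsetSum_apply]
  have e2 : ∀ i ∈ Finset.range K, (∑ j ∈ Finset.range K,
      Finsupp.single (i + j) (B (cof φ i) (cof ψ j))) 1 =
      if i = 0 then B (cof φ 0) (cof ψ 1) else if i = 1 then B (cof φ 1) (cof ψ 0) else 0 := by
    intro i hi
    rw [Finsupp.finsetSum_apply]
    simp only [Finsupp.single_apply]
    split_ifs with hi0 hi1
    · subst hi0
      rw [Finset.sum_eq_single 1]
      · simp
      · intro j _ hj
        rw [if_neg (by omega)]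
      · intro h
        exact absurd (Finset.mem_range.mpr (by omega)) h
    · subst hi1
      rw [Finset.sum_eq_single 0]
      · simp
      · intro j _ hj
        rw [if_neg (by omega)]
      · intro h
        exact absurd (Finset.mem_range.mpr (by omega)) h
    · apply Finset.sum_eq_zero
      intro j _
      rw [if_neg (by omega)]
  rw [Finset.sum_congr rfl e2, Finset.sum_ite]
  rw [Finset.sum_const, Finset.sum_ite, Finset.sum_const, Finset.sum_const_zero, add_zero]
  have c1 : ((Finset.range K).filter (fun i => i = 0)).card = 1 := by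
    rw [Finset.card_eq_one]
    refine ⟨0, ?_⟩
    ext i
    simp only [Finset.mem_filter, Finset.mem_range, Finset.mem_singleton]
    omega
  have c2 : (((Finset.range K).filter (fun i => ¬ i = 0)).filter (fun i => i = 1)).card = 1 := by
    rw [Finset.card_eq_one]
    refine ⟨1, ?_⟩
    ext i
    simp only [Finset.mem_filter, Finset.mem_range, Finset.mem_singleton]
    omega
  rw [c1, c2, one_smul, one_smul, add_comm]

end

section
variable {k : Type} [Field k] [IsAlgClosed k]

/-- F is a derivation -/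
theorem f6_ff_tmul (hA2 : S_A2 k) (X Y : Ob k) (a : X.V) (b : Y.V) :
    ff (tens X Y) 1 (a ⊗ₜ[k] b) = (ff X 1 a) ⊗ₜ[k] b + a ⊗ₜ[k] (ff Y 1 b) := by
  have h := f6_cof_bilin (TensorProduct.mk k X.V Y.V) (X.rat a).2 (Y.rat b).2
  have h0 := (hA2.1 X a).2
  have h1 := (hA2.1 Y b).2
  change cof (fun t => X.ρ (yy t) a) 0 = a at h0
  change cof (fun t => Y.ρ (yy t) b) 0 = b at h1
  rw [h0, h1] at h
  exact h

theorem f6_ee_of_fixed (X : Ob k) (v : X.V) (h : ∀ t, X.ρ (xx t) v = v) (i : ℕ) (hi : 1 ≤ i) :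
    ee X i v = 0 := by
  rw [ee_eq X v (Finsupp.single 0 v) (fun t => by rw [pev_single, pow_zero, one_smul, h t]) i]
  rw [Finsupp.single_apply, if_neg (by omega)]

theorem f6_fixed_of_ee (hA2 : S_A2 k) (X : Ob k) (v : X.V) (h : ∀ i, 1 ≤ i → ee X i v = 0) (t : k) :
    X.ρ (xx t) v = v := by
  have h0 := (hA2.1 X v).1
  have hc : (cof fun t => X.ρ (xx t) v) = Finsupp.single 0 v := by
    ext i
    rcases Nat.eq_zero_or_pos i with rfl | hi
    · rw [Finsupp.single_apply, if_pos rfl]
      exact h0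
    · rw [Finsupp.single_apply, if_neg (by omega)]
      exact h i hi
  rw [xx_pev, hc, pev_single, pow_zero, one_smul]

theorem f6_exists_unit (n : ℤ) (hn : n ≠ 0) : ∃ s : kˣ, s ^ n ≠ 1 := by
  have : Infinite k := IsAlgClosed.instInfinite
  obtain ⟨m, hm, hm'⟩ : ∃ m : ℕ, 0 < m ∧ ∀ s : kˣ, s ^ n = 1 → s ^ m = 1 := by
    refine ⟨n.natAbs, by omega, fun s hs => ?_⟩
    rcases Int.natAbs_eq n with h | h
    · rw [← zpow_natCast, ← h, hs]
    · rw [← zpow_natCast, show (n.natAbs : ℤ) = -n by omega, _root_.zpow_neg, hs, inv_one]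
  by_contra hcon
  push Not at hcon
  have hinf : Set.Infinite {t : k | t ≠ 0} := (Set.finite_singleton (0 : k)).infinite_compl
  have h0 : (Polynomial.X ^ m - 1 : Polynomial k) = 0 := by
    apply Polynomial.eq_zero_of_infinite_isRoot
    refine hinf.mono ?_
    intro t ht
    have := hm' (Units.mk0 t ht) (hcon _)
    have h2 := congrArg (fun u : kˣ => (u : k)) this
    simp only [Units.val_pow_eq_pow_val, Units.val_mk0, Units.val_one] at h2
    simp [Polynomial.IsRoot, h2]
  have := congrArg (fun P => Polynomial.coeff P m) h0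
  simp only [Polynomial.coeff_sub, Polynomial.coeff_X_pow, Polynomial.coeff_one,
    Polynomial.coeff_zero] at this
  simp [hm.ne'] at this

/-- vectors of weight larger than all weights of a basis -/
theorem f6_wt_zero (X : Ob k) {ι : Type} [Fintype ι] (b : Module.Basis ι k X.V) (w : ι → ℤ)
    (hb : ∀ i, b i ∈ wt X (w i)) (a : ℤ) (ha : ∀ i, w i ≠ a) (z : X.V) (hz : z ∈ wt X a) :
    z = 0 := by
  apply b.repr.injective
  rw [map_zero]
  ext i
  obtain ⟨s, hs⟩ := f6_exists_unit (k := k) (w i - a) (sub_ne_zero.mpr (ha i))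
  have h1 := hz s
  have h2 : X.ρ (hh s) z = ∑ j, (b.repr z j * ((s ^ (w j) : kˣ) : k)) • b j := by
    conv_lhs => rw [← b.sum_repr z]
    rw [map_sum]
    apply Finset.sum_congr rfl
    intro j _
    rw [map_smul, hb j s, smul_smul]
  rw [h2] at h1
  have h3 := congrArg (fun v => b.repr v i) h1
  simp only [map_smul, Finsupp.smul_apply, smul_eq_mul] at h3
  rw [b.repr_sum_self] at h3
  have h4 : ((s ^ (w i) : kˣ) : k) - ((s ^ a : kˣ) : k) ≠ 0 := by
    intro h
    apply hs
    have h5 : s ^ (w i) = s ^ a := Units.ext (sub_eq_zero.mp h)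
    rw [_root_.zpow_sub, h5, mul_inv_cancel]
  have h5 : b.repr z i * (((s ^ (w i) : kˣ) : k) - ((s ^ a : kˣ) : k)) = 0 := by
    rw [mul_sub, h3]
    ring
  simpa using (mul_eq_zero.mp h5).resolve_right h4

omit [IsAlgClosed k] in
theorem f6_wt_tmul (X Y : Ob k) (a b : ℤ) (u : X.V) (v : Y.V) (hu : u ∈ wt X a) (hv : v ∈ wt Y b) :
    (u ⊗ₜ[k] v : (tens X Y).V) ∈ wt (tens X Y) (a + b) := by
  intro s
  rw [tens_ρ, hu s, hv s, TensorProduct.smul_tmul_smul, _root_.zpow_add, Units.val_mul]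
  rfl

end

section
variable (k : Type) [Field k] [IsAlgClosed k] (p : ℕ) [Fact p.Prime] [CharP k p]

theorem f6_xx_mm (a : ℕ) (t : k) : (nab k a).ρ (xx t) (mm k a 0) = mm k a 0 := by
  apply Subtype.ext
  funext σ τ
  rw [nab_ρ]
  simp [mm, mon, xx]

omit [Fact p.Prime] [CharP k p] in
theorem f6_q0_invs (hB1 : S_B1 k) (hp : 1 ≤ p) (r : ℕ) :
    q0 k p r ∈ invs (MM k p r) ((p : ℤ) - 1 + r) := by
  constructor
  · have h1 := ((hB1 (p - 1)).2.2.1 0 (by omega)).1
    have h2 := ((hB1 r).2.2.1 0 (by omega)).1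
    have h := f6_wt_tmul _ _ _ _ _ _ h1 h2
    have e : ((p - 1 : ℕ) : ℤ) - 2 * (0 : ℕ) + ((r : ℤ) - 2 * (0 : ℕ)) = (p : ℤ) - 1 + r := by
      push_cast [Nat.cast_sub hp]
      ring
    rw [e] at h
    exact h
  · intro t
    show (tens (nab k (p - 1)) (nab k r)).ρ (xx t) (_ ⊗ₜ[k] _) = _
    rw [tens_ρ, f6_xx_mm, f6_xx_mm]
    rfl

theorem p_F6 (hA2 : S_A2 k) (hA3 : S_A3 k) (hA4 : S_A4 k) (hA8 : S_A8 k) (_hA9 : S_A9 k)
    (hB1 : S_B1 k) (hB2 : S_B2 k) : S_F6 k p := by
  intro r hr
  have hp1 : 1 ≤ p := (Fact.out : p.Prime).one_lt.le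
  have hq := f6_q0_invs k p hB1 hp1 r
  obtain ⟨b1, hb1⟩ := (hB1 (p - 1)).1
  obtain ⟨b2, hb2⟩ := (hB1 r).1
  have hfac : ∀ i, i < p → (i.factorial : k) ≠ 0 := by
    intro i hi h
    rw [CharP.cast_eq_zero_iff k p] at h
    exact absurd ((Nat.Prime.dvd_factorial Fact.out).mp h) (by omega)
  -- q0 is not zero
  have hq0 : q0 k p r ≠ 0 := by
    have e : q0 k p r = (b1.tensorProduct b2) (0, 0) := by
      rw [Module.Basis.tensorProduct_apply, hb1, hb2]
      rfl
    rw [e]
    exact (b1.tensorProduct b2).ne_zero _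
  -- the projection
  let L : (MM k p r).V →ₗ[k] (nab k r).V :=
    (TensorProduct.lid k (nab k r).V).toLinearMap ∘ₗ
      (TensorProduct.map (b1.coord 0) (LinearMap.id : (nab k r).V →ₗ[k] (nab k r).V))
  have hLt : ∀ (u : (nab k (p - 1)).V) (v : (nab k r).V),
      L (u ⊗ₜ[k] v) = b1.coord 0 u • v := fun u v => rfl
  have hcF : ∀ u : (nab k (p - 1)).V, b1.coord 0 (ff (nab k (p - 1)) 1 u) = 0 := by
    intro u
    have : (b1.coord 0) ∘ₗ (ff (nab k (p - 1)) 1) = 0 := by
      apply b1.ext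
      intro j
      rw [LinearMap.comp_apply, hb1, (hB2 (p - 1) j 1 (by omega)).2, map_smul, LinearMap.zero_apply]
      by_cases hj : (j : ℕ) + 1 < p
      · have : mm k (p - 1) ((j : ℕ) + 1) = b1 ⟨(j : ℕ) + 1, by omega⟩ := by rw [hb1]
        rw [this, Module.Basis.coord_apply, Module.Basis.repr_self, Finsupp.single_apply, if_neg,
          smul_zero]
        intro h
        have := congrArg Fin.val h
        simp at this
      · have hz : mm k (p - 1) ((j : ℕ) + 1) = 0 := by
          unfold mm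
          rw [dif_neg (by omega)]
        rw [hz, map_zero, smul_zero]
    exact LinearMap.congr_fun this u
  have hLF : ∀ z, L (ff (MM k p r) 1 z) = ff (nab k r) 1 (L z) := by
    intro z
    have : L ∘ₗ (ff (MM k p r) 1) = (ff (nab k r) 1) ∘ₗ L := by
      apply TensorProduct.ext'
      intro u v
      change L (ff (MM k p r) 1 (u ⊗ₜ[k] v)) = ff (nab k r) 1 (L (u ⊗ₜ[k] v))
      rw [hLt, map_smul]
      have h1 : L (ff (MM k p r) 1 (u ⊗ₜ[k] v)) = L ((ff (nab k (p - 1)) 1 u) ⊗ₜ[k] v) +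
          L (u ⊗ₜ[k] (ff (nab k r) 1 v)) :=
        (congrArg L (f6_ff_tmul hA2 (nab k (p - 1)) (nab k r) u v)).trans (map_add L _ _)
      rw [h1, hLt, hLt, hcF, zero_smul, zero_add]
    exact LinearMap.congr_fun this z
  have hLFn : ∀ n, L (((ff (MM k p r) 1) ^ n : Module.End k (MM k p r).V) (q0 k p r)) =
      ((ff (nab k r) 1) ^ n : Module.End k (nab k r).V) (L (q0 k p r)) := by
    intro n
    induction n with
    | zero => rfl
    | succ n ih =>
      rw [pow_succ', pow_succ', Module.End.mul_apply, Module.End.mul_apply, hLF, ih]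
  have hLq : L (q0 k p r) = mm k r 0 := by
    show L (_ ⊗ₜ[k] _) = _
    rw [hLt]
    have : mm k (p - 1) 0 = b1 0 := by rw [hb1]; rfl
    rw [this, Module.Basis.coord_apply, Module.Basis.repr_self, Finsupp.single_apply, if_pos rfl,
      one_smul]
  have hFr : ((ff (MM k p r) 1) ^ r : Module.End k (MM k p r).V) (q0 k p r) ≠ 0 := by
    intro h
    have h1 := hLFn r
    rw [h, map_zero, hLq, (hA3 _ r 0 _).2.2.2, (hB2 r 0 r (by omega)).2] at h1
    have h2 := ((hB1 r).2.2.1 (0 + r) (by omega)).2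
    rw [show r - 0 = r by omega, Nat.choose_self, Nat.cast_one, one_smul] at h1
    exact (smul_ne_zero (hfac r hr) h2) h1.symm
  -- weights
  have hwt : ∀ n : ℕ, ((ff (MM k p r) 1) ^ n : Module.End k (MM k p r).V) (q0 k p r) ∈
      wt (MM k p r) ((p : ℤ) - 1 + r - 2 * n) := by
    intro n
    induction n with
    | zero => simpa using hq.1
    | succ n ih =>
      have := (hA4 _ _ 1 _ ih).2
      rw [pow_succ', Module.End.mul_apply]
      have e : (p : ℤ) - 1 + r - 2 * n - 2 * (1 : ℕ) = (p : ℤ) - 1 + r - 2 * (n + 1 : ℕ) := by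
        push_cast
        ring
      rw [e] at this
      exact this
  have hE : ∀ n : ℕ, ee (MM k p r) 1
      (((ff (MM k p r) 1) ^ (n + 1) : Module.End k (MM k p r).V) (q0 k p r)) =
      (((n : k) + 1) * ((p : k) - 1 + r - n)) •
        ((ff (MM k p r) 1) ^ n : Module.End k (MM k p r).V) (q0 k p r) := by
    intro n
    have hcom : ∀ v, ee (MM k p r) 1 (ff (MM k p r) 1 v) =
        hop (MM k p r) v + ff (MM k p r) 1 (ee (MM k p r) 1 v) := by
      intro v
      unfold hop
      rw [LinearMap.sub_apply, LinearMap.comp_apply, LinearMap.comp_apply, sub_add_cancel]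
    induction n with
    | zero =>
      rw [zero_add, pow_one, hcom, (hA8 _).1 _ _ hq.1, f6_ee_of_fixed _ _ hq.2 1 le_rfl, map_zero,
        add_zero, pow_zero, Module.End.one_apply]
      congr 1
      push_cast
      ring
    | succ n ih =>
      rw [pow_succ' _ (n + 1), Module.End.mul_apply, hcom, ih, (hA8 _).1 _ _ (hwt (n + 1)),
        map_smul, ← Module.End.mul_apply, ← pow_succ', ← add_smul]
      congr 1
      push_cast
      ring
  have hE0 : ee (MM k p r) 1 (((ff (MM k p r) 1) ^ r : Module.End k (MM k p r).V) (q0 k p r)) = 0 := by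
    rcases Nat.eq_zero_or_pos r with h0 | h0
    · subst h0
      rw [pow_zero, Module.End.one_apply]
      exact f6_ee_of_fixed _ _ hq.2 1 le_rfl
    · obtain ⟨n, rfl⟩ : ∃ n, r = n + 1 := ⟨r - 1, by omega⟩
      rw [hE n]
      have : ((p : k) - 1 + ((n + 1 : ℕ) : k) - n) = 0 := by
        rw [CharP.cast_eq_zero k p]
        push_cast
        ring
      rw [this, mul_zero, zero_smul]
  refine ⟨hq, hq0, hFr, ?_, ?_⟩
  · have := hwt r
    rwa [show (p : ℤ) - 1 + r - 2 * r = (p : ℤ) - 1 - r by ring] at this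
  · intro t
    apply f6_fixed_of_ee hA2
    intro i hi
    by_cases hip : i < p
    · have h1 := (hA3 (MM k p r) i 0
        (((ff (MM k p r) 1) ^ r : Module.End k (MM k p r).V) (q0 k p r))).2.2.1
      have h2 : ((ee (MM k p r) 1) ^ i : Module.End k (MM k p r).V)
          (((ff (MM k p r) 1) ^ r : Module.End k (MM k p r).V) (q0 k p r)) = 0 := by
        obtain ⟨j, rfl⟩ : ∃ j, i = j + 1 := ⟨i - 1, by omega⟩
        rw [pow_succ, Module.End.mul_apply, hE0, map_zero]
      rw [h2] at h1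
      exact (smul_eq_zero.mp h1.symm).resolve_left (hfac i hip)
    · have h1 := (hA4 _ _ i _ (hwt r)).1
      refine f6_wt_zero (MM k p r) (b1.tensorProduct b2)
        (fun ij => (((p - 1 : ℕ) : ℤ) - 2 * ((ij.1 : ℕ) : ℤ)) + ((r : ℤ) - 2 * ((ij.2 : ℕ) : ℤ)))
        ?_ _ ?_ _ h1
      · rintro ⟨i, j⟩
        have h := f6_wt_tmul _ _ _ _ _ _ ((hB1 (p - 1)).2.2.1 i (by omega)).1
          ((hB1 r).2.2.1 j (by omega)).1
        have e : (b1.tensorProduct b2) (i, j) = mm k (p - 1) i ⊗ₜ[k] mm k r j := by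
          rw [Module.Basis.tensorProduct_apply, hb1, hb2]
        rw [← e] at h
        exact h
      · rintro ⟨i', j'⟩
        simp only
        push_cast [Nat.cast_sub hp1]
        omega

end

end Pool.Agent.Sp49.Three
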