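import Mathlib
import Pool.Agent.Lib.MP_49c83e_al.Three.Stm
import Pool.Agent.Lib.MP_49c83e_al.Three.P.F6

/-!
MP_49c83e_al, Theorem III, piece F7: QData for Q_r and for St.
-/

namespace Pool.Agent.Sp49.Three

open Matrix TensorProduct

section
variable {k : Type} [Field k] [IsAlgClosed k]

/-- different weights -/
theorem f7_wt_disj (X : Ob k) (a b : ℤ) (hab : a ≠ b) (v : X.V) (ha : v ∈ wt X a)
    (hb : v ∈ wt X b) : v = 0 := by
  obtain ⟨s, hs⟩ := f6_exists_unit (k := k) (a - b) (sub_ne_zero.mpr hab)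
  have h1 : ((s ^ a : kˣ) : k) • v = ((s ^ b : kˣ) : k) • v := by rw [← ha s, ← hb s]
  rw [← sub_eq_zero, ← sub_smul] at h1
  refine (smul_eq_zero.mp h1).resolve_left fun h => hs ?_
  have h5 : s ^ a = s ^ b := Units.ext (sub_eq_zero.mp h)
  rw [_root_.zpow_sub, h5, mul_inv_cancel]

/-- the inclusion of a block -/
noncomputable def f7_incl (M : Ob k) (c : k) : (blk M c).V →ₗ[k] M.V := (blkS M c).subtype

theorem f7_incl_hom (M : Ob k) (c : k) : IsHom (blk M c) M (f7_incl M c) := fun _ _ => rfl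

theorem f7_incl_inj (M : Ob k) (c : k) : Function.Injective (f7_incl M c) :=
  Subtype.val_injective

theorem f7_wt (M : Ob k) (c : k) (a : ℤ) (x : (blk M c).V) (h : f7_incl M c x ∈ wt M a) :
    x ∈ wt (blk M c) a := by
  intro s
  apply f7_incl_inj
  rw [f7_incl_hom, h s, map_smul]

theorem f7_invs (M : Ob k) (c : k) (a : ℤ) (x : (blk M c).V) (h : f7_incl M c x ∈ invs M a) :
    x ∈ invs (blk M c) a := by
  refine ⟨f7_wt M c a x h.1, fun t => ?_⟩
  apply f7_incl_inj
  rw [f7_incl_hom, h.2 t]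

theorem f7_pow (hA2 : S_A2 k) (M : Ob k) (c : k) (x : (blk M c).V) (n : ℕ) :
    f7_incl M c (((ff (blk M c) 1) ^ n : Module.End k (blk M c).V) x) =
      ((ff M 1) ^ n : Module.End k M.V) (f7_incl M c x) := by
  induction n with
  | zero => rfl
  | succ n ih =>
    rw [pow_succ', pow_succ', Module.End.mul_apply, Module.End.mul_apply, ← ih]
    exact ((hA2.2 _ _ _ (f7_incl_hom M c)).1 1 _).2

/-- the case of a block of M with a generating highest weight vector -/
theorem f7_main (hA2 : S_A2 k) (hA8 : S_A8 k) (hE1 : S_E1 k) (M : Ob k) (r : ℕ) (hr : 1 ≤ r)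
    (μ : ℤ) (hμ : (μ : k) + 1 = r) (v0 : M.V) (hv0 : v0 ∈ invs M μ) (hne : v0 ≠ 0)
    (hFne : ((ff M 1) ^ r : Module.End k M.V) v0 ≠ 0)
    (hFinv : ((ff M 1) ^ r : Module.End k M.V) v0 ∈ invs M (μ - 2 * r))
    (κ' : M.V) (hκ : κ' ∈ wt M (μ - 2 * r))
    (hker : ∀ z, ee M 1 z = 0 → z ∈ blkS M ((r : k) ^ 2) → ∃ a b : k, z = a • v0 + b • κ')
    (hF : ∀ i, 1 ≤ i → ff M i v0 ∈ LinearMap.range (ff M 1)) :
    QData (blk M ((r : k) ^ 2)) μ := by
  set c : k := (r : k) ^ 2 with hc
  have hCas : Cas M v0 = c • v0 := by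
    unfold Cas
    have h1 : ee M 1 v0 = 0 := f6_ee_of_fixed M v0 hv0.2 1 le_rfl
    have h2 : hop M v0 = (μ : k) • v0 := (hA8 M).1 μ v0 hv0.1
    rw [LinearMap.add_apply, LinearMap.smul_apply, LinearMap.comp_apply, h1, map_zero, smul_zero,
      zero_add, LinearMap.comp_apply]
    have h3 : (hop M + LinearMap.id : M.V →ₗ[k] M.V) v0 = (r : k) • v0 := by
      rw [LinearMap.add_apply, h2, LinearMap.id_apply, ← hμ, add_smul, one_smul]
    rw [h3, map_smul, h3, smul_smul, hc, sq]
  have hb : v0 ∈ blkS M c := by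
    rw [(hE1 M c).1, Module.End.mem_maxGenEigenspace]
    refine ⟨1, ?_⟩
    rw [pow_one, LinearMap.sub_apply, hCas]
    simp
  let q : (blk M c).V := ⟨v0, hb⟩
  have hq : f7_incl M c q = v0 := rfl
  have hq' := f7_pow hA2 M c q r
  rw [hq] at hq'
  have hcomE : ∀ i (z : (blk M c).V), f7_incl M c (ee (blk M c) i z) = ee M i (f7_incl M c z) :=
    fun i z => ((hA2.2 _ _ _ (f7_incl_hom M c)).1 i z).1
  refine ⟨q, ((ff (blk M c) 1) ^ r : Module.End k (blk M c).V) q, μ - 2 * r, ?_, ?_, ?_, ?_, ?_,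
    ?_, ?_⟩
  · exact f7_invs M c μ q hv0
  · refine f7_invs M c _ _ ?_
    rw [hq']
    exact hFinv
  · intro h
    apply hne
    rw [← hq, h, map_zero]
  · right
    rw [LinearIndependent.pair_iff]
    intro s t hst
    have h1 := congrArg (f7_incl M c) hst
    rw [map_add, map_smul, map_smul, hq', hq, map_zero] at h1
    have h2 : s • v0 = 0 := by
      apply f7_wt_disj M μ (μ - 2 * r) (by omega) _ (Submodule.smul_mem _ _ hv0.1)
      rw [eq_neg_of_add_eq_zero_left h1]
      exact Submodule.neg_mem _ (Submodule.smul_mem _ _ hFinv.1)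
    refine ⟨(smul_eq_zero.mp h2).resolve_right hne, ?_⟩
    rw [h2, zero_add] at h1
    exact (smul_eq_zero.mp h1).resolve_right hFne
  · obtain ⟨n, rfl⟩ : ∃ n, r = n + 1 := ⟨r - 1, by omega⟩
    refine ⟨((ff (blk M c) 1) ^ n : Module.End k (blk M c).V) q, ?_⟩
    rw [pow_succ', Module.End.mul_apply]
  · intro z hz
    have h1 : ee M 1 (f7_incl M c z) = 0 := by rw [← hcomE, hz, map_zero]
    obtain ⟨a, b, hab⟩ := hker _ h1 z.2
    have h2 : ((ff M 1) ^ r : Module.End k M.V) v0 ∈ blkS M c := by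
      rw [← hq']
      exact Subtype.property _
    obtain ⟨a0, b0, hab0⟩ := hker _ (f6_ee_of_fixed M _ hFinv.2 1 le_rfl) h2
    have h3 : a0 • v0 = 0 := by
      apply f7_wt_disj M μ (μ - 2 * r) (by omega) _ (Submodule.smul_mem _ _ hv0.1)
      rw [eq_sub_of_add_eq hab0.symm]
      exact Submodule.sub_mem _ hFinv.1 (Submodule.smul_mem _ _ hκ)
    rw [h3, zero_add] at hab0
    have hb0 : b0 ≠ 0 := by
      rintro rfl
      rw [zero_smul] at hab0
      exact hFne hab0
    refine ⟨a, b * b0⁻¹, ?_⟩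
    apply f7_incl_inj
    rw [map_add, map_smul, map_smul, hq', hq, hab0, smul_smul, mul_assoc, inv_mul_cancel₀ hb0,
      mul_one]
    exact hab
  · intro i hi
    obtain ⟨u, hu⟩ := hF i hi
    obtain ⟨π, hπ, hπ'⟩ := (hE1 M c).2.1
    refine ⟨π u, ?_⟩
    have h1 := ((hA2.2 _ _ _ hπ).1 1 u).2
    have h2 := ((hA2.2 _ _ _ hπ).1 i v0).2
    have h3 : π v0 = q := hπ' ⟨v0, hb⟩
    rw [← h1, hu, h2, h3]

end

section
variable (k : Type) [Field k] [IsAlgClosed k] (p : ℕ) [Fact p.Prime] [CharP k p]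

theorem p_F7 (hA2 : S_A2 k) (_hA7 : S_A7 k) (hA8 : S_A8 k) (hB1 : S_B1 k) (hB2 : S_B2 k)
    (hE1 : S_E1 k) (_hE2 : S_E2 k) (hF4 : S_F4 k p) (hF5 : S_F5 k p) (hF6 : S_F6 k p) :
    S_F7 k p := by
  have hp1 : 1 ≤ p := (Fact.out : p.Prime).one_lt.le
  have hcast : ∀ i : ℕ, 1 ≤ i → i < p → (i : k) ≠ 0 := by
    intro i h1 hi h
    rw [CharP.cast_eq_zero_iff k p] at h
    exact absurd (Nat.le_of_dvd (by omega) h) (by omega)
  constructor
  · intro r hr1 hr
    obtain ⟨g1, g2, g3, g4⟩ := hF6 r hr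
    obtain ⟨κ', hκ, hker⟩ := hF4 r hr1 hr
    have e : (p : ℤ) - 1 - r = (p : ℤ) - 1 + r - 2 * r := by ring
    rw [e] at g4 hκ
    exact f7_main hA2 hA8 hE1 (MM k p r) r hr1 ((p : ℤ) - 1 + r)
      (by push_cast; rw [CharP.cast_eq_zero k p]; ring) (q0 k p r) g1 g2 g3 g4 κ' hκ hker
      (hF5 r hr)
  · obtain ⟨b, hb⟩ := (hB1 (p - 1)).1
    have hcm : ((p - 1 : ℕ) : ℤ) = (p : ℤ) - 1 := by omega
    have hw := (hB1 (p - 1)).2.2.1 0 (by omega)
    refine ⟨mm k (p - 1) 0, 0, 0, ⟨?_, fun t => f6_xx_mm k (p - 1) t⟩, zero_mem _, hw.2,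
      Or.inl rfl, zero_mem _, ?_, ?_⟩
    · have := hw.1
      rwa [hcm, show (p : ℤ) - 1 - 2 * (0 : ℕ) = (p : ℤ) - 1 by simp] at this
    · intro z hz
      have key : ∀ i : ℕ, ∀ h1 : 1 ≤ i, ∀ h : i < p, b.repr z ⟨i, by omega⟩ = 0 := by
        intro i h1 h
        have e : (b.coord ⟨i - 1, by omega⟩) ∘ₗ (ee (nab k (p - 1)) 1) =
            (i : k) • b.coord ⟨i, by omega⟩ := by
          apply b.ext
          intro j
          rw [LinearMap.comp_apply, hb, (hB2 (p - 1) j 1 (by omega)).1, map_smul,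
            LinearMap.smul_apply]
          by_cases hj : (j : ℕ) = 0
          · have e3 : j ≠ ⟨i, by omega⟩ := by
              intro h
              have := congrArg Fin.val h
              simp only at this
              omega
            rw [← hb j, Module.Basis.coord_apply, Module.Basis.coord_apply,
              Module.Basis.repr_self, Finsupp.single_apply, if_neg e3, hj, Nat.choose_zero_succ,
              Nat.cast_zero, zero_smul, smul_zero]
          · have e1 : mm k (p - 1) ((j : ℕ) - 1) = b ⟨(j : ℕ) - 1, by omega⟩ := by rw [hb]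
            rw [e1, ← hb j, Module.Basis.coord_apply, Module.Basis.coord_apply,
              Module.Basis.repr_self, Module.Basis.repr_self, Finsupp.single_apply,
              Finsupp.single_apply, Nat.choose_one_right]
            by_cases hij : (j : ℕ) = i
            · have e2 : (⟨(j : ℕ) - 1, by omega⟩ : Fin (p - 1 + 1)) = ⟨i - 1, by omega⟩ := by
                apply Fin.ext
                simp only
                omega
              have e3 : j = ⟨i, by omega⟩ := Fin.ext hij
              rw [if_pos e2, if_pos e3, hij]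
            · have e2 : (⟨(j : ℕ) - 1, by omega⟩ : Fin (p - 1 + 1)) ≠ ⟨i - 1, by omega⟩ := by
                intro h
                have := congrArg Fin.val h
                simp only at this
                omega
              have e3 : j ≠ ⟨i, by omega⟩ := by
                intro h
                exact hij (congrArg Fin.val h)
              rw [if_neg e2, if_neg e3]
              simp
        have e2 := LinearMap.congr_fun e z
        rw [LinearMap.comp_apply, hz, map_zero, LinearMap.smul_apply, Module.Basis.coord_apply,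
          smul_eq_mul] at e2
        exact (mul_eq_zero.mp e2.symm).resolve_left (hcast i h1 h)
      refine ⟨b.repr z 0, 0, ?_⟩
      rw [smul_zero, add_zero]
      conv_lhs => rw [← b.sum_repr z]
      rw [Finset.sum_eq_single 0]
      · rw [hb]
        rfl
      · intro j _ hj
        have h1 : 1 ≤ (j : ℕ) := by
          rcases Nat.eq_zero_or_pos (j : ℕ) with h | h
          · exact absurd (Fin.ext h) hj
          · exact h
        have := key j h1 (by omega)
        have e : (⟨(j : ℕ), by omega⟩ : Fin (p - 1 + 1)) = j := rfl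
        rw [e] at this
        rw [this, zero_smul]
      · intro h
        exact absurd (Finset.mem_univ _) h
    · intro i hi
      rw [(hB2 (p - 1) 0 i (by omega)).2, zero_add]
      by_cases hip : i < p
      · apply Submodule.smul_mem
        refine ⟨((p - i : ℕ) : k)⁻¹ • mm k (p - 1) (i - 1), ?_⟩
        rw [map_smul, (hB2 (p - 1) (i - 1) 1 (by omega)).2, Nat.choose_one_right,
          show p - 1 - (i - 1) = p - i by omega, show i - 1 + 1 = i by omega, smul_smul,
          inv_mul_cancel₀ (hcast (p - i) (by omega) (by omega)), one_smul]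
      · rw [Nat.choose_eq_zero_of_lt (by omega), Nat.cast_zero, zero_smul]
        exact zero_mem _

end

end Pool.Agent.Sp49.Three
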