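import Mathlib
import Pool.Agent.Lib.MP_49c83e_al.Three.Stm

/-!
MP_49c83e_al, Theorem III, piece G2: tW of a resolution is a resolution.
-/

namespace Pool.Agent.Sp49.Three

variable (k : Type) [Field k] [IsAlgClosed k]

/-- tW (ker f) → ker (tWmap f) -/
private def g2_map {X Y : Ob k} (f : X.V →ₗ[k] Y.V) (hf : IsHom X Y f) :
    (LinearMap.ker f × LinearMap.ker f) ≃ₗ[k] LinearMap.ker (f.prodMap f) where
  toFun w := ⟨(w.1.1, w.2.1), by
    rw [LinearMap.mem_ker, LinearMap.prodMap_apply]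
    exact Prod.ext w.1.2 w.2.2⟩
  invFun w := (⟨w.1.1, by
    have h := w.2
    rw [LinearMap.mem_ker, LinearMap.prodMap_apply] at h
    exact (Prod.ext_iff.mp h).1⟩, ⟨w.1.2, by
    have h := w.2
    rw [LinearMap.mem_ker, LinearMap.prodMap_apply] at h
    exact (Prod.ext_iff.mp h).2⟩)
  map_add' u v := rfl
  map_smul' c u := rfl
  left_inv w := rfl
  right_inv w := rfl

private theorem g2_iso {X Y : Ob k} (f : X.V →ₗ[k] Y.V) (hf : IsHom X Y f) :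
    Iso (tW (kerO X Y f hf)) (kerO (tW X) (tW Y) (tWmap f) (tWmap_hom f hf)) := by
  refine ⟨g2_map k f hf, ?_⟩
  rintro g ⟨u, v⟩
  apply Subtype.ext
  rfl

private theorem g2_ker {X Y : Ob k} (hC1 : S_C1 k) (f : X.V →ₗ[k] Y.V) (hf : IsHom X Y f)
    (hf' : IsHom (tW X) (tW Y) (tWmap f)) (h : NF (kerO X Y f hf)) :
    NF (kerO (tW X) (tW Y) (tWmap f) hf') :=
  hC1.1 _ _ (g2_iso k f hf) (hC1.2.2.2 _ h)

private theorem g2_exact {X Y Z : Ob k} (f : X.V →ₗ[k] Y.V) (g : Y.V →ₗ[k] Z.V)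
    (h : Function.Exact f g) : Function.Exact (tWmap (X := X) (Y := Y) f)
      (tWmap (X := Y) (Y := Z) g) := by
  rintro ⟨u, v⟩
  constructor
  · intro h0
    have h1 : g u = 0 ∧ g v = 0 := Prod.ext_iff.mp h0
    obtain ⟨a, ha⟩ := (h u).mp h1.1
    obtain ⟨b, hb⟩ := (h v).mp h1.2
    exact ⟨(a, b), Prod.ext ha hb⟩
  · rintro ⟨⟨a, b⟩, hab⟩
    have h1 : f a = u ∧ f b = v := Prod.ext_iff.mp hab
    exact Prod.ext ((h u).mpr ⟨a, h1.1⟩) ((h v).mpr ⟨b, h1.2⟩)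

theorem p_G2 (hC1 : S_C1 k) (hD3 : S_D3 k) : S_G2 k := by
  intro N A e h
  refine ⟨tWmap_hom e h.he, ?_, ?_, ?_, ?_, ?_, ?_⟩
  · rintro ⟨u, v⟩
    obtain ⟨a, ha⟩ := h.surj u
    obtain ⟨b, hb⟩ := h.surj v
    exact ⟨(a, b), Prod.ext ha hb⟩
  · exact g2_exact k (A.d 0) e h.ex0
  · intro i
    exact g2_exact k (A.d (i + 1)) (A.d i) (h.ex i)
  · exact g2_ker k hC1 e h.he _ h.k0
  · intro i
    exact g2_ker k hC1 (A.d i) (A.hd i) _ (h.k1 i)
  · intro i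
    exact hD3.2.1 _ (h.tt i)

end Pool.Agent.Sp49.Three
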