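import Mathlib
import Pool.Agent.Lib.MP_49c83e_al.Three.Stm

/-!
MP_49c83e_al, Theorem III, [G3]: chain maps lift.
-/

set_option autoImplicit false

namespace Pool.Agent.Sp49.Three

variable (k : Type) [Field k] [IsAlgClosed k]

private def g3_St (A B : Cx k) (i : ℕ) : Type :=
  {p : ((A.T i).V →ₗ[k] (B.T i).V) × ((A.T (i + 1)).V →ₗ[k] (B.T (i + 1)).V) //
    IsHom (A.T i) (B.T i) p.1 ∧ IsHom (A.T (i + 1)) (B.T (i + 1)) p.2 ∧
    ∀ v, B.d i (p.2 v) = p.1 (A.d i v)}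

omit [IsAlgClosed k] in
private theorem g3_seq (A B : Cx k) (s0 : g3_St k A B 0)
    (step : ∀ i (p : g3_St k A B i), ∃ q : g3_St k A B (i + 1), q.1.1 = p.1.2) :
    ∃ φ : ChMap A B, φ.f 0 = s0.1.1 := by
  choose nx hnx using step
  let F : ∀ i, g3_St k A B i := fun i => Nat.rec s0 (fun i p => nx i p) i
  have hF : ∀ i, (F (i + 1)).1.1 = (F i).1.2 := fun i => hnx i (F i)
  refine ⟨⟨fun i => (F i).1.1, fun i => (F i).2.1, fun i v => ?_⟩, rfl⟩
  show B.d i ((F (i + 1)).1.1 v) = (F i).1.1 (A.d i v)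
  rw [hF i]
  exact (F i).2.2.2 v

theorem p_G3 (h : S_C5 k) : S_G3 k := by
  intro N N' A B e e' j hA hB hj
  have hd0 : ∀ v, e (A.d 0 v) = 0 := fun v => hA.ex0.apply_apply_eq_zero v
  have hdd : ∀ i v, A.d i (A.d (i + 1) v) = 0 := fun i v => (hA.ex i).apply_apply_eq_zero v
  -- degree 0
  have hz : Function.Exact e' (0 : N'.V →ₗ[k] (zer k).V) := by
    intro y
    constructor
    · intro _
      exact hB.surj y
    · intro _
      rfl
  obtain ⟨f0, hf0, hf0e⟩ := h (A.T 0) (B.T 0) N' (zer k) e' 0 hB.he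
    (fun g v => by rw [LinearMap.zero_apply, LinearMap.zero_apply, map_zero]) (hA.tt 0) hz hB.k0
    (j ∘ₗ e) (fun g v => by
      rw [LinearMap.comp_apply, LinearMap.comp_apply, hA.he g v, hj g (e v)]) (fun v => rfl)
  -- degree 1
  obtain ⟨f1, hf1, hf1e⟩ := h (A.T 1) (B.T 1) (B.T 0) N' (B.d 0) e' (B.hd 0) hB.he (hA.tt 1) hB.ex0
    (hB.k1 0) (f0 ∘ₗ A.d 0) (fun g v => by
      rw [LinearMap.comp_apply, LinearMap.comp_apply, A.hd 0 g v, hf0 g (A.d 0 v)])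
    (fun v => by
      rw [LinearMap.comp_apply, hf0e, LinearMap.comp_apply, hd0, map_zero])
  obtain ⟨φ, hφ⟩ := g3_seq k A B ⟨(f0, f1), hf0, hf1, hf1e⟩ (by
    rintro i ⟨⟨u, w⟩, hu, hw, huw⟩
    obtain ⟨f2, hf2, hf2e⟩ := h (A.T (i + 2)) (B.T (i + 2)) (B.T (i + 1)) (B.T i) (B.d (i + 1))
      (B.d i) (B.hd (i + 1)) (B.hd i) (hA.tt (i + 2)) (hB.ex i) (hB.k1 (i + 1))
      (w ∘ₗ A.d (i + 1)) (fun g v => by
        rw [LinearMap.comp_apply, LinearMap.comp_apply, A.hd (i + 1) g v, hw g (A.d (i + 1) v)])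
      (fun v => by
        have h1 := huw (A.d (i + 1) v)
        simp only at h1
        rw [LinearMap.comp_apply, h1, hdd, map_zero])
    exact ⟨⟨(w, f2), hw, hf2, hf2e⟩, rfl⟩)
  refine ⟨φ, fun v => ?_⟩
  rw [hφ]
  exact hf0e v

end Pool.Agent.Sp49.Three
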