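import Mathlib
import Pool.Agent.Lib.MP_49c83e_al.Three.Stm

/-! MP_49c83e_al, Theorem III, piece G4: the cone lemma. -/

namespace Pool.Agent.Sp49.Three

variable (k : Type) [Field k] [IsAlgClosed k]

/-- the kernel of a map on a product is an extension of kernels -/
private theorem g4_ext (P Q R R1 R2 : Ob k) (D : (prodO P Q).V →ₗ[k] R.V) (hD : IsHom (prodO P Q) R D)
    (dP : P.V →ₗ[k] R1.V) (hdP : IsHom P R1 dP) (dQ : Q.V →ₗ[k] R2.V) (hdQ : IsHom Q R2 dQ)
    (h1 : ∀ b : P.V, dP b = 0 ↔ D (b, (0 : Q.V)) = 0)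
    (h2 : ∀ (b : P.V) (a : Q.V), D (b, a) = 0 → dQ a = 0)
    (h3 : ∀ a : Q.V, dQ a = 0 → ∃ b : P.V, D (b, a) = 0)
    (nP : NF (kerO P R1 dP hdP)) (nQ : NF (kerO Q R2 dQ hdQ)) : NF (kerO (prodO P Q) R D hD) := by
  let f : (kerO P R1 dP hdP).V →ₗ[k] (kerO (prodO P Q) R D hD).V :=
    LinearMap.codRestrict (LinearMap.ker D) (LinearMap.inl k P.V Q.V ∘ₗ (LinearMap.ker dP).subtype)
      (fun b => LinearMap.mem_ker.2 ((h1 b.1).1 (LinearMap.mem_ker.1 b.2)))
  let g : (kerO (prodO P Q) R D hD).V →ₗ[k] (kerO Q R2 dQ hdQ).V :=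
    LinearMap.codRestrict (LinearMap.ker dQ) (LinearMap.snd k P.V Q.V ∘ₗ (LinearMap.ker D).subtype)
      (fun b => LinearMap.mem_ker.2 (h2 b.1.1 b.1.2 (LinearMap.mem_ker.1 b.2)))
  refine NF.ext (kerO P R1 dP hdP) (kerO (prodO P Q) R D hD) (kerO Q R2 dQ hdQ) f g ?_ ?_ ?_ ?_ ?_ nP nQ
  · intro h v
    refine Subtype.ext (Prod.ext rfl ?_)
    show (0 : Q.V) = Q.ρ h 0
    rw [map_zero]
  · intro h v
    rfl
  · intro u v huv
    have := congrArg (fun z => z.1.1) huv
    exact Subtype.ext this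
  · intro v
    constructor
    · intro hv
      have e1 : v.1.2 = 0 := congrArg Subtype.val hv
      have e2 : D (v.1.1, (0 : Q.V)) = 0 := by
        have := LinearMap.mem_ker.1 v.2
        rw [← this]
        congr 1
        exact Prod.ext rfl e1.symm
      refine ⟨⟨v.1.1, LinearMap.mem_ker.2 ((h1 _).2 e2)⟩, ?_⟩
      exact Subtype.ext (Prod.ext rfl e1.symm)
    · rintro ⟨u, rfl⟩
      rfl
  · intro a
    obtain ⟨b, hb⟩ := h3 a.1 (LinearMap.mem_ker.1 a.2)
    exact ⟨⟨(b, a.1), LinearMap.mem_ker.2 hb⟩, rfl⟩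

theorem p_G4 (_hC1 : S_C1 k) (hG4a : S_G4a k) : S_G4 k := by
  intro N' N N'' A B eA eB j π φ hj hπ ij ex sj nN hA hB hcomm
  obtain ⟨s1, s2, s3⟩ := hG4a N' N N'' A B eA eB j π φ hj hπ ij ex sj hA hB hcomm
  have hhe : IsHom ((cone A B φ).T 0) N'' (π ∘ₗ eB : (B.T 0).V →ₗ[k] N''.V) := by
    intro g v
    show π (eB ((B.T 0).ρ g v)) = N''.ρ g (π (eB v))
    rw [hB.he, hπ]
  refine ⟨hhe, s1, s2, s3, ?_, ?_, ?_⟩
  · -- kernel in degree 0
    have hr : ∀ b : (kerO (B.T 0) N'' (π ∘ₗ eB) hhe).V, eB b.1 ∈ LinearMap.range j := by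
      intro b
      exact (ex (eB b.1)).1 (LinearMap.mem_ker.1 b.2)
    let f : (kerO (B.T 0) N eB hB.he).V →ₗ[k] (kerO (B.T 0) N'' (π ∘ₗ eB) hhe).V :=
      LinearMap.codRestrict (LinearMap.ker (π ∘ₗ eB)) (LinearMap.ker eB).subtype
        (fun b => LinearMap.mem_ker.2 (by
          show π (eB b.1) = 0
          rw [LinearMap.mem_ker.1 b.2, map_zero]))
    let g : (kerO (B.T 0) N'' (π ∘ₗ eB) hhe).V →ₗ[k] N'.V :=
      (LinearEquiv.ofInjective j ij).symm.toLinearMap ∘ₗ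
        LinearMap.codRestrict (LinearMap.range j) (eB ∘ₗ (LinearMap.ker (π ∘ₗ eB)).subtype) hr
    have hg : ∀ b : (kerO (B.T 0) N'' (π ∘ₗ eB) hhe).V, j (g b) = eB b.1 := by
      intro b
      have h := LinearEquiv.apply_symm_apply (LinearEquiv.ofInjective j ij)
        (LinearMap.codRestrict (LinearMap.range j) (eB ∘ₗ (LinearMap.ker (π ∘ₗ eB)).subtype) hr b)
      have h' := congrArg Subtype.val h
      exact h'
    refine NF.ext (kerO (B.T 0) N eB hB.he) (kerO (B.T 0) N'' (π ∘ₗ eB) hhe) N' f g ?_ ?_ ?_ ?_ ?_ hB.k0 nN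
    · intro h v
      rfl
    · intro h v
      apply ij
      rw [hg, hj, hg]
      exact hB.he h v.1
    · intro u v huv
      exact Subtype.ext (congrArg (fun z => z.1) huv)
    · intro v
      constructor
      · intro hv
        have := hg v
        rw [hv, map_zero] at this
        exact ⟨⟨v.1, LinearMap.mem_ker.2 this.symm⟩, rfl⟩
      · rintro ⟨u, rfl⟩
        apply ij
        rw [hg, map_zero]
        exact LinearMap.mem_ker.1 u.2
    · intro n'
      obtain ⟨b, hb⟩ := hB.surj (j n')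
      refine ⟨⟨b, LinearMap.mem_ker.2 ?_⟩, ?_⟩
      · show π (eB b) = 0
        rw [hb]
        exact ex.apply_apply_eq_zero n'
      · apply ij
        rw [hg]
        exact hb
  · intro i
    cases i with
    | zero =>
      refine g4_ext k (B.T 1) (A.T 0) (B.T 0) (B.T 0) N' (coned A B φ 0) ((cone A B φ).hd 0) (B.d 0) (B.hd 0)
        eA hA.he ?_ ?_ ?_ (hB.k1 0) hA.k0
      · intro b
        show B.d 0 b = 0 ↔ B.d 0 b + φ.f 0 0 = 0
        rw [map_zero, add_zero]
      · intro b a h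
        have h' : B.d 0 b + φ.f 0 a = 0 := h
        have h2 : eB (B.d 0 b + φ.f 0 a) = 0 := by rw [h', map_zero]
        rw [map_add, hB.ex0.apply_apply_eq_zero b, zero_add, hcomm] at h2
        exact ij (by rw [h2, map_zero])
      · intro a ha
        have h0 : eB (φ.f 0 a) = 0 := by rw [hcomm, ha, map_zero]
        obtain ⟨b, hb⟩ := (hB.ex0 _).1 h0
        refine ⟨-b, ?_⟩
        show B.d 0 (-b) + φ.f 0 a = 0
        rw [map_neg, hb, neg_add_cancel]
    | succ i =>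
      refine g4_ext k (B.T (i + 2)) (A.T (i + 1)) ((cone A B φ).T (i + 1)) (B.T (i + 1)) (A.T i)
        (coned A B φ (i + 1)) ((cone A B φ).hd (i + 1)) (B.d (i + 1)) (B.hd (i + 1)) (A.d i) (A.hd i)
        ?_ ?_ ?_ (hB.k1 (i + 1)) (hA.k1 i)
      · intro b
        show B.d (i + 1) b = 0 ↔ ((B.d (i + 1) b + φ.f (i + 1) 0, - A.d i 0) : (B.T (i + 1)).V × (A.T i).V) = 0
        rw [map_zero, add_zero, map_zero, neg_zero]
        constructor
        · intro h
          rw [h]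
          rfl
        · intro h
          exact congrArg Prod.fst h
      · intro b a h
        have h' : ((B.d (i + 1) b + φ.f (i + 1) a, - A.d i a) : (B.T (i + 1)).V × (A.T i).V) = 0 := h
        exact neg_eq_zero.1 (congrArg Prod.snd h')
      · intro a ha
        have h0 : B.d i (φ.f (i + 1) a) = 0 := by rw [φ.comm, ha, map_zero]
        obtain ⟨b, hb⟩ := (hB.ex i _).1 h0
        refine ⟨-b, ?_⟩
        show ((B.d (i + 1) (-b) + φ.f (i + 1) a, - A.d i a) : (B.T (i + 1)).V × (A.T i).V) = 0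
        rw [map_neg, hb, neg_add_cancel, ha, neg_zero]
        rfl
  · intro i
    cases i with
    | zero => exact hB.tt 0
    | succ i => exact TT.prod _ _ (hB.tt (i + 1)) (hA.tt i)

end Pool.Agent.Sp49.Three
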