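import Mathlib
import Pool.Agent.Lib.MP_49c83e_al.Three.Stm

/-!
MP_49c83e_al, Theorem III, piece G4a: the cone is exact.
-/

namespace Pool.Agent.Sp49.Three

variable (k : Type) [Field k] [IsAlgClosed k]

theorem p_G4a : S_G4a k := by
  intro N' N N'' A B eA eB j π φ hj hπ hjinj hjπ hπs hA hB hcomm
  have hdB : ∀ i v, B.d i (B.d (i + 1) v) = 0 := fun i v => (hB.ex i _).mpr ⟨v, rfl⟩
  have hdA : ∀ i v, A.d i (A.d (i + 1) v) = 0 := fun i v => (hA.ex i _).mpr ⟨v, rfl⟩
  have heB : ∀ v, eB (B.d 0 v) = 0 := fun v => (hB.ex0 _).mpr ⟨v, rfl⟩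
  refine ⟨?_, ?_, ?_⟩
  · intro w
    obtain ⟨n, rfl⟩ := hπs w
    obtain ⟨b, rfl⟩ := hB.surj n
    exact ⟨b, rfl⟩
  · intro (b : (B.T 0).V)
    constructor
    · intro hb
      have hb' : π (eB b) = 0 := hb
      obtain ⟨n', hn'⟩ := (hjπ (eB b)).mp hb'
      obtain ⟨a, ha⟩ := hA.surj n'
      have h1 : eB (b - φ.f 0 a) = 0 := by rw [map_sub, hcomm, ha, hn', sub_self]
      obtain ⟨b', hb''⟩ := (hB.ex0 (b - φ.f 0 a)).mp h1
      refine ⟨(b', a), ?_⟩
      show coned A B φ 0 (b', a) = b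
      rw [coned_zero, hb'', sub_add_cancel]
    · rintro ⟨⟨b', a⟩, rfl⟩
      show π (eB (coned A B φ 0 (b', a))) = 0
      rw [coned_zero, map_add, hcomm, heB, zero_add]
      exact (hjπ _).mpr ⟨_, rfl⟩
  · intro i
    cases i with
    | zero =>
      rintro ⟨b, a⟩
      constructor
      · intro h
        have h' : B.d 0 b + φ.f 0 a = 0 := h
        have h2 : j (eA a) = 0 := by
          have h3 := congrArg eB h'
          rw [map_add, heB, hcomm, zero_add, map_zero] at h3
          exact h3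
        have h3 : eA a = 0 := hjinj (by rw [h2, map_zero])
        obtain ⟨a', ha'⟩ := (hA.ex0 a).mp h3
        have h4 : B.d 0 (b + φ.f 1 a') = 0 := by
          rw [map_add, φ.comm 0 a', ha', h']
        obtain ⟨b', hb'⟩ := (hB.ex 0 _).mp h4
        refine ⟨(b', -a'), ?_⟩
        show coned A B φ 1 (b', -a') = (b, a)
        rw [coned_succ, hb', map_neg, map_neg, ha', neg_neg, add_neg_cancel_right]
      · rintro ⟨⟨b', a'⟩, h⟩
        rw [← h]
        show coned A B φ 0 (coned A B φ 1 (b', a')) = 0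
        rw [coned_succ, coned_zero, map_add, map_neg, φ.comm 0 a', hdB 0 b', zero_add,
          add_neg_cancel]
        rfl
    | succ i =>
      rintro ⟨b, a⟩
      constructor
      · intro h
        have h' : (B.d (i + 1) b + φ.f (i + 1) a, - A.d i a) = (0, 0) := h
        have h1 : B.d (i + 1) b + φ.f (i + 1) a = 0 := (Prod.mk.inj h').1
        have h2 : A.d i a = 0 := neg_eq_zero.mp (Prod.mk.inj h').2
        obtain ⟨a', ha'⟩ := (hA.ex i a).mp h2
        have h4 : B.d (i + 1) (b + φ.f (i + 2) a') = 0 := by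
          rw [map_add, φ.comm (i + 1) a', ha', h1]
        obtain ⟨b', hb'⟩ := (hB.ex (i + 1) _).mp h4
        refine ⟨(b', -a'), ?_⟩
        show coned A B φ (i + 2) (b', -a') = (b, a)
        rw [coned_succ, hb', map_neg, map_neg, ha', neg_neg, add_neg_cancel_right]
      · rintro ⟨⟨b', a'⟩, h⟩
        rw [← h]
        show coned A B φ (i + 1) (coned A B φ (i + 2) (b', a')) = (0, 0)
        rw [coned_succ, coned_succ, map_add, map_neg, map_neg, φ.comm (i + 1) a',
          hdB (i + 1) b', zero_add, add_neg_cancel, hdA i a', neg_neg]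

end Pool.Agent.Sp49.Three
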