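import Mathlib
import Pool.Agent.Lib.MP_49c83e_al.Three.Stm

/-! MP_49c83e_al, Theorem III, piece G5: comparison of two resolutions up to degree 2. -/

namespace Pool.Agent.Sp49.Three

variable (k : Type) [Field k] [IsAlgClosed k]

omit [IsAlgClosed k] in
private theorem g5_comp {X Y Z : Ob k} {f : X.V →ₗ[k] Y.V} {g : Y.V →ₗ[k] Z.V} (hf : IsHom X Y f)
    (hg : IsHom Y Z g) : IsHom X Z (g ∘ₗ f) := by
  intro h v
  rw [LinearMap.comp_apply, LinearMap.comp_apply, hf, hg]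

omit [IsAlgClosed k] in
private theorem g5_sub {X Y : Ob k} {f g : X.V →ₗ[k] Y.V} (hf : IsHom X Y f)
    (hg : IsHom X Y g) : IsHom X Y (f - g) := by
  intro h v
  rw [LinearMap.sub_apply, LinearMap.sub_apply, hf, hg, map_sub]

omit [IsAlgClosed k] in
private theorem g5_id (X : Ob k) : IsHom X X LinearMap.id := fun _ _ => rfl

theorem p_G5 (hC5 : S_C5 k) (hG3 : S_G3 k) : S_G5 k := by
  intro N A A' hA hA'
  obtain ⟨e, he⟩ := hA
  obtain ⟨e', he'⟩ := hA'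
  obtain ⟨α, hα⟩ := hG3 N N A A' e e' LinearMap.id he he' (g5_id k N)
  obtain ⟨β, hβ⟩ := hG3 N N A' A e' e LinearMap.id he' he (g5_id k N)
  have hγ : ∀ i, IsHom (A.T i) (A.T i) (β.f i ∘ₗ α.f i - LinearMap.id) := fun i =>
    g5_sub k (g5_comp k (α.hf i) (β.hf i)) (g5_id k _)
  have hγd : ∀ i (v : (A.T (i + 1)).V), A.d i ((β.f (i + 1) ∘ₗ α.f (i + 1) - LinearMap.id :
      (A.T (i + 1)).V →ₗ[k] (A.T (i + 1)).V) v) =
      (β.f i ∘ₗ α.f i - LinearMap.id : (A.T i).V →ₗ[k] (A.T i).V) (A.d i v) := by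
    intro i v
    rw [LinearMap.sub_apply, LinearMap.sub_apply, LinearMap.comp_apply, LinearMap.comp_apply,
      LinearMap.id_apply, LinearMap.id_apply, map_sub, β.comm, α.comm]
  obtain ⟨h0, h0h, h0d⟩ := hC5 (A.T 0) (A.T 1) (A.T 0) N (A.d 0) e (A.hd 0) he.he (he.tt 0) he.ex0
    (he.k1 0) (β.f 0 ∘ₗ α.f 0 - LinearMap.id) (hγ 0) (fun v => by
      rw [LinearMap.sub_apply, LinearMap.comp_apply, LinearMap.id_apply, map_sub, hβ, hα]
      simp)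
  obtain ⟨h1, h1h, h1d⟩ := hC5 (A.T 1) (A.T 2) (A.T 1) (A.T 0) (A.d 1) (A.d 0) (A.hd 1) (A.hd 0)
    (he.tt 1) (he.ex 0) (he.k1 1) ((β.f 1 ∘ₗ α.f 1 - LinearMap.id) - h0 ∘ₗ A.d 0)
    (g5_sub k (hγ 1) (g5_comp k (A.hd 0) h0h)) (fun v => by
      rw [LinearMap.sub_apply, LinearMap.comp_apply, map_sub, hγd 0 v, h0d, sub_self])
  have hdd : ∀ v : (A.T 2).V, A.d 0 (A.d 1 v) = 0 := fun v => (he.ex 0).apply_apply_eq_zero v
  obtain ⟨h2, h2h, h2d⟩ := hC5 (A.T 2) (A.T 3) (A.T 2) (A.T 1) (A.d 2) (A.d 1) (A.hd 2) (A.hd 1)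
    (he.tt 2) (he.ex 1) (he.k1 2) ((β.f 2 ∘ₗ α.f 2 - LinearMap.id) - h1 ∘ₗ A.d 1)
    (g5_sub k (hγ 2) (g5_comp k (A.hd 1) h1h)) (fun v => by
      have e3 : (h0 ∘ₗ A.d 0) (A.d 1 v) = 0 := by rw [LinearMap.comp_apply, hdd, map_zero]
      rw [LinearMap.sub_apply, LinearMap.comp_apply h1, map_sub, hγd 1 v, h1d]
      simp only [LinearMap.sub_apply]
      rw [e3]
      abel)
  refine ⟨α.f 2, β.f 2, h1, h2, α.hf 2, β.hf 2, h1h, h2h, fun v => ?_⟩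
  have := h2d v
  rw [this, LinearMap.sub_apply, LinearMap.sub_apply, LinearMap.comp_apply, LinearMap.comp_apply,
    LinearMap.id_apply]
  abel

end Pool.Agent.Sp49.Three
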