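import Mathlib
import Pool.Agent.Lib.MP_49c83e_al.Three.Stm

/-! MP_49c83e_al, Theorem III, piece G6: the comparison theorem in the form in which it is used. -/

namespace Pool.Agent.Sp49.Three

variable (k : Type) [Field k] [IsAlgClosed k]

theorem p_G6 (hA2 : S_A2 k) (hG5 : S_G5 k) : S_G6 k := by
  intro N A A' a hA hA' hfd φ1 φ2 n1 n2 z1 z2
  obtain ⟨α, β, h1, h2, hα, hβ, hh1, hh2, hrel⟩ := hG5 N A A' hA hA'
  have kβ := hA2.2 _ _ β hβ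
  have kα := hA2.2 _ _ α hα
  have k1 := hA2.2 _ _ h1 hh1
  have k2 := hA2.2 _ _ h2 hh2
  -- the induced functionals
  have m1 : NN (A'.T 2) ≤ LinearMap.ker (φ1 ∘ₗ β) := by
    intro v hv
    rw [LinearMap.mem_ker, LinearMap.comp_apply]
    exact n1 _ (kβ.2.2.2.1 v hv)
  have m2 : NN (A'.T 2) ≤ LinearMap.ker (φ2 ∘ₗ β) := by
    intro v hv
    rw [LinearMap.mem_ker, LinearMap.comp_apply]
    exact n2 _ (kβ.2.2.2.1 v hv)
  obtain ⟨w0, hw0⟩ := finrank_le_one_iff.1 hfd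
  set x1 := (NN (A'.T 2)).liftQ (φ1 ∘ₗ β) m1 (w0 : (A'.T 2).V ⧸ NN (A'.T 2)) with hx1
  set x2 := (NN (A'.T 2)).liftQ (φ2 ∘ₗ β) m2 (w0 : (A'.T 2).V ⧸ NN (A'.T 2)) with hx2
  obtain ⟨c1, c2, hc, hcx⟩ : ∃ c1 c2 : k, (c1 ≠ 0 ∨ c2 ≠ 0) ∧ c1 * x1 + c2 * x2 = 0 := by
    by_cases hx : x1 = 0
    · exact ⟨1, 0, Or.inl one_ne_zero, by rw [hx]; ring⟩
    · exact ⟨x2, -x1, Or.inr (neg_ne_zero.2 hx), by ring⟩
  have key : ∀ u ∈ invs (A'.T 2) a, c1 * φ1 (β u) + c2 * φ2 (β u) = 0 := by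
    intro u hu
    have hmem : (NN (A'.T 2)).mkQ u ∈ FF (A'.T 2) a := Submodule.mem_map_of_mem hu
    obtain ⟨c, hcw⟩ := hw0 ⟨_, hmem⟩
    have e : c • (w0 : (A'.T 2).V ⧸ NN (A'.T 2)) = (NN (A'.T 2)).mkQ u :=
      congrArg Subtype.val hcw
    have e1 : φ1 (β u) = c * x1 := by
      have : (NN (A'.T 2)).liftQ (φ1 ∘ₗ β) m1 ((NN (A'.T 2)).mkQ u) = φ1 (β u) := rfl
      rw [← this, ← e, map_smul, smul_eq_mul]
    have e2 : φ2 (β u) = c * x2 := by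
      have : (NN (A'.T 2)).liftQ (φ2 ∘ₗ β) m2 ((NN (A'.T 2)).mkQ u) = φ2 (β u) := rfl
      rw [← this, ← e, map_smul, smul_eq_mul]
    rw [e1, e2]
    linear_combination c * hcx
  refine ⟨c1, c2, hc, -(c1 • (φ1 ∘ₗ h1) + c2 • (φ2 ∘ₗ h1)), fun v hv => ?_, fun v hv => ?_⟩
  · have := k1.2.2.2.1 v hv
    show -(c1 * φ1 (h1 v) + c2 * φ2 (h1 v)) = 0
    rw [n1 _ this, n2 _ this]
    ring
  · have q1 := key (α v) (kα.2.2.1 a v hv)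
    have q2 := k2.2.2.1 a v hv
    rw [hrel v, map_add, map_add, map_add, map_add, z1 _ q2, z2 _ q2] at q1
    show c1 * φ1 v + c2 * φ2 v = -(c1 * φ1 (h1 (A.d 1 v)) + c2 * φ2 (h1 (A.d 1 v)))
    linear_combination q1

end Pool.Agent.Sp49.Three
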