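import Pool.Agent.Lib.MP_49c83e_al.Three.Stm

/-!
MP_49c83e_al, piece [S3 G8]: existence of the numbers c_i(v, w) and c_2 ≤ 1.
-/

namespace Pool.Agent.Sp49.Three

/-- the numbers c_i(v, w), by recursion on v -/
def g8_cc (p v i w : ℕ) : ℕ :=
  if h : v < p ∨ p < 2 then (if i = 0 ∧ v = w then 1 else 0)
  else if v % p = 0 then (if w % p = 0 then g8_cc p (v / p) i (w / p) else 0)
  else match i with
    | 0 => if w % p = v % p then g8_cc p (v / p) 0 (w / p) else 0
    | i + 1 => (if w % p = v % p then g8_cc p (v / p) (i + 1) (w / p) else 0) +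
        g8_cc p (p * (v / p) - v % p) i w
termination_by v
decreasing_by
  all_goals push Not at h
  · exact Nat.div_lt_self (by omega) (by omega)
  · exact Nat.div_lt_self (by omega) (by omega)
  · exact Nat.div_lt_self (by omega) (by omega)
  · have h1 := Nat.div_add_mod v p
    omega

theorem g8_exists (p : ℕ) (hp : 2 ≤ p) : IsCC p (fun i v w => g8_cc p v i w) where
  lt := by
    intro i v w hv
    rw [g8_cc.eq_def]
    simp [hv]
  mul := by
    intro i m w hm
    have h1 : ¬ (p * m < p ∨ p < 2) := by
      push Not
      exact ⟨by nlinarith, hp⟩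
    rw [g8_cc.eq_def, dif_neg h1]
    simp [Nat.mul_div_cancel_left m (by omega : 0 < p)]
  zero := by
    intro m r w hm hr hrp
    have h1 : ¬ (p * m + r < p ∨ p < 2) := by
      push Not
      exact ⟨by nlinarith, hp⟩
    have h2 : (p * m + r) % p = r := by
      rw [Nat.mul_add_mod, Nat.mod_eq_of_lt hrp]
    have h3 : (p * m + r) / p = m := by
      rw [Nat.mul_add_div (by omega), Nat.div_eq_of_lt hrp, add_zero]
    rw [g8_cc.eq_def, dif_neg h1, h2, h3, if_neg (by omega)]
  succ := by
    intro i m r w hm hr hrp
    have h1 : ¬ (p * m + r < p ∨ p < 2) := by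
      push Not
      exact ⟨by nlinarith, hp⟩
    have h2 : (p * m + r) % p = r := by
      rw [Nat.mul_add_mod, Nat.mod_eq_of_lt hrp]
    have h3 : (p * m + r) / p = m := by
      rw [Nat.mul_add_div (by omega), Nat.div_eq_of_lt hrp, add_zero]
    rw [g8_cc.eq_def, dif_neg h1, h2, h3, if_neg (by omega)]

/-- the three cases for v -/
theorem g8_cases (p v : ℕ) (hp : 2 ≤ p) : v < p ∨ (∃ m, 1 ≤ m ∧ v = p * m ∧ m < v) ∨
    ∃ m r, 1 ≤ m ∧ 1 ≤ r ∧ r < p ∧ v = p * m + r ∧ m < v ∧ p * m - r < v ∧ r < p * m := by
  by_cases h : v < p
  · exact Or.inl h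
  · right
    push Not at h
    have h1 := Nat.div_add_mod v p
    have h2 : 1 ≤ v / p := (Nat.one_le_div_iff (by omega)).mpr h
    have h3 : v / p < v := Nat.div_lt_self (by omega) (by omega)
    have h4 : v % p < p := Nat.mod_lt _ (by omega)
    by_cases h5 : v % p = 0
    · left
      exact ⟨v / p, h2, by omega, h3⟩
    · right
      have h6 : p * 1 ≤ p * (v / p) := Nat.mul_le_mul_left p h2
      exact ⟨v / p, v % p, h2, by omega, h4, by omega, h3, by omega, by omega⟩

variable {p : ℕ} {c : ℕ → ℕ → ℕ → ℕ}

theorem g8_c0 (hp : 2 ≤ p) (hc : IsCC p c) (v : ℕ) : ∀ w, c 0 v w = if v = w then 1 else 0 := by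
  induction v using Nat.strong_induction_on with
  | _ v ih =>
    intro w
    rcases g8_cases p v hp with h | ⟨m, hm, rfl, hmv⟩ | ⟨m, r, hm, hr, hrp, rfl, hmv, _, _⟩
    · rw [hc.lt 0 v w h]
      simp
    · rw [hc.mul 0 m w hm, ih m hmv]
      have h1 := Nat.div_add_mod w p
      by_cases h2 : w % p = 0
      · rw [if_pos h2]
        by_cases h3 : m = w / p
        · rw [if_pos h3, if_pos]
          rw [h3]
          omega
        · rw [if_neg h3, if_neg]
          intro h4
          apply h3
          rw [← h4, Nat.mul_div_cancel_left m (by omega)]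
      · rw [if_neg h2, if_neg]
        intro h4
        apply h2
        rw [← h4, Nat.mul_mod_right]
    · rw [hc.zero m r w hm hr hrp, ih m hmv]
      have h1 := Nat.div_add_mod w p
      by_cases h2 : w % p = r
      · rw [if_pos h2]
        by_cases h3 : m = w / p
        · rw [if_pos h3, if_pos]
          rw [h3]
          omega
        · rw [if_neg h3, if_neg]
          intro h4
          apply h3
          rw [← h4, Nat.mul_add_div (by omega), Nat.div_eq_of_lt hrp, add_zero]
      · rw [if_neg h2, if_neg]
        intro h4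
        apply h2
        rw [← h4, Nat.mul_add_mod, Nat.mod_eq_of_lt hrp]

theorem g8_par (hp : 2 ≤ p) (hc : IsCC p c) (v : ℕ) : ∀ i w, c i v w ≠ 0 → v % 2 = w % 2 := by
  induction v using Nat.strong_induction_on with
  | _ v ih =>
    intro i w hne
    rcases g8_cases p v hp with h | ⟨m, hm, rfl, hmv⟩ | ⟨m, r, hm, hr, hrp, rfl, hmv, hlt, hrm⟩
    · rw [hc.lt i v w h] at hne
      split_ifs at hne with h1
      · rw [h1.2]
      · exact absurd rfl hne
    · rw [hc.mul i m w hm] at hne
      split_ifs at hne with h1
      · have h2 := ih m hmv i (w / p) hne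
        have h3 := Nat.div_add_mod w p
        rw [h1, add_zero] at h3
        rw [← h3, Nat.mul_mod, h2, ← Nat.mul_mod]
      · exact absurd rfl hne
    · have key : ∀ i, w % p = r → c i m (w / p) ≠ 0 → (p * m + r) % 2 = w % 2 := by
        intro i h1 h2
        have h4 := ih m hmv i (w / p) h2
        have h3 := Nat.div_add_mod w p
        rw [h1] at h3
        have h5 : (p * m) % 2 = (p * (w / p)) % 2 := by
          rw [Nat.mul_mod, h4, ← Nat.mul_mod]
        omega
      cases i with
      | zero =>
        rw [hc.zero m r w hm hr hrp] at hne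
        split_ifs at hne with h1
        · exact key 0 h1 hne
        · exact absurd rfl hne
      | succ i =>
        rw [hc.succ i m r w hm hr hrp] at hne
        by_cases h2 : c i (p * m - r) w = 0
        · rw [h2, add_zero] at hne
          split_ifs at hne with h1
          · exact key (i + 1) h1 hne
          · exact absurd rfl hne
        · have h4 := ih _ hlt i w h2
          omega

theorem g8_le (hp : 2 ≤ p) (hc : IsCC p c) (v : ℕ) :
    ∀ i w, c i v w ≠ 0 → w ≤ v ∧ (1 ≤ i → w < v) := by
  induction v using Nat.strong_induction_on with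
  | _ v ih =>
    intro i w hne
    rcases g8_cases p v hp with h | ⟨m, hm, rfl, hmv⟩ | ⟨m, r, hm, hr, hrp, rfl, hmv, hlt, hrm⟩
    · rw [hc.lt i v w h] at hne
      split_ifs at hne with h1
      · exact ⟨h1.2.ge, fun h2 => by omega⟩
      · exact absurd rfl hne
    · rw [hc.mul i m w hm] at hne
      split_ifs at hne with h1
      · obtain ⟨h2, h2'⟩ := ih m hmv i (w / p) hne
        have h3 := Nat.div_add_mod w p
        rw [h1, add_zero] at h3
        constructor
        · rw [← h3]
          exact Nat.mul_le_mul_left p h2
        · intro hi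
          rw [← h3]
          exact Nat.mul_lt_mul_of_pos_left (h2' hi) (by omega)
      · exact absurd rfl hne
    · have key : ∀ i, w % p = r → c i m (w / p) ≠ 0 →
          w ≤ p * m + r ∧ (1 ≤ i → w < p * m + r) := by
        intro i h1 h2
        obtain ⟨h4, h4'⟩ := ih m hmv i (w / p) h2
        have h3 := Nat.div_add_mod w p
        rw [h1] at h3
        constructor
        · have := Nat.mul_le_mul_left p h4
          omega
        · intro hi
          have : p * (w / p) < p * m := Nat.mul_lt_mul_of_pos_left (h4' hi) (by omega)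
          omega
      cases i with
      | zero =>
        rw [hc.zero m r w hm hr hrp] at hne
        split_ifs at hne with h1
        · exact key 0 h1 hne
        · exact absurd rfl hne
      | succ i =>
        rw [hc.succ i m r w hm hr hrp] at hne
        by_cases h2 : c i (p * m - r) w = 0
        · rw [h2, add_zero] at hne
          split_ifs at hne with h1
          · exact key (i + 1) h1 hne
          · exact absurd rfl hne
        · have h4 := (ih _ hlt i w h2).1
          constructor
          · omega
          · intro _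
            omega

/-- c_i(m, m - 1) = 0 by parity -/
theorem g8_one (hp : 2 ≤ p) (hc : IsCC p c) (i m w : ℕ) (h : m = w + 1) : c i m w = 0 := by
  by_contra hne
  have := g8_par hp hc m i w hne
  omega

theorem g8_two_of (hpp : p.Prime) (r : ℕ) (h : p = 2 * r) : p = 2 ∧ r = 1 := by
  have h1 : 2 ∣ p := ⟨r, h⟩
  rcases (Nat.dvd_prime hpp).mp h1 with h2 | h2
  · omega
  · omega

theorem g8_c1 (hpp : p.Prime) (hc : IsCC p c) (v : ℕ) : ∀ w, c 1 v w ≤ 1 := by
  have hp := hpp.two_le
  induction v using Nat.strong_induction_on with
  | _ v ih =>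
    intro w
    rcases g8_cases p v hp with h | ⟨m, hm, rfl, hmv⟩ | ⟨m, r, hm, hr, hrp, rfl, hmv, hlt, hrm⟩
    · rw [hc.lt 1 v w h]
      simp
    · rw [hc.mul 1 m w hm]
      split_ifs
      · exact ih m hmv _
      · exact Nat.zero_le _
    · rw [show (1 : ℕ) = 0 + 1 from rfl, hc.succ 0 m r w hm hr hrp, g8_c0 hp hc]
      by_cases h1 : p * m - r = w
      · rw [if_pos h1]
        by_cases h2 : w % p = r
        · have h3 : w = p * (m - 1) + (p - r) := by
            have : p * m = p * (m - 1) + p := by
              obtain ⟨m', rfl⟩ := Nat.exists_eq_add_of_le' hm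
              simp [Nat.mul_add]
            omega
          have h4 : w % p = p - r := by
            rw [h3, Nat.mul_add_mod, Nat.mod_eq_of_lt (by omega)]
          have h5 : w / p = m - 1 := by
            rw [h3, Nat.mul_add_div (by omega), Nat.div_eq_of_lt (by omega), add_zero]
          rw [if_pos h2, h5, g8_one hp hc (0 + 1) m (m - 1) (by omega)]
        · rw [if_neg h2]
      · rw [if_neg h1, add_zero]
        split_ifs
        · exact ih m hmv _
        · exact Nat.zero_le _

theorem g8_l2 (hpp : p.Prime) (hc : IsCC p c) (v w : ℕ) (h : v = w + 2) : c 2 v w = 0 := by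
  have hp := hpp.two_le
  have hw := Nat.div_add_mod w p
  rcases g8_cases p v hp with h0 | ⟨m, hm, rfl, hmv⟩ | ⟨m, r, hm, hr, hrp, rfl, hmv, hlt, hrm⟩
  · rw [hc.lt 2 v w h0]
    simp
  · rw [hc.mul 2 m w hm]
    split_ifs with h1
    · have h2 : p ∣ 2 := by
        have h3 : p ∣ w := Nat.dvd_of_mod_eq_zero h1
        have h4 : p ∣ w + 2 := ⟨m, h.symm⟩
        exact (Nat.dvd_add_right h3).mp h4
      have h5 : p = 2 := le_antisymm (Nat.le_of_dvd (by omega) h2) hp
      subst h5
      exact g8_one hp hc 2 m _ (by omega)
    · rfl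
  · rw [show (2 : ℕ) = 1 + 1 from rfl, hc.succ 1 m r w hm hr hrp]
    have h6 : c 1 (p * m - r) w = 0 := by
      by_contra hne
      have := (g8_le hp hc _ 1 w hne).2 le_rfl
      omega
    rw [h6, add_zero]
    split_ifs with h1
    · have h2 : p ∣ 2 := by
        rw [h1] at hw
        have h3 : p * m = p * (w / p) + 2 := by omega
        exact (Nat.dvd_add_right (Dvd.intro _ rfl)).mp ⟨m, h3.symm⟩
      have h5 : p = 2 := le_antisymm (Nat.le_of_dvd (by omega) h2) hp
      subst h5
      exact g8_one hp hc (1 + 1) m _ (by omega)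
    · rfl

theorem g8_c2 (hpp : p.Prime) (hc : IsCC p c) (v : ℕ) : ∀ w, c 2 v w ≤ 1 := by
  have hp := hpp.two_le
  induction v using Nat.strong_induction_on with
  | _ v ih =>
    intro w
    have hw := Nat.div_add_mod w p
    rcases g8_cases p v hp with h | ⟨m, hm, rfl, hmv⟩ | ⟨m, r, hm, hr, hrp, rfl, hmv, hlt, hrm⟩
    · rw [hc.lt 2 v w h]
      simp
    · rw [hc.mul 2 m w hm]
      split_ifs
      · exact ih m hmv _
      · exact Nat.zero_le _
    · have hX := ih m hmv (w / p)
      rw [show (2 : ℕ) = 1 + 1 from rfl] at hX ⊢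
      rw [hc.succ 1 m r w hm hr hrp]
      obtain ⟨m', rfl⟩ := Nat.exists_eq_add_of_le' hm
      have hpm : p * (m' + 1) - r = p * m' + (p - r) := by
        rw [Nat.mul_add]
        omega
      rcases Nat.eq_zero_or_pos m' with h0 | h0
      · subst h0
        have : c 1 (p * (0 + 1) - r) w = 0 := by
          rw [hc.lt 1 _ w (by rw [hpm]; omega)]
          simp
        rw [this, add_zero]
        split_ifs
        · exact hX
        · exact Nat.zero_le _
      · have hY := g8_c1 hpp hc m' (w / p)
        rw [hpm, show c 1 (p * m' + (p - r)) w = c (0 + 1) (p * m' + (p - r)) w from rfl,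
          hc.succ 0 m' (p - r) w h0 (by omega) (by omega), g8_c0 hp hc]
        obtain ⟨m'', rfl⟩ := Nat.exists_eq_add_of_le' h0
        have hpm2 : p * (m'' + 1) - (p - r) = p * m'' + r := by
          rw [Nat.mul_add]
          omega
        rw [hpm2]
        rw [show (0 + 1 : ℕ) = 1 from rfl] at *
        by_cases hZ : p * m'' + r = w
        · have h4 : w % p = r := by
            rw [← hZ, Nat.mul_add_mod, Nat.mod_eq_of_lt (by omega)]
          have h5 : w / p = m'' := by
            rw [← hZ, Nat.mul_add_div (by omega), Nat.div_eq_of_lt (by omega), add_zero]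
          rw [if_pos hZ, if_pos h4, h5]
          rw [show c (1 + 1) (m'' + 1 + 1) m'' = c 2 (m'' + 1 + 1) m'' from rfl,
            g8_l2 hpp hc _ m'' rfl]
          by_cases h6 : w % p = p - r
          · rw [if_pos h6, g8_one hp hc 1 (m'' + 1) m'' rfl]
          · rw [if_neg h6]
        · rw [if_neg hZ, add_zero]
          by_cases h6 : w % p = r
          · rw [if_pos h6]
            by_cases h7 : w % p = p - r
            · rw [if_pos h7]
              by_cases h8 : c (1 + 1) (m'' + 1 + 1) (w / p) = 0
              · rw [h8, zero_add]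
                exact hY
              · have h9 := g8_par hp hc _ _ _ h8
                have h10 : c 1 (m'' + 1) (w / p) = 0 := by
                  by_contra hne
                  have := g8_par hp hc _ _ _ hne
                  omega
                rw [h10, add_zero]
                exact hX
            · rw [if_neg h7, add_zero]
              exact hX
          · rw [if_neg h6, zero_add]
            split_ifs
            · exact hY
            · exact Nat.zero_le _

theorem p_G8 : S_G8 := by
  intro p hpp
  exact ⟨⟨_, g8_exists p hpp.two_le⟩, fun c hc v w _ => g8_c2 hpp hc v w⟩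

end Pool.Agent.Sp49.Three
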