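import Mathlib
import Pool.Agent.Lib.MP_49c83e_al.Three.Stm

/-! MP_49c83e_al, Theorem III, piece G9: minimal resolutions. -/

namespace Pool.Agent.Sp49.Three

variable (k : Type) [Field k] [IsAlgClosed k] (p : ℕ) [Fact p.Prime] [CharP k p]

/-- the estimate of F2 in terms of w, w / p -/
private theorem g9_fd (hF2 : S_F2 k p) (Q : Ob k) (r : ℕ) (hr : r < p)
    (hQ : QData Q ((p : ℤ) - 1 + r)) (Y : Ob k) (f : ℕ → ℕ)
    (hY : ∀ w : ℕ, fd Y ((w : ℤ) - 1) ≤ f w) (w : ℕ) :
    fd (tens Q (fr p Y)) ((w : ℤ) - 1) ≤ if w % p = r then f (w / p) else 0 := by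
  have hp : 0 < p := (Fact.out : p.Prime).pos
  have h := hF2 Q _ hQ Y ((w : ℤ) - 1)
  by_cases hw : w % p = r
  · rw [if_pos hw]
    have e : (w : ℤ) - 1 - ((p : ℤ) - 1 + r) = (p : ℤ) * (((w / p : ℕ) : ℤ) - 1) := by
      have h1 : (p : ℤ) * ((w / p : ℕ) : ℤ) + ((w % p : ℕ) : ℤ) = w := by
        exact_mod_cast Nat.div_add_mod w p
      rw [hw] at h1
      linear_combination -h1
    rw [e, if_pos (Dvd.intro _ rfl), Int.mul_ediv_cancel_left _ (by exact_mod_cast hp.ne')] at h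
    exact h.trans (hY _)
  · rw [if_neg hw]
    refine h.trans (le_of_eq (if_neg ?_))
    rintro ⟨c, hc⟩
    apply hw
    have h1 : (w : ℤ) = r + (p : ℤ) * (c + 1) := by linear_combination hc
    have h2 : (w : ℤ) % p = r := by
      rw [h1, Int.add_mul_emod_self_left]
      exact Int.emod_eq_of_lt (by positivity) (by exact_mod_cast hr)
    exact_mod_cast h2

theorem p_G9 (hB7 : S_B7 k p) (_hC1 : S_C1 k) (_hD1 : S_D1 k) (_hD3 : S_D3 k) (hD5 : S_D5 k p)
    (hD6 : S_D6 k p) (hE7 : S_E7 k p) (hE8 : S_E8 k p) (hF1 : S_F1 k) (hF2 : S_F2 k p)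
    (hF7 : S_F7 k p) (hG1 : S_G1 k) (hG3 : S_G3 k) (hG4 : S_G4 k) (hG7 : S_G7 k p) : S_G9 k p := by
  have hp : 0 < p := (Fact.out : p.Prime).pos
  have hp2 : 2 ≤ p := (Fact.out : p.Prime).two_le
  obtain ⟨fprod, fzer, fiso, fnab, fneg⟩ := hF1
  intro c hc v
  induction v using Nat.strong_induction_on with
  | _ v ih =>
  intro hv
  by_cases hvp : v < p
  · refine ⟨pt (nab k (v - 1)), hG1.1 _ (hD5.1 _ (by omega)), ?_⟩
    intro i w
    rw [hc.lt i v w hvp]
    cases i with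
    | zero =>
      show fd (nab k (v - 1)) ((w : ℤ) - 1) ≤ _
      refine (fnab _ _).trans ?_
      simp only [true_and]
      by_cases hw : v = w
      · rw [if_pos hw]
        split_ifs <;> omega
      · rw [if_neg (by omega)]
        exact Nat.zero_le _
    | succ i =>
      show fd (zer k) ((w : ℤ) - 1) ≤ _
      rw [fzer]
      omega
  · obtain ⟨m, hm⟩ : ∃ m, m = v / p := ⟨_, rfl⟩
    obtain ⟨r, hr⟩ : ∃ r, r = v % p := ⟨_, rfl⟩
    have hrp : r < p := hr ▸ Nat.mod_lt v hp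
    have hvm : p * m + r = v := by rw [hm, hr]; exact Nat.div_add_mod v p
    have hm1 : 1 ≤ m := by
      rw [hm]
      exact (Nat.one_le_div_iff hp).2 (by omega)
    have hmlt : m < v := by rw [hm]; exact Nat.div_lt_self (by omega) hp2
    obtain ⟨A, ⟨e, he⟩, hA⟩ := ih m hmlt hm1
    by_cases hr0 : r = 0
    · subst hr0
      have hres := hG7 (nab k (p - 1)) hD6 hE8.2.2 _ A e he
      have hiso : Iso (tens (nab k (p - 1)) (fr p (nab k (m - 1)))) (nab k (v - 1)) := by
        have h := hB7 (m - 1)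
        have e1 : p * (m - 1) + (p - 1) = v - 1 := by
          obtain ⟨m', rfl⟩ : ∃ m', m = m' + 1 := ⟨m - 1, by omega⟩
          rw [← hvm]
          simp only [Nat.add_sub_cancel]
          rw [Nat.mul_succ]
          omega
        rwa [e1] at h
      refine ⟨thC p (nab k (p - 1)) A, hG1.2 _ _ _ hiso ⟨_, hres⟩, ?_⟩
      intro i w
      have hv2 : v = p * m := by omega
      rw [hv2, hc.mul i m w hm1]
      exact g9_fd k p hF2 (nab k (p - 1)) 0 hp (by simpa using hF7.2) (A.T i) (c i m) (hA i) w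
    · have hr1 : 1 ≤ r := by omega
      have hpm : p ≤ p * m := Nat.le_mul_of_pos_right p (by omega)
      obtain ⟨A2, ⟨e2, he2⟩, hA2⟩ := ih (p * m - r) (by omega) (by omega)
      have hres := hG7 (Qr k p r) (hE8.1 r hr1 hrp) (hE8.2.1 r hr1 hrp) _ A e he
      obtain ⟨j, π, hj, hπ, hji, hex, hπs⟩ := hE7 m r hm1 hr1 hrp
      obtain ⟨φ, hφ⟩ := hG3 _ _ _ _ _ _ j he2 hres hj
      have hcone := hG4 _ _ _ _ _ _ _ j π φ hj hπ hji hex hπs (NF.nab _) he2 hres hφ
      have hvm1 : p * m + r - 1 = v - 1 := by omega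
      have hcone2 : IsRes (nab k (p * m + r - 1)) (cone A2 (thC p (Qr k p r) A) φ) := ⟨_, hcone⟩
      rw [hvm1] at hcone2
      refine ⟨cone A2 (thC p (Qr k p r) A) φ, hcone2, ?_⟩
      have hb : ∀ i w : ℕ, fd ((thC p (Qr k p r) A).T i) ((w : ℤ) - 1) ≤
          if w % p = r then c i m (w / p) else 0 := fun i w =>
        g9_fd k p hF2 (Qr k p r) r hrp (hF7.1 r hr1 hrp) (A.T i) (c i m) (hA i) w
      intro i w
      rw [← hvm]
      cases i with
      | zero =>
        rw [hc.zero m r w hm1 hr1 hrp]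
        exact hb 0 w
      | succ i =>
        rw [hc.succ i m r w hm1 hr1 hrp]
        exact (fprod _ _ _).trans (Nat.add_le_add (hb (i + 1) w) (hA2 i w))

end Pool.Agent.Sp49.Three
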