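import Mathlib
import Pool.Agent.Lib.MP_49c83e_al.Three.Stm

/-!
MP_49c83e_al, Theorem III, piece K1: the complex K(n) is a resolution of the module of binary
forms of degree n.
-/

namespace Pool.Agent.Sp49.Three

open Matrix TensorProduct

variable (k : Type) [Field k] [IsAlgClosed k]

/-- transport of a resolution along a bijective equivariant map -/
theorem k1_iso (hC1 : S_C1 k) (N N' : Ob k) (A : Cx k) (e : (A.T 0).V →ₗ[k] N.V)
    (j : N.V →ₗ[k] N'.V) (hj : IsHom N N' j) (hinj : Function.Injective j)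
    (hsurj : Function.Surjective j) (h : ResWith N A e) : ResWith N' A (j ∘ₗ e) := by
  have he : IsHom (A.T 0) N' (j ∘ₗ e) := by
    intro g v
    rw [LinearMap.comp_apply, LinearMap.comp_apply, h.he g v, hj]
  have hker : LinearMap.ker e = LinearMap.ker (j ∘ₗ e) := by
    ext v
    rw [LinearMap.mem_ker, LinearMap.mem_ker, LinearMap.comp_apply]
    constructor
    · intro hv
      rw [hv, map_zero]
    · intro hv
      apply hinj
      rw [hv, map_zero]
  refine ⟨he, hsurj.comp h.surj, ?_, h.ex, ?_, h.k1, h.tt⟩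
  · intro v
    rw [← h.ex0 v]
    constructor
    · intro hv
      apply hinj
      rw [map_zero]
      exact hv
    · intro hv
      show j (e v) = 0
      rw [hv, map_zero]
  · refine hC1.1 _ _ ⟨LinearEquiv.ofEq _ _ hker, ?_⟩ h.k0
    intro g v
    rfl

/-- the trivial resolution of the trivial module -/
theorem k1_zero (hD3 : S_D3 k) (N : Ob k) (f : k →ₗ[k] N.V) (hf : IsHom (one k) N f)
    (hinj : Function.Injective f) (hsurj : Function.Surjective f) : ResWith N (C0 k) f := by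
  refine ⟨hf, hsurj, ?_, ?_, ?_, ?_, ?_⟩
  · intro v
    constructor
    · intro hv
      refine ⟨0, ?_⟩
      rw [map_zero]
      exact hinj ((map_zero f).trans hv.symm)
    · rintro ⟨w, hw⟩
      rw [← hw]
      show f 0 = 0
      rw [map_zero]
  · intro i v
    constructor
    · intro _
      exact ⟨0, Subsingleton.elim (α := PUnit) _ _⟩
    · intro _
      cases i with
      | zero => rfl
      | succ i => rfl
  · refine NF.zero _ ?_
    rintro ⟨v, hv⟩
    have hv' : f v = 0 := hv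
    exact Subtype.ext (hinj (hv'.trans (map_zero f).symm))
  · intro i
    refine NF.zero _ ?_
    rintro ⟨v, hv⟩
    exact Subtype.ext (Subsingleton.elim (α := PUnit) _ _)
  · intro i
    cases i with
    | zero => exact TT.pow 0
    | succ i => exact hD3.2.2.2.2

theorem k1_main (hB4 : S_B4 k) (hC1 : S_C1 k) (hD2 : S_D2 k) (hD3 : S_D3 k) (hG2 : S_G2 k)
    (hG4 : S_G4 k) (n : ℕ) :
    ∃ (eA : ((KT k n).A.T 0).V →ₗ[k] (nab k n).V)
      (eB : ((KT k n).B.T 0).V →ₗ[k] (nab k (n + 1)).V),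
      ResWith (nab k n) (KT k n).A eA ∧ ResWith (nab k (n + 1)) (KT k n).B eB ∧
      ∀ u v : ((KT k n).A.T 0).V, eB ((KT k n).ι.f 0 (u, v)) = mW k n (eA u, eA v) := by
  induction n with
  | zero =>
    obtain ⟨f, hf⟩ := hD2.2.2.2.1
    have h0 : ResWith (nab k 0) (C0 k) f.toLinearMap :=
      k1_zero k hD3 (nab k 0) f.toLinearMap hf f.injective f.surjective
    have h1 := hG2 _ _ _ h0
    have h2 := k1_iso k hC1 _ (nab k 1) _ _ (mW k 0) (hB4.1 0).1 hB4.2.2 (hB4.1 0).2 h1
    exact ⟨f.toLinearMap, mW k 0 ∘ₗ tWmap f.toLinearMap, h0, h2, fun u v => rfl⟩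
  | succ n ih =>
    obtain ⟨eA, eB, hA, hB, hc⟩ := ih
    have h1 := hG2 _ _ _ hB
    have hcomp : ∀ v : ((KT k n).A.T 0).V,
        tWmap eB ((phiT (KT k n).A (KT k n).B (KT k n).ι).f 0 v) = jW k n (eA v) := by
      intro v
      have e1 : (phiT (KT k n).A (KT k n).B (KT k n).ι).f 0 v =
          (-((KT k n).ι.f 0 (0, v)), (KT k n).ι.f 0 (v, 0)) := rfl
      rw [e1, tWmap_apply, map_neg, hc, hc, map_zero]
      refine Prod.ext ?_ ?_
      · show -(xm n 0 + ym n (eA v)) = -(ym n (eA v))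
        rw [map_zero, zero_add]
      · show xm n (eA v) + ym n 0 = xm n (eA v)
        rw [map_zero, add_zero]
    have h2 := hG4 (nab k n) (tW (nab k (n + 1))) (nab k (n + 2)) (KT k n).A (tWC (KT k n).B)
      eA (tWmap eB) (jW k n) (mW k (n + 1)) (phiT (KT k n).A (KT k n).B (KT k n).ι)
      (hB4.2.1 n).1 (hB4.1 (n + 1)).1 (hB4.2.1 n).2.1 (hB4.2.1 n).2.2 (hB4.1 (n + 1)).2
      (NF.nab n) hA h1 hcomp
    exact ⟨eB, mW k (n + 1) ∘ₗ tWmap eB, hB, h2, fun u v => rfl⟩

theorem p_K1 (hB4 : S_B4 k) (hC1 : S_C1 k) (hD2 : S_D2 k) (hD3 : S_D3 k) (hG2 : S_G2 k)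
    (hG4 : S_G4 k) : S_K1 k := by
  intro n
  obtain ⟨eA, _, hA, _⟩ := k1_main k hB4 hC1 hD2 hD3 hG2 hG4 n
  exact ⟨eA, hA⟩

end Pool.Agent.Sp49.Three
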