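import Mathlib
import Pool.Agent.Lib.MP_49c83e_al.Three.Stm

/-!
MP_49c83e_al, Theorem III, piece K2: support and bijectivity of the coordinates on K(n).
-/

namespace Pool.Agent.Sp49.Three

variable (k : Type) [Field k] [IsAlgClosed k]

/-- c is a bijective coordinate system with support P -/
def k2_Good {k : Type} [Field k] (P : ℕ → Finset ℕ → Finset ℕ → Prop) (A : Cx k) (c : Coord A) : Prop :=
  ∀ b, (∀ (u : (A.T b).V) S T, c b u S T ≠ 0 → P b S T) ∧ (∀ u : (A.T b).V, c b u = 0 → u = 0) ∧
    (∀ H : Finset ℕ → Finset ℕ → k, (∀ S T, H S T ≠ 0 → P b S T) → ∃ u : (A.T b).V, c b u = H)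

theorem k2_congr {k : Type} [Field k] {P Q : ℕ → Finset ℕ → Finset ℕ → Prop} {A : Cx k}
    {c : Coord A} (h : ∀ b S T, P b S T ↔ Q b S T) (hc : k2_Good P A c) : k2_Good Q A c := by
  have : P = Q := by
    funext b S T
    exact propext (h b S T)
  rwa [← this]

variable {k}

omit [IsAlgClosed k] in
theorem k2_zero : k2_Good (okk 0) (C0 k) co0 := by
  intro b
  rcases b with _ | b
  · have key : ∀ (u : k) S T, (co0 (k := k) 0 : k →ₗ[k] (Finset ℕ → Finset ℕ → k)) u S T =
        u * (if S = ∅ ∧ T = ∅ then (1 : k) else 0) := fun u S T => rfl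
    refine ⟨fun u S T h => ?_, fun u h => ?_, fun H h => ?_⟩
    · have h1 : S = ∅ ∧ T = ∅ := by
        by_contra h2
        apply h
        refine (key u S T).trans ?_
        rw [if_neg h2, mul_zero]
      obtain ⟨rfl, rfl⟩ := h1
      exact ⟨rfl, by simp, by simp⟩
    · have h1 := congrFun (congrFun h ∅) ∅
      have h2 := (key u ∅ ∅).symm.trans h1
      rw [if_pos ⟨rfl, rfl⟩, mul_one] at h2
      exact h2
    · refine ⟨H ∅ ∅, ?_⟩
      funext S T
      refine (key (H ∅ ∅) S T).trans ?_
      by_cases h2 : S = ∅ ∧ T = ∅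
      · rw [if_pos h2, mul_one, h2.1, h2.2]
      · rw [if_neg h2, mul_zero]
        by_contra h3
        have h4 := h S T (fun h5 => h3 h5.symm)
        apply h2
        obtain ⟨h5, h6, h7⟩ := h4
        exact ⟨Finset.card_eq_zero.mp h5, by simpa using h7⟩
  · refine ⟨fun u S T h => ?_, fun u h => rfl, fun H h => ?_⟩
    · exact absurd rfl h
    · refine ⟨PUnit.unit, ?_⟩
      funext S T
      show (0 : k) = H S T
      by_contra h3
      obtain ⟨h5, h6, h7⟩ := h S T (fun h5 => h3 h5.symm)
      have : S.Nonempty := by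
        rw [← Finset.card_pos]
        omega
      obtain ⟨i, hi⟩ := this
      have := (h6 i hi).1
      omega

omit [IsAlgClosed k] in
theorem k2_coW_pos (n : ℕ) (A : Cx k) (c : Coord A) (b : ℕ) (w : (A.T b).V × (A.T b).V)
    (S T : Finset ℕ) (h : n ∈ T) : coW n A c b w S T = c b w.2 S (T.erase n) := by
  show (if n ∈ T then c b w.2 S (T.erase n) else c b w.1 S T) = _
  rw [if_pos h]

omit [IsAlgClosed k] in
theorem k2_coW_neg (n : ℕ) (A : Cx k) (c : Coord A) (b : ℕ) (w : (A.T b).V × (A.T b).V)
    (S T : Finset ℕ) (h : n ∉ T) : coW n A c b w S T = c b w.1 S T := by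
  show (if n ∈ T then c b w.2 S (T.erase n) else c b w.1 S T) = _
  rw [if_neg h]

omit [IsAlgClosed k] in
theorem k2_W (n : ℕ) {P : ℕ → Finset ℕ → Finset ℕ → Prop} {A : Cx k} {c : Coord A}
    (hP : ∀ b S T, P b S T → n ∉ T) (hc : k2_Good P A c) :
    k2_Good (fun b S T => P b S (T.erase n)) (tWC A) (coW n A c) := by
  intro b
  obtain ⟨h1, h2, h3⟩ := hc b
  refine ⟨fun u S T h => ?_, fun u h => ?_, fun H h => ?_⟩
  · by_cases hn : n ∈ T
    · rw [k2_coW_pos n A c b u S T hn] at h
      exact h1 _ _ _ h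
    · rw [k2_coW_neg n A c b u S T hn] at h
      show P b S (T.erase n)
      rw [Finset.erase_eq_of_notMem hn]
      exact h1 _ _ _ h
  · have e1 : (u : (A.T b).V × (A.T b).V).1 = 0 := by
      apply h2
      funext S T
      show _ = (0 : k)
      by_cases hn : n ∈ T
      · by_contra h4
        exact hP _ _ _ (h1 _ _ _ h4) hn
      · rw [← k2_coW_neg n A c b u S T hn]
        exact congrFun (congrFun h S) T
    have e2 : (u : (A.T b).V × (A.T b).V).2 = 0 := by
      apply h2
      funext S T
      show _ = (0 : k)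
      by_cases hn : n ∈ T
      · by_contra h4
        exact hP _ _ _ (h1 _ _ _ h4) hn
      · have h4 := congrFun (congrFun h S) (insert n T)
        rw [k2_coW_pos n A c b u S _ (Finset.mem_insert_self n T), Finset.erase_insert hn] at h4
        exact h4
    exact Prod.ext e1 e2
  · classical
    obtain ⟨u1, hu1⟩ := h3 (fun S T => if n ∈ T then 0 else H S T) (by
      intro S T h4
      by_cases hn : n ∈ T
      · rw [if_pos hn] at h4
        exact absurd rfl h4
      · rw [if_neg hn] at h4
        have : P b S (T.erase n) := h S T h4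
        rwa [Finset.erase_eq_of_notMem hn] at this)
    obtain ⟨u2, hu2⟩ := h3 (fun S T => if n ∈ T then 0 else H S (insert n T)) (by
      intro S T h4
      by_cases hn : n ∈ T
      · rw [if_pos hn] at h4
        exact absurd rfl h4
      · rw [if_neg hn] at h4
        have : P b S ((insert n T).erase n) := h S _ h4
        rwa [Finset.erase_insert hn] at this)
    refine ⟨(u1, u2), ?_⟩
    funext S T
    by_cases hn : n ∈ T
    · rw [k2_coW_pos n A c b _ S T hn]
      show c b u2 S (T.erase n) = _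
      rw [hu2]
      show (if n ∈ T.erase n then 0 else H S (insert n (T.erase n))) = _
      rw [if_neg (Finset.notMem_erase n T), Finset.insert_erase hn]
    · rw [k2_coW_neg n A c b _ S T hn]
      show c b u1 S T = _
      rw [hu1]
      show (if n ∈ T then 0 else H S T) = _
      rw [if_neg hn]

omit [IsAlgClosed k] in
theorem k2_coC_zero (n : ℕ) (A B : Cx k) (φ : ChMap A B) (cA : Coord A) (cB : Coord B)
    (u : (B.T 0).V) : coC n A B φ cA cB 0 u = cB 0 u := rfl

omit [IsAlgClosed k] in
theorem k2_coC_pos (n : ℕ) (A B : Cx k) (φ : ChMap A B) (cA : Coord A) (cB : Coord B) (b : ℕ)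
    (u : (B.T (b + 1)).V) (w : (A.T b).V) (S T : Finset ℕ) (h : n ∈ S) :
    coC n A B φ cA cB (b + 1) (u, w) S T = cB (b + 1) u S T + cA b w (S.erase n) T := by
  show cB (b + 1) u S T + (if n ∈ S then cA b w (S.erase n) T else 0) = _
  rw [if_pos h]

omit [IsAlgClosed k] in
theorem k2_coC_neg (n : ℕ) (A B : Cx k) (φ : ChMap A B) (cA : Coord A) (cB : Coord B) (b : ℕ)
    (u : (B.T (b + 1)).V) (w : (A.T b).V) (S T : Finset ℕ) (h : n ∉ S) :
    coC n A B φ cA cB (b + 1) (u, w) S T = cB (b + 1) u S T := by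
  show cB (b + 1) u S T + (if n ∈ S then cA b w (S.erase n) T else 0) = _
  rw [if_neg h, add_zero]

omit [IsAlgClosed k] in
theorem k2_C (n : ℕ) {P Q : ℕ → Finset ℕ → Finset ℕ → Prop} {A B : Cx k} (φ : ChMap A B)
    {cA : Coord A} {cB : Coord B} (hP : ∀ b S T, P b S T → n ∉ S)
    (hQ : ∀ b S T, Q b S T → n ∉ S) (hA : k2_Good P A cA) (hB : k2_Good Q B cB) :
    k2_Good (fun b S T => Q b S T ∨ ∃ b', b = b' + 1 ∧ n ∈ S ∧ P b' (S.erase n) T)
      (cone A B φ) (coC n A B φ cA cB) := by
  intro b
  rcases b with _ | b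
  · obtain ⟨h1, h2, h3⟩ := hB 0
    refine ⟨fun u S T h => Or.inl (h1 u S T h), fun u h => h2 u h, fun H h => ?_⟩
    obtain ⟨u, hu⟩ := h3 H (fun S T h4 => by
      rcases h S T h4 with h5 | ⟨b', h5, _⟩
      · exact h5
      · omega)
    exact ⟨u, hu⟩
  · obtain ⟨h1, h2, h3⟩ := hB (b + 1)
    obtain ⟨g1, g2, g3⟩ := hA b
    have hB0 : ∀ (u : (B.T (b + 1)).V) S T, n ∈ S → cB (b + 1) u S T = 0 := by
      intro u S T hn
      by_contra h4
      exact hQ _ _ _ (h1 _ _ _ h4) hn
    refine ⟨?_, ?_, fun H h => ?_⟩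
    · rintro ⟨u, w⟩ S T h
      by_cases hn : n ∈ S
      · rw [k2_coC_pos n A B φ cA cB b u w S T hn, hB0 u S T hn, zero_add] at h
        exact Or.inr ⟨b, rfl, hn, g1 _ _ _ h⟩
      · rw [k2_coC_neg n A B φ cA cB b u w S T hn] at h
        exact Or.inl (h1 _ _ _ h)
    · rintro ⟨u, w⟩ h
      have e1 : u = 0 := by
        apply h2
        funext S T
        show _ = (0 : k)
        by_cases hn : n ∈ S
        · exact hB0 u S T hn
        · rw [← k2_coC_neg n A B φ cA cB b u w S T hn]
          exact congrFun (congrFun h S) T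
      have e2 : w = 0 := by
        apply g2
        funext S T
        show _ = (0 : k)
        by_cases hn : n ∈ S
        · by_contra h4
          exact hP _ _ _ (g1 _ _ _ h4) hn
        · have h4 := congrFun (congrFun h (insert n S)) T
          rw [k2_coC_pos n A B φ cA cB b u w _ T (Finset.mem_insert_self n S),
            hB0 u _ T (Finset.mem_insert_self n S), zero_add, Finset.erase_insert hn] at h4
          exact h4
      rw [e1, e2]
      rfl
    · classical
      obtain ⟨u, hu⟩ := h3 (fun S T => if n ∈ S then 0 else H S T) (by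
        intro S T h4
        by_cases hn : n ∈ S
        · rw [if_pos hn] at h4
          exact absurd rfl h4
        · rw [if_neg hn] at h4
          rcases h S T h4 with h5 | ⟨_, _, h5, _⟩
          · exact h5
          · exact absurd h5 hn)
      obtain ⟨w, hw⟩ := g3 (fun S T => if n ∈ S then 0 else H (insert n S) T) (by
        intro S T h4
        by_cases hn : n ∈ S
        · rw [if_pos hn] at h4
          exact absurd rfl h4
        · rw [if_neg hn] at h4
          rcases h _ T h4 with h5 | ⟨b', h5, _, h6⟩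
          · exact absurd (Finset.mem_insert_self n S) (hQ _ _ _ h5)
          · have : b' = b := by omega
            subst this
            rwa [Finset.erase_insert hn] at h6)
      refine ⟨(u, w), ?_⟩
      funext S T
      by_cases hn : n ∈ S
      · rw [k2_coC_pos n A B φ cA cB b u w S T hn, hB0 u S T hn, zero_add, hw]
        show (if n ∈ S.erase n then 0 else H (insert n (S.erase n)) T) = _
        rw [if_neg (Finset.notMem_erase n S), Finset.insert_erase hn]
      · rw [k2_coC_neg n A B φ cA cB b u w S T hn, hu]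
        show (if n ∈ S then 0 else H S T) = _
        rw [if_neg hn]

theorem k2_okk1 (b : ℕ) (S T : Finset ℕ) : okk 0 b S (T.erase 0) ↔ okk (0 + 1) b S T := by
  constructor
  · rintro ⟨h1, h2, h3⟩
    have hS : ∀ i, i ∉ S := fun i hi => by
      have := (h2 i hi).1
      omega
    refine ⟨h1, fun i hi => absurd hi (hS i), fun i hi => ?_⟩
    by_cases h0 : i = 0
    · rw [h0]
      simp
    · have := h3 (Finset.mem_erase.mpr ⟨h0, hi⟩)
      simp at this
  · rintro ⟨h1, h2, h3⟩
    have hS : ∀ i, i ∉ S := fun i hi => by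
      have := (h2 i hi).1
      omega
    refine ⟨h1, fun i hi => absurd hi (hS i), fun i hi => ?_⟩
    rw [Finset.mem_erase] at hi
    have := h3 hi.2
    rw [Finset.mem_range] at this
    omega

theorem k2_okk2 (n b : ℕ) (S T : Finset ℕ) :
    (okk (n + 1) b S (T.erase (n + 1)) ∨ ∃ b', b = b' + 1 ∧ n ∈ S ∧ okk n b' (S.erase n) T) ↔
      okk (n + 2) b S T := by
  constructor
  · rintro (⟨h1, h2, h3⟩ | ⟨b', rfl, hn, h1, h2, h3⟩)
    · refine ⟨h1, fun i hi => ?_, fun i hi => ?_⟩
      · obtain ⟨a1, a2, a3, a4⟩ := h2 i hi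
        refine ⟨by omega, a2, fun h => a3 (Finset.mem_erase.mpr ⟨by omega, h⟩),
          fun h => a4 (Finset.mem_erase.mpr ⟨by omega, h⟩)⟩
      · rw [Finset.mem_range]
        by_cases h0 : i = n + 1
        · omega
        · have := Finset.mem_range.mp (h3 (Finset.mem_erase.mpr ⟨h0, hi⟩))
          omega
    · have hT : ∀ i ∈ T, i < n := fun i hi => Finset.mem_range.mp (h3 hi)
      refine ⟨?_, fun i hi => ?_, fun i hi => ?_⟩
      · rw [← h1, Finset.card_erase_of_mem hn]
        have := Finset.card_pos.mpr ⟨n, hn⟩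
        omega
      · by_cases h0 : i = n
        · subst h0
          refine ⟨by omega, fun h => ?_, fun h => absurd (hT _ h) (by omega),
            fun h => absurd (hT _ h) (by omega)⟩
          have := (h2 (i + 1) (Finset.mem_erase.mpr ⟨by omega, h⟩)).1
          omega
        · obtain ⟨a1, a2, a3, a4⟩ := h2 i (Finset.mem_erase.mpr ⟨h0, hi⟩)
          refine ⟨by omega, fun h => a2 (Finset.mem_erase.mpr ⟨by omega, h⟩), a3, a4⟩
      · have := hT i hi
        rw [Finset.mem_range]
        omega
  · rintro ⟨h1, h2, h3⟩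
    by_cases hn : n ∈ S
    · right
      obtain ⟨c1, c2, c3, c4⟩ := h2 n hn
      refine ⟨b - 1, ?_, hn, ?_, fun i hi => ?_, fun i hi => ?_⟩
      · have := Finset.card_pos.mpr ⟨n, hn⟩
        omega
      · rw [Finset.card_erase_of_mem hn, h1]
      · rw [Finset.mem_erase] at hi
        obtain ⟨a1, a2, a3, a4⟩ := h2 i hi.2
        have h5 : i + 1 ≠ n := fun h => a2 (h ▸ hn)
        have h6 : i ≠ n := hi.1
        refine ⟨by omega, fun h => a2 (Finset.mem_of_mem_erase h), a3, a4⟩
      · have h5 := Finset.mem_range.mp (h3 hi)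
        have h6 : i ≠ n := fun h => c3 (h ▸ hi)
        have h7 : i ≠ n + 1 := fun h => c4 (h ▸ hi)
        rw [Finset.mem_range]
        omega
    · left
      refine ⟨h1, fun i hi => ?_, fun i hi => ?_⟩
      · obtain ⟨a1, a2, a3, a4⟩ := h2 i hi
        have h6 : i ≠ n := fun h => hn (h ▸ hi)
        refine ⟨by omega, a2, fun h => a3 (Finset.mem_of_mem_erase h),
          fun h => a4 (Finset.mem_of_mem_erase h)⟩
      · rw [Finset.mem_erase] at hi
        have := Finset.mem_range.mp (h3 hi.2)
        rw [Finset.mem_range]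
        omega

theorem k2_main (n : ℕ) : k2_Good (okk n) (KT k n).A (coT n).1 ∧
    k2_Good (okk (n + 1)) (KT k n).B (coT n).2 := by
  induction n with
  | zero =>
    refine ⟨k2_zero, ?_⟩
    refine k2_congr k2_okk1 (k2_W 0 ?_ k2_zero)
    rintro b S T ⟨_, _, h3⟩ h
    have := h3 h
    simp at this
  | succ n ih =>
    obtain ⟨ihA, ihB⟩ := ih
    refine ⟨ihB, ?_⟩
    have h1 := k2_W (n + 1) (by
      rintro b S T ⟨_, _, h3⟩ h
      have := h3 h
      simp at this) ihB
    refine k2_congr (k2_okk2 n) (k2_C n (phiT (KT k n).A (KT k n).B (KT k n).ι) ?_ ?_ ihA h1)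
    · rintro b S T ⟨_, h2, _⟩ h
      have := (h2 n h).1
      omega
    · rintro b S T ⟨_, h2, _⟩ h
      have := (h2 n h).1
      omega

variable (k)

theorem p_K2 : S_K2 k := fun n b => (k2_main n).1 b

end Pool.Agent.Sp49.Three
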