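import Mathlib
import Pool.Agent.Lib.MP_49c83e_al.Three.Stm

/-!
MP_49c83e_al, Theorem III, piece K4: the group in coordinates.
-/

namespace Pool.Agent.Sp49.Three

variable {k : Type} [Field k] [IsAlgClosed k]

/-- the action of x(t), y(t), h(s) in coordinates; n places, P = support, Z S = free places -/
structure k4_Act {k : Type} [Field k] (n : ℕ) (P : ℕ → Finset ℕ → Finset ℕ → Prop)
    (Z : Finset ℕ → Finset ℕ) (A : Cx k) (c : Coord A) : Prop where
  X : ∀ b (u : (A.T b).V) S T t, P b S T → c b ((A.T b).ρ (xx t) u) S T =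
    ∑ T' ∈ (Z S).powerset, if T ⊆ T' then t ^ (T' \ T).card * c b u S T' else 0
  Y : ∀ b (u : (A.T b).V) S T t, P b S T → c b ((A.T b).ρ (yy t) u) S T =
    ∑ T' ∈ T.powerset, t ^ (T \ T').card * c b u S T'
  H : ∀ b (u : (A.T b).V) S T (s : kˣ), c b ((A.T b).ρ (hh s) u) S T =
    ((s ^ ((n : ℤ) - 2 * b - 2 * T.card) : kˣ) : k) * c b u S T

omit [IsAlgClosed k] in
theorem k4_congr {n : ℕ} {P Q : ℕ → Finset ℕ → Finset ℕ → Prop} {Z Z' : Finset ℕ → Finset ℕ}
    {A : Cx k} {c : Coord A} (h : ∀ b S T, Q b S T → P b S T ∧ Z S = Z' S)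
    (hc : k4_Act n P Z A c) : k4_Act n Q Z' A c where
  X := fun b u S T t hQ => by
    obtain ⟨h1, h2⟩ := h b S T hQ
    rw [← h2]
    exact hc.X b u S T t h1
  Y := fun b u S T t hQ => hc.Y b u S T t (h b S T hQ).1
  H := hc.H

omit [IsAlgClosed k] in
theorem k4_zero : k4_Act 0 (okk 0) (ZS 0) (C0 k) co0 where
  X := by
    intro b u S T t h
    obtain ⟨h1, h2, h3⟩ := h
    have hT : T = ∅ := by simpa using h3
    have hZ : ZS 0 S = ∅ := by
      ext i
      simp [ZS]
    rw [hZ, hT, Finset.powerset_empty, Finset.sum_singleton, if_pos (Finset.Subset.refl _)]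
    rw [Finset.sdiff_self, Finset.card_empty, pow_zero, one_mul]
    rcases b with _ | b
    · rfl
    · rfl
  Y := by
    intro b u S T t h
    obtain ⟨h1, h2, h3⟩ := h
    have hT : T = ∅ := by simpa using h3
    rw [hT, Finset.powerset_empty, Finset.sum_singleton]
    rw [Finset.sdiff_self, Finset.card_empty, pow_zero, one_mul]
    rcases b with _ | b
    · rfl
    · rfl
  H := by
    intro b u S T s
    rcases b with _ | b
    · have key : ∀ (u : k) S T, (co0 (k := k) 0 : k →ₗ[k] (Finset ℕ → Finset ℕ → k)) u S T =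
        u * (if S = ∅ ∧ T = ∅ then (1 : k) else 0) := fun u S T => rfl
      have e1 : co0 (k := k) 0 (((C0 k).T 0).ρ (hh s) u) S T = co0 (k := k) 0 u S T := rfl
      rw [e1]
      have e2 := key u S T
      by_cases h : S = ∅ ∧ T = ∅
      · rw [h.2]
        simp
      · have e3 : co0 (k := k) 0 u S T = 0 := by
          refine e2.trans ?_
          rw [if_neg h, mul_zero]
        rw [e3, mul_zero]
    · have e1 : ∀ v, co0 (k := k) (b + 1) v S T = 0 := fun v => rfl
      rw [e1, e1, mul_zero]

omit [IsAlgClosed k] in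
theorem k4_coW_pos (n : ℕ) (A : Cx k) (c : Coord A) (b : ℕ) (w : (A.T b).V × (A.T b).V)
    (S T : Finset ℕ) (h : n ∈ T) : coW n A c b w S T = c b w.2 S (T.erase n) := by
  show (if n ∈ T then c b w.2 S (T.erase n) else c b w.1 S T) = _
  rw [if_pos h]

omit [IsAlgClosed k] in
theorem k4_coW_neg (n : ℕ) (A : Cx k) (c : Coord A) (b : ℕ) (w : (A.T b).V × (A.T b).V)
    (S T : Finset ℕ) (h : n ∉ T) : coW n A c b w S T = c b w.1 S T := by
  show (if n ∈ T then c b w.2 S (T.erase n) else c b w.1 S T) = _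
  rw [if_neg h]

omit [IsAlgClosed k] in
theorem k4_xx (X : Ob k) (t : k) (u v : X.V) :
    (tW X).ρ (xx t) (u, v) = (X.ρ (xx t) u + t • X.ρ (xx t) v, X.ρ (xx t) v) := by
  rw [tW_ρ]
  simp [xx]

omit [IsAlgClosed k] in
theorem k4_yy (X : Ob k) (t : k) (u v : X.V) :
    (tW X).ρ (yy t) (u, v) = (X.ρ (yy t) u, t • X.ρ (yy t) u + X.ρ (yy t) v) := by
  rw [tW_ρ]
  simp [yy]

omit [IsAlgClosed k] in
theorem k4_hh (X : Ob k) (s : kˣ) (u v : X.V) :
    (tW X).ρ (hh s) (u, v) = ((s : k) • X.ρ (hh s) u, ((s⁻¹ : kˣ) : k) • X.ρ (hh s) v) := by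
  rw [tW_ρ]
  simp [hh]

omit [IsAlgClosed k] in
theorem k4_W (n : ℕ) {P : ℕ → Finset ℕ → Finset ℕ → Prop} {Z : Finset ℕ → Finset ℕ} {A : Cx k}
    {c : Coord A} (hZ : ∀ S, n ∉ Z S)
    (hc : k4_Act n P Z A c) :
    k4_Act (n + 1) (fun b S T => P b S (T.erase n)) (fun S => insert n (Z S)) (tWC A)
      (coW n A c) where
  X := by
    rintro b ⟨u, v⟩ S T t hP
    have hP' : P b S (T.erase n) := hP
    have e0 : ((tWC A).T b).ρ (xx t) (u, v) =
      ((A.T b).ρ (xx t) u + t • (A.T b).ρ (xx t) v, (A.T b).ρ (xx t) v) := k4_xx (A.T b) t u v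
    rw [e0]
    show coW n A c b _ S T = ∑ T' ∈ (insert n (Z S)).powerset,
      if T ⊆ T' then t ^ (T' \ T).card * coW n A c b (u, v) S T' else 0
    rw [Finset.sum_powerset_insert (hZ S)]
    have hn' : ∀ T' ∈ (Z S).powerset, n ∉ T' := fun T' hT' h =>
      hZ S (Finset.mem_powerset.mp hT' h)
    by_cases hn : n ∈ T
    · rw [k4_coW_pos n A c b _ S T hn]
      show c b ((A.T b).ρ (xx t) v) S (T.erase n) = _
      rw [hc.X b v S (T.erase n) t hP']
      have z : ∑ T' ∈ (Z S).powerset, (if T ⊆ T' then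
          t ^ (T' \ T).card * coW n A c b (u, v) S T' else 0) = 0 := by
        apply Finset.sum_eq_zero
        intro T' hT'
        rw [if_neg]
        intro h
        exact hn' T' hT' (h hn)
      rw [z, zero_add]
      apply Finset.sum_congr rfl
      intro T' hT'
      have h1 : T.erase n ⊆ T' ↔ T ⊆ insert n T' := by
        rw [Finset.subset_insert_iff]
      have h2 : insert n T' \ T = T' \ T.erase n := by
        ext i
        simp only [Finset.mem_sdiff, Finset.mem_insert, Finset.mem_erase]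
        constructor
        · rintro ⟨rfl | h, h3⟩
          · exact absurd hn h3
          · exact ⟨h, fun h4 => h3 h4.2⟩
        · rintro ⟨h, h3⟩
          refine ⟨Or.inr h, fun h4 => h3 ⟨fun h5 => hn' T' hT' (h5 ▸ h), h4⟩⟩
      rw [k4_coW_pos n A c b _ S _ (Finset.mem_insert_self n T'),
        Finset.erase_insert (hn' T' hT'), h2]
      by_cases h3 : T.erase n ⊆ T'
      · rw [if_pos h3, if_pos (h1.mp h3)]
      · rw [if_neg h3, if_neg (fun h4 => h3 (h1.mpr h4))]
    · have hP2 : P b S T := by rwa [Finset.erase_eq_of_notMem hn] at hP'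
      rw [k4_coW_neg n A c b _ S T hn]
      show c b ((A.T b).ρ (xx t) u + t • (A.T b).ρ (xx t) v) S T = _
      rw [map_add, map_smul]
      show c b ((A.T b).ρ (xx t) u) S T + t * c b ((A.T b).ρ (xx t) v) S T = _
      rw [hc.X b u S T t hP2, hc.X b v S T t hP2, Finset.mul_sum]
      congr 1
      · apply Finset.sum_congr rfl
        intro T' hT'
        rw [k4_coW_neg n A c b _ S _ (hn' T' hT')]
      · apply Finset.sum_congr rfl
        intro T' hT'
        have h1 : T ⊆ T' ↔ T ⊆ insert n T' := by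
          rw [Finset.subset_insert_iff, Finset.erase_eq_of_notMem hn]
        have h2 : (insert n T' \ T).card = (T' \ T).card + 1 := by
          rw [Finset.insert_sdiff_of_notMem _ hn, Finset.card_insert_of_notMem]
          rw [Finset.mem_sdiff]
          exact fun h => hn' T' hT' h.1
        rw [k4_coW_pos n A c b _ S _ (Finset.mem_insert_self n T'),
          Finset.erase_insert (hn' T' hT'), h2]
        by_cases h3 : T ⊆ T'
        · rw [if_pos h3, if_pos (h1.mp h3)]
          show t * (t ^ (T' \ T).card * c b v S T') = t ^ ((T' \ T).card + 1) * c b v S T'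
          ring
        · rw [if_neg h3, if_neg (fun h4 => h3 (h1.mpr h4)), mul_zero]
  Y := by
    rintro b ⟨u, v⟩ S T t hP
    have hP' : P b S (T.erase n) := hP
    have e0 : ((tWC A).T b).ρ (yy t) (u, v) =
      ((A.T b).ρ (yy t) u, t • (A.T b).ρ (yy t) u + (A.T b).ρ (yy t) v) := k4_yy (A.T b) t u v
    rw [e0]
    show coW n A c b _ S T = ∑ T' ∈ T.powerset, t ^ (T \ T').card * coW n A c b (u, v) S T'
    by_cases hn : n ∈ T
    · rw [k4_coW_pos n A c b _ S T hn]
      show c b (t • (A.T b).ρ (yy t) u + (A.T b).ρ (yy t) v) S (T.erase n) = _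
      rw [map_add, map_smul]
      show t * c b ((A.T b).ρ (yy t) u) S (T.erase n) + c b ((A.T b).ρ (yy t) v) S (T.erase n) = _
      rw [hc.Y b u S (T.erase n) t hP', hc.Y b v S (T.erase n) t hP', Finset.mul_sum]
      have hT : T = insert n (T.erase n) := (Finset.insert_erase hn).symm
      have hn' : ∀ T' ∈ (T.erase n).powerset, n ∉ T' := fun T' hT' h =>
        Finset.notMem_erase n T (Finset.mem_powerset.mp hT' h)
      have e1 : ∑ T' ∈ T.powerset, t ^ (T \ T').card * coW n A c b (u, v) S T' =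
          ∑ T' ∈ (insert n (T.erase n)).powerset, t ^ (T \ T').card * coW n A c b (u, v) S T' := by
        rw [← hT]
      rw [e1, Finset.sum_powerset_insert (Finset.notMem_erase n T)]
      congr 1
      · apply Finset.sum_congr rfl
        intro T' hT'
        have h2 : (T \ T').card = (T.erase n \ T').card + 1 := by
          have : T \ T' = insert n (T.erase n \ T') := by
            ext i
            simp only [Finset.mem_sdiff, Finset.mem_insert, Finset.mem_erase]
            constructor
            · rintro ⟨h, h3⟩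
              by_cases h4 : i = n
              · exact Or.inl h4
              · exact Or.inr ⟨⟨h4, h⟩, h3⟩
            · rintro (rfl | ⟨⟨h4, h⟩, h3⟩)
              · exact ⟨hn, hn' T' hT'⟩
              · exact ⟨h, h3⟩
          rw [this, Finset.card_insert_of_notMem]
          simp
        rw [k4_coW_neg n A c b _ S _ (hn' T' hT'), h2]
        show t * (t ^ (T.erase n \ T').card * c b u S T') =
          t ^ ((T.erase n \ T').card + 1) * c b u S T'
        ring
      · apply Finset.sum_congr rfl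
        intro T' hT'
        have h2 : T \ insert n T' = T.erase n \ T' := by
          ext i
          simp only [Finset.mem_sdiff, Finset.mem_insert, Finset.mem_erase]
          tauto
        rw [k4_coW_pos n A c b _ S _ (Finset.mem_insert_self n T'),
          Finset.erase_insert (hn' T' hT'), h2]
    · have hP2 : P b S T := by rwa [Finset.erase_eq_of_notMem hn] at hP'
      rw [k4_coW_neg n A c b _ S T hn]
      show c b ((A.T b).ρ (yy t) u) S T = _
      rw [hc.Y b u S T t hP2]
      apply Finset.sum_congr rfl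
      intro T' hT'
      rw [k4_coW_neg n A c b _ S _ (fun h => hn (Finset.mem_powerset.mp hT' h))]
  H := by
    rintro b ⟨u, v⟩ S T s
    have e0 : ((tWC A).T b).ρ (hh s) (u, v) =
      ((s : k) • (A.T b).ρ (hh s) u, ((s⁻¹ : kˣ) : k) • (A.T b).ρ (hh s) v) := k4_hh (A.T b) s u v
    rw [e0]
    by_cases hn : n ∈ T
    · rw [k4_coW_pos n A c b _ S T hn, k4_coW_pos n A c b _ S T hn]
      show c b (((s⁻¹ : kˣ) : k) • (A.T b).ρ (hh s) v) S (T.erase n) = _ * c b v S (T.erase n)
      rw [map_smul]
      show ((s⁻¹ : kˣ) : k) * c b ((A.T b).ρ (hh s) v) S (T.erase n) = _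
      rw [hc.H, ← mul_assoc, ← Units.val_mul, ← zpow_neg_one, ← zpow_add]
      have h1 : (T.erase n).card + 1 = T.card := Finset.card_erase_add_one hn
      have h2 : (-1 : ℤ) + ((n : ℤ) - 2 * b - 2 * (T.erase n).card) =
          ((n + 1 : ℕ) : ℤ) - 2 * b - 2 * T.card := by
        rw [← h1]
        push_cast
        ring
      rw [h2]
    · rw [k4_coW_neg n A c b _ S T hn, k4_coW_neg n A c b _ S T hn]
      show c b ((s : k) • (A.T b).ρ (hh s) u) S T = _ * c b u S T
      rw [map_smul]
      show (s : k) * c b ((A.T b).ρ (hh s) u) S T = _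
      rw [hc.H, ← mul_assoc, ← Units.val_mul]
      have h2 : ((n + 1 : ℕ) : ℤ) - 2 * b - 2 * T.card = 1 + ((n : ℤ) - 2 * b - 2 * T.card) := by
        push_cast
        ring
      rw [h2, zpow_add, zpow_one]

omit [IsAlgClosed k] in
theorem k4_coC_pos (n : ℕ) (A B : Cx k) (φ : ChMap A B) (cA : Coord A) (cB : Coord B) (b : ℕ)
    (u : (B.T (b + 1)).V) (w : (A.T b).V) (S T : Finset ℕ) (h : n ∈ S) :
    coC n A B φ cA cB (b + 1) (u, w) S T = cB (b + 1) u S T + cA b w (S.erase n) T := by
  show cB (b + 1) u S T + (if n ∈ S then cA b w (S.erase n) T else 0) = _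
  rw [if_pos h]

omit [IsAlgClosed k] in
theorem k4_coC_neg (n : ℕ) (A B : Cx k) (φ : ChMap A B) (cA : Coord A) (cB : Coord B) (b : ℕ)
    (u : (B.T (b + 1)).V) (w : (A.T b).V) (S T : Finset ℕ) (h : n ∉ S) :
    coC n A B φ cA cB (b + 1) (u, w) S T = cB (b + 1) u S T := by
  show cB (b + 1) u S T + (if n ∈ S then cA b w (S.erase n) T else 0) = _
  rw [if_neg h, add_zero]

omit [IsAlgClosed k] in
theorem k4_C (n : ℕ) {P Q : ℕ → Finset ℕ → Finset ℕ → Prop} {ZA ZB : Finset ℕ → Finset ℕ}
    {A B : Cx k} (φ : ChMap A B) {cA : Coord A} {cB : Coord B}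
    (hB0 : ∀ b (u : (B.T b).V) S T, n ∈ S → cB b u S T = 0)
    (hA : k4_Act n P ZA A cA) (hB : k4_Act (n + 2) Q ZB B cB) :
    k4_Act (n + 2) (fun b S T => (n ∉ S ∧ Q b S T) ∨ ∃ b', b = b' + 1 ∧ n ∈ S ∧ P b' (S.erase n) T)
      (fun S => if n ∈ S then ZA (S.erase n) else ZB S) (cone A B φ) (coC n A B φ cA cB) where
  X := by
    rintro b u S T t (⟨hn, hQ⟩ | ⟨b, rfl, hn, hP⟩)
    · rcases b with _ | b
      · show cB 0 ((B.T 0).ρ (xx t) u) S T = _
        rw [hB.X 0 u S T t hQ, if_neg hn]
        rfl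
      · obtain ⟨u, w⟩ := u
        show coC n A B φ cA cB (b + 1) ((B.T (b + 1)).ρ (xx t) u, (A.T b).ρ (xx t) w) S T = _
        rw [k4_coC_neg n A B φ cA cB b _ _ S T hn, hB.X (b + 1) u S T t hQ, if_neg hn]
        apply Finset.sum_congr rfl
        intro T' _
        rw [k4_coC_neg n A B φ cA cB b u w S T' hn]
    · obtain ⟨u, w⟩ := u
      show coC n A B φ cA cB (b + 1) ((B.T (b + 1)).ρ (xx t) u, (A.T b).ρ (xx t) w) S T = _
      rw [k4_coC_pos n A B φ cA cB b _ _ S T hn, hB0 _ _ _ _ hn, zero_add,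
        hA.X b w (S.erase n) T t hP, if_pos hn]
      apply Finset.sum_congr rfl
      intro T' _
      rw [k4_coC_pos n A B φ cA cB b u w S T' hn, hB0 _ _ _ _ hn, zero_add]
  Y := by
    rintro b u S T t (⟨hn, hQ⟩ | ⟨b, rfl, hn, hP⟩)
    · rcases b with _ | b
      · show cB 0 ((B.T 0).ρ (yy t) u) S T = _
        rw [hB.Y 0 u S T t hQ]
        rfl
      · obtain ⟨u, w⟩ := u
        show coC n A B φ cA cB (b + 1) ((B.T (b + 1)).ρ (yy t) u, (A.T b).ρ (yy t) w) S T = _
        rw [k4_coC_neg n A B φ cA cB b _ _ S T hn, hB.Y (b + 1) u S T t hQ]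
        apply Finset.sum_congr rfl
        intro T' _
        rw [k4_coC_neg n A B φ cA cB b u w S T' hn]
    · obtain ⟨u, w⟩ := u
      show coC n A B φ cA cB (b + 1) ((B.T (b + 1)).ρ (yy t) u, (A.T b).ρ (yy t) w) S T = _
      rw [k4_coC_pos n A B φ cA cB b _ _ S T hn, hB0 _ _ _ _ hn, zero_add,
        hA.Y b w (S.erase n) T t hP]
      apply Finset.sum_congr rfl
      intro T' _
      rw [k4_coC_pos n A B φ cA cB b u w S T' hn, hB0 _ _ _ _ hn, zero_add]
  H := by
    rintro b u S T s
    rcases b with _ | b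
    · exact hB.H 0 u S T s
    · obtain ⟨u, w⟩ := u
      show coC n A B φ cA cB (b + 1) ((B.T (b + 1)).ρ (hh s) u, (A.T b).ρ (hh s) w) S T = _
      by_cases hn : n ∈ S
      · rw [k4_coC_pos n A B φ cA cB b _ _ S T hn, k4_coC_pos n A B φ cA cB b _ _ S T hn,
          hB0 _ _ _ _ hn, hB0 _ _ _ _ hn, zero_add, zero_add, hA.H]
        have h2 : (n : ℤ) - 2 * b - 2 * T.card =
            ((n + 2 : ℕ) : ℤ) - 2 * (b + 1 : ℕ) - 2 * T.card := by
          push_cast
          ring
        rw [h2]
      · rw [k4_coC_neg n A B φ cA cB b _ _ S T hn, k4_coC_neg n A B φ cA cB b _ _ S T hn]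
        exact hB.H (b + 1) u S T s

theorem k4_main (hK2 : S_K2 k) (n : ℕ) : k4_Act n (okk n) (ZS n) (KT k n).A (coT n).1 ∧
    k4_Act (n + 1) (okk (n + 1)) (ZS (n + 1)) (KT k n).B (coT n).2 := by
  induction n with
  | zero =>
    refine ⟨k4_zero, ?_⟩
    refine k4_congr ?_ (k4_W 0 ?_ k4_zero)
    · rintro b S T ⟨h1, h2, h3⟩
      have hS : S = ∅ := by
        rw [Finset.eq_empty_iff_forall_notMem]
        intro i hi
        have := (h2 i hi).1
        omega
      subst hS
      refine ⟨⟨h1, fun i hi => absurd hi (Finset.notMem_empty i), fun i hi => ?_⟩, ?_⟩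
      · rw [Finset.mem_erase] at hi
        have := Finset.mem_range.mp (h3 hi.2)
        omega
      · ext i
        simp [ZS]
    · intro S h
      simp [ZS] at h
  | succ n ih =>
    obtain ⟨ihA, ihB⟩ := ih
    refine ⟨ihB, ?_⟩
    have h1 := k4_W (n + 1) (by
      intro S h
      simp [ZS] at h) ihB
    have hB0 : ∀ b (u : ((tWC (KT k n).B).T b).V) (S T : Finset ℕ), n ∈ S →
        coW (n + 1) (KT k n).B (coT n).2 b u S T = 0 := by
      intro b u S T hn
      have h0 : ∀ (v : ((KT k n).B.T b).V) (T : Finset ℕ), (coT n).2 b v S T = 0 := by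
        intro v T
        by_contra h
        obtain ⟨_, h4, _⟩ := (hK2 (n + 1) b).1 v S T h
        have := (h4 n hn).1
        omega
      by_cases hT : n + 1 ∈ T
      · rw [k4_coW_pos (n + 1) (KT k n).B (coT n).2 b u S T hT]
        exact h0 _ _
      · rw [k4_coW_neg (n + 1) (KT k n).B (coT n).2 b u S T hT]
        exact h0 _ _
    refine k4_congr ?_ (k4_C n (phiT (KT k n).A (KT k n).B (KT k n).ι) hB0 ihA h1)
    rintro b S T ⟨h1, h2, h3⟩
    by_cases hn : n ∈ S
    · obtain ⟨c1, c2, c3, c4⟩ := h2 n hn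
      constructor
      · right
        refine ⟨b - 1, ?_, hn, ?_, fun i hi => ?_, fun i hi => ?_⟩
        · have := Finset.card_pos.mpr ⟨n, hn⟩
          omega
        · rw [Finset.card_erase_of_mem hn, h1]
        · rw [Finset.mem_erase] at hi
          obtain ⟨a1, a2, a3, a4⟩ := h2 i hi.2
          have h5 : i + 1 ≠ n := fun h => a2 (h ▸ hn)
          have h6 : i ≠ n := hi.1
          refine ⟨by omega, fun h => a2 (Finset.mem_of_mem_erase h), a3, a4⟩
        · have h5 := Finset.mem_range.mp (h3 hi)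
          have h6 : i ≠ n := fun h => c3 (h ▸ hi)
          have h7 : i ≠ n + 1 := fun h => c4 (h ▸ hi)
          rw [Finset.mem_range]
          omega
      · show (if n ∈ S then ZS n (S.erase n) else insert (n + 1) (ZS (n + 1) S)) = ZS (n + 2) S
        rw [if_pos hn]
        ext i
        simp only [ZS, Finset.mem_sdiff, Finset.mem_range, Finset.mem_union, Finset.mem_erase,
          Finset.mem_image, not_or, not_exists, not_and, and_imp]
        constructor
        · rintro ⟨a1, a2, a3⟩
          refine ⟨by omega, a2 (by omega), fun j hj => ?_⟩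
          by_cases hjn : j = n
          · omega
          · exact a3 j hjn hj
        · rintro ⟨a1, a2, a3⟩
          have a4 : i ≠ n := fun h => a2 (h ▸ hn)
          have a5 := a3 n hn
          refine ⟨by omega, fun _ => a2, fun j _ hj => a3 j hj⟩
    · constructor
      · left
        refine ⟨hn, h1, fun i hi => ?_, fun i hi => ?_⟩
        · obtain ⟨a1, a2, a3, a4⟩ := h2 i hi
          have h6 : i ≠ n := fun h => hn (h ▸ hi)
          refine ⟨by omega, a2, fun h => a3 (Finset.mem_of_mem_erase h),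
            fun h => a4 (Finset.mem_of_mem_erase h)⟩
        · rw [Finset.mem_erase] at hi
          have := Finset.mem_range.mp (h3 hi.2)
          rw [Finset.mem_range]
          omega
      · show (if n ∈ S then ZS n (S.erase n) else insert (n + 1) (ZS (n + 1) S)) = ZS (n + 2) S
        rw [if_neg hn]
        ext i
        simp only [ZS, Finset.mem_sdiff, Finset.mem_range, Finset.mem_union, Finset.mem_insert,
          Finset.mem_image, not_or, not_exists, not_and]
        constructor
        · rintro (rfl | ⟨a1, a2, a3⟩)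
          · refine ⟨by omega, fun h => ?_, fun j hj h => ?_⟩
            · have := (h2 _ h).1
              omega
            · exact hn (by rwa [show j = n by omega] at hj)
          · exact ⟨by omega, a2, a3⟩
        · rintro ⟨a1, a2, a3⟩
          by_cases h4 : i = n + 1
          · exact Or.inl h4
          · exact Or.inr ⟨by omega, a2, a3⟩

variable (k)

theorem p_K4 (hK2 : S_K2 k) : S_K4 k := by
  intro n b u S T
  have h := (k4_main hK2 n).1
  refine ⟨fun t hok => ?_, fun t hok => ?_, fun s => ?_⟩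
  · rw [Finset.sum_filter]
    exact h.X b u S T t hok
  · exact h.Y b u S T t hok
  · exact h.H b u S T s

end Pool.Agent.Sp49.Three
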