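import Mathlib
import Pool.Agent.Lib.MP_49c83e_al.Three.Stm

/-!
MP_49c83e_al, Theorem III, piece K5: highest weight vectors of K(n) in coordinates.
-/

namespace Pool.Agent.Sp49.Three

variable (k : Type) [Field k] [IsAlgClosed k]

theorem k5_exp (a b : ℤ) (h : a ≠ b) : ∃ s : kˣ, ((s ^ a : kˣ) : k) ≠ ((s ^ b : kˣ) : k) := by
  classical
  obtain ⟨c, hc⟩ := Infinite.exists_notMem_finset ({0, 1} : Finset k)
  have hc0 : c ≠ 0 := fun h => hc (by simp [h])
  have hc1 : c ≠ 1 := fun h => hc (by simp [h])
  obtain ⟨z, hz⟩ := IsAlgClosed.exists_pow_nat_eq c (n := (a - b).natAbs) (by omega)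
  have hz0 : z ≠ 0 := by
    rintro rfl
    rw [zero_pow (by omega)] at hz
    exact hc0 hz.symm
  refine ⟨Units.mk0 z hz0, fun h1 => hc1 ?_⟩
  have h2 : (Units.mk0 z hz0) ^ (a - b) = 1 := by
    rw [zpow_sub, Units.ext h1, mul_inv_cancel]
  have h3 : (Units.mk0 z hz0) ^ (a - b).natAbs = 1 := by
    rcases Int.natAbs_eq (a - b) with h4 | h4
    · rw [h4, zpow_natCast] at h2
      exact h2
    · rw [h4, zpow_neg, inv_eq_one, zpow_natCast] at h2
      exact h2
  have h5 := congrArg (fun u : kˣ => (u : k)) h3
  simp only [Units.val_pow_eq_pow_val, Units.val_mk0, Units.val_one] at h5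
  rw [← hz, h5]

/-- nonzero coordinates of a weight vector -/
theorem k5_wt (hK4 : S_K4 k) (n b : ℕ) (a : ℤ) (u : ((KC k n).T b).V)
    (hu : u ∈ wt ((KC k n).T b) a) (S T : Finset ℕ) (h : co n b u S T ≠ 0) :
    (n : ℤ) - 2 * b - 2 * T.card = a := by
  by_contra hne
  obtain ⟨s, hs⟩ := k5_exp k _ _ hne
  have h1 := (hK4 n b u S T).2.2 s
  rw [hu s, map_smul] at h1
  have h2 : ((s ^ a : kˣ) : k) * co n b u S T =
      ((s ^ ((n : ℤ) - 2 * b - 2 * T.card) : kˣ) : k) * co n b u S T := h1
  exact hs (mul_right_cancel₀ h h2).symm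

theorem k5_ok_sub (n b : ℕ) (S T : Finset ℕ) (h : okk n b S T) : T ⊆ ZS n S := by
  obtain ⟨h1, h2, h3⟩ := h
  intro i hi
  rw [ZS, Finset.mem_sdiff, Finset.mem_union, Finset.mem_image]
  refine ⟨h3 hi, ?_⟩
  rintro (h4 | ⟨j, hj, rfl⟩)
  · exact (h2 i h4).2.2.1 hi
  · exact (h2 j hj).2.2.2 hi

theorem k5_ok_of (n b : ℕ) (S T T' : Finset ℕ) (h : okk n b S T) (hT : T' ⊆ ZS n S) :
    okk n b S T' := by
  obtain ⟨h1, h2, h3⟩ := h
  have h4 : ∀ i ∈ T', i < n ∧ i ∉ S ∧ ∀ j ∈ S, j + 1 ≠ i := by
    intro i hi
    have := hT hi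
    rw [ZS, Finset.mem_sdiff, Finset.mem_union, Finset.mem_image, Finset.mem_range] at this
    refine ⟨this.1, fun h => this.2 (Or.inl h), fun j hj h => this.2 (Or.inr ⟨j, hj, h⟩)⟩
  refine ⟨h1, fun i hi => ⟨(h2 i hi).1, (h2 i hi).2.1, fun h => (h4 i h).2.1 hi,
    fun h => (h4 _ h).2.2 i hi rfl⟩, fun i hi => ?_⟩
  rw [Finset.mem_range]
  exact (h4 i hi).1

omit [IsAlgClosed k] in
/-- the sum in the action of x(t), for a function supported on q-sets -/
theorem k5_sum (Z : Finset ℕ) (q : ℕ) (h : Finset ℕ → k) (hh : ∀ T, h T ≠ 0 → T ⊆ Z ∧ T.card = q)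
    (T : Finset ℕ) (t : k) :
    ∑ T' ∈ Z.powerset.filter (fun T' => T ⊆ T'), t ^ (T' \ T).card * h T' =
      t ^ (q - T.card) * ∑ T' ∈ (Z.powersetCard q).filter (fun T' => T ⊆ T'), h T' := by
  rw [Finset.mul_sum]
  symm
  have hsub : (Z.powersetCard q).filter (fun T' => T ⊆ T') ⊆
      Z.powerset.filter (fun T' => T ⊆ T') := by
    intro T' hT'
    rw [Finset.mem_filter, Finset.mem_powersetCard] at hT'
    rw [Finset.mem_filter, Finset.mem_powerset]
    exact ⟨hT'.1.1, hT'.2⟩
  rw [← Finset.sum_subset hsub]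
  · apply Finset.sum_congr rfl
    intro T' hT'
    rw [Finset.mem_filter, Finset.mem_powersetCard] at hT'
    rw [Finset.card_sdiff_of_subset hT'.2, hT'.1.2]
  · intro T' h1 h2
    rw [Finset.mem_filter, Finset.mem_powerset] at h1
    have : h T' = 0 := by
      by_contra h3
      apply h2
      rw [Finset.mem_filter, Finset.mem_powersetCard]
      exact ⟨⟨h1.1, (hh T' h3).2⟩, h1.2⟩
    rw [this, mul_zero]

theorem p_K5 (hK2 : S_K2 k) (hK4 : S_K4 k) : S_K5 k := by
  intro n b r q hq _
  constructor
  · intro u hu S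
    have hsup : ∀ T, co n b u S T ≠ 0 → T ⊆ ZS n S ∧ T.card = q := by
      intro T hT
      refine ⟨k5_ok_sub n b S T ((hK2 n b).1 u S T hT), ?_⟩
      have := k5_wt k hK4 n b _ u hu.1 S T hT
      omega
    refine ⟨hsup, fun T' hT' hcard => ?_⟩
    by_cases hok : ∃ T, co n b u S T ≠ 0
    · obtain ⟨T, hT⟩ := hok
      have h1 := k5_ok_of n b S T T' ((hK2 n b).1 u S T hT) hT'
      have h2 := (hK4 n b u S T').1 1 h1
      rw [hu.2 1, k5_sum k (ZS n S) q (co n b u S) hsup T' 1, one_pow, one_mul] at h2
      rw [← h2]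
      by_contra h3
      have := (hsup T' h3).2
      omega
    · push Not at hok
      exact Finset.sum_eq_zero fun T _ => hok T
  · classical
    intro S hS h hP
    obtain ⟨u, hu⟩ := (hK2 n b).2.2 (fun S' T => if S' = S then h T else 0) (by
      intro S' T hne
      by_cases h1 : S' = S
      · subst h1
        rw [if_pos rfl] at hne
        exact k5_ok_of n b S' ∅ T hS (hP.1 T hne).1
      · rw [if_neg h1] at hne
        exact absurd rfl hne)
    have huS : ∀ S' T, co n b u S' T = if S' = S then h T else 0 := by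
      intro S' T
      rw [hu]
    have hcard : ∀ S' T, co n b u S' T ≠ 0 → T.card = q := by
      intro S' T hne
      rw [huS] at hne
      by_cases h1 : S' = S
      · rw [if_pos h1] at hne
        exact (hP.1 T hne).2
      · rw [if_neg h1] at hne
        exact absurd rfl hne
    refine ⟨u, ⟨fun s => ?_, fun t => ?_⟩, huS⟩
    · rw [← sub_eq_zero]
      apply (hK2 n b).2.1
      funext S' T
      rw [map_sub, map_smul]
      show co n b (((KC k n).T b).ρ (hh s) u) S' T -
        ((s ^ ((n : ℤ) - 2 * r) : kˣ) : k) * co n b u S' T = 0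
      rw [(hK4 n b u S' T).2.2 s]
      by_cases h0 : co n b u S' T = 0
      · rw [h0, mul_zero, mul_zero, sub_zero]
      · have h1 := hcard S' T h0
        have h2 : (n : ℤ) - 2 * b - 2 * T.card = (n : ℤ) - 2 * r := by
          rw [h1, ← hq]
          push_cast
          ring
        rw [h2, sub_self]
    · rw [← sub_eq_zero]
      apply (hK2 n b).2.1
      funext S' T
      rw [map_sub]
      show co n b (((KC k n).T b).ρ (xx t) u) S' T - co n b u S' T = 0
      by_cases hok : okk n b S' T
      · rw [(hK4 n b u S' T).1 t hok]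
        by_cases h1 : S' = S
        · subst h1
          have e : ∀ T, co n b u S' T = h T := by
            intro T
            rw [huS, if_pos rfl]
          have e2 : ∑ T' ∈ (ZS n S').powerset.filter (fun T' => T ⊆ T'),
              t ^ (T' \ T).card * co n b u S' T' =
              ∑ T' ∈ (ZS n S').powerset.filter (fun T' => T ⊆ T'),
              t ^ (T' \ T).card * h T' := Finset.sum_congr rfl fun T' _ => by rw [e]
          rw [e2, e, k5_sum k (ZS n S') q h hP.1 T t]
          have hTZ := k5_ok_sub n b S' T hok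
          rcases lt_trichotomy T.card q with h2 | h2 | h2
          · rw [hP.2 T hTZ h2, mul_zero, zero_sub, neg_eq_zero]
            by_contra h3
            have := (hP.1 T h3).2
            omega
          · rw [h2, Nat.sub_self, pow_zero, one_mul]
            have e3 : ((ZS n S').powersetCard q).filter (fun T' => T ⊆ T') = {T} := by
              ext T'
              rw [Finset.mem_filter, Finset.mem_powersetCard, Finset.mem_singleton]
              constructor
              · rintro ⟨⟨a1, a2⟩, a3⟩
                exact (Finset.eq_of_subset_of_card_le a3 (by omega)).symm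
              · rintro rfl
                exact ⟨⟨hTZ, h2⟩, Finset.Subset.refl _⟩
            rw [e3, Finset.sum_singleton, sub_self]
          · have e3 : ((ZS n S').powersetCard q).filter (fun T' => T ⊆ T') = ∅ := by
              rw [Finset.eq_empty_iff_forall_notMem]
              intro T' hT'
              rw [Finset.mem_filter, Finset.mem_powersetCard] at hT'
              have := Finset.card_le_card hT'.2
              omega
            rw [e3, Finset.sum_empty, mul_zero, zero_sub, neg_eq_zero]
            by_contra h3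
            have := (hP.1 T h3).2
            omega
        · have e : ∀ T, co n b u S' T = 0 := by
            intro T
            rw [huS, if_neg h1]
          rw [e, sub_zero]
          exact Finset.sum_eq_zero fun T' _ => by rw [e, mul_zero]
      · have e : ∀ v : ((KC k n).T b).V, co n b v S' T = 0 := by
          intro v
          by_contra h0
          exact hok ((hK2 n b).1 v S' T h0)
        rw [e, e, sub_zero]

end Pool.Agent.Sp49.Three
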