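import Mathlib
import Pool.Agent.Lib.MP_49c83e_al.Three.Stm

/-!
MP_49c83e_al, Theorem III, piece K6: degrees b > r have no highest weight vectors of weight n - 2r.
-/

namespace Pool.Agent.Sp49.Three

variable (k : Type) [Field k] [IsAlgClosed k]

theorem k6_exp (a b : ℤ) (h : a ≠ b) : ∃ s : kˣ, ((s ^ a : kˣ) : k) ≠ ((s ^ b : kˣ) : k) := by
  classical
  obtain ⟨c, hc⟩ := Infinite.exists_notMem_finset ({0, 1} : Finset k)
  have hc0 : c ≠ 0 := fun h => hc (by simp [h])
  have hc1 : c ≠ 1 := fun h => hc (by simp [h])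
  obtain ⟨z, hz⟩ := IsAlgClosed.exists_pow_nat_eq c (n := (a - b).natAbs) (by omega)
  have hz0 : z ≠ 0 := by
    rintro rfl
    rw [zero_pow (by omega)] at hz
    exact hc0 hz.symm
  refine ⟨Units.mk0 z hz0, fun h1 => hc1 ?_⟩
  have h2 : (Units.mk0 z hz0) ^ (a - b) = 1 := by
    rw [zpow_sub, Units.ext h1, mul_inv_cancel]
  have h3 : (Units.mk0 z hz0) ^ (a - b).natAbs = 1 := by
    rcases Int.natAbs_eq (a - b) with h4 | h4
    · rw [h4, zpow_natCast] at h2
      exact h2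
    · rw [h4, zpow_neg, inv_eq_one, zpow_natCast] at h2
      exact h2
  have h5 := congrArg (fun u : kˣ => (u : k)) h3
  simp only [Units.val_pow_eq_pow_val, Units.val_mk0, Units.val_one] at h5
  rw [← hz, h5]

/-- nonzero coordinates of a weight vector -/
theorem k6_wt (hK4 : S_K4 k) (n b : ℕ) (a : ℤ) (u : ((KC k n).T b).V)
    (hu : u ∈ wt ((KC k n).T b) a) (S T : Finset ℕ) (h : co n b u S T ≠ 0) :
    (n : ℤ) - 2 * b - 2 * T.card = a := by
  by_contra hne
  obtain ⟨s, hs⟩ := k6_exp k _ _ hne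
  have h1 := (hK4 n b u S T).2.2 s
  rw [hu s, map_smul] at h1
  have h2 : ((s ^ a : kˣ) : k) * co n b u S T =
      ((s ^ ((n : ℤ) - 2 * b - 2 * T.card) : kˣ) : k) * co n b u S T := h1
  exact hs (mul_right_cancel₀ h h2).symm

theorem p_K6 (hK2 : S_K2 k) (hK4 : S_K4 k) : S_K6 k := by
  intro n b r hrb u hu
  apply (hK2 n b).2.1
  funext S T
  show _ = (0 : k)
  by_contra h
  have := k6_wt k hK4 n b _ u hu.1 S T h
  omega

end Pool.Agent.Sp49.Three
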