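import Mathlib
import Pool.Agent.Lib.MP_49c83e_al.Three.Stm

/-!
MP_49c83e_al, Theorem III, piece K7: functionals which kill NN, in coordinates.
-/

namespace Pool.Agent.Sp49.Three

theorem k7_ok {n b : ℕ} {S T : Finset ℕ} : okk n b S T ↔ okk n b S ∅ ∧ T ⊆ ZS n S := by
  unfold okk ZS
  constructor
  · rintro ⟨h1, h2, h3⟩
    refine ⟨⟨h1, fun i hi => ⟨(h2 i hi).1, (h2 i hi).2.1, by simp, by simp⟩, by simp⟩, ?_⟩
    intro a ha
    rw [Finset.mem_sdiff, Finset.mem_union, Finset.mem_image]
    refine ⟨h3 ha, ?_⟩
    rintro (h | ⟨i, hi, rfl⟩)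
    · exact (h2 a h).2.2.1 ha
    · exact (h2 i hi).2.2.2 ha
  · rintro ⟨⟨h1, h2, -⟩, h3⟩
    refine ⟨h1, fun i hi => ⟨(h2 i hi).1, (h2 i hi).2.1, fun h => ?_, fun h => ?_⟩,
      fun a ha => (Finset.mem_sdiff.1 (h3 ha)).1⟩
    · exact (Finset.mem_sdiff.1 (h3 h)).2 (Finset.mem_union_left _ hi)
    · exact (Finset.mem_sdiff.1 (h3 h)).2 (Finset.mem_union_right _ (Finset.mem_image_of_mem _ hi))

theorem k7_range {n b : ℕ} {S T : Finset ℕ} (h : okk n b S T) : S ⊆ Finset.range n := by
  intro i hi
  have := (h.2.1 i hi).1
  rw [Finset.mem_range]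
  omega

variable (k : Type) [Field k] [IsAlgClosed k]

/-- exponents are determined by the powers of all units -/
theorem k7_exp (a b : ℤ) (h : ∀ s : kˣ, ((s ^ a : kˣ) : k) = ((s ^ b : kˣ) : k)) : a = b := by
  have hinf : Infinite k := IsAlgClosed.instInfinite
  have key : ∀ m : ℕ, (∀ s : kˣ, s ^ m = 1) → m = 0 := by
    intro m hm
    by_contra hne
    have h1 : Finsupp.single (m + 1) (1 : k) = Finsupp.single 1 (1 : k) := by
      apply pev_inj (k := k)
      intro t
      rw [pev_single, pev_single]
      by_cases ht : t = 0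
      · rw [ht, zero_pow (by omega), pow_one]
      · have h2 := hm (Units.mk0 t ht)
        have h3 := congrArg (fun u : kˣ => (u : k)) h2
        simp only [Units.val_pow_eq_pow_val, Units.val_mk0, Units.val_one] at h3
        rw [pow_succ, h3, one_mul, pow_one]
    have h2 := DFunLike.congr_fun h1 1
    rw [Finsupp.single_eq_same, Finsupp.single_apply, if_neg (by omega)] at h2
    exact zero_ne_one h2
  have h1 : ∀ s : kˣ, s ^ (a - b).natAbs = 1 := by
    intro s
    have h2 : s ^ a = s ^ b := Units.ext (h s)
    have h3 : s ^ (a - b) = 1 := by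
      rw [zpow_sub, h2, mul_inv_cancel]
    rcases Int.natAbs_eq (a - b) with h4 | h4
    · rw [h4, zpow_natCast] at h3
      exact h3
    · rw [h4, zpow_neg, inv_eq_one, zpow_natCast] at h3
      exact h3
  have h2 := key _ h1
  have h3 := Int.natAbs_eq_zero.1 h2
  linarith

/-- the basis vectors -/
theorem k7_e (hK2 : S_K2 k) (n b : ℕ) : ∃ e : Finset ℕ → Finset ℕ → ((KC k n).T b).V,
    ∀ S T, okk n b S T → ∀ S' T', co n b (e S T) S' T' = if S' = S ∧ T' = T then 1 else 0 := by
  classical
  have h : ∀ S T, ∃ u : ((KC k n).T b).V, okk n b S T →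
      ∀ S' T', co n b u S' T' = if S' = S ∧ T' = T then 1 else 0 := by
    intro S T
    by_cases hST : okk n b S T
    · obtain ⟨u, hu⟩ := (hK2 n b).2.2 (fun S' T' => if S' = S ∧ T' = T then 1 else 0) (by
        intro S' T' h
        have h1 : S' = S ∧ T' = T := by
          by_contra h'
          exact h (if_neg h')
        rw [h1.1, h1.2]
        exact hST)
      exact ⟨u, fun _ S' T' => by rw [hu]⟩
    · exact ⟨0, fun h => absurd h hST⟩
  choose e he using h
  exact ⟨e, he⟩

/-- two vectors with the same admissible coordinates are equal -/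
theorem k7_ext (hK2 : S_K2 k) (n b : ℕ) (u v : ((KC k n).T b).V)
    (h : ∀ S T, okk n b S T → co n b u S T = co n b v S T) : u = v := by
  rw [← sub_eq_zero]
  apply (hK2 n b).2.1
  funext S T
  by_cases hST : okk n b S T
  · rw [map_sub]
    show co n b u S T - co n b v S T = 0
    rw [h S T hST, sub_self]
  · by_contra h1
    exact hST ((hK2 n b).1 _ S T h1)

theorem k7_sum_apply {ι : Type} (n b : ℕ) (s : Finset ι) (c : ι → k)
    (f : ι → ((KC k n).T b).V) (S T : Finset ℕ) :
    co n b (∑ i ∈ s, c i • f i) S T = ∑ i ∈ s, c i * co n b (f i) S T := by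
  rw [map_sum, Finset.sum_apply, Finset.sum_apply]
  refine Finset.sum_congr rfl fun i _ => ?_
  rw [map_smul]
  rfl

/-- y(t) on a basis vector -/
theorem k7_ye (hK2 : S_K2 k) (hK4 : S_K4 k) (n b : ℕ)
    (e : Finset ℕ → Finset ℕ → ((KC k n).T b).V)
    (he : ∀ S T, okk n b S T → ∀ S' T', co n b (e S T) S' T' = if S' = S ∧ T' = T then 1 else 0)
    (S T' : Finset ℕ) (hok : okk n b S T') (t : k) :
    ((KC k n).T b).ρ (yy t) (e S T') =
      ∑ T'' ∈ (ZS n S).powerset.filter (fun T'' => T' ⊆ T''), t ^ (T'' \ T').card • e S T'' := by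
  classical
  apply k7_ext k hK2
  intro S1 T1 h1
  rw [(hK4 n b (e S T') S1 T1).2.1 t h1, k7_sum_apply]
  have h2 : ∀ T2 ∈ T1.powerset, t ^ (T1 \ T2).card * co n b (e S T') S1 T2 =
      if T2 = T' then (if S1 = S then t ^ (T1 \ T').card else 0) else 0 := by
    intro T2 _
    rw [he S T' hok]
    by_cases h3 : T2 = T'
    · subst h3
      by_cases h4 : S1 = S
      · rw [if_pos ⟨h4, rfl⟩, if_pos rfl, if_pos h4, mul_one]
      · rw [if_neg (fun h => h4 h.1), if_pos rfl, if_neg h4, mul_zero]
    · rw [if_neg (fun h => h3 h.2), if_neg h3, mul_zero]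
  rw [Finset.sum_congr rfl h2, Finset.sum_ite_eq']
  have hokS : okk n b S ∅ := (k7_ok.1 hok).1
  have h3 : ∀ T'' ∈ (ZS n S).powerset.filter (fun T'' => T' ⊆ T''),
      t ^ (T'' \ T').card * co n b (e S T'') S1 T1 =
      if T1 = T'' then (if S1 = S then t ^ (T1 \ T').card else 0) else 0 := by
    intro T2 hT2
    have h4 : okk n b S T2 :=
      k7_ok.2 ⟨hokS, Finset.mem_powerset.1 (Finset.mem_filter.1 hT2).1⟩
    rw [he S T2 h4]
    by_cases h5 : T1 = T2
    · subst h5
      by_cases h4 : S1 = S
      · rw [if_pos ⟨h4, rfl⟩, if_pos rfl, if_pos h4, mul_one]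
      · rw [if_neg (fun h => h4 h.1), if_pos rfl, if_neg h4, mul_zero]
    · rw [if_neg (fun h => h5 h.2), if_neg h5, mul_zero]
  rw [Finset.sum_congr rfl h3, Finset.sum_ite_eq]
  by_cases h4 : S1 = S
  · rw [if_pos h4]
    refine if_congr ?_ rfl rfl
    rw [Finset.mem_powerset, Finset.mem_filter, Finset.mem_powerset]
    have h5 : T1 ⊆ ZS n S := by
      rw [← h4]
      exact (k7_ok.1 h1).2
    exact ⟨fun h => ⟨h5, h⟩, fun h => h.2⟩
  · rw [if_neg h4, ite_self, ite_self]

/-- expansion of a vector -/
theorem k7_expand (hK2 : S_K2 k) (n b : ℕ) (e : Finset ℕ → Finset ℕ → ((KC k n).T b).V)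
    (he : ∀ S T, okk n b S T → ∀ S' T', co n b (e S T) S' T' = if S' = S ∧ T' = T then 1 else 0)
    (u : ((KC k n).T b).V) :
    u = ∑ S ∈ (Finset.range n).powerset, ∑ T ∈ (ZS n S).powerset, co n b u S T • e S T := by
  classical
  apply k7_ext k hK2
  intro S1 T1 h1
  have h0 : ∑ S ∈ (Finset.range n).powerset, ∑ T ∈ (ZS n S).powerset, co n b u S T • e S T =
      ∑ S ∈ (Finset.range n).powerset, (1 : k) • ∑ T ∈ (ZS n S).powerset,
        co n b u S T • e S T := by
    refine Finset.sum_congr rfl fun S _ => ?_
    rw [one_smul]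
  rw [h0, k7_sum_apply]
  have h2 : ∀ S ∈ (Finset.range n).powerset, (1 : k) * co n b (∑ T ∈ (ZS n S).powerset,
      co n b u S T • e S T) S1 T1 = if S1 = S then co n b u S1 T1 else 0 := by
    intro S _
    rw [one_mul, k7_sum_apply]
    have h3 : ∀ T ∈ (ZS n S).powerset, co n b u S T * co n b (e S T) S1 T1 =
        if T1 = T then (if S1 = S then co n b u S1 T1 else 0) else 0 := by
      intro T _
      by_cases h4 : okk n b S T
      · rw [he S T h4]
        by_cases h5 : T1 = T
        · subst h5
          by_cases h6 : S1 = S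
          · subst h6
            rw [if_pos ⟨rfl, rfl⟩, if_pos rfl, if_pos rfl, mul_one]
          · rw [if_neg (fun h => h6 h.1), if_pos rfl, if_neg h6, mul_zero]
        · rw [if_neg (fun h => h5 h.2), if_neg h5, mul_zero]
      · have h5 : co n b u S T = 0 := by
          by_contra h6
          exact h4 ((hK2 n b).1 u S T h6)
        rw [h5, zero_mul]
        by_cases h6 : T1 = T
        · rw [if_pos h6]
          by_cases h7 : S1 = S
          · subst h6
            subst h7
            rw [if_pos rfl, h5]
          · rw [if_neg h7]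
        · rw [if_neg h6]
    rw [Finset.sum_congr rfl h3, Finset.sum_ite_eq]
    by_cases h4 : S1 = S
    · rw [if_pos h4, if_pos]
      rw [Finset.mem_powerset, ← h4]
      exact (k7_ok.1 h1).2
    · rw [if_neg h4, ite_self]
  rw [Finset.sum_congr rfl h2, Finset.sum_ite_eq, if_pos]
  rw [Finset.mem_powerset]
  exact k7_range h1

theorem p_K7 (hK2 : S_K2 k) (hK4 : S_K4 k) : S_K7 k := by
  classical
  have hinf : Infinite k := IsAlgClosed.instInfinite
  intro n b r q hq hr
  constructor
  · intro ψ hψ
    obtain ⟨e, he⟩ := k7_e k hK2 n b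
    refine ⟨fun S T => if okk n b S T ∧ T.card = q then ψ (e S T) else 0, ?_, ?_⟩
    · intro S hS
      refine ⟨?_, ?_⟩
      · intro T hT
        have h1 : okk n b S T ∧ T.card = q := by
          by_contra h2
          exact hT (if_neg h2)
        exact ⟨(k7_ok.1 h1.1).2, h1.2⟩
      · intro T' hT' hcard
        have hok : okk n b S T' := k7_ok.2 ⟨hS, hT'⟩
        set Fs := (ZS n S).powerset.filter (fun T'' => T' ⊆ T'') with hFs
        have h1 : (∑ T'' ∈ Fs, Finsupp.single (T'' \ T').card (ψ (e S T''))) =
            Finsupp.single 0 (ψ (e S T')) := by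
          apply pev_inj (k := k)
          intro t
          rw [pev_single, pow_zero, one_smul]
          have h2 : pev (∑ T'' ∈ Fs, Finsupp.single (T'' \ T').card (ψ (e S T''))) t =
              ∑ T'' ∈ Fs, t ^ (T'' \ T').card • ψ (e S T'') := by
            induction Fs using Finset.induction_on with
            | empty => rw [Finset.sum_empty, Finset.sum_empty, pev_zero]
            | insert a s ha ih =>
              rw [Finset.sum_insert ha, Finset.sum_insert ha, pev_add, ih, pev_single]
          rw [h2]
          have h3 := hψ (((KC k n).T b).ρ (yy t) (e S T') - e S T')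
            (Submodule.subset_span ⟨t, e S T', rfl⟩)
          rw [map_sub, sub_eq_zero, k7_ye k hK2 hK4 n b e he S T' hok t, map_sum] at h3
          rw [← h3]
          refine Finset.sum_congr rfl fun T'' _ => ?_
          rw [map_smul]
        have h2 := DFunLike.congr_fun h1 (q - T'.card)
        rw [Finsupp.finsetSum_apply, Finsupp.single_apply, if_neg (by omega)] at h2
        have h3 : ∀ T'' ∈ Fs, (Finsupp.single (T'' \ T').card (ψ (e S T''))) (q - T'.card) =
            if T''.card = q then ψ (e S T'') else 0 := by
          intro T'' hT''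
          rw [Finsupp.single_apply]
          have h4 := (Finset.mem_filter.1 hT'').2
          have h5 := Finset.card_sdiff_of_subset h4
          have h6 := Finset.card_le_card h4
          refine if_congr ?_ rfl rfl
          rw [h5]
          omega
        rw [Finset.sum_congr rfl h3, ← Finset.sum_filter] at h2
        have h4 : Fs.filter (fun T'' => T''.card = q) =
            ((ZS n S).powersetCard q).filter (fun T => T' ⊆ T) := by
          ext T
          simp only [hFs, Finset.mem_filter, Finset.mem_powerset, Finset.mem_powersetCard]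
          tauto
        rw [h4] at h2
        refine Eq.trans (Finset.sum_congr rfl fun T hT => ?_) h2
        have h5 := Finset.mem_powersetCard.1 (Finset.mem_filter.1 hT).1
        exact if_pos ⟨k7_ok.2 ⟨hS, h5.1⟩, h5.2⟩
    · intro u hu
      have hwt : ∀ S T, co n b u S T ≠ 0 → T.card = q := by
        intro S T hne
        have h1 : (n : ℤ) - 2 * b - 2 * T.card = (n : ℤ) - 2 * r := by
          apply k7_exp k
          intro s
          have h2 := (hK4 n b u S T).2.2 s
          rw [hu.1 s, map_smul] at h2
          have h3 : ((s ^ ((n : ℤ) - 2 * r) : kˣ) : k) * co n b u S T =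
              ((s ^ ((n : ℤ) - 2 * b - 2 * T.card) : kˣ) : k) * co n b u S T := h2
          exact (mul_right_cancel₀ hne h3).symm
        omega
      conv_lhs => rw [k7_expand k hK2 n b e he u]
      rw [map_sum]
      refine Finset.sum_congr rfl fun S _ => ?_
      rw [map_sum]
      have hsub : (ZS n S).powersetCard q ⊆ (ZS n S).powerset := by
        intro T hT
        exact Finset.mem_powerset.2 (Finset.mem_powersetCard.1 hT).1
      rw [← Finset.sum_subset hsub]
      · refine Finset.sum_congr rfl fun T hT => ?_
        rw [map_smul, smul_eq_mul]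
        by_cases h1 : co n b u S T = 0
        · rw [h1, zero_mul, mul_zero]
        · beta_reduce
          rw [if_pos ⟨(hK2 n b).1 u S T h1, hwt S T h1⟩, mul_comm]
      · intro T hT hT2
        have h1 : co n b u S T = 0 := by
          by_contra h2
          exact hT2 (Finset.mem_powersetCard.2 ⟨Finset.mem_powerset.1 hT, hwt S T h2⟩)
        rw [h1, zero_smul, map_zero]
  · intro Z hZ
    set Λ : ((KC k n).T b).V →ₗ[k] k :=
      { toFun := fun u => ∑ S ∈ (Finset.range n).powerset, ∑ T ∈ (ZS n S).powersetCard q,
          Z S T * co n b u S T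
        map_add' := by
          intro u v
          rw [← Finset.sum_add_distrib]
          refine Finset.sum_congr rfl fun S _ => ?_
          rw [← Finset.sum_add_distrib]
          refine Finset.sum_congr rfl fun T _ => ?_
          rw [map_add]
          show Z S T * (co n b u S T + co n b v S T) = _
          rw [mul_add]
        map_smul' := by
          intro c u
          rw [RingHom.id_apply, smul_eq_mul, Finset.mul_sum]
          refine Finset.sum_congr rfl fun S _ => ?_
          rw [Finset.mul_sum]
          refine Finset.sum_congr rfl fun T _ => ?_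
          rw [map_smul]
          show Z S T * (c * co n b u S T) = _
          ring } with hΛ
    refine ⟨Λ, ?_, fun u => rfl⟩
    have hinv : ∀ (t : k) (v : ((KC k n).T b).V), Λ (((KC k n).T b).ρ (yy t) v) = Λ v := by
      intro t v
      show ∑ S ∈ (Finset.range n).powerset, ∑ T ∈ (ZS n S).powersetCard q,
          Z S T * co n b (((KC k n).T b).ρ (yy t) v) S T =
        ∑ S ∈ (Finset.range n).powerset, ∑ T ∈ (ZS n S).powersetCard q, Z S T * co n b v S T
      refine Finset.sum_congr rfl fun S _ => ?_
      by_cases hS : okk n b S ∅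
      · have h1 : ∀ T ∈ (ZS n S).powersetCard q,
            Z S T * co n b (((KC k n).T b).ρ (yy t) v) S T =
              ∑ T' ∈ (ZS n S).powerset, if T' ⊆ T then
                t ^ (q - T'.card) * co n b v S T' * Z S T else 0 := by
          intro T hT
          have hT' := Finset.mem_powersetCard.1 hT
          rw [(hK4 n b v S T).2.1 t (k7_ok.2 ⟨hS, hT'.1⟩), Finset.mul_sum,
            ← Finset.sum_filter]
          have h2 : (ZS n S).powerset.filter (fun T' => T' ⊆ T) = T.powerset := by
            ext T'
            simp only [Finset.mem_filter, Finset.mem_powerset]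
            exact ⟨fun h => h.2, fun h => ⟨h.trans hT'.1, h⟩⟩
          rw [h2]
          refine Finset.sum_congr rfl fun T' hT'' => ?_
          rw [Finset.card_sdiff_of_subset (Finset.mem_powerset.1 hT''), hT'.2]
          ring
        rw [Finset.sum_congr rfl h1, Finset.sum_comm]
        have h2 : ∀ T' ∈ (ZS n S).powerset, (∑ T ∈ (ZS n S).powersetCard q, if T' ⊆ T then
            t ^ (q - T'.card) * co n b v S T' * Z S T else 0) =
            if T'.card = q then Z S T' * co n b v S T' else 0 := by
          intro T' hT'
          rw [← Finset.sum_filter, ← Finset.mul_sum]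
          rcases lt_trichotomy T'.card q with h3 | h3 | h3
          · rw [(hZ S hS).2 T' (Finset.mem_powerset.1 hT') h3, mul_zero, if_neg (by omega)]
          · rw [if_pos h3, h3, Nat.sub_self, pow_zero, one_mul]
            have h4 : ((ZS n S).powersetCard q).filter (fun T => T' ⊆ T) = {T'} := by
              ext T
              simp only [Finset.mem_filter, Finset.mem_powersetCard, Finset.mem_singleton]
              constructor
              · rintro ⟨⟨_, h5⟩, h6⟩
                exact (Finset.eq_of_subset_of_card_le h6 (by omega)).symm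
              · rintro rfl
                exact ⟨⟨Finset.mem_powerset.1 hT', h3⟩, Finset.Subset.refl _⟩
            rw [h4, Finset.sum_singleton, mul_comm]
          · have h4 : ((ZS n S).powersetCard q).filter (fun T => T' ⊆ T) = ∅ := by
              rw [Finset.filter_eq_empty_iff]
              intro T hT h6
              have h7 := Finset.card_le_card h6
              have h8 := (Finset.mem_powersetCard.1 hT).2
              omega
            rw [h4, Finset.sum_empty, mul_zero, if_neg (by omega)]
        rw [Finset.sum_congr rfl h2, ← Finset.sum_filter]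
        have h3 : (ZS n S).powerset.filter (fun T' => T'.card = q) =
            (ZS n S).powersetCard q := by
          ext T
          simp only [Finset.mem_filter, Finset.mem_powerset, Finset.mem_powersetCard]
        rw [h3]
      · have h1 : ∀ (w : ((KC k n).T b).V) (T : Finset ℕ), co n b w S T = 0 := by
          intro w T
          by_contra h2
          exact hS (k7_ok.1 ((hK2 n b).1 w S T h2)).1
        refine Finset.sum_congr rfl fun T _ => ?_
        rw [h1, h1]
    intro v hv
    refine Submodule.span_induction ?_ ?_ ?_ ?_ hv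
    · rintro _ ⟨t, w, rfl⟩
      rw [map_sub, hinv, sub_self]
    · exact map_zero _
    · intro u v _ _ hu hv
      rw [map_add, hu, hv, add_zero]
    · intro c u _ hu
      rw [map_smul, hu, smul_zero]

end Pool.Agent.Sp49.Three
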