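import Mathlib
import Pool.Agent.Lib.MP_49c83e_al.Three.Stm

/-!
MP_49c83e_al, Theorem III, piece K8: adjointness of cap and cup.
-/

namespace Pool.Agent.Sp49.Three

variable (k : Type) [Field k] [IsAlgClosed k]

omit [IsAlgClosed k] in
private theorem k8_half (Z Z' : Finset ℕ) (a b q : ℕ) (f g : Finset ℕ → k)
    (ha : a ∈ Z) (hab : b ≠ a) (hZ : ∀ x, x ∈ Z' ↔ x ∈ Z ∧ x ≠ a ∧ x ≠ b) :
    ∑ T ∈ Z.powersetCard (q + 1), (if a ∈ T ∧ b ∉ T then f T * g (T.erase a) else 0) =
      ∑ T ∈ Z'.powersetCard q, f (insert a T) * g T := by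
  rw [← Finset.sum_filter]
  refine Finset.sum_bij' (fun T _ => T.erase a) (fun T _ => insert a T) ?_ ?_ ?_ ?_ ?_
  · intro T hT
    obtain ⟨h1, h2, h3⟩ := Finset.mem_filter.mp hT
    obtain ⟨h4, h5⟩ := Finset.mem_powersetCard.mp h1
    refine Finset.mem_powersetCard.mpr ⟨fun x hx => ?_, ?_⟩
    · obtain ⟨h6, h7⟩ := Finset.mem_erase.mp hx
      refine (hZ x).mpr ⟨h4 h7, h6, ?_⟩
      rintro rfl
      exact h3 h7
    · rw [Finset.card_erase_of_mem h2, h5]
      rfl
  · intro T hT
    obtain ⟨h4, h5⟩ := Finset.mem_powersetCard.mp hT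
    have h6 : a ∉ T := fun h => ((hZ a).mp (h4 h)).2.1 rfl
    have h7 : b ∉ T := fun h => ((hZ b).mp (h4 h)).2.2 rfl
    refine Finset.mem_filter.mpr ⟨Finset.mem_powersetCard.mpr ⟨fun x hx => ?_, ?_⟩,
      Finset.mem_insert_self _ _, ?_⟩
    · rcases Finset.mem_insert.mp hx with rfl | hx
      · exact ha
      · exact ((hZ x).mp (h4 hx)).1
    · rw [Finset.card_insert_of_notMem h6, h5]
    · intro h
      rcases Finset.mem_insert.mp h with h | h
      · exact hab h
      · exact h7 h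
  · intro T hT
    exact Finset.insert_erase (Finset.mem_filter.mp hT).2.1
  · intro T hT
    obtain ⟨h4, h5⟩ := Finset.mem_powersetCard.mp hT
    exact Finset.erase_insert fun h => ((hZ a).mp (h4 h)).2.1 rfl
  · intro T hT
    rw [Finset.insert_erase (Finset.mem_filter.mp hT).2.1]

omit [IsAlgClosed k] in
theorem p_K8 : S_K8 k := by
  intro Z m q z v hm hm1 _
  have h1 := k8_half k Z (Z \ {m, m + 1}) (m + 1) m q z v hm1 (by omega) (fun x => by
    simp only [Finset.mem_sdiff, Finset.mem_insert, Finset.mem_singleton]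
    tauto)
  have h2 := k8_half k Z (Z \ {m, m + 1}) m (m + 1) q z v hm (by omega) (fun x => by
    simp only [Finset.mem_sdiff, Finset.mem_insert, Finset.mem_singleton]
    tauto)
  have h3 : ∀ T, z T * cupc m v T =
      (if m + 1 ∈ T ∧ m ∉ T then z T * v (T.erase (m + 1)) else 0) -
        (if m ∈ T ∧ m + 1 ∉ T then z T * v (T.erase m) else 0) := by
    intro T
    unfold cupc
    rw [mul_sub, mul_ite, mul_ite, mul_zero]
  rw [Finset.sum_congr rfl fun T _ => h3 T, Finset.sum_sub_distrib, h1, h2,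
    ← Finset.sum_sub_distrib]
  refine Finset.sum_congr rfl fun T hT => ?_
  obtain ⟨h4, h5⟩ := Finset.mem_powersetCard.mp hT
  have h6 : m ∉ T := fun h => by
    have := h4 h
    simp at this
  have h7 : m + 1 ∉ T := fun h => by
    have := h4 h
    simp at this
  unfold cap
  rw [if_pos ⟨h6, h7⟩, sub_mul]

end Pool.Agent.Sp49.Three
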