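import Mathlib
import Pool.Agent.Lib.MP_49c83e_al.Three.Stm

/-!
MP_49c83e_al, Theorem III, piece A9: the Casimir operator commutes with the group, sl_2 relations.
-/

namespace Pool.Agent.Sp49.Three

variable (k : Type) [Field k] [IsAlgClosed k]

/-- two linear maps which agree on all weight vectors are equal -/
private theorem a9_ext (hA7 : S_A7 k) (X : Ob k) (P Q : X.V →ₗ[k] X.V)
    (h : ∀ a : ℤ, ∀ v ∈ wt X a, P v = Q v) (v : X.V) : P v = Q v := by
  obtain ⟨c, hc, hs⟩ := (hA7 X).1 v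
  rw [← hs, Finsupp.sum, map_sum, map_sum]
  exact Finset.sum_congr rfl fun a _ => h a _ (hc a)

private theorem a9_he (hA4 : S_A4 k) (hA7 : S_A7 k) (hA8 : S_A8 k) (X : Ob k) (v : X.V) :
    hop X (ee X 1 v) = ee X 1 (hop X v) + (2 : k) • ee X 1 v := by
  have h := a9_ext k hA7 X (hop X ∘ₗ ee X 1) (ee X 1 ∘ₗ hop X + (2 : k) • ee X 1) (by
    intro a w hw
    have h1 := (hA4 X a 1 w hw).1
    have h2 := (hA8 X).1 _ _ h1
    have h3 := (hA8 X).1 a w hw
    simp only [LinearMap.comp_apply, LinearMap.add_apply, LinearMap.smul_apply]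
    rw [h2, h3, map_smul]
    push_cast
    module) v
  simpa using h

private theorem a9_hf (hA4 : S_A4 k) (hA7 : S_A7 k) (hA8 : S_A8 k) (X : Ob k) (v : X.V) :
    hop X (ff X 1 v) = ff X 1 (hop X v) - (2 : k) • ff X 1 v := by
  have h := a9_ext k hA7 X (hop X ∘ₗ ff X 1) (ff X 1 ∘ₗ hop X - (2 : k) • ff X 1) (by
    intro a w hw
    have h1 := (hA4 X a 1 w hw).2
    have h2 := (hA8 X).1 _ _ h1
    have h3 := (hA8 X).1 a w hw
    simp only [LinearMap.comp_apply, LinearMap.sub_apply, LinearMap.smul_apply]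
    rw [h2, h3, map_smul]
    push_cast
    module) v
  simpa using h

private theorem a9_xx_comm (s t : k) : xx s * xx t = xx t * xx s := by
  ext i j
  fin_cases i <;> fin_cases j <;> simp [xx, Matrix.mul_apply, Fin.sum_univ_two, add_comm]

private theorem a9_yy_comm (s t : k) : yy s * yy t = yy t * yy s := by
  ext i j
  fin_cases i <;> fin_cases j <;> simp [yy, Matrix.mul_apply, Fin.sum_univ_two, add_comm]

private theorem a9_xe (X : Ob k) (t : k) (v : X.V) :
    X.ρ (xx t) (ee X 1 v) = ee X 1 (X.ρ (xx t) v) := by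
  show X.ρ (xx t) (cof (fun s => X.ρ (xx s) v) 1) = cof (fun s => X.ρ (xx s) (X.ρ (xx t) v)) 1
  rw [← cof_map (X.ρ (xx t)) (X.rat v).1 1]
  congr 2
  funext s
  rw [← Module.End.mul_apply, ← Module.End.mul_apply, ← map_mul, ← map_mul, a9_xx_comm]

private theorem a9_yf (X : Ob k) (t : k) (v : X.V) :
    X.ρ (yy t) (ff X 1 v) = ff X 1 (X.ρ (yy t) v) := by
  show X.ρ (yy t) (cof (fun s => X.ρ (yy s) v) 1) = cof (fun s => X.ρ (yy s) (X.ρ (yy t) v)) 1
  rw [← cof_map (X.ρ (yy t)) (X.rat v).2 1]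
  congr 2
  funext s
  rw [← Module.End.mul_apply, ← Module.End.mul_apply, ← map_mul, ← map_mul, a9_yy_comm]

omit [IsAlgClosed k] in
/-- the computation in the upper case -/
private theorem a9_alg1 {V : Type} [AddCommGroup V] [Module k V] (E F H x : V →ₗ[k] V) (t : k)
    (hH : ∀ v, H v = E (F v) - F (E v))
    (hHE : ∀ v, H (E v) = E (H v) + (2 : k) • E v)
    (hxE : ∀ v, x (E v) = E (x v))
    (hxF : ∀ v, x (F v) = F (x v) + t • H (x v) - t ^ 2 • E (x v)) (v : V) :
    (4 : k) • F (E (x v)) + (H (H (x v) + x v) + (H (x v) + x v)) =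
      x ((4 : k) • F (E v) + (H (H v + v) + (H v + v))) := by
  have hxH : ∀ w, x (H w) = H (x w) - (2 * t) • E (x w) := by
    intro w
    have h1 : x (H w) = x (E (F w)) - x (F (E w)) := by rw [hH w, map_sub]
    rw [h1, hxE, hxF, hxF, hxE]
    simp only [map_add, map_sub, map_smul]
    rw [hHE, hH (x w)]
    module
  simp only [map_add, map_smul]
  simp only [hxH, hxF, hxE, map_sub, map_smul, map_add, hHE]
  module

omit [IsAlgClosed k] in
/-- the computation in the lower case -/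
private theorem a9_alg2 {V : Type} [AddCommGroup V] [Module k V] (E F H y : V →ₗ[k] V) (t : k)
    (hH : ∀ v, H v = E (F v) - F (E v))
    (hHF : ∀ v, H (F v) = F (H v) - (2 : k) • F v)
    (hyF : ∀ v, y (F v) = F (y v))
    (hyE : ∀ v, y (E v) = E (y v) - t • H (y v) - t ^ 2 • F (y v)) (v : V) :
    (4 : k) • F (E (y v)) + (H (H (y v) + y v) + (H (y v) + y v)) =
      y ((4 : k) • F (E v) + (H (H v + v) + (H v + v))) := by
  have hyH : ∀ w, y (H w) = H (y w) + (2 * t) • F (y w) := by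
    intro w
    have h1 : y (H w) = y (E (F w)) - y (F (E w)) := by rw [hH w, map_sub]
    rw [h1, hyF, hyE, hyE, hyF]
    simp only [map_add, map_sub, map_smul]
    rw [hHF, hH (y w)]
    module
  simp only [map_add, map_smul]
  simp only [hyH, hyF, hyE, map_sub, map_smul, map_add, hHF]
  module

theorem p_A9 (_ : S_A1 k) (_ : S_A3 k) (hA4 : S_A4 k) (hA5 : S_A5 k) (hA7 : S_A7 k)
    (hA8 : S_A8 k) : S_A9 k := by
  intro X
  refine ⟨?_, a9_he k hA4 hA7 hA8 X, a9_hf k hA4 hA7 hA8 X⟩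
  have hC : ∀ v, Cas X v = (4 : k) • ff X 1 (ee X 1 v) +
      (hop X (hop X v + v) + (hop X v + v)) := fun v => rfl
  have hH : ∀ v, hop X v = ee X 1 (ff X 1 v) - ff X 1 (ee X 1 v) := fun v => rfl
  refine hA5.2.1 X X (Cas X) ?_ ?_
  · intro t v
    rw [hC, hC]
    exact a9_alg1 k (ee X 1) (ff X 1) (hop X) (X.ρ (xx t)) t hH (a9_he k hA4 hA7 hA8 X)
      (a9_xe k X t) ((hA8 X).2.1 t) v
  · intro t v
    rw [hC, hC]
    exact a9_alg2 k (ee X 1) (ff X 1) (hop X) (X.ρ (yy t)) t hH (a9_hf k hA4 hA7 hA8 X)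
      (a9_yf k X t) ((hA8 X).2.2 t) v

end Pool.Agent.Sp49.Three
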