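import Mathlib
import Pool.Agent.Lib.MP_49c83e_al.Three.Stm

namespace Pool.Agent.Sp49.Three

open Matrix TensorProduct

variable {k : Type} [Field k] [IsAlgClosed k]

/-- a unit with nontrivial power -/
private theorem c2_unit (m : ℤ) (hm : m ≠ 0) : ∃ s : kˣ, ((s ^ m : kˣ) : k) ≠ 1 := by
  by_contra hcon
  push Not at hcon
  have hinf : Infinite k := IsAlgClosed.instInfinite
  have hall : ∀ s : kˣ, (s : k) ^ m.natAbs = 1 := by
    intro s
    have h := hcon s
    have h1 : s ^ m = 1 := Units.ext (by rw [h, Units.val_one])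
    have h2 : s ^ m.natAbs = 1 := by
      rcases Int.natAbs_eq m with h' | h'
      · rw [h'] at h1
        simpa using h1
      · rw [h'] at h1
        simpa using h1
    have h3 := congrArg (fun u : kˣ => (u : k)) h2
    simpa using h3
  have hn : m.natAbs ≠ 0 := Int.natAbs_ne_zero.2 hm
  have hpos : 0 < m.natAbs := Nat.pos_of_ne_zero hn
  have hfin : {x : k | (Polynomial.X ^ m.natAbs - 1 : Polynomial k).IsRoot x}.Finite := by
    have hne : (Polynomial.X ^ m.natAbs - 1 : Polynomial k) ≠ 0 := by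
      have := Polynomial.X_pow_sub_C_ne_zero hpos (1 : k)
      simpa using this
    exact Polynomial.finite_setOf_isRoot hne
  have hsub : {x : k | x ≠ 0} ⊆
      {x : k | (Polynomial.X ^ m.natAbs - 1 : Polynomial k).IsRoot x} := by
    intro x hx
    have := hall (Units.mk0 x hx)
    simp only [Set.mem_setOf_eq, Polynomial.IsRoot.def, Polynomial.eval_sub, Polynomial.eval_pow,
      Polynomial.eval_X, Polynomial.eval_one]
    rw [Units.val_mk0] at this
    rw [this, sub_self]
  have h0 : ({x : k | x ≠ 0} : Set k).Finite := hfin.subset hsub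
  have : (Set.univ : Set k).Finite := by
    have h00 : (Set.univ : Set k) = {x : k | x ≠ 0} ∪ {0} := by
      ext x
      by_cases hx : x = 0 <;> simp [hx]
    rw [h00]
    exact h0.union (Set.finite_singleton 0)
  exact Set.infinite_univ this

/-- coefficients of x(t)v - v -/
private theorem c2_coef (M : Ob k) (S : Submodule k M.V) (v : M.V)
    (h : ∀ t, M.ρ (xx t) v - v ∈ S) (j : ℕ) (hj : 1 ≤ j) : ee M j v ∈ S := by
  have hinf : Infinite k := IsAlgClosed.instInfinite
  set c : ℕ →₀ M.V := (cof fun t => M.ρ (xx t) v) - Finsupp.single 0 v with hc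
  have h1 : ∀ t : k, pev c t = M.ρ (xx t) v - v := by
    intro t
    rw [hc, pev_sub, pev_single, ← xx_pev, pow_zero, one_smul]
  have h2 : c j ∈ S := by
    apply coeff_mem_of_infinite (k := k)
    have : {t : k | pev c t ∈ S} = Set.univ := by
      ext t
      simp only [Set.mem_setOf_eq, Set.mem_univ, iff_true]
      rw [h1 t]
      exact h t
    rw [this]
    exact Set.infinite_univ
  have h3 : c j = ee M j v := by
    rw [hc, Finsupp.sub_apply, Finsupp.single_apply, if_neg (by omega), sub_zero]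
    rfl
  rwa [h3] at h2

/-- a vector with E^(j) v = 0 for all j >= 1 is fixed by x(t) -/
private theorem c2_fix (h2 : S_A2 k) (M : Ob k) (v : M.V) (h : ∀ j, 1 ≤ j → ee M j v = 0) (t : k) :
    M.ρ (xx t) v = v := by
  have e : (cof fun t => M.ρ (xx t) v) = Finsupp.single 0 v := by
    ext i
    rcases Nat.eq_zero_or_pos i with hi | hi
    · subst hi
      rw [Finsupp.single_apply, if_pos rfl]
      exact (h2.1 M v).1
    · rw [Finsupp.single_apply, if_neg (by omega)]
      exact h i hi
  rw [xx_pev, e, pev_single, pow_zero, one_smul]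

theorem p_C2 (h1 : S_A1 k) (h2 : S_A2 k) (h3 : S_A3 k) (h4 : S_A4 k) (h5 : S_A5 k)
    (h7 : S_A7 k) (h10 : S_A10 k) (hb1 : S_B1 k) (hb2 : S_B2 k) : S_C2 k := by
  intro a M i hi hinj v hv
  set S : Submodule k M.V := LinearMap.range i with hS
  have hst : ∀ g, ∀ w ∈ S, M.ρ g w ∈ S := by
    rintro g w ⟨n, rfl⟩
    exact ⟨(nab k a).ρ g n, hi g n⟩
  obtain ⟨A1, A2, A3⟩ := h7 M
  obtain ⟨c, hcw, hcs⟩ := A1 v
  -- the components of nonzero weight are in S
  have hmu : ∀ m : ℤ, m ≠ 0 → c m ∈ S := by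
    intro m hm
    obtain ⟨s, hs⟩ := c2_unit (k := k) m hm
    set c' : ℤ →₀ M.V := Finsupp.onFinset c.support
      (fun b => (((s ^ b : kˣ) : k) - 1) • c b) (by
        intro b hb
        rw [Finsupp.mem_support_iff]
        intro h0
        apply hb
        rw [h0, smul_zero]) with hc'
    have hc'w : ∀ b, c' b ∈ wt M b := fun b => Submodule.smul_mem _ _ (hcw b)
    have hsum : (c'.sum fun _ w => w) = M.ρ (hh s) v - v := by
      have e1 : (c'.sum fun _ w => w) = ∑ b ∈ c.support, c' b := by
        rw [Finsupp.sum_of_support_subset c' (Finsupp.support_onFinset_subset) _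
          (fun _ _ => rfl)]
      have e2 : v = ∑ b ∈ c.support, c b := by rw [← hcs]; rfl
      have e3 : M.ρ (hh s) v = ∑ b ∈ c.support, ((s ^ b : kˣ) : k) • c b := by
        conv_lhs => rw [e2]
        rw [map_sum]
        exact Finset.sum_congr rfl fun b _ => hcw b s
      rw [e1, e3]
      conv_rhs => rw [e2]
      rw [← Finset.sum_sub_distrib]
      refine Finset.sum_congr rfl fun b _ => ?_
      rw [hc', Finsupp.onFinset_apply, sub_smul, one_smul]
    have hin := A3 S (fun s w hw => hst _ w hw) c' hc'w (by rw [hsum]; exact hv _) m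
    rw [hc', Finsupp.onFinset_apply] at hin
    have hne : ((s ^ m : kˣ) : k) - 1 ≠ 0 := sub_ne_zero.2 hs
    have := Submodule.smul_mem S (((s ^ m : kˣ) : k) - 1)⁻¹ hin
    rwa [smul_smul, inv_mul_cancel₀ hne, one_smul] at this
  set v₀ : M.V := c 0 with hv₀
  have hv₀w : v₀ ∈ wt M 0 := hcw 0
  have hvv₀ : v - v₀ ∈ S := by
    have e2 : v = ∑ b ∈ insert 0 c.support, c b := by
      rw [Finset.sum_insert_of_eq_zero_if_notMem (by
        intro h0
        exact Finsupp.notMem_support_iff.1 h0), ← hcs]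
      rfl
    rw [e2, ← Finset.add_sum_erase _ _ (Finset.mem_insert_self 0 c.support), hv₀,
      add_sub_cancel_left]
    exact Submodule.sum_mem _ fun b hb => hmu b (Finset.ne_of_mem_erase hb)
  have hinv : ∀ w : M.V, v - w ∈ S → ∀ g, M.ρ g w - w ∈ S := by
    intro w hw g
    have e : M.ρ g w - w = (M.ρ g v - v) - (M.ρ g (v - w) - (v - w)) := by
      rw [map_sub]
      abel
    rw [e]
    exact Submodule.sub_mem _ (hv g) (Submodule.sub_mem _ (hst g _ hw) hw)
  -- E^(j) of a weight zero vector w with v - w in S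
  have hE : ∀ w : M.V, w ∈ wt M 0 → v - w ∈ S → ∀ j : ℕ, 1 ≤ j → ee M j w = 0 ∨
      ∃ l : ℕ, l ≤ a ∧ (a : ℤ) - 2 * l = 2 * j ∧ ∃ e : k, ee M j w = e • i (mm k a l) := by
    intro w hw hvw j hj
    have b1 := c2_coef M S w (fun t => hinv w hvw _) j hj
    obtain ⟨u, hu⟩ := b1
    have b2 := (h4 M 0 j w hw).1
    rw [zero_add] at b2
    have b3 : u ∈ wt (nab k a) (2 * (j : ℤ)) := by
      intro s
      apply hinj
      rw [hi, hu, map_smul, hu]
      exact b2 s
    rcases (hb1 a).2.2.2 _ u b3 with h0 | ⟨l, hl, hl2, e, he⟩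
    · left
      rw [← hu, h0, map_zero]
    · right
      refine ⟨l, hl, hl2, e, ?_⟩
      rw [← hu, he, map_smul]
  have hfinal : (∃ w : M.V, w ∈ wt M 0 ∧ v - w ∈ S ∧ ∀ j, 1 ≤ j → ee M j w = 0) →
      ∃ n, ∀ g, M.ρ g (v - i n) = v - i n := by
    rintro ⟨w, hw, ⟨n, hn⟩, hj⟩
    refine ⟨n, ?_⟩
    have e : v - i n = w := by rw [hn]; abel
    rw [e]
    exact (h10 M 0 w ⟨hw, fun t => c2_fix h2 M w hj t⟩).2 rfl
  apply hfinal
  rcases Nat.even_or_odd a with ⟨b, hb⟩ | ⟨b, hb⟩
  · rcases Nat.eq_zero_or_pos b with hb0 | hb0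
    · refine ⟨v₀, hv₀w, hvv₀, fun j hj => ?_⟩
      rcases hE v₀ hv₀w hvv₀ j hj with h0 | ⟨l, hl, hl2, -⟩
      · exact h0
      · exfalso
        omega
    · -- choose the correction
      have hcor : ∃ e : k, ee M b v₀ = e • i (mm k a 0) := by
        rcases hE v₀ hv₀w hvv₀ b hb0 with h0 | ⟨l, hl, hl2, e, he⟩
        · exact ⟨0, by rw [h0, zero_smul]⟩
        · have : l = 0 := by omega
          subst this
          exact ⟨e, he⟩
      obtain ⟨e, he⟩ := hcor
      have hba : b ≤ a := by omega
      have hmb : mm k a b ∈ wt (nab k a) 0 := by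
        have := ((hb1 a).2.2.1 b hba).1
        have e0 : (a : ℤ) - 2 * b = 0 := by omega
        rwa [e0] at this
      have himb : i (mm k a b) ∈ wt M 0 := by
        intro s
        rw [← hi, hmb s, map_smul]
      set v₁ : M.V := v₀ - e • i (mm k a b) with hv₁
      have hv₁w : v₁ ∈ wt M 0 := Submodule.sub_mem _ hv₀w (Submodule.smul_mem _ _ himb)
      have hvv₁ : v - v₁ ∈ S := by
        have : v - v₁ = (v - v₀) + e • i (mm k a b) := by rw [hv₁]; abel
        rw [this]
        exact Submodule.add_mem _ hvv₀ (Submodule.smul_mem _ _ ⟨_, rfl⟩)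
      have hcomm := (h2.2 (nab k a) M i hi).1
      have hb0' : ee M b v₁ = 0 := by
        rw [hv₁, map_sub, map_smul, he, ← (hcomm b _).1, (hb2 a b b hba).1, Nat.choose_self,
          Nat.sub_self, Nat.cast_one, one_smul, sub_self]
      refine ⟨v₁, hv₁w, hvv₁, fun j hj => ?_⟩
      rcases hE v₁ hv₁w hvv₁ j hj with h0 | ⟨l, hl, hl2, e', he'⟩
      · exact h0
      · have hlb : l + j = b := by omega
        rcases Nat.eq_zero_or_pos l with hl0 | hl0
        · have : j = b := by omega
          rw [this]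
          exact hb0'
        · have b1 := (h3 M l j v₁).1
          rw [hlb, hb0', smul_zero, he', map_smul, ← (hcomm l _).1, (hb2 a l l hl).1,
            Nat.choose_self, Nat.sub_self, Nat.cast_one, one_smul] at b1
          have hmm : i (mm k a 0) ≠ 0 := by
            intro h0
            have := hinj (h0.trans (map_zero i).symm)
            exact ((hb1 a).2.2.1 0 (Nat.zero_le a)).2 this
          have : e' = 0 := (smul_eq_zero.1 b1).resolve_right hmm
          rw [he', this, zero_smul]
  · refine ⟨v₀, hv₀w, hvv₀, fun j hj => ?_⟩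
    rcases hE v₀ hv₀w hvv₀ j hj with h0 | ⟨l, hl, hl2, -⟩
    · exact h0
    · exfalso
      omega

end Pool.Agent.Sp49.Three
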