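import Mathlib
import Pool.Agent.Lib.MP_49c83e_al.Three.Stm

namespace Pool.Agent.Sp49.Three

open Matrix TensorProduct

private theorem e5_scalar {k : Type} [Field k] {V : Type} [AddCommGroup V] [Module k V]
    (T : Module.End k V) (c μ : k) (h : ∀ v, T v = c • v) :
    (c = μ → ∀ v, v ∈ T.maxGenEigenspace μ) ∧
      (c ≠ μ → ∀ v, v ∈ T.maxGenEigenspace μ → v = 0) := by
  have h1 : ∀ v, (T - μ • (1 : Module.End k V)) v = (c - μ) • v := by
    intro v
    rw [LinearMap.sub_apply, h, LinearMap.smul_apply, Module.End.one_apply, sub_smul]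
  have h2 : ∀ (n : ℕ) v, ((T - μ • (1 : Module.End k V)) ^ n) v = (c - μ) ^ n • v := by
    intro n
    induction n with
    | zero => intro v; simp
    | succ n ih =>
      intro v
      rw [pow_succ, Module.End.mul_apply, h1, ih, smul_smul, pow_succ]
  constructor
  · intro hc v
    rw [Module.End.mem_maxGenEigenspace]
    refine ⟨1, ?_⟩
    rw [pow_one, h1, hc, sub_self, zero_smul]
  · intro hc v hv
    rw [Module.End.mem_maxGenEigenspace] at hv
    obtain ⟨n, hn⟩ := hv
    rw [h2] at hn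
    exact (smul_eq_zero.1 hn).resolve_left (pow_ne_zero _ (sub_ne_zero.2 hc))

variable (k : Type) [Field k] [IsAlgClosed k] (p : ℕ) [Fact p.Prime] [CharP k p]

private theorem e5_blk (hB3 : S_B3 k) (hE1 : S_E1 k) (m : ℕ) (c : k) :
    (((m : k) + 1) ^ 2 = c → ∀ v, v ∈ blkS (nab k m) c) ∧
      (((m : k) + 1) ^ 2 ≠ c → ∀ v, v ∈ blkS (nab k m) c → v = 0) := by
  have h := e5_scalar (Cas (nab k m)) (((m : k) + 1) ^ 2) c (hB3 m).1
  constructor
  · intro hc v
    rw [(hE1 (nab k m) c).1]
    exact h.1 hc v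
  · intro hc v hv
    rw [(hE1 (nab k m) c).1] at hv
    exact h.2 hc v hv

theorem p_E5 (hB3 : S_B3 k) (hB5 : S_B5 k) (hD2 : S_D2 k) (hE1 : S_E1 k) (hE2 : S_E2 k) :
    S_E5 k p := by
  intro a r j' ha hr hrp hra hj
  have hc : ∀ n : ℕ, 1 ≤ n → n < p → (n : k) ≠ 0 := by
    intro n h1 h2 h3
    rw [CharP.cast_eq_zero_iff k p] at h3
    exact absurd (Nat.le_of_dvd (by omega) h3) (by omega)
  have har : ((a - r : ℕ) : k) = -1 - r := by
    rw [Nat.cast_sub hra]
    linear_combination ha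
  induction j' with
  | zero =>
    obtain ⟨φ, hφ⟩ := hD2.2.2.2.1
    have hφ' : ∀ g v, φ ((one k).ρ g v) = (nab k 0).ρ g (φ v) := hφ
    let e : (nab k (a - r)).V ≃ₗ[k] (nab k (a - r)).V ⊗[k] (nab k 0).V :=
      (TensorProduct.rid k (nab k (a - r)).V).symm ≪≫ₗ
        TensorProduct.congr (LinearEquiv.refl k (nab k (a - r)).V) φ
    have he : ∀ v, e v = v ⊗ₜ[k] φ (1 : k) := fun v => rfl
    have hhom : IsHom (nab k (a - r)) (tens (nab k (a - r + 0)) (nab k 0)) e.toLinearMap := by
      intro g v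
      show e ((nab k (a - r)).ρ g v) = (tens (nab k (a - r + 0)) (nab k 0)).ρ g (e v)
      rw [he, he, tens_ρ]
      congr 1
      exact (hφ' g (1 : k))
    refine ⟨e.toLinearMap, hhom, e.injective, ?_⟩
    intro v
    constructor
    · intro _
      exact ⟨e.symm v, e.apply_symm_apply v⟩
    · rintro ⟨w, rfl⟩
      refine (hE2 _ _ _).1 _ hhom w ?_
      refine (e5_blk k hB3 hE1 (a - r) _).1 ?_ w
      rw [har]
      ring
  | succ j ih =>
    obtain ⟨i, hi1, hi2, hi3⟩ := ih (by omega)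
    obtain ⟨f, g, hf, hg, hinj, hex, -⟩ := hB5 (a - r + j) j
    have hff : ∀ g v, f ((tens (nab k (a - r + j)) (nab k j)).ρ g v) =
      (tens (nab k (a - r + j + 1)) (nab k (j + 1))).ρ g (f v) := hf
    refine ⟨f ∘ₗ i, ?_, hinj.comp hi2, ?_⟩
    · intro g v
      show f (i ((nab k (a - r)).ρ g v)) = _
      rw [hi1 g v, hff]
      rfl
    · intro v
      constructor
      · intro hv
        have h1 := (hE2 _ _ _).1 g hg v hv
        have h2 : g v = 0 := by
          refine (e5_blk k hB3 hE1 _ _).2 ?_ _ h1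
          intro h3
          have h4 : (2 : k) * (2 * ((j + 1 : ℕ) : k) * ((r - (j + 1) : ℕ) : k)) = 0 := by
            rw [Nat.cast_sub (by omega)]
            push_cast at h3 ⊢
            rw [har] at h3
            linear_combination -h3
          have h5 : (2 : k) ≠ 0 := by
            have := hc 2 (by omega) (by omega)
            exact_mod_cast this
          have h6 := hc (j + 1) (by omega) (by omega)
          have h7 := hc (r - (j + 1)) (by omega) (by omega)
          exact (mul_ne_zero h5 (mul_ne_zero (mul_ne_zero h5 h6) h7)) h4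
        obtain ⟨u, rfl⟩ := (hex v).1 h2
        have h8 := (hE2 _ _ _).2.2 f hf hinj u hv
        obtain ⟨w, rfl⟩ := (hi3 u).1 h8
        exact ⟨w, rfl⟩
      · rintro ⟨w, rfl⟩
        exact (hE2 _ _ _).1 f hf _ ((hi3 (i w)).2 ⟨w, rfl⟩)

end Pool.Agent.Sp49.Three
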