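import Mathlib
import Pool.Agent.Lib.MP_49c83e_al.Three.Stm

namespace Pool.Agent.Sp49.Three

variable (k : Type) [Field k] [IsAlgClosed k]

private theorem g1_nf (X : Ob k) (S S' : Submodule k X.V) (h : S = S')
    (hS : ∀ g, ∀ v ∈ S, X.ρ g v ∈ S) (hS' : ∀ g, ∀ v ∈ S', X.ρ g v ∈ S')
    (h1 : NF (sub X S hS)) : NF (sub X S' hS') := by
  subst h
  exact h1

theorem p_G1 (_hC1 : S_C1 k) (hD3 : S_D3 k) : S_G1 k := by
  refine ⟨?_, ?_⟩
  · intro N hN
    refine ⟨LinearMap.id, ⟨fun _ _ => rfl, fun v => ⟨v, rfl⟩, ?_, ?_, ?_, ?_, ?_⟩⟩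
    · intro y
      constructor
      · intro hy
        exact ⟨0, hy.symm⟩
      · rintro ⟨x, hx⟩
        exact hx.symm
    · intro i y
      constructor
      · intro _
        exact ⟨0, rfl⟩
      · intro _
        rfl
    · refine NF.zero _ fun v => ?_
      apply Subtype.ext
      exact v.2
    · intro i
      refine NF.zero _ fun v => ?_
      apply Subtype.ext
      rfl
    · intro i
      cases i with
      | zero => exact hN
      | succ i => exact hD3.2.2.2.2
  · rintro N N' A ⟨f, hf⟩ ⟨e, he⟩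
    have hf' : ∀ g v, f (N.ρ g v) = N'.ρ g (f v) := hf
    have h0 : IsHom (A.T 0) N' (f.toLinearMap ∘ₗ e) := by
      intro g v
      show f (e ((A.T 0).ρ g v)) = N'.ρ g (f (e v))
      rw [he.he g v, hf']
    refine ⟨f.toLinearMap ∘ₗ e, ⟨h0, f.surjective.comp he.surj, ?_, he.ex, ?_, he.k1, he.tt⟩⟩
    · intro y
      rw [← he.ex0 y]
      show f (e y) = 0 ↔ e y = 0
      exact f.map_eq_zero_iff
    · refine g1_nf k (A.T 0) (LinearMap.ker e) (LinearMap.ker (f.toLinearMap ∘ₗ e)) ?_ _ _ he.k0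
      ext y
      rw [LinearMap.mem_ker, LinearMap.mem_ker]
      show e y = 0 ↔ f (e y) = 0
      exact f.map_eq_zero_iff.symm

end Pool.Agent.Sp49.Three
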