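import Mathlib
import Pool.Agent.Lib.MP_49c83e_al.Three.Stm

/-!
MP_49c83e_al, Theorem III, piece [G7]: Q ⊗ (-)^F of a resolution.
-/

namespace Pool.Agent.Sp49.Three

open Matrix TensorProduct

section G7
variable {k : Type} [Field k] [IsAlgClosed k] (p : ℕ) [Fact p.Prime] [CharP k p]

omit [IsAlgClosed k] in
private theorem g7_exact (Q : Ob k) {X Y Z : Ob k} (f : X.V →ₗ[k] Y.V) (g : Y.V →ₗ[k] Z.V)
    (h : Function.Exact f g) :
    Function.Exact (thMap p Q (X := X) (Y := Y) f) (thMap p Q (X := Y) (Y := Z) g) :=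
  Module.Flat.lTensor_exact Q.V h

omit [IsAlgClosed k] in
private theorem g7_surj (Q : Ob k) {X Y : Ob k} (f : X.V →ₗ[k] Y.V)
    (h : Function.Surjective f) : Function.Surjective (thMap p Q (X := X) (Y := Y) f) :=
  LinearMap.lTensor_surjective Q.V h

omit [IsAlgClosed k] in
private theorem g7_inj (Q : Ob k) {X Y : Ob k} (f : X.V →ₗ[k] Y.V)
    (h : Function.Injective f) : Function.Injective (thMap p Q (X := X) (Y := Y) f) :=
  Module.Flat.lTensor_preserves_injective_linearMap (M := Q.V) f h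

private theorem g7_ker (Q X Y : Ob k) (f : X.V →ₗ[k] Y.V) (hf : IsHom X Y f) :
    Iso (tens Q (fr p (kerO X Y f hf))) (kerO (tens Q (fr p X)) (tens Q (fr p Y))
      (thMap p Q (X := X) (Y := Y) f) (thMap_hom p Q f hf)) := by
  let K : Ob k := kerO X Y f hf
  let i : K.V →ₗ[k] X.V := (LinearMap.ker f).subtype
  have hi : IsHom K X i := fun g v => rfl
  have hij : Function.Injective i := Subtype.val_injective
  have hex : Function.Exact i f := by
    intro v
    constructor
    · intro hv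
      exact ⟨⟨v, hv⟩, rfl⟩
    · rintro ⟨w, rfl⟩
      exact w.2
  have hI := g7_inj p Q (X := K) (Y := X) i hij
  have hE := g7_exact p Q (X := K) (Y := X) (Z := Y) i f hex
  have hH := thMap_hom p Q (X := K) (Y := X) i hi
  have hmem : ∀ v, thMap p Q (X := K) (Y := X) i v ∈ LinearMap.ker (thMap p Q (X := X) (Y := Y) f) := by
    intro v
    rw [LinearMap.mem_ker]
    exact (hE _).mpr ⟨v, rfl⟩
  let φ : (tens Q (fr p K)).V →ₗ[k] LinearMap.ker (thMap p Q (X := X) (Y := Y) f) :=
    LinearMap.codRestrict _ (thMap p Q (X := K) (Y := X) i) hmem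
  have hbij : Function.Bijective φ := by
    constructor
    · intro a b hab
      apply hI
      exact congrArg Subtype.val hab
    · rintro ⟨w, hw⟩
      obtain ⟨v, hv⟩ := (hE w).mp hw
      exact ⟨v, Subtype.ext hv⟩
  refine ⟨LinearEquiv.ofBijective φ hbij, ?_⟩
  intro g v
  apply Subtype.ext
  exact hH g v

end G7

variable (k : Type) [Field k] [IsAlgClosed k] (p : ℕ) [Fact p.Prime] [CharP k p]

/-- [G7] -/
theorem p_G7 (hC1 : S_C1 k) : S_G7 k p := by
  intro Q hTT hNF N A e hA
  have hiso := hC1.1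
  exact
    { he := thMap_hom p Q e hA.he
      surj := g7_surj p Q e hA.surj
      ex0 := g7_exact p Q _ _ hA.ex0
      ex := fun i => g7_exact p Q _ _ (hA.ex i)
      k0 := hiso _ _ (g7_ker p Q _ _ e hA.he) (hNF _ hA.k0)
      k1 := fun i => hiso _ _ (g7_ker p Q _ _ (A.d i) (A.hd i)) (hNF _ (hA.k1 i))
      tt := fun i => hTT _ (hA.tt i) }

end Pool.Agent.Sp49.Three
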