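import Mathlib
import Pool.Agent.Lib.MP_49c83e_al.Three.Stm

/-!
MP_49c83e_al, Theorem III, piece K3: the differential of K(n) in coordinates.
-/

namespace Pool.Agent.Sp49.Three

open Matrix TensorProduct

section
variable {k : Type} [Field k] [IsAlgClosed k]

/-- the formula for the differential, n places -/
def k3_D (n : ℕ) (A : Cx k) (c : Coord A) : Prop :=
  ∀ (b : ℕ) (u : (A.T (b + 1)).V) (S T : Finset ℕ),
    c b (A.d b u) S T = ∑ m ∈ (Finset.range n).filter (fun m => m ∉ S),
      (-1) ^ (S.filter (fun j => m < j)).card * cupc m (c (b + 1) u (insert m S)) T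

/-- the supports -/
def k3_S (n : ℕ) (A : Cx k) (c : Coord A) : Prop :=
  ∀ (b : ℕ) (u : (A.T b).V) (S T : Finset ℕ), c b u S T ≠ 0 → okk n b S T

omit [IsAlgClosed k] in
theorem k3_cupc_zero (m : ℕ) (T : Finset ℕ) : cupc m (0 : Finset ℕ → k) T = 0 := by
  unfold cupc
  simp

omit [IsAlgClosed k] in
theorem k3_cupc_add (m : ℕ) (f g : Finset ℕ → k) (T : Finset ℕ) :
    cupc m (fun T' => f T' + g T') T = cupc m f T + cupc m g T := by
  unfold cupc
  split_ifs <;> ring

omit [IsAlgClosed k] in
theorem k3_vanish (n : ℕ) (A : Cx k) (c : Coord A) (hS : k3_S n A c) (b : ℕ) (u : (A.T b).V)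
    (S : Finset ℕ) (i : ℕ) (hi : i ∈ S) (hn : n ≤ i + 1) : c b u S = 0 := by
  funext T
  by_contra h
  have h1 := (hS b u S T h).2.1 i hi
  omega

omit [IsAlgClosed k] in
theorem k3_coW (n : ℕ) (A : Cx k) (c : Coord A) (b : ℕ) (u v : (A.T b).V) (S T : Finset ℕ) :
    coW n A c b (u, v) S T = if n ∈ T then c b v S (T.erase n) else c b u S T := rfl

omit [IsAlgClosed k] in
theorem k3_Wmain (n : ℕ) (A : Cx k) (c : Coord A) (hS : k3_S n A c) (b : ℕ) (u v : (A.T b).V)
    (S T : Finset ℕ) (m : ℕ) (hm : m < n) :
    cupc m (coW n A c b (u, v) (insert m S)) T =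
      if n ∈ T then cupc m (c b v (insert m S)) (T.erase n) else cupc m (c b u (insert m S)) T := by
  by_cases hmn : m + 1 = n
  · have h0 : ∀ w : (A.T b).V, c b w (insert m S) = 0 := fun w =>
      k3_vanish n A c hS b w (insert m S) m (Finset.mem_insert_self m S) (by omega)
    have h1 : coW n A c b (u, v) (insert m S) = 0 := by
      funext T'
      rw [k3_coW, h0, h0]
      simp
    rw [h1, h0, h0, k3_cupc_zero, k3_cupc_zero]
    simp
  · by_cases hT : n ∈ T
    · rw [if_pos hT]
      unfold cupc
      have e1 : (m + 1 ∈ T.erase n ∧ m ∉ T.erase n) ↔ (m + 1 ∈ T ∧ m ∉ T) := by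
        rw [Finset.mem_erase, Finset.mem_erase]
        constructor
        · rintro ⟨⟨_, h1⟩, h2⟩
          exact ⟨h1, fun h3 => h2 ⟨by omega, h3⟩⟩
        · rintro ⟨h1, h2⟩
          exact ⟨⟨hmn, h1⟩, fun h3 => h2 h3.2⟩
      have e2 : (m ∈ T.erase n ∧ m + 1 ∉ T.erase n) ↔ (m ∈ T ∧ m + 1 ∉ T) := by
        rw [Finset.mem_erase, Finset.mem_erase]
        constructor
        · rintro ⟨⟨_, h1⟩, h2⟩
          exact ⟨h1, fun h3 => h2 ⟨hmn, h3⟩⟩
        · rintro ⟨h1, h2⟩
          exact ⟨⟨by omega, h1⟩, fun h3 => h2 h3.2⟩
      have e3 : coW n A c b (u, v) (insert m S) (T.erase (m + 1)) =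
          c b v (insert m S) ((T.erase n).erase (m + 1)) := by
        rw [k3_coW, if_pos (Finset.mem_erase.mpr ⟨by omega, hT⟩), Finset.erase_right_comm]
      have e4 : coW n A c b (u, v) (insert m S) (T.erase m) =
          c b v (insert m S) ((T.erase n).erase m) := by
        rw [k3_coW, if_pos (Finset.mem_erase.mpr ⟨by omega, hT⟩), Finset.erase_right_comm]
      rw [e3, e4]
      simp only [e1, e2]
    · rw [if_neg hT]
      unfold cupc
      have e3 : coW n A c b (u, v) (insert m S) (T.erase (m + 1)) =
          c b u (insert m S) (T.erase (m + 1)) := by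
        rw [k3_coW, if_neg (fun h => hT (Finset.mem_of_mem_erase h))]
      have e4 : coW n A c b (u, v) (insert m S) (T.erase m) =
          c b u (insert m S) (T.erase m) := by
        rw [k3_coW, if_neg (fun h => hT (Finset.mem_of_mem_erase h))]
      rw [e3, e4]

/-- the formula for A ⊗ W -/
theorem k3_W (n : ℕ) (A : Cx k) (c : Coord A) (hS : k3_S n A c) (hD : k3_D n A c) :
    k3_D (n + 1) (tWC A) (coW n A c) := by
  rintro b ⟨u, v⟩ S T
  have h0 : ∑ m ∈ (Finset.range (n + 1)).filter (fun m => m ∉ S),
      (-1) ^ (S.filter (fun j => m < j)).card *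
        cupc m (coW n A c (b + 1) (u, v) (insert m S)) T =
      ∑ m ∈ (Finset.range n).filter (fun m => m ∉ S),
      (-1) ^ (S.filter (fun j => m < j)).card *
        cupc m (coW n A c (b + 1) (u, v) (insert m S)) T := by
    symm
    apply Finset.sum_subset
    · intro m hm
      rw [Finset.mem_filter, Finset.mem_range] at hm ⊢
      exact ⟨by omega, hm.2⟩
    · intro m hm hm'
      rw [Finset.mem_filter, Finset.mem_range] at hm hm'
      have hmn : m = n := by
        by_contra h
        exact hm' ⟨by omega, hm.2⟩
      have h1 : coW n A c (b + 1) (u, v) (insert m S) = 0 := by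
        have h2 : ∀ w : (A.T (b + 1)).V, c (b + 1) w (insert m S) = 0 := fun w =>
          k3_vanish n A c hS (b + 1) w (insert m S) m (Finset.mem_insert_self m S) (by omega)
        funext T'
        rw [k3_coW, h2, h2]
        simp
      rw [h1, k3_cupc_zero, mul_zero]
  refine Eq.trans ?_ h0.symm
  show coW n A c b (A.d b u, A.d b v) S T = _
  rw [k3_coW]
  have h2 : ∀ m ∈ (Finset.range n).filter (fun m => m ∉ S),
      (-1) ^ (S.filter (fun j => m < j)).card *
        cupc m (coW n A c (b + 1) (u, v) (insert m S)) T =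
      (-1) ^ (S.filter (fun j => m < j)).card *
        (if n ∈ T then cupc m (c (b + 1) v (insert m S)) (T.erase n)
          else cupc m (c (b + 1) u (insert m S)) T) := by
    intro m hm
    rw [Finset.mem_filter, Finset.mem_range] at hm
    rw [k3_Wmain n A c hS (b + 1) u v S T m hm.1]
  rw [Finset.sum_congr rfl h2]
  by_cases hT : n ∈ T
  · simp only [if_pos hT]
    exact hD b v S (T.erase n)
  · simp only [if_neg hT]
    exact hD b u S T

omit [IsAlgClosed k] in
/-- the chain map A → B ⊗ W in coordinates -/
theorem k3_phi (n : ℕ) (A B : Cx k) (ι : ChMap (tWC A) B) (cA : Coord A) (cB : Coord B)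
    (hι : ∀ b w, cB b (ι.f b w) = coW n A cA b w) (b : ℕ) (w : (A.T b).V) (S T : Finset ℕ) :
    coW (n + 1) B cB b ((phiT A B ι).f b w) S T = cupc n (cA b w S) T := by
  have h1 : ∀ u v : (A.T b).V, cB b (ι.f b (u, v)) = coW n A cA b (u, v) := fun u v => hι b (u, v)
  show coW (n + 1) B cB b (-(ι.f b (0, w)), ι.f b (w, 0)) S T = _
  rw [k3_coW, map_neg, h1, h1]
  show (if n + 1 ∈ T then coW n A cA b (w, 0) S (T.erase (n + 1)) else
    -(coW n A cA b (0, w) S T)) = _
  rw [k3_coW, k3_coW, map_zero]
  unfold cupc
  by_cases ha : n + 1 ∈ T <;> by_cases hb : n ∈ T <;> simp [ha, hb]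

/-- the formula for the cone -/
theorem k3_C (n : ℕ) (A B : Cx k) (ι : ChMap (tWC A) B) (cA : Coord A) (cB : Coord B)
    (hSA : k3_S n A cA) (hDA : k3_D n A cA) (hSB : k3_S (n + 1) B cB) (hDB : k3_D (n + 1) B cB)
    (hι : ∀ b w, cB b (ι.f b w) = coW n A cA b w) :
    k3_D (n + 2) (cone A (tWC B) (phiT A B ι))
      (coC n A (tWC B) (phiT A B ι) cA (coW (n + 1) B cB)) := by
  have hW := k3_W (n + 1) B cB hSB hDB
  -- the part from A
  have hA : ∀ (b : ℕ) (w : (A.T b).V) (S T : Finset ℕ),
      ∑ m ∈ (Finset.range (n + 2)).filter (fun m => m ∉ S),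
        (-1) ^ (S.filter (fun j => m < j)).card *
          cupc m (coS n A cA b w (insert m S)) T =
      cupc n (cA b w S) T + (if n ∈ S then
        - ∑ m ∈ (Finset.range n).filter (fun m => m ∉ S.erase n),
          (-1) ^ ((S.erase n).filter (fun j => m < j)).card *
            cupc m (cA b w (insert m (S.erase n))) T else 0) := by
    intro b w S T
    by_cases hn : n ∈ S
    · rw [if_pos hn, k3_vanish n A cA hSA b w S n hn (by omega), k3_cupc_zero, zero_add]
      rw [← Finset.sum_neg_distrib]
      symm
      apply Finset.sum_subset_zero_on_sdiff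
      · intro m hm
        rw [Finset.mem_filter, Finset.mem_range] at hm ⊢
        refine ⟨by omega, fun h => hm.2 (Finset.mem_erase.mpr ⟨by omega, h⟩)⟩
      · intro m hm
        rw [Finset.mem_sdiff, Finset.mem_filter, Finset.mem_filter, Finset.mem_range,
          Finset.mem_range] at hm
        have hmn : m ≠ n := by
          rintro rfl
          exact hm.1.2 hn
        have hm1 : m = n + 1 := by
          by_contra h
          apply hm.2
          exact ⟨by omega, fun h => hm.1.2 (Finset.mem_of_mem_erase h)⟩
        have h1 : coS n A cA b w (insert m S) = 0 := by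
          funext T'
          show (if n ∈ insert m S then cA b w ((insert m S).erase n) T' else 0) = 0
          rw [if_pos (Finset.mem_insert_of_mem hn),
            k3_vanish n A cA hSA b w ((insert m S).erase n) m
              (Finset.mem_erase.mpr ⟨hmn, Finset.mem_insert_self m S⟩) (by omega)]
          rfl
        rw [h1, k3_cupc_zero, mul_zero]
      · intro m hm
        rw [Finset.mem_filter, Finset.mem_range] at hm
        have h1 : coS n A cA b w (insert m S) = cA b w (insert m (S.erase n)) := by
          funext T'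
          show (if n ∈ insert m S then cA b w ((insert m S).erase n) T' else 0) = _
          rw [if_pos (Finset.mem_insert_of_mem hn)]
          rw [Finset.erase_insert_of_ne (by omega)]
        have h2 : (S.filter (fun j => m < j)).card = ((S.erase n).filter (fun j => m < j)).card + 1 := by
          have h3 : S.filter (fun j => m < j) = insert n ((S.erase n).filter (fun j => m < j)) := by
            ext j
            simp only [Finset.mem_filter, Finset.mem_insert, Finset.mem_erase]
            constructor
            · rintro ⟨h4, h5⟩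
              by_cases h6 : j = n
              · exact Or.inl h6
              · exact Or.inr ⟨⟨h6, h4⟩, h5⟩
            · rintro (h4 | ⟨⟨h4, h5⟩, h6⟩)
              · rw [h4]
                exact ⟨hn, hm.1⟩
              · exact ⟨h5, h6⟩
          rw [h3, Finset.card_insert_of_notMem]
          simp
        rw [h1, h2, pow_succ]
        ring
    · rw [if_neg hn, add_zero]
      rw [Finset.sum_eq_single n]
      · have h1 : coS n A cA b w (insert n S) = cA b w S := by
          funext T'
          show (if n ∈ insert n S then cA b w ((insert n S).erase n) T' else 0) = _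
          rw [if_pos (Finset.mem_insert_self n S), Finset.erase_insert hn]
        rw [h1]
        by_cases h2 : (S.filter (fun j => n < j)).card = 0
        · rw [h2, pow_zero, one_mul]
        · obtain ⟨j, hj⟩ := Finset.card_pos.mp (Nat.pos_of_ne_zero h2)
          rw [Finset.mem_filter] at hj
          rw [k3_vanish n A cA hSA b w S j hj.1 (by omega), k3_cupc_zero, mul_zero]
      · intro m hm hmn
        have h1 : coS n A cA b w (insert m S) = 0 := by
          funext T'
          show (if n ∈ insert m S then cA b w ((insert m S).erase n) T' else 0) = 0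
          rw [if_neg]
          intro h
          rcases Finset.mem_insert.mp h with h | h
          · exact hmn h.symm
          · exact hn h
        rw [h1, k3_cupc_zero, mul_zero]
      · intro h
        exfalso
        apply h
        rw [Finset.mem_filter, Finset.mem_range]
        exact ⟨by omega, hn⟩
  -- the right hand side
  have hR : ∀ (b : ℕ) (u' : ((tWC B).T (b + 1)).V) (w : (A.T b).V) (S T : Finset ℕ),
      ∑ m ∈ (Finset.range (n + 2)).filter (fun m => m ∉ S),
        (-1) ^ (S.filter (fun j => m < j)).card *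
          cupc m (fun T' => coW (n + 1) B cB (b + 1) u' (insert m S) T' +
            coS n A cA b w (insert m S) T') T =
      coW (n + 1) B cB b ((tWC B).d b u') S T +
      (cupc n (cA b w S) T + (if n ∈ S then
        - ∑ m ∈ (Finset.range n).filter (fun m => m ∉ S.erase n),
          (-1) ^ ((S.erase n).filter (fun j => m < j)).card *
            cupc m (cA b w (insert m (S.erase n))) T else 0)) := by
    intro b u' w S T
    rw [← hA b w S T, hW b u' S T, ← Finset.sum_add_distrib]
    apply Finset.sum_congr rfl
    intro m _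
    rw [k3_cupc_add, mul_add]
  intro b
  cases b with
  | zero =>
    rintro ⟨u', w⟩ S T
    refine Eq.trans ?_ (hR 0 u' w S T).symm
    show coW (n + 1) B cB 0 ((tWC B).d 0 u' + (phiT A B ι).f 0 w) S T = _
    rw [map_add]
    show coW (n + 1) B cB 0 ((tWC B).d 0 u') S T + coW (n + 1) B cB 0 ((phiT A B ι).f 0 w) S T = _
    rw [k3_phi n A B ι cA cB hι 0 w S T]
    have h0 : (if n ∈ S then
        - ∑ m ∈ (Finset.range n).filter (fun m => m ∉ S.erase n),
          (-1) ^ ((S.erase n).filter (fun j => m < j)).card *
            cupc m (cA 0 w (insert m (S.erase n))) T else 0) = 0 := by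
      split_ifs
      · rw [neg_eq_zero]
        apply Finset.sum_eq_zero
        intro m _
        have : cA 0 w (insert m (S.erase n)) = 0 := by
          funext T'
          by_contra h
          have h1 := (hSA 0 w _ T' h).1
          rw [Finset.card_eq_zero] at h1
          exact absurd h1 (Finset.insert_ne_empty _ _)
        rw [this, k3_cupc_zero, mul_zero]
      · rfl
    rw [h0, add_zero]
  | succ b =>
    rintro ⟨u', w⟩ S T
    refine Eq.trans ?_ (hR (b + 1) u' w S T).symm
    show coW (n + 1) B cB (b + 1) ((tWC B).d (b + 1) u' + (phiT A B ι).f (b + 1) w) S T +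
      coS n A cA b (-(A.d b w)) S T = _
    rw [map_add, map_neg]
    show coW (n + 1) B cB (b + 1) ((tWC B).d (b + 1) u') S T +
      coW (n + 1) B cB (b + 1) ((phiT A B ι).f (b + 1) w) S T +
      -(if n ∈ S then cA b (A.d b w) (S.erase n) T else 0) = _
    rw [k3_phi n A B ι cA cB hι (b + 1) w S T, add_assoc]
    congr 2
    split_ifs
    · rw [hDA b w (S.erase n) T]
    · exact neg_zero

end

section
variable (k : Type) [Field k] [IsAlgClosed k]

theorem k3_iota : ∀ (n b : ℕ) (w : ((tWC (KT k n).A).T b).V),
    (coT n).2 b ((KT k n).ι.f b w) = coW n (KT k n).A (coT n).1 b w := by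
  intro n
  cases n with
  | zero => intro b w; rfl
  | succ n =>
    intro b w
    cases b with
    | zero => rfl
    | succ b =>
      show coW (n + 1) (KT k n).B (coT n).2 (b + 1) w + coS n (KT k n).A (coT n).1 b 0 = _
      rw [map_zero, add_zero]
      rfl

theorem p_K3 (hK2 : S_K2 k) : S_K3 k := by
  have hS : ∀ n, k3_S n (KT k n).A (coT n).1 := fun n b u S T h => (hK2 n b).1 u S T h
  have hS' : ∀ n, k3_S (n + 1) (KT k n).B (coT n).2 := fun n => hS (n + 1)
  have hmain : ∀ n, k3_D n (KT k n).A (coT n).1 ∧ k3_D (n + 1) (KT k n).B (coT n).2 := by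
    intro n
    induction n with
    | zero =>
      have h0 : k3_D 0 (KT k 0).A (coT 0).1 := by
        intro b u S T
        rw [Finset.range_zero, Finset.filter_empty, Finset.sum_empty]
        show (coT 0).1 b (0 : ((KT k 0).A.T b).V) S T = 0
        rw [map_zero]
        rfl
      exact ⟨h0, k3_W 0 (KT k 0).A (coT 0).1 (hS 0) h0⟩
    | succ n ih =>
      exact ⟨ih.2, k3_C n (KT k n).A (KT k n).B (KT k n).ι (coT n).1 (coT n).2 (hS n) ih.1
        (hS' n) ih.2 (k3_iota k n)⟩
  intro n b u S T
  exact (hmain n).1 b u S T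

end

end Pool.Agent.Sp49.Three
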